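import Mathlib

/-!
# Cylindrical transformations with an orbit going to `+∞` in both directions of time
Such a transformation over a minimal translation is topologically transitive.
-/

set_option autoImplicit false

open Set Filter Topology

namespace Pool.Agent.Q230.Besi

variable {X : Type*} [NormedAddCommGroup X]

/-- the cylindrical transformation -/
def cyl (α : X) (φ : X → ℝ) : Equiv.Perm (X × ℝ) where
  toFun z := (z.1 + α, z.2 + φ z.1)
  invFun z := (z.1 - α, z.2 - φ (z.1 - α))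
  left_inv z := by simp
  right_inv z := by simp

/-- the Birkhoff sums -/
def S (α : X) (φ : X → ℝ) (n : ℤ) (x : X) : ℝ := ((cyl α φ ^ n) (x, 0)).2

variable {α : X} {φ : X → ℝ}

lemma exists_S (hφ : Continuous φ) (n : ℤ) :
    ∃ s : X → ℝ, Continuous s ∧ ∀ x t, (cyl α φ ^ n) (x, t) = (x + n • α, t + s x) := by
  induction n using Int.induction_on with
  | zero => exact ⟨fun _ => 0, continuous_const, fun x t => by simp⟩
  | succ n ih =>
    obtain ⟨s, hs, h⟩ := ih
    refine ⟨fun x => s x + φ (x + (n : ℤ) • α), by fun_prop, fun x t => ?_⟩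
    rw [add_comm (n : ℤ) 1, zpow_add, zpow_one, Equiv.Perm.mul_apply, h]
    show (x + (n : ℤ) • α + α, t + s x + φ (x + (n : ℤ) • α)) = _
    rw [add_smul, one_smul]
    refine Prod.ext ?_ ?_
    · show x + (n : ℤ) • α + α = x + (α + (n : ℤ) • α)
      abel
    · show t + s x + φ (x + (n : ℤ) • α) = t + (s x + φ (x + (n : ℤ) • α))
      ring
  | pred n ih =>
    obtain ⟨s, hs, h⟩ := ih
    refine ⟨fun x => s x - φ (x + (-(n : ℤ)) • α - α), by fun_prop, fun x t => ?_⟩
    rw [sub_eq_add_neg, add_comm (-(n : ℤ)) (-1), zpow_add, zpow_neg_one, Equiv.Perm.mul_apply, h]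
    show (x + (-(n : ℤ)) • α - α, t + s x - φ (x + (-(n : ℤ)) • α - α)) = _
    refine Prod.ext ?_ ?_
    · show x + (-(n : ℤ)) • α - α = x + (-1 + -(n : ℤ)) • α
      rw [add_smul, neg_smul 1 α, one_smul]
      abel
    · show t + s x - φ (x + (-(n : ℤ)) • α - α) = t + (s x - φ (x + (-(n : ℤ)) • α - α))
      ring

lemma pow_apply (hφ : Continuous φ) (n : ℤ) (x : X) (t : ℝ) :
    (cyl α φ ^ n) (x, t) = (x + n • α, t + S α φ n x) := by
  obtain ⟨s, -, h⟩ := exists_S (α := α) hφ n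
  rw [h]
  unfold S
  rw [h, zero_add]

lemma S_cont (hφ : Continuous φ) (n : ℤ) : Continuous (S α φ n) := by
  obtain ⟨s, hs, h⟩ := exists_S (α := α) hφ n
  have : S α φ n = s := by
    funext x
    unfold S
    rw [h, zero_add]
  rw [this]
  exact hs

lemma S_zero (x : X) : S α φ 0 x = 0 := by
  unfold S
  simp

lemma S_add (hφ : Continuous φ) (m n : ℤ) (x : X) :
    S α φ (m + n) x = S α φ n x + S α φ m (x + n • α) := by
  have h : (cyl α φ ^ (m + n)) (x, 0) = (cyl α φ ^ m) ((cyl α φ ^ n) (x, 0)) := by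
    rw [zpow_add, Equiv.Perm.mul_apply]
  rw [pow_apply hφ n, pow_apply hφ m, zero_add] at h
  unfold S at h ⊢
  rw [h]

lemma S_neg (hφ : Continuous φ) (n : ℤ) (x : X) :
    S α φ n (x - n • α) = -S α φ (-n) x := by
  have h := S_add (α := α) hφ n (-n) x
  rw [add_neg_cancel, S_zero, neg_smul, ← sub_eq_add_neg] at h
  linarith

variable [CompactSpace X]

/-- the values of the Birkhoff sums at a return time are almost taken in every open set -/
lemma transfer (hφ : Continuous φ) (hmin : ∀ x, Dense (range fun n : ℤ => x + n • α))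
    {W : Set X} (hW : IsOpen W) (hW0 : W.Nonempty) {ε : ℝ} (hε : 0 < ε) :
    ∃ δ > 0, ∀ n : ℤ, ‖n • α‖ < δ → ∀ y, ∃ x ∈ W, |S α φ n x - S α φ n y| < ε := by
  obtain ⟨t, ht⟩ := isCompact_univ.elim_finite_subcover (fun l : ℤ => {y : X | y + l • α ∈ W})
    (fun l => hW.preimage (by fun_prop)) (fun y _ => by
      obtain ⟨_, hz, l, rfl⟩ := (hmin y).inter_open_nonempty W hW hW0
      exact mem_iUnion.2 ⟨l, hz⟩)
  have hF : Continuous fun y : X => fun l : t => S α φ l y :=
    continuous_pi fun l => S_cont hφ l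
  have hU := CompactSpace.uniformContinuous_of_continuous hF
  obtain ⟨δ, hδ, h⟩ := Metric.uniformContinuous_iff.1 hU ε hε
  refine ⟨δ, hδ, fun n hn y => ?_⟩
  obtain ⟨l, hl⟩ := mem_iUnion.1 (ht (mem_univ y))
  obtain ⟨hlt, hlW⟩ := mem_iUnion.1 hl
  refine ⟨y + l • α, hlW, ?_⟩
  have h1 := S_add (α := α) hφ n l y
  have h2 := S_add (α := α) hφ l n y
  rw [add_comm n l, h2] at h1
  have h3 : S α φ n (y + l • α) - S α φ n y = S α φ l (y + n • α) - S α φ l y := by linarith
  have h4 : dist (y + n • α) y < δ := by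
    rw [dist_eq_norm]
    simpa using hn
  have h5 := (dist_pi_lt_iff hε).1 (h h4) ⟨l, hlt⟩
  rw [Real.dist_eq] at h5
  rw [h3]
  exact h5

lemma recurrence (α : X) {δ : ℝ} (hδ : 0 < δ) (N : ℕ) : ∃ n : ℕ, N ≤ n ∧ ‖(n : ℤ) • α‖ < δ := by
  obtain ⟨a, ψ, hψ, ha⟩ := CompactSpace.tendsto_subseq fun k : ℕ => k • α
  have hc := (Metric.tendsto_atTop.1 ha) (δ / 2) (half_pos hδ)
  obtain ⟨K, hK⟩ := hc
  have h1 := hK K le_rfl
  have h2 := hK (K + N) (Nat.le_add_right _ _)
  have hmono : ψ K + N ≤ ψ (K + N) := by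
    clear h2
    induction N with
    | zero => simp
    | succ N ih =>
      have := hψ (show K + N < K + (N + 1) by omega)
      omega
  refine ⟨ψ (K + N) - ψ K, by omega, ?_⟩
  have h3 : (((ψ (K + N) - ψ K : ℕ) : ℤ)) • α = ψ (K + N) • α - ψ K • α := by
    rw [Nat.cast_sub (by omega), sub_smul, natCast_zsmul, natCast_zsmul]
  rw [h3, ← dist_eq_norm]
  calc dist (ψ (K + N) • α) (ψ K • α) ≤ dist (ψ (K + N) • α) a + dist (ψ K • α) a :=
        dist_triangle_right _ _ _
    _ < δ / 2 + δ / 2 := add_lt_add h2 h1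
    _ = δ := by ring

/-- every open set contains a connected open set together with a neighbourhood -/
def LocConn (X : Type*) [NormedAddCommGroup X] : Prop :=
  ∀ U : Set X, IsOpen U → U.Nonempty → ∃ W : Set X, IsOpen W ∧ W.Nonempty ∧ IsPreconnected W ∧
    ∃ δ > 0, ∀ x ∈ W, ∀ y, ‖y‖ < δ → x + y ∈ U

/-- every real number is an essential value -/
lemma essential (hX : LocConn X) (hφ : Continuous φ)
    (hmin : ∀ x, Dense (range fun n : ℤ => x + n • α)) {x₀ : X}
    (h0 : Tendsto (fun n : ℤ => S α φ n x₀) cofinite atTop) {U : Set X} (hU : IsOpen U)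
    (hU0 : U.Nonempty) (r : ℝ) : ∃ n : ℤ, ∃ x ∈ U, x + n • α ∈ U ∧ S α φ n x = r := by
  obtain ⟨W, hW, hW0, hWc, δ, hδ, hWU⟩ := hX U hU hU0
  obtain ⟨δ', hδ', ht⟩ := transfer hφ hmin hW hW0 one_pos
  have h1 := h0.eventually_gt_atTop (|r| + 2)
  rw [eventually_cofinite] at h1
  obtain ⟨M, hM⟩ : ∃ M : ℕ, ∀ n : ℤ, M < n.natAbs → |r| + 2 < S α φ n x₀ := by
    obtain ⟨M, hM⟩ := (h1.image Int.natAbs).bddAbove
    refine ⟨M, fun n hn => ?_⟩
    by_contra hcon
    exact absurd (hM ⟨n, hcon, rfl⟩) (not_le.2 hn)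
  obtain ⟨n, hnM, hn⟩ := recurrence α (lt_min hδ hδ') (M + 1)
  obtain ⟨x₁, hx₁, h₁⟩ := ht n (hn.trans_le (min_le_right _ _)) x₀
  obtain ⟨x₂, hx₂, h₂⟩ := ht n (hn.trans_le (min_le_right _ _)) (x₀ - (n : ℤ) • α)
  have e1 := hM n (by simpa using hnM)
  have e2 := hM (-n) (by simpa using hnM)
  rw [S_neg hφ] at h₂
  have h3 : r ≤ S α φ n x₁ := by
    have := (abs_lt.1 h₁).1
    linarith [le_abs_self r]
  have h4 : S α φ n x₂ ≤ r := by
    have := (abs_lt.1 h₂).2
    linarith [neg_abs_le r]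
  obtain ⟨x, hx, hxr⟩ := hWc.intermediate_value hx₂ hx₁ (S_cont hφ n).continuousOn ⟨h4, h3⟩
  refine ⟨n, x, ?_, hWU x hx _ (hn.trans_le (min_le_left _ _)), hxr⟩
  have := hWU x hx 0 (by simpa using hδ)
  simpa using this

/-- transitivity for open sets -/
lemma trans_open (hX : LocConn X) (hφ : Continuous φ)
    (hmin : ∀ x, Dense (range fun n : ℤ => x + n • α)) {x₀ : X}
    (h0 : Tendsto (fun n : ℤ => S α φ n x₀) cofinite atTop) {A B : Set (X × ℝ)} (hA : IsOpen A)
    (hA0 : A.Nonempty) (hB : IsOpen B) (hB0 : B.Nonempty) :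
    ∃ n : ℤ, ∃ z ∈ A, (cyl α φ ^ n) z ∈ B := by
  obtain ⟨⟨xA, tA⟩, hzA⟩ := hA0
  obtain ⟨⟨xB, tB⟩, hzB⟩ := hB0
  obtain ⟨UA, VA, hUA, hVA, hxA, htA, hsA⟩ := isOpen_prod_iff.1 hA xA tA hzA
  obtain ⟨UB, VB, hUB, hVB, hxB, htB, hsB⟩ := isOpen_prod_iff.1 hB xB tB hzB
  obtain ⟨ε, hε, hεB⟩ := Metric.isOpen_iff.1 hVB tB htB
  obtain ⟨_, hxl, l, rfl⟩ := (hmin xA).inter_open_nonempty UB hUB ⟨xB, hxB⟩
  set c : ℝ := S α φ l xA with hc
  have hSc : Continuous fun w : X => S α φ l (w - l • α) := (S_cont hφ l).comp (by fun_prop)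
  have hWo : IsOpen (UB ∩ ((fun w : X => w - l • α) ⁻¹' UA) ∩
      {w : X | |S α φ l (w - l • α) - c| < ε}) :=
    (hUB.inter (hUA.preimage (by fun_prop))).inter
      (isOpen_lt (by fun_prop) continuous_const)
  obtain ⟨n, w, hw, hwn, hr⟩ := essential hX hφ hmin h0 hWo
    ⟨xA + l • α, ⟨hxl, by simpa using hxA⟩, by simpa [hc] using hε⟩ (tB - tA - c)
  refine ⟨n + l, (w - l • α, tA), hsA ⟨hw.1.2, htA⟩, hsB ?_⟩
  rw [pow_apply hφ, S_add hφ]
  refine ⟨?_, ?_⟩
  · have : w - l • α + (n + l) • α = w + n • α := by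
      rw [add_smul]
      abel
    show w - l • α + (n + l) • α ∈ UB
    rw [this]
    exact hwn.1.1
  · apply hεB
    show tA + (S α φ l (w - l • α) + S α φ n (w - l • α + l • α)) ∈ Metric.ball tB ε
    rw [sub_add_cancel, hr, Metric.mem_ball, Real.dist_eq]
    have h5 : tA + (S α φ l (w - l • α) + (tB - tA - c)) - tB = S α φ l (w - l • α) - c := by ring
    rw [h5]
    exact hw.2

/-- a dense orbit -/
theorem dense_orbit (hX : LocConn X) (hφ : Continuous φ)
    (hmin : ∀ x, Dense (range fun n : ℤ => x + n • α)) {x₀ : X}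
    (h0 : Tendsto (fun n : ℤ => S α φ n x₀) cofinite atTop) :
    ∃ z : X × ℝ, Dense (range fun n : ℤ => (cyl α φ ^ n) z) := by
  have : SecondCountableTopology X := inferInstance
  obtain ⟨b, hbc, -, hb⟩ := TopologicalSpace.exists_countable_basis (X × ℝ)
  have hcont : ∀ n : ℤ, Continuous fun z : X × ℝ => (cyl α φ ^ n) z := by
    intro n
    have : (fun z : X × ℝ => (cyl α φ ^ n) z) = fun z => (z.1 + n • α, z.2 + S α φ n z.1) := by
      funext z
      exact pow_apply hφ n z.1 z.2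
    rw [this]
    have := S_cont (α := α) hφ n
    fun_prop
  have hd : Dense (⋂ B ∈ {B ∈ b | B.Nonempty}, ⋃ n : ℤ, (fun z : X × ℝ => (cyl α φ ^ n) z) ⁻¹' B) := by
    refine dense_biInter_of_isOpen ?_ (hbc.mono fun _ h => h.1) ?_
    · intro B hB
      exact isOpen_iUnion fun n => (hb.isOpen hB.1).preimage (hcont n)
    · intro B hB
      rw [dense_iff_inter_open]
      intro A hA hA0
      obtain ⟨n, z, hz, hzB⟩ := trans_open hX hφ hmin h0 hA hA0 (hb.isOpen hB.1) hB.2
      exact ⟨z, hz, mem_iUnion.2 ⟨n, hzB⟩⟩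
  obtain ⟨z, hz⟩ := hd.nonempty
  refine ⟨z, hb.dense_iff.2 fun B hB hB0 => ?_⟩
  have h1 := mem_iInter₂.1 hz B ⟨hB, hB0⟩
  obtain ⟨n, hn⟩ := mem_iUnion.1 h1
  exact ⟨_, hn, n, rfl⟩

/-- an orbit going to infinity is discrete -/
theorem discrete_orbit (hφ : Continuous φ) {x₀ : X}
    (h0 : Tendsto (fun n : ℤ => S α φ n x₀) cofinite atTop) :
    IsClosed (range fun n : ℤ => (cyl α φ ^ n) (x₀, 0)) ∧
      DiscreteTopology (range fun n : ℤ => (cyl α φ ^ n) (x₀, 0)) := by
  set f : ℤ → X × ℝ := fun n => (cyl α φ ^ n) (x₀, 0) with hf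
  have hf2 : ∀ n, (f n).2 = S α φ n x₀ := fun n => rfl
  have ht : Tendsto f cofinite (cocompact (X × ℝ)) := by
    rw [Filter.hasBasis_cocompact.tendsto_right_iff]
    intro K hK
    obtain ⟨M, hM⟩ := (hK.image continuous_snd).bddAbove
    filter_upwards [h0.eventually_gt_atTop M] with n hn hK'
    exact absurd (hM ⟨f n, hK', rfl⟩) (not_le.2 hn)
  have hp : IsProperMap f := by
    rw [isProperMap_iff_tendsto_cocompact]
    refine ⟨continuous_of_discreteTopology, ?_⟩
    rwa [cocompact_eq_cofinite]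
  have hinj : Function.Injective f := by
    intro n m hnm
    by_contra hne
    have hfin : (f ⁻¹' {f m}).Finite := by
      have := hp.isCompact_preimage (isCompact_singleton (x := f m))
      exact this.finite_of_discrete
    have hfix : (cyl α φ ^ (n - m)) (f m) = f m := by
      rw [hf]
      show (cyl α φ ^ (n - m)) ((cyl α φ ^ m) (x₀, 0)) = _
      rw [← Equiv.Perm.mul_apply, ← zpow_add, sub_add_cancel]
      exact hnm
    have hfixk : ∀ k : ℕ, (cyl α φ ^ ((k : ℤ) * (n - m))) (f m) = f m := by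
      intro k
      induction k with
      | zero => simp
      | succ k ih =>
        have : (((k + 1 : ℕ) : ℤ) * (n - m)) = (n - m) + (k : ℤ) * (n - m) := by push_cast; ring
        rw [this, zpow_add, Equiv.Perm.mul_apply, ih, hfix]
    refine Set.infinite_of_injective_forall_mem (f := fun k : ℕ => (k : ℤ) * (n - m) + m)
      ?_ ?_ hfin
    · intro a b hab
      have h1 : ((a : ℤ)) * (n - m) = (b : ℤ) * (n - m) := by simpa using hab
      have h2 := mul_right_cancel₀ (sub_ne_zero.2 hne) h1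
      exact_mod_cast h2
    · intro k
      show (cyl α φ ^ ((k : ℤ) * (n - m) + m)) (x₀, 0) = f m
      rw [zpow_add, Equiv.Perm.mul_apply]
      exact hfixk k
  have hce : IsClosedEmbedding f :=
    IsClosedEmbedding.of_continuous_injective_isClosedMap continuous_of_discreteTopology hinj
      hp.isClosedMap
  refine ⟨hce.isClosed_range, ?_⟩
  exact hce.isEmbedding.toHomeomorph.symm.isEmbedding.discreteTopology

end Pool.Agent.Q230.Besi
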