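import Mathlib
import Pool.Agent.Q230.Besi1
import Pool.Agent.W654.Kron

/-!
# A `C^1` function over a rotation of the two-dimensional torus by a cubic vector
-/

set_option autoImplicit false

open Set Filter Topology

namespace Pool.Agent.Q230.Besi

/-! ### the torus -/

lemma locConn : LocConn (UnitAddTorus (Fin 2)) := by
  intro U hU hU0
  set p : (Fin 2 → ℝ) → UnitAddTorus (Fin 2) := Pi.map fun _ => (fun r : ℝ => (r : UnitAddCircle))
    with hp
  have hc : Continuous p := by
    rw [hp]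
    exact continuous_pi fun i => (AddCircle.continuous_mk' 1).comp (continuous_apply i)
  have hs : Function.Surjective p := by
    intro y
    choose v hv using fun i => QuotientAddGroup.mk_surjective (y i)
    exact ⟨v, funext hv⟩
  have ho : IsOpenMap p := by
    refine IsOpenMap.piMap (fun i => QuotientAddGroup.isOpenMap_coe) ?_
    exact Filter.Eventually.of_forall fun i => QuotientAddGroup.mk_surjective
  obtain ⟨x, hx⟩ := hU0
  obtain ⟨v, rfl⟩ := hs x
  obtain ⟨r, hr, hball⟩ := Metric.isOpen_iff.1 (hU.preimage hc) v hx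
  have hK : IsCompact (p '' Metric.closedBall v (r / 2)) :=
    (isCompact_closedBall v (r / 2)).image hc
  have hKU : p '' Metric.closedBall v (r / 2) ⊆ U := by
    rintro _ ⟨w, hw, rfl⟩
    exact hball (Metric.closedBall_subset_ball (half_lt_self hr) hw)
  obtain ⟨δ, hδ, hδU⟩ := hK.exists_thickening_subset_open hU hKU
  refine ⟨p '' Metric.ball v (r / 2), ho _ Metric.isOpen_ball,
    ⟨p v, v, Metric.mem_ball_self (half_pos hr), rfl⟩, ?_, δ, hδ, ?_⟩
  · exact ((convex_ball v (r / 2)).isPreconnected).image _ hc.continuousOn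
  · rintro _ ⟨w, hw, rfl⟩ y hy
    refine hδU (Metric.mem_thickening_iff.2 ⟨p w, ⟨w, Metric.ball_subset_closedBall hw, rfl⟩, ?_⟩)
    rw [dist_eq_norm]
    simpa using hy

/-! ### the cubic number -/

/-- the cube root of two -/
noncomputable def th : ℝ := (2 : ℝ) ^ ((1 : ℝ) / 3)

lemma th_pos : 0 < th := by unfold th; positivity

lemma th3 : th ^ 3 = 2 := by
  unfold th
  rw [← Real.rpow_natCast, ← Real.rpow_mul (by norm_num)]
  norm_num

lemma th_gt : 1 < th := by
  have h := th3
  have h0 := th_pos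
  by_contra hcon
  push Not at hcon
  nlinarith [pow_le_one₀ h0.le hcon (n := 3)]

lemma th_sq : th ^ 2 < 2 := by
  have h := th3
  have h1 := th_gt
  nlinarith [pow_pos th_pos 2]

lemma th_lt : th < 2 := by
  have h1 := th_gt
  have := th_sq
  nlinarith

lemma th_irr : Irrational th := by
  refine irrational_nrt_of_notint_nrt 3 2 (by rw [th3]; norm_num) ?_ (by norm_num)
  rintro ⟨y, hy⟩
  have h1 := th_gt
  have h2 := th_lt
  rw [hy] at h1 h2
  have h3 : (1 : ℤ) < y := by exact_mod_cast h1
  have h4 : y < (2 : ℤ) := by exact_mod_cast h2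
  omega

lemma indep (a b c : ℤ) (h : (a : ℝ) + b * th + c * th ^ 2 = 0) : b = 0 ∧ c = 0 := by
  have h3 := th3
  have h1 : ((2 * c ^ 2 - a * b : ℤ) : ℝ) + ((a * c - b ^ 2 : ℤ) : ℝ) * th = 0 := by
    push_cast
    have e1 : (a : ℝ) * th + b * th ^ 2 + c * 2 = 0 := by
      have := congrArg (· * th) h
      simp only [zero_mul] at this
      rw [← h3]
      linarith [this]
    linear_combination (c : ℝ) * e1 - (b : ℝ) * h
  have h2 : a * c - b ^ 2 = 0 := by
    by_contra hne
    have hne' : ((a * c - b ^ 2 : ℤ) : ℝ) ≠ 0 := by exact_mod_cast hne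
    have : th = ((-(2 * c ^ 2 - a * b : ℤ) : ℚ) / ((a * c - b ^ 2 : ℤ) : ℚ) : ℚ) := by
      rw [Rat.cast_div, Rat.cast_neg, Rat.cast_intCast, Rat.cast_intCast, eq_div_iff hne']
      linarith
    exact th_irr ⟨_, this.symm⟩
  have h4 : 2 * c ^ 2 - a * b = 0 := by
    rw [h2] at h1
    push_cast at h1
    have : ((2 * c ^ 2 - a * b : ℤ) : ℝ) = 0 := by push_cast; linarith
    exact_mod_cast this
  by_cases hc : c = 0
  · subst hc
    refine ⟨?_, rfl⟩
    have : b ^ 2 = 0 := by linarith
    exact pow_eq_zero_iff (two_ne_zero) |>.1 this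
  · exfalso
    have h5 : 2 * c ^ 3 = b ^ 3 := by
      have e1 : a * c = b ^ 2 := by linarith
      have e2 : 2 * c ^ 2 = a * b := by linarith
      calc 2 * c ^ 3 = (2 * c ^ 2) * c := by ring
        _ = (a * c) * b := by rw [e2]; ring
        _ = b ^ 3 := by rw [e1]; ring
    have hc' : (c : ℝ) ≠ 0 := by exact_mod_cast hc
    have h6 : ((b : ℝ) / c) ^ 3 = th ^ 3 := by
      rw [th3, div_pow, div_eq_iff (pow_ne_zero 3 hc')]
      exact_mod_cast h5.symm
    have h7 : (b : ℝ) / c = th := by
      have : Odd 3 := by decide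
      exact this.strictMono_pow.injective h6
    exact th_irr ⟨(b : ℚ) / c, by rw [← h7]; push_cast; rfl⟩

/-- the rotation vector -/
noncomputable def al : UnitAddTorus (Fin 2) := ![(th : UnitAddCircle), ((th ^ 2 : ℝ) : UnitAddCircle)]

lemma minimal (x : UnitAddTorus (Fin 2)) : Dense (range fun n : ℤ => x + n • al) := by
  rw [Metric.dense_iff]
  intro y r hr
  obtain ⟨n, hn⟩ := Pool.Agent.W654.Kron.kronecker al (y - x) (by
    intro k hk
    have hk0 : k 0 = 0 ∧ k 1 = 0 := by
      rw [Fin.sum_univ_two] at hk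
      have h1 : (((k 0 : ℝ) * th + (k 1 : ℝ) * th ^ 2 : ℝ) : UnitAddCircle) = 0 := by
        rw [← hk, AddCircle.coe_add]
        congr 1
        · show _ = k 0 • (th : UnitAddCircle)
          rw [← AddCircle.coe_zsmul, zsmul_eq_mul]
        · show _ = k 1 • ((th ^ 2 : ℝ) : UnitAddCircle)
          rw [← AddCircle.coe_zsmul, zsmul_eq_mul]
      obtain ⟨m, hm⟩ := AddCircle.coe_eq_zero_iff (1 : ℝ) |>.1 h1
      rw [zsmul_eq_mul, mul_one] at hm
      have := indep (-m) (k 0) (k 1) (by push_cast; linarith)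
      exact this
    rw [Fin.sum_univ_two, hk0.1, hk0.2]
    simp) r hr
  refine ⟨x + (n : ℤ) • al, ?_, ⟨(n : ℤ), rfl⟩⟩
  rw [Metric.mem_ball, natCast_zsmul, dist_eq_norm]
  rw [dist_eq_norm] at hn
  convert hn using 2
  abel

end Pool.Agent.Q230.Besi
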