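import Mathlib
import Pool.Agent.Q230.Besi2

/-!
# The function and its Birkhoff sums
-/

set_option autoImplicit false

open Set Filter Topology

namespace Pool.Agent.Q230.Besi

/-- the coordinates of the powers of `th - 1` -/
def abc : ℕ → ℤ × ℤ × ℤ
  | 0 => (1, 0, 0)
  | k + 1 => (2 * (abc k).2.2 - (abc k).1, (abc k).1 - (abc k).2.1, (abc k).2.1 - (abc k).2.2)

/-- the small unit -/
noncomputable def et : ℝ := th - 1

lemma et_pos : 0 < et := by unfold et; linarith [th_gt]
lemma et_lt : et < 1 := by unfold et; linarith [th_lt]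

lemma abc_val (k : ℕ) :
    ((abc k).1 : ℝ) + (abc k).2.1 * th + (abc k).2.2 * th ^ 2 = et ^ k := by
  induction k with
  | zero => simp [abc]
  | succ k ih =>
    rw [pow_succ et k, ← ih, et, abc]
    push_cast
    linear_combination (-((abc k).2.2 : ℝ)) * th3

lemma abc_bound (k : ℕ) :
    |((abc k).1 : ℝ)| + |((abc k).2.1 : ℝ)| * th + |((abc k).2.2 : ℝ)| * th ^ 2 ≤
      (1 + th) ^ k := by
  have h0 := th_pos
  induction k with
  | zero => simp [abc]
  | succ k ih =>
    rw [pow_succ (1 + th) k, abc]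
    push_cast
    set a : ℝ := ((abc k).1 : ℝ)
    set b : ℝ := ((abc k).2.1 : ℝ)
    set c : ℝ := ((abc k).2.2 : ℝ)
    have h1 : |2 * c - a| ≤ 2 * |c| + |a| := by
      calc |2 * c - a| ≤ |2 * c| + |a| := abs_sub _ _
        _ = 2 * |c| + |a| := by rw [abs_mul, abs_two]
    have h2 : |a - b| ≤ |a| + |b| := abs_sub _ _
    have h3 : |b - c| ≤ |b| + |c| := abs_sub _ _
    have h4 : |a - b| * th ≤ (|a| + |b|) * th := mul_le_mul_of_nonneg_right h2 h0.le
    have h5 : |b - c| * th ^ 2 ≤ (|b| + |c|) * th ^ 2 := mul_le_mul_of_nonneg_right h3 (by positivity)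
    have h6 : (|a| + |b| * th + |c| * th ^ 2) * (1 + th) ≤ (1 + th) ^ k * (1 + th) :=
      mul_le_mul_of_nonneg_right ih (by positivity)
    have h7 : (|a| + |b| * th + |c| * th ^ 2) * (1 + th) =
        (2 * |c| + |a|) + (|a| + |b|) * th + (|b| + |c|) * th ^ 2 := by
      linear_combination |c| * th3
    linarith

/-- the real part of the basic character -/
noncomputable def cc (y : UnitAddCircle) : ℝ := ((AddCircle.toCircle y : Circle) : ℂ).re

lemma cc_coe (r : ℝ) : cc (r : UnitAddCircle) = Real.cos (2 * Real.pi * r) := by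
  unfold cc
  rw [AddCircle.toCircle_apply_mk, Circle.coe_exp, div_one, Complex.exp_ofReal_mul_I_re]

lemma cc_cont : Continuous cc := by
  unfold cc
  have h1 : Continuous fun y : UnitAddCircle => (AddCircle.toCircle y : Circle) :=
    AddCircle.continuous_toCircle
  fun_prop

lemma cc_lip (y : UnitAddCircle) (s : ℝ) : |cc y - cc (y + (s : UnitAddCircle))| ≤ 2 * Real.pi * |s| := by
  obtain ⟨r, rfl⟩ := QuotientAddGroup.mk_surjective y
  show |cc ((r : ℝ) : UnitAddCircle) - cc (((r : ℝ) : UnitAddCircle) + (s : UnitAddCircle))| ≤ _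
  rw [← AddCircle.coe_add, cc_coe, cc_coe]
  have := Real.abs_cos_sub_cos_le (2 * Real.pi * r) (2 * Real.pi * (r + s))
  refine this.trans (le_of_eq ?_)
  have h : 2 * Real.pi * r - 2 * Real.pi * (r + s) = -(2 * Real.pi * s) := by ring
  rw [h, abs_neg, abs_mul, abs_of_pos (by positivity : 0 < 2 * Real.pi)]

/-- the linear forms -/
def ell (k : ℕ) (x : UnitAddTorus (Fin 2)) : UnitAddCircle :=
  (abc k).2.1 • x 0 + (abc k).2.2 • x 1

lemma ell_cont (k : ℕ) : Continuous (ell k) := by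
  unfold ell
  fun_prop

lemma ell_al (k : ℕ) : ell k al = ((et ^ k : ℝ) : UnitAddCircle) := by
  have h1 : ell k al = ((((abc k).2.1 : ℝ) * th + ((abc k).2.2 : ℝ) * th ^ 2 : ℝ) : UnitAddCircle) := by
    rw [AddCircle.coe_add]
    show (abc k).2.1 • (th : UnitAddCircle) + (abc k).2.2 • ((th ^ 2 : ℝ) : UnitAddCircle) = _
    rw [← AddCircle.coe_zsmul, ← AddCircle.coe_zsmul, zsmul_eq_mul, zsmul_eq_mul]
  have h2 : (((abc k).1 : ℝ) : UnitAddCircle) = 0 :=
    (AddCircle.coe_eq_zero_iff (1 : ℝ)).2 ⟨(abc k).1, by simp⟩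
  have h3 : ((((abc k).1 : ℝ) + (((abc k).2.1 : ℝ) * th + ((abc k).2.2 : ℝ) * th ^ 2) : ℝ) :
      UnitAddCircle) = (((abc k).1 : ℝ) : UnitAddCircle) +
      ((((abc k).2.1 : ℝ) * th + ((abc k).2.2 : ℝ) * th ^ 2 : ℝ) : UnitAddCircle) := rfl
  rw [h1, ← abc_val k, add_assoc, h3, h2, zero_add]

lemma ell_add (k : ℕ) (x : UnitAddTorus (Fin 2)) (n : ℤ) :
    ell k (x + n • al) = ell k x + ((n * et ^ k : ℝ) : UnitAddCircle) := by
  have h1 : ell k (x + n • al) = ell k x + n • ell k al := by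
    unfold ell
    simp only [Pi.add_apply, Pi.smul_apply, smul_add]
    rw [smul_comm n, smul_comm n]
    abel
  rw [h1, ell_al, ← AddCircle.coe_zsmul, zsmul_eq_mul]

/-- the terms of the formal transfer function -/
noncomputable def u (k : ℕ) (x : UnitAddTorus (Fin 2)) : ℝ := k * cc (ell k x)

lemma u_cont (k : ℕ) : Continuous (u k) := by
  unfold u
  exact continuous_const.mul (cc_cont.comp (ell_cont k))

lemma diff_bound (k : ℕ) (x : UnitAddTorus (Fin 2)) (n : ℤ) :
    |u k x - u k (x + n • al)| ≤ 2 * Real.pi * |(n : ℝ)| * (k * et ^ k) := by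
  unfold u
  rw [ell_add, ← mul_sub, abs_mul, Nat.abs_cast]
  calc (k : ℝ) * |cc (ell k x) - cc (ell k x + ((n * et ^ k : ℝ) : UnitAddCircle))|
      ≤ k * (2 * Real.pi * |(n : ℝ) * et ^ k|) :=
        mul_le_mul_of_nonneg_left (cc_lip _ _) (Nat.cast_nonneg k)
    _ = 2 * Real.pi * |(n : ℝ)| * (k * et ^ k) := by
        rw [abs_mul, abs_of_pos (pow_pos et_pos k)]
        ring

lemma summ_geo {r : ℝ} (h0 : 0 ≤ r) (h1 : r < 1) : Summable fun k : ℕ => (k : ℝ) * r ^ k := by
  have := summable_pow_mul_geometric_of_norm_lt_one 1 (r := r) (by rwa [Real.norm_of_nonneg h0])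
  simpa using this

lemma summ (x : UnitAddTorus (Fin 2)) (n : ℤ) : Summable fun k => u k x - u k (x + n • al) := by
  refine Summable.of_norm_bounded ((summ_geo et_pos.le et_lt).mul_left (2 * Real.pi * |(n : ℝ)|)) ?_
  intro k
  exact diff_bound k x n

/-- the function -/
noncomputable def ph (x : UnitAddTorus (Fin 2)) : ℝ := ∑' k, (u k x - u k (x + al))

lemma ph_cont : Continuous ph := by
  unfold ph
  refine continuous_tsum (u := fun k : ℕ => 2 * Real.pi * |((1 : ℤ) : ℝ)| * (k * et ^ k))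
    (fun k => ?_) ((summ_geo et_pos.le et_lt).mul_left _) ?_
  · exact (u_cont k).sub ((u_cont k).comp (by fun_prop))
  · intro k x
    have := diff_bound k x 1
    rw [one_smul] at this
    exact this

lemma S_eq (n : ℤ) (x : UnitAddTorus (Fin 2)) :
    S al ph n x = ∑' k, (u k x - u k (x + n • al)) := by
  have h1 : ∀ y, S al ph 1 y = ∑' k, (u k y - u k (y + (1 : ℤ) • al)) := by
    intro y
    unfold S
    rw [zpow_one]
    show 0 + ph y = _
    rw [zero_add, one_smul]
    rfl
  induction n using Int.induction_on generalizing x with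
  | zero => simp [S_zero]
  | succ n ih =>
    rw [add_comm (n : ℤ) 1, S_add ph_cont, ih, h1, ← (summ x n).tsum_add (summ (x + (n : ℤ) • al) 1)]
    refine tsum_congr fun k => ?_
    have : x + (1 + (n : ℤ)) • al = x + (n : ℤ) • al + (1 : ℤ) • al := by
      rw [add_smul]
      abel
    rw [this]
    ring
  | pred n ih =>
    have h2 := S_add (α := al) ph_cont 1 (-(n : ℤ) - 1) x
    have e1 : (1 : ℤ) + (-(n : ℤ) - 1) = -(n : ℤ) := by ring
    rw [e1, ih, h1] at h2
    have h3 : S al ph (-(n : ℤ) - 1) x = ∑' k, (u k x - u k (x + (-(n : ℤ)) • al)) -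
        ∑' k, (u k (x + (-(n : ℤ) - 1) • al) - u k (x + (-(n : ℤ) - 1) • al + (1 : ℤ) • al)) := by
      linarith
    rw [h3, ← (summ x (-(n : ℤ))).tsum_sub (summ (x + (-(n : ℤ) - 1) • al) 1)]
    refine tsum_congr fun k => ?_
    have : x + (-(n : ℤ) - 1) • al + (1 : ℤ) • al = x + (-(n : ℤ)) • al := by
      rw [sub_smul]
      abel
    rw [this]
    ring

lemma term0 (k : ℕ) (n : ℤ) :
    u k 0 - u k (0 + n • al) = k * (1 - Real.cos (2 * Real.pi * (n * et ^ k))) := by
  unfold u
  rw [ell_add]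
  have h0 : ell k 0 = ((0 : ℝ) : UnitAddCircle) := by
    unfold ell
    simp
  rw [h0, ← AddCircle.coe_add, zero_add, cc_coe, cc_coe]
  simp
  ring

lemma tends : Tendsto (fun n : ℤ => S al ph n 0) cofinite atTop := by
  have hpi := Real.pi_pos
  have he0 := et_pos
  have he1 := et_lt
  set c0 : ℝ := 1 - Real.cos (Real.pi * et) with hc0
  have hc0pos : 0 < c0 := by
    have : Real.cos (Real.pi * et) < Real.cos 0 :=
      Real.cos_lt_cos_of_nonneg_of_le_pi le_rfl (by nlinarith) (by positivity)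
    rw [Real.cos_zero] at this
    linarith
  rw [tendsto_atTop]
  intro M
  obtain ⟨K, hK⟩ := exists_nat_gt (M / c0)
  rw [div_lt_iff₀ hc0pos] at hK
  rw [eventually_cofinite]
  refine (Set.finite_Icc (-⌈1 / (2 * et ^ K)⌉) ⌈1 / (2 * et ^ K)⌉).subset ?_
  intro n hn
  by_contra hcon
  apply hn
  have hnbig : 1 / (2 * et ^ K) < |(n : ℝ)| := by
    by_contra hle
    push Not at hle
    apply hcon
    have h2 := abs_le.1 (hle.trans (Int.le_ceil _))
    exact ⟨by exact_mod_cast h2.1, by exact_mod_cast h2.2⟩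
  have hn1 : 1 / 2 < |(n : ℝ)| * et ^ K := by
    rw [div_lt_iff₀ (by positivity)] at hnbig
    linarith
  -- the index
  have hex : ∃ k : ℕ, |(n : ℝ)| * et ^ k ≤ 1 / 2 := by
    have ht : Tendsto (fun k : ℕ => |(n : ℝ)| * et ^ k) atTop (𝓝 (|(n : ℝ)| * 0)) :=
      (tendsto_pow_atTop_nhds_zero_of_lt_one he0.le he1).const_mul _
    rw [mul_zero] at ht
    exact (ht.eventually_le_const (by norm_num : (0 : ℝ) < 1 / 2)).exists
  classical
  set k := Nat.find hex with hk
  have hk1 : |(n : ℝ)| * et ^ k ≤ 1 / 2 := Nat.find_spec hex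
  have hKk : K < k := by
    by_contra hle
    push Not at hle
    have : et ^ K ≤ et ^ k := pow_le_pow_of_le_one he0.le he1.le hle
    nlinarith [abs_nonneg (n : ℝ)]
  have hk2 : et / 2 < |(n : ℝ)| * et ^ k := by
    have hpred : ¬ |(n : ℝ)| * et ^ (k - 1) ≤ 1 / 2 := Nat.find_min hex (by omega)
    push Not at hpred
    have hkk : k = (k - 1) + 1 := by omega
    rw [hkk, pow_succ, ← mul_assoc]
    nlinarith
  have hterm : c0 * k ≤ u k 0 - u k (0 + n • al) := by
    rw [term0, mul_comm]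
    refine mul_le_mul_of_nonneg_left ?_ (Nat.cast_nonneg k)
    rw [hc0]
    have h1 : Real.cos (2 * Real.pi * (n * et ^ k)) ≤ Real.cos (Real.pi * et) := by
      rw [← Real.cos_abs]
      have h2 : |2 * Real.pi * (n * et ^ k)| = 2 * Real.pi * (|(n : ℝ)| * et ^ k) := by
        rw [abs_mul, abs_mul (n : ℝ), abs_of_pos (by positivity : 0 < 2 * Real.pi), abs_of_pos (pow_pos he0 k)]
      rw [h2]
      refine Real.cos_le_cos_of_nonneg_of_le_pi (by positivity) ?_ ?_
      · nlinarith
      · nlinarith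
    linarith
  rw [S_eq]
  have h3 : u k 0 - u k (0 + n • al) ≤ ∑' j, (u j 0 - u j (0 + n • al)) := by
    refine (summ 0 n).le_tsum k ?_
    intro j _
    rw [term0]
    exact mul_nonneg (Nat.cast_nonneg j) (by linarith [Real.cos_le_one (2 * Real.pi * (n * et ^ j))])
  have h4 : (K : ℝ) * c0 ≤ c0 * k := by
    rw [mul_comm]
    refine mul_le_mul_of_nonneg_left ?_ hc0pos.le
    exact_mod_cast hKk.le
  linarith

end Pool.Agent.Q230.Besi
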