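import Mathlib
import Pool.Agent.Q230.Besi3

/-!
# The function is continuously differentiable
-/

set_option autoImplicit false

open Set Filter Topology

namespace Pool.Agent.Q230.Besi

/-- the integer linear forms as continuous linear maps -/
noncomputable def Lk (k : ℕ) : (Fin 2 → ℝ) →L[ℝ] ℝ :=
  ((abc k).2.1 : ℝ) • ContinuousLinearMap.proj 0 + ((abc k).2.2 : ℝ) • ContinuousLinearMap.proj 1

lemma Lk_norm (k : ℕ) : ‖Lk k‖ ≤ (1 + th) ^ k := by
  have h1 : ∀ i : Fin 2, ‖(ContinuousLinearMap.proj i : (Fin 2 → ℝ) →L[ℝ] ℝ)‖ ≤ 1 := by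
    intro i
    refine ContinuousLinearMap.opNorm_le_bound _ zero_le_one fun v => ?_
    rw [one_mul]
    exact norm_le_pi_norm v i
  have h2 := abc_bound k
  have h3 : ‖Lk k‖ ≤ |((abc k).2.1 : ℝ)| * 1 + |((abc k).2.2 : ℝ)| * 1 := by
    unfold Lk
    refine (norm_add_le _ _).trans (add_le_add ?_ ?_)
    · rw [norm_smul]
      exact mul_le_mul_of_nonneg_left (h1 0) (norm_nonneg _)
    · rw [norm_smul]
      exact mul_le_mul_of_nonneg_left (h1 1) (norm_nonneg _)
  have h4 := th_gt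
  nlinarith [abs_nonneg ((abc k).1 : ℝ), abs_nonneg ((abc k).2.1 : ℝ), abs_nonneg ((abc k).2.2 : ℝ),
    mul_nonneg (abs_nonneg ((abc k).2.1 : ℝ)) (sub_nonneg.2 h4.le),
    mul_nonneg (abs_nonneg ((abc k).2.2 : ℝ)) (sub_nonneg.2 (one_le_pow₀ h4.le (n := 2)))]

/-- the projection of the plane onto the torus -/
def pr (v : Fin 2 → ℝ) : UnitAddTorus (Fin 2) := fun i => (v i : UnitAddCircle)

lemma ell_pr (k : ℕ) (v : Fin 2 → ℝ) : ell k (pr v) = ((Lk k v : ℝ) : UnitAddCircle) := by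
  unfold ell pr Lk
  show (abc k).2.1 • (v 0 : UnitAddCircle) + (abc k).2.2 • (v 1 : UnitAddCircle) =
    ((((abc k).2.1 : ℝ) * v 0 + ((abc k).2.2 : ℝ) * v 1 : ℝ) : UnitAddCircle)
  rw [AddCircle.coe_add, ← AddCircle.coe_zsmul, ← AddCircle.coe_zsmul, zsmul_eq_mul, zsmul_eq_mul]

/-- the terms on the plane -/
noncomputable def fk (k : ℕ) (v : Fin 2 → ℝ) : ℝ :=
  k * (Real.cos (2 * Real.pi * Lk k v) - Real.cos (2 * Real.pi * (Lk k v + et ^ k)))

lemma fk_eq (k : ℕ) (v : Fin 2 → ℝ) : u k (pr v) - u k (pr v + al) = fk k v := by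
  have h1 := ell_add k (pr v) 1
  rw [one_smul, Int.cast_one, one_mul] at h1
  unfold u fk
  rw [h1, ell_pr, ← AddCircle.coe_add, cc_coe, cc_coe]
  ring

lemma fk_deriv (k : ℕ) (v : Fin 2 → ℝ) :
    HasFDerivAt (fk k) ((k * (2 * Real.pi) * (Real.sin (2 * Real.pi * (Lk k v + et ^ k)) -
      Real.sin (2 * Real.pi * Lk k v))) • Lk k) v := by
  have h1 : HasFDerivAt (fun w => 2 * Real.pi * Lk k w) ((2 * Real.pi) • Lk k) v :=
    ((Lk k).hasFDerivAt).const_mul _
  have h2 : HasFDerivAt (fun w => 2 * Real.pi * (Lk k w + et ^ k)) ((2 * Real.pi) • Lk k) v :=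
    (((Lk k).hasFDerivAt).add_const _).const_mul _
  have h3 := ((h1.cos).sub (h2.cos)).const_mul (k : ℝ)
  have h4 : ((k * (2 * Real.pi) * (Real.sin (2 * Real.pi * (Lk k v + et ^ k)) -
      Real.sin (2 * Real.pi * Lk k v))) • Lk k) = (k : ℝ) •
      (-Real.sin (2 * Real.pi * (Lk k) v) • (2 * Real.pi) • Lk k -
        -Real.sin (2 * Real.pi * ((Lk k) v + et ^ k)) • (2 * Real.pi) • Lk k) := by
    module
  rw [h4]
  exact h3

/-- the contraction rate -/
noncomputable def rh : ℝ := et * (1 + th)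

lemma rh_nonneg : 0 ≤ rh := by
  unfold rh
  have := et_pos
  have := th_pos
  positivity

lemma rh_lt : rh < 1 := by
  unfold rh et
  have := th_sq
  nlinarith

lemma fk_bound (k : ℕ) (v : Fin 2 → ℝ) : |fk k v| ≤ 2 * Real.pi * (k * et ^ k) := by
  have h := diff_bound k (pr v) 1
  rw [one_smul, fk_eq] at h
  simpa using h

lemma fk_fderiv_bound (k : ℕ) (v : Fin 2 → ℝ) :
    ‖fderiv ℝ (fk k) v‖ ≤ (2 * Real.pi) ^ 2 * (k * rh ^ k) := by
  have he := et_pos
  have hpi := Real.pi_pos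
  rw [(fk_deriv k v).fderiv, norm_smul, Real.norm_eq_abs, abs_mul]
  have h1 : |Real.sin (2 * Real.pi * (Lk k v + et ^ k)) - Real.sin (2 * Real.pi * Lk k v)| ≤
      2 * Real.pi * et ^ k := by
    refine (Real.abs_sin_sub_sin_le _ _).trans (le_of_eq ?_)
    have : 2 * Real.pi * (Lk k v + et ^ k) - 2 * Real.pi * Lk k v = 2 * Real.pi * et ^ k := by ring
    rw [this, abs_of_pos (by positivity)]
  have h2 : |(k : ℝ) * (2 * Real.pi)| = k * (2 * Real.pi) := abs_of_nonneg (by positivity)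
  rw [h2]
  calc (k : ℝ) * (2 * Real.pi) * |Real.sin (2 * Real.pi * (Lk k v + et ^ k)) -
        Real.sin (2 * Real.pi * Lk k v)| * ‖Lk k‖
      ≤ (k : ℝ) * (2 * Real.pi) * (2 * Real.pi * et ^ k) * (1 + th) ^ k := by
        refine mul_le_mul (mul_le_mul_of_nonneg_left h1 (by positivity)) (Lk_norm k)
          (norm_nonneg _) (by positivity)
    _ = (2 * Real.pi) ^ 2 * (k * rh ^ k) := by
        have : rh ^ k = et ^ k * (1 + th) ^ k := by rw [rh, mul_pow]
        rw [this]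
        ring

lemma ph_contDiff : ContDiff ℝ 1 (fun v : Fin 2 → ℝ => ph (pr v)) := by
  have h0 : (fun v : Fin 2 → ℝ => ph (pr v)) = fun v => ∑' k, fk k v := by
    funext v
    unfold ph
    exact tsum_congr fun k => fk_eq k v
  rw [h0]
  have hpi := Real.pi_pos
  refine contDiff_tsum (𝕜 := ℝ) (f := fk) (N := 1) (v := fun _ k => 2 * Real.pi * (k * et ^ k) +
    (2 * Real.pi) ^ 2 * (k * rh ^ k)) ?_ ?_ ?_
  · intro k
    unfold fk
    fun_prop
  · intro j _
    exact ((summ_geo et_pos.le et_lt).mul_left _).add ((summ_geo rh_nonneg rh_lt).mul_left _)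
  · intro j k v hj
    have hj' : j ≤ 1 := by exact_mod_cast hj
    have hA : 0 ≤ 2 * Real.pi * ((k : ℝ) * et ^ k) := by
      have := et_pos
      positivity
    have hB : 0 ≤ (2 * Real.pi) ^ 2 * ((k : ℝ) * rh ^ k) := by
      have := rh_nonneg
      positivity
    interval_cases j
    · rw [norm_iteratedFDeriv_zero, Real.norm_eq_abs]
      exact (fk_bound k v).trans (le_add_of_nonneg_right hB)
    · rw [norm_iteratedFDeriv_one]
      exact (fk_fderiv_bound k v).trans (le_add_of_nonneg_left hA)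

end Pool.Agent.Q230.Besi
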