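import Mathlib

/-! # Arc sets of directed paths in a finite digraph with a potential -/

set_option linter.unusedSectionVars false

namespace Q230.Bz

open Finset

section
variable {V E : Type*} [DecidableEq V] [DecidableEq E]

/-- number of arcs of `D` with `f e = v` -/
def deg (f : E → V) (D : Finset E) (v : V) : ℕ := (D.filter (fun e => f e = v)).card

/-- indicator -/
def ind (v a : V) : ℕ := if v = a then 1 else 0

/-- `D` is the arc set of a directed path from `a` to `b` (in an acyclic digraph). -/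
structure IsPath (src tgt : E → V) (D : Finset E) (a b : V) : Prop where
  bal : ∀ v, ind v a + deg tgt D v = ind v b + deg src D v
  le : ∀ v, ind v a + deg tgt D v ≤ 1

theorem IsPath.dual {src tgt : E → V} {D : Finset E} {a b : V} (h : IsPath src tgt D a b) :
    IsPath tgt src D b a :=
  ⟨fun v => (h.bal v).symm, fun v => (h.bal v) ▸ h.le v⟩

theorem deg_pos {f : E → V} {D : Finset E} {v : V} : 0 < deg f D v ↔ ∃ e ∈ D, f e = v := by
  unfold deg
  rw [card_pos]
  constructor
  · rintro ⟨e, he⟩
    rw [mem_filter] at he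
    exact ⟨e, he.1, he.2⟩
  · rintro ⟨e, he, hv⟩
    exact ⟨e, mem_filter.2 ⟨he, hv⟩⟩

theorem deg_eq_zero {f : E → V} {D : Finset E} {v : V} : deg f D v = 0 ↔ ∀ e ∈ D, f e ≠ v := by
  constructor
  · intro h e he hv
    have := deg_pos.2 ⟨e, he, hv⟩
    omega
  · intro h
    by_contra hne
    obtain ⟨e, he, hv⟩ := deg_pos.1 (Nat.pos_of_ne_zero hne)
    exact h e he hv

theorem ind_self (a : V) : ind a a = 1 := by simp [ind]

theorem ind_ne {v a : V} (h : v ≠ a) : ind v a = 0 := by simp [ind, h]

/-- arcs of a path set, monotone functions -/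
theorem IsPath.mono {src tgt : E → V} {D : Finset E} {a b : V} (h : IsPath src tgt D a b)
    {φ : V → ℤ} (hφ : ∀ e ∈ D, φ (src e) < φ (tgt e)) {c : V → ℤ}
    (hc : ∀ e ∈ D, c (src e) ≤ c (tgt e)) : ∀ e ∈ D, c (src e) ≤ c b ∧ c (tgt e) ≤ c b := by
  have key : ∀ e ∈ D, c (src e) ≤ c b := by
    by_contra hcon
    push Not at hcon
    obtain ⟨e0, he0, hce0⟩ := hcon
    obtain ⟨e, he, hmax⟩ := exists_max_image (D.filter (fun e => ¬ c (src e) ≤ c b))
      (fun e => φ (src e)) ⟨e0, mem_filter.2 ⟨he0, not_le.2 hce0⟩⟩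
    rw [mem_filter] at he
    obtain ⟨heD, hce⟩ := he
    by_cases hb : tgt e = b
    · exact hce (hb ▸ hc e heD)
    · have h1 := h.bal (tgt e)
      have h2 : 0 < deg tgt D (tgt e) := deg_pos.2 ⟨e, heD, rfl⟩
      rw [ind_ne hb] at h1
      have h3 : 0 < deg src D (tgt e) := by omega
      obtain ⟨e1, he1, hs1⟩ := deg_pos.1 h3
      by_cases hcase : c (src e1) ≤ c b
      · apply hce
        rw [hs1] at hcase
        exact (hc e heD).trans hcase
      · have := hmax e1 (mem_filter.2 ⟨he1, hcase⟩)
        simp only [hs1] at this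
        exact absurd (hφ e heD) (not_lt.2 this)
  intro e he
  refine ⟨key e he, ?_⟩
  by_cases hb : tgt e = b
  · rw [hb]
  · have h1 := h.bal (tgt e)
    have h2 : 0 < deg tgt D (tgt e) := deg_pos.2 ⟨e, he, rfl⟩
    rw [ind_ne hb] at h1
    have h3 : 0 < deg src D (tgt e) := by omega
    obtain ⟨e1, he1, hs1⟩ := deg_pos.1 h3
    rw [← hs1]
    exact key e1 he1

theorem IsPath.visited_le {src tgt : E → V} {D : Finset E} {a b : V} (h : IsPath src tgt D a b)
    {φ : V → ℤ} (hφ : ∀ e ∈ D, φ (src e) < φ (tgt e)) {c : V → ℤ}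
    (hc : ∀ e ∈ D, c (src e) ≤ c (tgt e)) {v : V} (hv : 0 < ind v a + deg tgt D v) :
    c v ≤ c b := by
  by_cases hb : v = b
  · rw [hb]
  · have h1 := h.bal v
    rw [ind_ne hb] at h1
    have h3 : 0 < deg src D v := by omega
    obtain ⟨e1, he1, hs1⟩ := deg_pos.1 h3
    rw [← hs1]
    exact (h.mono hφ hc e1 he1).1

theorem IsPath.le_visited {src tgt : E → V} {D : Finset E} {a b : V} (h : IsPath src tgt D a b)
    {φ : V → ℤ} (hφ : ∀ e ∈ D, φ (src e) < φ (tgt e)) {c : V → ℤ}
    (hc : ∀ e ∈ D, c (src e) ≤ c (tgt e)) {v : V} (hv : 0 < ind v a + deg tgt D v) :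
    c a ≤ c v := by
  have h' := h.dual
  have := h'.visited_le (φ := fun v => - φ v) (fun e he => neg_lt_neg (hφ e he))
    (c := fun v => - c v) (fun e he => neg_le_neg (hc e he)) (v := v) (by rw [← h.bal v]; exact hv)
  simpa using this

open Classical in
/-- all path arc sets -/
noncomputable def paths (src tgt : E → V) (A : Finset E) (a b : V) : Finset (Finset E) :=
  A.powerset.filter (fun D => IsPath src tgt D a b)

theorem mem_paths {src tgt : E → V} {A : Finset E} {a b : V} {D : Finset E} :
    D ∈ paths src tgt A a b ↔ D ⊆ A ∧ IsPath src tgt D a b := by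
  simp only [paths, mem_filter, mem_powerset]

theorem paths_self {src tgt : E → V} {A : Finset E} {φ : V → ℤ}
    (hφ : ∀ e ∈ A, φ (src e) < φ (tgt e)) (a : V) : paths src tgt A a a = {∅} := by
  ext D
  rw [mem_paths, mem_singleton]
  constructor
  · rintro ⟨hD, h⟩
    rw [eq_empty_iff_forall_notMem]
    intro e he
    have hφ' : ∀ e ∈ D, φ (src e) < φ (tgt e) := fun e he => hφ e (hD he)
    have h1 := (h.mono hφ' (c := φ) (fun e he => (hφ' e he).le) e he).2
    have h2 : φ a ≤ φ (src e) := h.le_visited hφ' (c := φ) (fun e he => (hφ' e he).le)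
      (by rw [h.bal]; have : 0 < deg src D (src e) := deg_pos.2 ⟨e, he, rfl⟩; omega)
    have := hφ' e he
    omega
  · rintro rfl
    refine ⟨empty_subset _, ⟨fun v => by simp [deg], fun v => ?_⟩⟩
    simp only [deg, filter_empty, card_empty, add_zero, ind]
    split_ifs <;> omega

theorem deg_insert {f : E → V} {D : Finset E} {e : E} (he : e ∉ D) (v : V) :
    deg f (insert e D) v = deg f D v + ind v (f e) := by
  unfold deg ind
  rw [filter_insert]
  by_cases h : f e = v
  · rw [if_pos h, if_pos h.symm, card_insert_of_notMem (by simp [he])]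
  · rw [if_neg h, if_neg (fun h' => h h'.symm), add_zero]

theorem isPath_insert {src tgt : E → V} {D : Finset E} {a : V} {e : E} (he : e ∉ D)
    {φ : V → ℤ} (hφ : ∀ e' ∈ D, φ (src e') < φ (tgt e')) (hφe : φ (src e) < φ (tgt e))
    (hne : tgt e ≠ a) :
    IsPath src tgt (insert e D) a (tgt e) ↔ IsPath src tgt D a (src e) := by
  constructor
  · intro h
    have hte : deg tgt D (tgt e) = 0 := by
      have := h.le (tgt e)
      rw [deg_insert he, ind_self] at this
      omega
    have hse : deg src D (tgt e) = 0 := by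
      have h1 := h.bal (tgt e)
      rw [deg_insert he, deg_insert he, ind_self, ind_ne hne, hte] at h1
      omega
    refine ⟨fun v => ?_, fun v => ?_⟩
    · have h1 := h.bal v
      rw [deg_insert he, deg_insert he] at h1
      omega
    · have h1 := h.le v
      rw [deg_insert he] at h1
      omega
  · intro h
    have hte : ind (tgt e) a + deg tgt D (tgt e) = 0 := by
      by_contra hcon
      have := h.visited_le hφ (c := φ) (fun e he => (hφ e he).le) (Nat.pos_of_ne_zero hcon)
      omega
    refine ⟨fun v => ?_, fun v => ?_⟩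
    · have h1 := h.bal v
      rw [deg_insert he, deg_insert he]
      omega
    · rw [deg_insert he]
      by_cases hv : v = tgt e
      · subst hv
        rw [ind_self]
        omega
      · rw [ind_ne hv]
        exact h.le v

/-- the weighted number of paths -/
noncomputable def W {R : Type*} [CommRing R] (wt : E → R) (src tgt : E → V) (A : Finset E)
    (a b : V) : R := ∑ D ∈ paths src tgt A a b, ∏ e ∈ D, wt e

theorem W_self {R : Type*} [CommRing R] (wt : E → R) {src tgt : E → V} {A : Finset E} {φ : V → ℤ}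
    (hφ : ∀ e ∈ A, φ (src e) < φ (tgt e)) (a : V) : W wt src tgt A a a = 1 := by
  unfold W
  rw [paths_self hφ]
  simp

/-- The weighted number of paths whose last arc is `e`. -/
theorem sum_last {R : Type*} [CommRing R] (wt : E → R) {src tgt : E → V} {A : Finset E}
    {φ : V → ℤ} (hφ : ∀ e ∈ A, φ (src e) < φ (tgt e)) {a b : V} (hab : b ≠ a) {e : E}
    (he : e ∈ A) (hb : tgt e = b) :
    ∑ D ∈ (paths src tgt A a b).filter (fun D => e ∈ D), ∏ e' ∈ D, wt e' =
      wt e * W wt src tgt A a (src e) := by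
  unfold W
  rw [mul_sum]
  symm
  have hnot : ∀ D ∈ paths src tgt A a (src e), e ∉ D := by
    intro D hD heD
    rw [mem_paths] at hD
    have hφ' : ∀ e ∈ D, φ (src e) < φ (tgt e) := fun e he => hφ e (hD.1 he)
    have := (hD.2.mono hφ' (c := φ) (fun e he => (hφ' e he).le) e heD).2
    have := hφ e he
    omega
  refine sum_bij (fun D _ => insert e D) ?_ ?_ ?_ ?_
  · intro D hD
    have hne := hnot D hD
    rw [mem_paths] at hD
    rw [mem_filter, mem_paths]
    refine ⟨⟨insert_subset he hD.1, ?_⟩, mem_insert_self _ _⟩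
    rw [← hb]
    exact (isPath_insert hne (fun e he => hφ e (hD.1 he)) (hφ e he) (hb ▸ hab)).2 hD.2
  · intro D hD D' hD' h
    have h1 := hnot D hD
    have h2 := hnot D' hD'
    rw [← erase_insert h1, ← erase_insert h2, h]
  · intro D hD
    rw [mem_filter, mem_paths] at hD
    refine ⟨D.erase e, ?_, insert_erase hD.2⟩
    rw [mem_paths]
    refine ⟨(erase_subset _ _).trans hD.1.1, ?_⟩
    refine (isPath_insert (notMem_erase e D)
      (fun e' he' => hφ e' (hD.1.1 (mem_of_mem_erase he'))) (hφ e he) (hb ▸ hab)).1 ?_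
    rw [insert_erase hD.2, hb]
    exact hD.1.2
  · intro D hD
    rw [prod_insert (hnot D hD)]

/-- each path to `b ≠ a` has exactly one last arc -/
theorem card_last {src tgt : E → V} {A : Finset E} {a b : V} (hab : b ≠ a) {D : Finset E}
    (hD : D ∈ paths src tgt A a b) : ∃ e, D.filter (fun e => tgt e = b) = {e} := by
  rw [mem_paths] at hD
  rw [← card_eq_one]
  have h1 := hD.2.bal b
  have h2 := hD.2.le b
  rw [ind_self] at h1
  rw [ind_ne hab] at h1 h2
  unfold deg at h1 h2
  omega

theorem W_rec {R : Type*} [CommRing R] (wt : E → R) {src tgt : E → V} {A : Finset E}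
    {φ : V → ℤ} (hφ : ∀ e ∈ A, φ (src e) < φ (tgt e)) {a b : V} (hab : b ≠ a) :
    W wt src tgt A a b =
      ∑ e ∈ A.filter (fun e => tgt e = b), wt e * W wt src tgt A a (src e) := by
  have h1 : ∀ e ∈ A.filter (fun e => tgt e = b), wt e * W wt src tgt A a (src e) =
      ∑ D ∈ (paths src tgt A a b).filter (fun D => e ∈ D), ∏ e' ∈ D, wt e' := by
    intro e he
    rw [mem_filter] at he
    exact (sum_last wt hφ hab he.1 he.2).symm
  rw [sum_congr rfl h1]
  unfold W
  have h2 : ∀ e ∈ A.filter (fun e => tgt e = b),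
      ∑ D ∈ (paths src tgt A a b).filter (fun D => e ∈ D), ∏ e' ∈ D, wt e' =
      ∑ D ∈ paths src tgt A a b, if e ∈ D then ∏ e' ∈ D, wt e' else 0 := by
    intro e _
    rw [sum_filter]
  rw [sum_congr rfl h2, sum_comm]
  refine sum_congr rfl fun D hD => ?_
  obtain ⟨e, he⟩ := card_last hab hD
  have heD : e ∈ D.filter (fun e => tgt e = b) := by rw [he]; exact mem_singleton_self e
  rw [mem_filter] at heD
  have hDA := (mem_paths.1 hD).1
  rw [← sum_filter, filter_filter]
  have : A.filter (fun e => tgt e = b ∧ e ∈ D) = {e} := by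
    rw [← he]
    ext e'
    simp only [mem_filter]
    constructor
    · rintro ⟨_, h2, h3⟩; exact ⟨h3, h2⟩
    · rintro ⟨h2, h3⟩; exact ⟨hDA h2, h3, h2⟩
  rw [this, sum_singleton]

theorem paths_dual {src tgt : E → V} {A : Finset E} {a b : V} :
    paths src tgt A a b = paths tgt src A b a := by
  ext D
  rw [mem_paths, mem_paths]
  exact ⟨fun h => ⟨h.1, h.2.dual⟩, fun h => ⟨h.1, h.2.dual⟩⟩

theorem W_dual {R : Type*} [CommRing R] (wt : E → R) {src tgt : E → V} {A : Finset E} {a b : V} :
    W wt src tgt A a b = W wt tgt src A b a := by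
  unfold W
  rw [paths_dual]

end

end Q230.Bz
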