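import Mathlib
import Pool.Agent.Q230.BzPaths

/-! # Points, string tiles and the ballot-like numbers `S` -/

set_option linter.unusedSectionVars false

namespace Q230.Bz

open Finset

/-- points -/
abbrev Pt := Fin 3 → ℤ
/-- a tile: the positions of its cells of class `0, 1, 2` -/
abbrev Tile := Fin 3 → Pt

/-- the triangle of lattice points with side `m` -/
noncomputable def XX (m : ℤ) : Finset Pt :=
  (Fintype.piFinset (fun _ => Finset.Icc 0 m)).filter (fun x => x 0 + x 1 + x 2 = m)

theorem mem_XX {m : ℤ} {x : Pt} :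
    x ∈ XX m ↔ 0 ≤ x 0 ∧ 0 ≤ x 1 ∧ 0 ≤ x 2 ∧ x 0 + x 1 + x 2 = m := by
  unfold XX
  simp only [mem_filter, Fintype.mem_piFinset, Fin.forall_fin_succ, mem_Icc]
  constructor
  · rintro ⟨⟨h1, h2, h3, -⟩, h4⟩
    exact ⟨h1.1, h2.1, h3.1, h4⟩
  · rintro ⟨h1, h2, h3, h4⟩
    refine ⟨⟨⟨h1, by omega⟩, ⟨h2, ?_⟩, ⟨h3, ?_⟩, by simp⟩, h4⟩
    · show x 1 ≤ m
      omega
    · show x 2 ≤ m
      omega

theorem add_two_one (k : Fin 3) : k + 2 + 1 = k := by revert k; decide
theorem add_one_two (k : Fin 3) : k + 1 + 2 = k := by revert k; decide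
theorem add_one_one (k : Fin 3) : k + 1 + 1 = k + 2 := by revert k; decide
theorem add_two_two (k : Fin 3) : k + 2 + 2 = k + 1 := by revert k; decide
theorem ne_one (k : Fin 3) : k + 1 ≠ k := by revert k; decide
theorem ne_two (k : Fin 3) : k + 2 ≠ k := by revert k; decide
theorem one_ne_two (k : Fin 3) : k + 1 ≠ k + 2 := by revert k; decide
theorem cases3 (k i : Fin 3) : i = k ∨ i = k + 1 ∨ i = k + 2 := by revert k i; decide

theorem sum3 (x : Pt) (k : Fin 3) : x k + x (k+1) + x (k+2) = x 0 + x 1 + x 2 := by
  fin_cases k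
  · rfl
  · show x 1 + x 2 + x 0 = _
    ring
  · show x 2 + x 0 + x 1 = _
    ring

theorem mem_XX' {m : ℤ} {x : Pt} (k : Fin 3) :
    x ∈ XX m ↔ 0 ≤ x k ∧ 0 ≤ x (k+1) ∧ 0 ≤ x (k+2) ∧ x k + x (k+1) + x (k+2) = m := by
  rw [mem_XX]
  fin_cases k
  · exact Iff.rfl
  · show _ ↔ 0 ≤ x 1 ∧ 0 ≤ x 2 ∧ 0 ≤ x 0 ∧ x 1 + x 2 + x 0 = m
    constructor <;> (rintro ⟨h1, h2, h3, h4⟩; refine ⟨by omega, by omega, by omega, by omega⟩)
  · show _ ↔ 0 ≤ x 2 ∧ 0 ≤ x 0 ∧ 0 ≤ x 1 ∧ x 2 + x 0 + x 1 = m
    constructor <;> (rintro ⟨h1, h2, h3, h4⟩; refine ⟨by omega, by omega, by omega, by omega⟩)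

theorem pt_ext {x y : Pt} (k : Fin 3) (h0 : x k = y k) (h1 : x (k+1) = y (k+1))
    (h2 : x (k+2) = y (k+2)) : x = y := by
  funext i
  rcases cases3 k i with rfl | rfl | rfl <;> assumption

/-- the corner `k` -/
def co (m : ℤ) (k : Fin 3) : Pt := Pi.single k m

@[simp] theorem co_self (m : ℤ) (k : Fin 3) : co m k k = m := by simp [co]
@[simp] theorem co_one (m : ℤ) (k : Fin 3) : co m k (k+1) = 0 := by
  simp [co]
@[simp] theorem co_two (m : ℤ) (k : Fin 3) : co m k (k+2) = 0 := by
  simp [co]

theorem co_mem {m : ℤ} (hm : 0 ≤ m) (k : Fin 3) : co m k ∈ XX m := by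
  rw [mem_XX' k]
  simp [hm]

theorem eq_co {m : ℤ} {x : Pt} (hx : x ∈ XX m) {k : Fin 3} : x = co m k ↔ x k = m := by
  constructor
  · rintro rfl; simp
  · intro h
    rw [mem_XX' k] at hx
    apply pt_ext k
    · simp [h]
    · simp; omega
    · simp; omega

/-- the three steps of a `k`-string: `j = 0` (left stone), `j = 1, 2` (bones) -/
def stp (k j : Fin 3) : Pt := fun i =>
  if i = k then (if j = 2 then 0 else -1)
  else if i = k + 1 then (if j = 1 then 0 else 1)
  else (if j = 0 then 0 else if j = 1 then 1 else -1)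

theorem stp_self (k j : Fin 3) : stp k j k = if j = 2 then 0 else -1 := by simp [stp]
theorem stp_one (k j : Fin 3) : stp k j (k+1) = if j = 1 then 0 else 1 := by
  simp [stp, ne_one]
theorem stp_two (k j : Fin 3) :
    stp k j (k+2) = if j = 0 then 0 else if j = 1 then 1 else -1 := by
  simp [stp, ne_two, (one_ne_two k).symm]

theorem stp_inj {k j j' : Fin 3} (h : stp k j = stp k j') : j = j' := by
  have h0 := congrFun h k
  have h1 := congrFun h (k+1)
  rw [stp_self, stp_self] at h0
  rw [stp_one, stp_one] at h1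
  clear h
  revert h0 h1
  revert j j'
  decide

/-- the string tile of type `k` with main point `x` and step `j` -/
def strT (k j : Fin 3) (x : Pt) : Tile := Function.update (fun _ => x) k (x + stp k j)

@[simp] theorem strT_self (k j : Fin 3) (x : Pt) : strT k j x k = x + stp k j := by simp [strT]
@[simp] theorem strT_one (k j : Fin 3) (x : Pt) : strT k j x (k+1) = x := by
  simp [strT, Function.update_of_ne (ne_one k)]
@[simp] theorem strT_two (k j : Fin 3) (x : Pt) : strT k j x (k+2) = x := by
  simp [strT, Function.update_of_ne (ne_two k)]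

theorem tile_ext {τ σ : Tile} (k : Fin 3) (h0 : τ k = σ k) (h1 : τ (k+1) = σ (k+1))
    (h2 : τ (k+2) = σ (k+2)) : τ = σ := by
  funext i
  rcases cases3 k i with rfl | rfl | rfl <;> assumption

/-- string tiles of type `k` -/
def IsStr (k : Fin 3) (τ : Tile) : Prop := ∃ j x, τ = strT k j x

/-- the source point (main point) of a string tile -/
def src (k : Fin 3) (τ : Tile) : Pt := τ (k+1)
/-- the target point (displaced cell) of a string tile -/
def tgt (k : Fin 3) (τ : Tile) : Pt := τ k

/-- potential -/
def phi (k : Fin 3) (x : Pt) : ℤ := x (k+1) - x k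

open Classical in
/-- arcs of type `k` in the triangle -/
noncomputable def arcs (m : ℤ) (k : Fin 3) : Finset Tile :=
  (Fintype.piFinset (fun _ : Fin 3 => XX m)).filter (IsStr k)

theorem mem_arcs {m : ℤ} {k : Fin 3} {τ : Tile} :
    τ ∈ arcs m k ↔ (∀ i, τ i ∈ XX m) ∧ IsStr k τ := by
  simp only [arcs, mem_filter, Fintype.mem_piFinset]

theorem strT_mem_arcs {m : ℤ} {k j : Fin 3} {x : Pt} :
    strT k j x ∈ arcs m k ↔ x ∈ XX m ∧ x + stp k j ∈ XX m := by
  rw [mem_arcs]
  constructor
  · rintro ⟨h, -⟩
    exact ⟨by simpa using h (k+1), by simpa using h k⟩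
  · rintro ⟨h1, h2⟩
    refine ⟨fun i => ?_, j, x, rfl⟩
    rcases cases3 k i with rfl | rfl | rfl
    · simpa using h2
    · simpa using h1
    · simpa using h1

theorem IsStr.phi_lt {k : Fin 3} {τ : Tile} (h : IsStr k τ) :
    phi k (src k τ) < phi k (tgt k τ) := by
  obtain ⟨j, x, rfl⟩ := h
  simp only [phi, src, tgt, strT_self, strT_one, Pi.add_apply, stp_self, stp_one]
  fin_cases j <;> simp <;> omega

theorem arcs_phi {m : ℤ} {k : Fin 3} : ∀ τ ∈ arcs m k, phi k (src k τ) < phi k (tgt k τ) :=
  fun _ hτ => (mem_arcs.1 hτ).2.phi_lt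

section S
variable {R : Type*} [CommRing R]

/-- next row of the table of the numbers `S` -/
def nxt (w y : R) (f : ℕ → R) : ℕ → R
  | 0 => y * f 0 + w * f 1
  | p+1 => w * nxt w y f p + y * f (p+1) + w * f (p+2)

/-- the rows -/
def Srow (w y : R) : ℕ → ℕ → R
  | 0 => fun p => w ^ p
  | q+1 => nxt w y (Srow w y q)

/-- weighted number of paths from `(0,0)` to `(p,q)` with steps `(1,0)`, `(-1,1)` (weight `w`) and
`(0,1)` (weight `y`) staying in `p ≥ 0` -/
def S (w y : R) (p q : ℕ) : R := Srow w y q p

theorem S_zero (w y : R) (p : ℕ) : S w y p 0 = w ^ p := rfl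
theorem S_zero_succ (w y : R) (q : ℕ) : S w y 0 (q+1) = y * S w y 0 q + w * S w y 1 q := rfl
theorem S_succ_succ (w y : R) (p q : ℕ) :
    S w y (p+1) (q+1) = w * S w y p (q+1) + y * S w y (p+1) q + w * S w y (p+2) q := rfl

/-- integer version, zero for negative arguments -/
def SZ (w y : R) (p q : ℤ) : R := if 0 ≤ p ∧ 0 ≤ q then S w y p.toNat q.toNat else 0

theorem SZ_nat (w y : R) (p q : ℕ) : SZ w y p q = S w y p q := by simp [SZ]

theorem SZ_neg_left (w y : R) {p q : ℤ} (hp : p < 0) : SZ w y p q = 0 := by
  unfold SZ; rw [if_neg]; omega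

theorem SZ_neg_right (w y : R) {p q : ℤ} (hq : q < 0) : SZ w y p q = 0 := by
  unfold SZ; rw [if_neg]; omega

theorem SZ_rec (w y : R) {p q : ℤ} (hp : 0 ≤ p) (hq : 0 ≤ q) (h0 : ¬ (p = 0 ∧ q = 0)) :
    SZ w y p q = y * SZ w y p (q-1) + w * SZ w y (p-1) q + w * SZ w y (p+1) (q-1) := by
  obtain ⟨p, rfl⟩ := Int.eq_ofNat_of_zero_le hp
  obtain ⟨q, rfl⟩ := Int.eq_ofNat_of_zero_le hq
  rcases q with _ | q
  · rcases p with _ | p
    · exact absurd ⟨rfl, rfl⟩ h0
    · have e1 : ((p+1 : ℕ) : ℤ) - 1 = (p : ℕ) := by push_cast; ring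
      rw [SZ_neg_right w y (p := ((p+1 : ℕ) : ℤ)) (q := ((0:ℕ):ℤ) - 1) (by norm_num),
        SZ_neg_right w y (p := ((p+1 : ℕ) : ℤ) + 1) (q := ((0:ℕ):ℤ) - 1) (by norm_num), e1,
        SZ_nat, SZ_nat, S_zero, S_zero]
      ring
  · have e1 : ((q+1 : ℕ) : ℤ) - 1 = (q : ℕ) := by push_cast; ring
    have e3 : ((p : ℕ) : ℤ) + 1 = ((p+1 : ℕ) : ℤ) := by push_cast; ring
    rcases p with _ | p
    · rw [SZ_neg_left w y (p := ((0:ℕ) : ℤ) - 1) (by norm_num), e1, e3, SZ_nat, SZ_nat, SZ_nat,
        S_zero_succ]
      ring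
    · have e2 : ((p+1 : ℕ) : ℤ) - 1 = (p : ℕ) := by push_cast; ring
      have e4 : ((p+1 : ℕ) : ℤ) + 1 = ((p+1+1 : ℕ) : ℤ) := by push_cast; ring
      rw [e1, e2, e4, SZ_nat, SZ_nat, SZ_nat, SZ_nat, S_succ_succ]
      ring

/-- weight hypothesis for string tiles of type `k` -/
def WtStr (wt : Tile → R) (k : Fin 3) (w y : R) : Prop :=
  ∀ x, wt (strT k 0 x) = y ∧ wt (strT k 1 x) = w ∧ wt (strT k 2 x) = w

theorem arcs_tgt (m : ℤ) (k : Fin 3) {P : Pt} (hP : P ∈ XX m) :
    (arcs m k).filter (fun τ => tgt k τ = P) =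
      (univ.filter (fun j => P - stp k j ∈ XX m)).image (fun j => strT k j (P - stp k j)) := by
  ext τ
  rw [mem_filter, mem_image]
  constructor
  · rintro ⟨h1, h2⟩
    obtain ⟨-, j, x, rfl⟩ := mem_arcs.1 h1
    rw [strT_mem_arcs] at h1
    rw [tgt, strT_self] at h2
    have : x = P - stp k j := by rw [← h2]; simp
    refine ⟨j, ?_, ?_⟩
    · rw [mem_filter, ← this]; exact ⟨mem_univ _, h1.1⟩
    · rw [← this]
  · rintro ⟨j, h1, rfl⟩
    rw [mem_filter] at h1
    rw [strT_mem_arcs]
    exact ⟨⟨h1.2, by simpa using hP⟩, by simp [tgt]⟩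

theorem arcs_src (m : ℤ) (k : Fin 3) {P : Pt} (hP : P ∈ XX m) :
    (arcs m k).filter (fun τ => src k τ = P) =
      (univ.filter (fun j => P + stp k j ∈ XX m)).image (fun j => strT k j P) := by
  ext τ
  rw [mem_filter, mem_image]
  constructor
  · rintro ⟨h1, h2⟩
    obtain ⟨-, j, x, rfl⟩ := mem_arcs.1 h1
    rw [strT_mem_arcs] at h1
    rw [src, strT_one] at h2
    subst h2
    exact ⟨j, mem_filter.2 ⟨mem_univ _, h1.2⟩, rfl⟩
  · rintro ⟨j, h1, rfl⟩
    rw [mem_filter] at h1
    rw [strT_mem_arcs]
    exact ⟨⟨hP, h1.2⟩, by simp [src]⟩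

theorem sum_tgt (m : ℤ) (k : Fin 3) {P : Pt} (hP : P ∈ XX m) (f : Tile → R) :
    ∑ τ ∈ (arcs m k).filter (fun τ => tgt k τ = P), f τ =
      (if P - stp k 0 ∈ XX m then f (strT k 0 (P - stp k 0)) else 0) +
      (if P - stp k 1 ∈ XX m then f (strT k 1 (P - stp k 1)) else 0) +
      (if P - stp k 2 ∈ XX m then f (strT k 2 (P - stp k 2)) else 0) := by
  rw [arcs_tgt m k hP, sum_image]
  · rw [sum_filter, Fin.sum_univ_three]
  · intro j _ j' _ h
    have h1 := congrFun h (k+1)
    simp only [strT_one] at h1
    exact stp_inj (by simpa using h1)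

theorem sum_src (m : ℤ) (k : Fin 3) {P : Pt} (hP : P ∈ XX m) (f : Tile → R) :
    ∑ τ ∈ (arcs m k).filter (fun τ => src k τ = P), f τ =
      (if P + stp k 0 ∈ XX m then f (strT k 0 P) else 0) +
      (if P + stp k 1 ∈ XX m then f (strT k 1 P) else 0) +
      (if P + stp k 2 ∈ XX m then f (strT k 2 P) else 0) := by
  rw [arcs_src m k hP, sum_image]
  · rw [sum_filter, Fin.sum_univ_three]
  · intro j _ j' _ h
    have h1 := congrFun h k
    simp only [strT_self] at h1
    exact stp_inj (by simpa using h1)

/-- weighted number of `k`-strings from `a` to `b` -/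
noncomputable def WW (wt : Tile → R) (m : ℤ) (k : Fin 3) (a b : Pt) : R :=
  W wt (src k) (tgt k) (arcs m k) a b

theorem WW_from_corner (wt : Tile → R) {m : ℤ} {k : Fin 3} {w y : R}
    (hwt : WtStr wt k w y) : ∀ P ∈ XX m, WW wt m k (co m k) P = SZ w y (P (k+2)) (P (k+1)) := by
  have key : ∀ n : ℕ, ∀ P ∈ XX m, phi k P + m = n →
      WW wt m k (co m k) P = SZ w y (P (k+2)) (P (k+1)) := by
    intro n
    induction n using Nat.strong_induction_on with
    | _ n ih =>
      intro P hP hn
      by_cases hPc : P = co m k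
      · subst hPc
        rw [WW, W_self wt arcs_phi, co_two, co_one]
        simp [SZ, S_zero]
      · rw [WW, W_rec wt arcs_phi hPc, sum_tgt m k hP]
        obtain ⟨h0, h1, h2⟩ := hwt (P - stp k 0)
        obtain ⟨-, h1, -⟩ := hwt (P - stp k 1)
        obtain ⟨-, -, h2⟩ := hwt (P - stp k 2)
        have hP' := (mem_XX' k).1 hP
        have hPk : P k ≠ m := fun h => hPc ((eq_co hP).2 h)
        have step : ∀ j : Fin 3, P - stp k j ∈ XX m →
            WW wt m k (co m k) (P - stp k j) =
              SZ w y ((P - stp k j) (k+2)) ((P - stp k j) (k+1)) := by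
          intro j hj
          have hlt : phi k (P - stp k j) < phi k P := by
            simp only [phi, Pi.sub_apply, stp_self, stp_one]
            fin_cases j <;> simp <;> omega
          have hge : 0 ≤ phi k (P - stp k j) + m := by
            rw [mem_XX' k] at hj
            simp only [phi]
            omega
          exact ih ((phi k (P - stp k j) + m).toNat) (by omega) _ hj (by omega)
        have c0 : (P - stp k 0 ∈ XX m) ↔ 0 ≤ P (k+1) - 1 := by
          rw [mem_XX' k]
          simp only [Pi.sub_apply, stp_self, stp_one, stp_two]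
          simp
          omega
        have c1 : (P - stp k 1 ∈ XX m) ↔ 0 ≤ P (k+2) - 1 := by
          rw [mem_XX' k]
          simp only [Pi.sub_apply, stp_self, stp_one, stp_two]
          simp
          omega
        have c2 : (P - stp k 2 ∈ XX m) ↔ 0 ≤ P (k+1) - 1 := by
          rw [mem_XX' k]
          simp only [Pi.sub_apply, stp_self, stp_one, stp_two]
          simp
          omega
        rw [SZ_rec w y hP'.2.2.1 hP'.2.1 (by omega)]
        congr 1
        · congr 1
          · split_ifs with hc
            · rw [h0]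
              have := step 0 hc
              simp only [WW] at this
              simp only [src, strT_one] at *
              rw [this]
              simp [stp_two, stp_one]
            · rw [c0] at hc
              rw [SZ_neg_right w y (by omega)]
              ring
          · split_ifs with hc
            · rw [h1]
              have := step 1 hc
              simp only [WW] at this
              simp only [src, strT_one] at *
              rw [this]
              simp [stp_two, stp_one]
            · rw [c1] at hc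
              rw [SZ_neg_left w y (by omega)]
              ring
        · split_ifs with hc
          · rw [h2]
            have := step 2 hc
            simp only [WW] at this
            simp only [src, strT_one] at *
            rw [this]
            simp [stp_two, stp_one]
          · rw [c2] at hc
            rw [SZ_neg_right w y (by omega)]
            ring
  intro P hP
  have hge : 0 ≤ phi k P + m := by
    have hP' := (mem_XX' k).1 hP
    simp only [phi]
    omega
  exact key (phi k P + m).toNat P hP (by omega)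

theorem WW_to_corner (wt : Tile → R) {m : ℤ} {k : Fin 3} {w y : R}
    (hwt : WtStr wt k w y) : ∀ P ∈ XX m, WW wt m k P (co m (k+1)) = SZ w y (P (k+2)) (P k) := by
  have hφ' : ∀ τ ∈ arcs m k, (fun v => - phi k v) (tgt k τ) < (fun v => - phi k v) (src k τ) :=
    fun τ hτ => neg_lt_neg (arcs_phi τ hτ)
  have key : ∀ n : ℕ, ∀ P ∈ XX m, m - phi k P = n →
      WW wt m k P (co m (k+1)) = SZ w y (P (k+2)) (P k) := by
    intro n
    induction n using Nat.strong_induction_on with
    | _ n ih =>
      intro P hP hn
      by_cases hPc : P = co m (k+1)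
      · subst hPc
        have e1 : co m (k+1) (k+2) = 0 := by rw [← add_one_one]; simp
        have e2 : co m (k+1) k = 0 := by
          have := co_two m (k+1)
          rwa [add_one_two] at this
        rw [WW, W_self wt arcs_phi, e1, e2]
        simp [SZ, S_zero]
      · rw [WW, W_dual, W_rec wt (φ := fun v => - phi k v) hφ' hPc, sum_src m k hP]
        obtain ⟨h0, h1, h2⟩ := hwt P
        have hP' := (mem_XX' k).1 hP
        have hPk : P (k+1) ≠ m := fun h => hPc ((eq_co hP).2 h)
        have step : ∀ j : Fin 3, P + stp k j ∈ XX m →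
            WW wt m k (P + stp k j) (co m (k+1)) =
              SZ w y ((P + stp k j) (k+2)) ((P + stp k j) k) := by
          intro j hj
          have hlt : phi k P < phi k (P + stp k j) := by
            simp only [phi, Pi.add_apply, stp_self, stp_one]
            fin_cases j <;> simp <;> omega
          have hge : 0 ≤ m - phi k (P + stp k j) := by
            rw [mem_XX' k] at hj
            simp only [phi]
            omega
          exact ih ((m - phi k (P + stp k j)).toNat) (by omega) _ hj (by omega)
        have c0 : (P + stp k 0 ∈ XX m) ↔ 0 ≤ P k - 1 := by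
          rw [mem_XX' k]
          simp only [Pi.add_apply, stp_self, stp_one, stp_two]
          simp
          omega
        have c1 : (P + stp k 1 ∈ XX m) ↔ 0 ≤ P k - 1 := by
          rw [mem_XX' k]
          simp only [Pi.add_apply, stp_self, stp_one, stp_two]
          simp
          omega
        have c2 : (P + stp k 2 ∈ XX m) ↔ 0 ≤ P (k+2) - 1 := by
          rw [mem_XX' k]
          simp only [Pi.add_apply, stp_self, stp_one, stp_two]
          simp
          omega
        rw [SZ_rec w y hP'.2.2.1 hP'.1 (by omega)]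
        rw [add_assoc, add_assoc]
        congr 1
        · split_ifs with hc
          · rw [h0]
            have := step 0 hc
            rw [WW, W_dual] at this
            simp only [tgt, strT_self] at *
            rw [this]
            simp [stp_two, stp_self, sub_eq_add_neg]
          · rw [c0] at hc
            rw [SZ_neg_right w y (by omega)]
            ring
        · rw [add_comm]
          congr 1
          · split_ifs with hc
            · rw [h2]
              have := step 2 hc
              rw [WW, W_dual] at this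
              simp only [tgt, strT_self] at *
              rw [this]
              simp [stp_two, stp_self, sub_eq_add_neg]
            · rw [c2] at hc
              rw [SZ_neg_left w y (by omega)]
              ring
          · split_ifs with hc
            · rw [h1]
              have := step 1 hc
              rw [WW, W_dual] at this
              simp only [tgt, strT_self] at *
              rw [this]
              simp [stp_two, stp_self, sub_eq_add_neg]
            · rw [c1] at hc
              rw [SZ_neg_right w y (by omega)]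
              ring
  intro P hP
  have hge : 0 ≤ m - phi k P := by
    have hP' := (mem_XX' k).1 hP
    simp only [phi]
    omega
  exact key (m - phi k P).toNat P hP (by omega)

end S

end Q230.Bz
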