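import Mathlib
import Pool.Agent.Q230.BzTiles

/-! # Tile systems: gap crossings and strings -/

set_option linter.unusedSectionVars false

namespace Q230.Bz

open Finset

/-- unit vector -/
def ee (k : Fin 3) : Pt := Pi.single k 1

@[simp] theorem ee_self (k : Fin 3) : ee k k = 1 := by simp [ee]
theorem ee_ne {k i : Fin 3} (h : i ≠ k) : ee k i = 0 := by simp [ee, h]

/-- the good right stone at `x` -/
def goodT (x : Pt) : Tile := fun _ => x
/-- bad right stones of the first kind -/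
def bs1 (y : Pt) : Tile := fun κ => y + ee (κ+1)
/-- bad right stones of the second kind -/
def bs2 (y : Pt) : Tile := fun κ => y + ee (κ+1) + ee (κ+2)
/-- bad bones -/
def bb (κ0 : Fin 3) (x : Pt) : Tile := fun κ =>
  if κ = κ0 then x + ee (κ0+1) + ee (κ0+1)
  else if κ = κ0 + 1 then x + ee κ0 + ee (κ0+2)
  else x + ee κ0 + ee (κ0+1)

def IsBad (τ : Tile) : Prop := (∃ y, τ = bs1 y) ∨ (∃ y, τ = bs2 y) ∨ ∃ κ0 x, τ = bb κ0 x

def Kind (τ : Tile) : Prop := (∃ x, τ = goodT x) ∨ (∃ k, IsStr k τ) ∨ IsBad τ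

/-- the facts we need about bad tiles -/
structure BadF (m : ℤ) (τ : Tile) : Prop where
  lt : ∀ κ, τ κ κ < τ (κ+2) κ
  up : m + 1 ≤ τ 2 0 + τ 0 1 + τ 1 2
  lo : τ 0 0 + τ 1 1 + τ 2 2 ≤ m - 1

theorem IsBad.facts {τ : Tile} (h : IsBad τ) {m : ℤ} (hs : τ 0 0 + τ 0 1 + τ 0 2 = m) :
    BadF m τ := by
  rcases h with ⟨y, rfl⟩ | ⟨y, rfl⟩ | ⟨κ0, x, rfl⟩
  · refine ⟨fun κ => ?_, ?_, ?_⟩
    · fin_cases κ <;> simp [bs1, ee]
    · simp [bs1, ee] at hs ⊢
      omega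
    · simp [bs1, ee] at hs ⊢
      omega
  · refine ⟨fun κ => ?_, ?_, ?_⟩
    · fin_cases κ <;> simp [bs2, ee]
    · simp [bs2, ee] at hs ⊢
      omega
    · simp [bs2, ee] at hs ⊢
      omega
  · refine ⟨fun κ => ?_, ?_, ?_⟩
    · fin_cases κ0 <;> fin_cases κ <;> simp [bb, ee] <;> omega
    · fin_cases κ0 <;> simp [bb, ee] at hs ⊢ <;> omega
    · fin_cases κ0 <;> simp [bb, ee] at hs ⊢ <;> omega

/-- the facts we need about string tiles -/
structure StrF (k : Fin 3) (τ : Tile) : Prop where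
  main : τ (k+1) = τ (k+2)
  le0 : τ k k ≤ τ (k+1) k
  le1 : τ (k+1) (k+1) ≤ τ k (k+1)
  phi_lt : phi k (τ (k+1)) < phi k (τ k)

theorem IsStr.facts {k : Fin 3} {τ : Tile} (h : IsStr k τ) : StrF k τ := by
  have hφ := h.phi_lt
  obtain ⟨j, x, rfl⟩ := h
  refine ⟨by simp, ?_, ?_, hφ⟩
  · simp only [strT_self, strT_one, Pi.add_apply, stp_self]
    split_ifs <;> omega
  · simp only [strT_self, strT_one, Pi.add_apply, stp_one]
    split_ifs <;> omega

theorem StrF.ne {k : Fin 3} {τ : Tile} (h : StrF k τ) : τ k ≠ τ (k+1) := by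
  intro he
  have := h.phi_lt
  rw [he] at this
  exact lt_irrefl _ this

theorem not_good_str {k : Fin 3} {x : Pt} : ¬ IsStr k (goodT x) := fun h => h.facts.ne rfl

theorem str_unique {k k' : Fin 3} {τ : Tile} (h : IsStr k τ) (h' : IsStr k' τ) : k = k' := by
  have h1 := h.facts
  have h2 := h'.facts
  rcases cases3 k k' with rfl | rfl | rfl
  · rfl
  · exfalso
    have e1 := h2.main
    rw [add_one_one, add_one_two] at e1
    exact h1.ne (e1.symm.trans h1.main.symm)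
  · exfalso
    have e1 := h2.main
    rw [add_two_one, add_two_two] at e1
    exact h1.ne e1

theorem bad_ne {m : ℤ} {τ : Tile} (h : BadF m τ) {κ κ' : Fin 3} (hne : κ ≠ κ') : τ κ ≠ τ κ' := by
  have key : ∀ κ, τ κ ≠ τ (κ+2) := fun κ he => by
    have := h.lt κ
    rw [he] at this
    exact lt_irrefl _ this
  rcases cases3 κ κ' with rfl | rfl | rfl
  · exact absurd rfl hne
  · have := key (κ+1)
    rw [add_one_two] at this
    exact this.symm
  · exact key κ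

theorem not_bad_str {m : ℤ} {τ : Tile} (h : BadF m τ) {k : Fin 3} : ¬ IsStr k τ := fun h' =>
  bad_ne h (one_ne_two k) h'.facts.main

/-- every cell is covered exactly once -/
def Cover (Ξ : Fin 3 → Finset Pt) (F : Finset Tile) : Prop :=
  ∀ κ v, (F.filter (fun τ => τ κ = v)).card = if v ∈ Ξ κ then 1 else 0

theorem Cover.mem {Ξ : Fin 3 → Finset Pt} {F : Finset Tile} (h : Cover Ξ F) {τ : Tile}
    (hτ : τ ∈ F) (κ : Fin 3) : τ κ ∈ Ξ κ := by
  by_contra hcon
  have h1 := h κ (τ κ)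
  rw [if_neg hcon, card_eq_zero] at h1
  have : τ ∈ F.filter (fun σ => σ κ = τ κ) := mem_filter.2 ⟨hτ, rfl⟩
  rw [h1] at this
  exact notMem_empty _ this

theorem Cover.inj {Ξ : Fin 3 → Finset Pt} {F : Finset Tile} (h : Cover Ξ F) {τ σ : Tile}
    (hτ : τ ∈ F) (hσ : σ ∈ F) {κ : Fin 3} (he : τ κ = σ κ) : τ = σ := by
  have h1 := h κ (σ κ)
  rw [if_pos (h.mem hσ κ), card_eq_one] at h1
  obtain ⟨ρ, hρ⟩ := h1
  have a1 : τ ∈ F.filter (fun ρ => ρ κ = σ κ) := mem_filter.2 ⟨hτ, he⟩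
  have a2 : σ ∈ F.filter (fun ρ => ρ κ = σ κ) := mem_filter.2 ⟨hσ, rfl⟩
  rw [hρ, mem_singleton] at a1 a2
  rw [a1, a2]

theorem Cover.surj {Ξ : Fin 3 → Finset Pt} {F : Finset Tile} (h : Cover Ξ F) {κ : Fin 3} {v : Pt}
    (hv : v ∈ Ξ κ) : ∃ τ ∈ F, τ κ = v := by
  have h1 := h κ v
  rw [if_pos hv, card_eq_one] at h1
  obtain ⟨ρ, hρ⟩ := h1
  have : ρ ∈ F.filter (fun τ => τ κ = v) := by rw [hρ]; exact mem_singleton_self ρ
  rw [mem_filter] at this
  exact ⟨ρ, this.1, this.2⟩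

theorem Cover.card_filter {Ξ : Fin 3 → Finset Pt} {F : Finset Tile} (h : Cover Ξ F) (κ : Fin 3)
    (p : Pt → Prop) [DecidablePred p] :
    (F.filter (fun τ => p (τ κ))).card = ((Ξ κ).filter p).card := by
  refine card_bij (fun τ _ => τ κ) ?_ ?_ ?_
  · intro τ hτ
    rw [mem_filter] at hτ ⊢
    exact ⟨h.mem hτ.1 κ, hτ.2⟩
  · intro τ hτ σ hσ he
    rw [mem_filter] at hτ hσ
    exact h.inj hτ.1 hσ.1 he
  · intro v hv
    rw [mem_filter] at hv
    obtain ⟨τ, hτ, rfl⟩ := h.surj hv.1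
    exact ⟨τ, mem_filter.2 ⟨hτ, hv.2⟩, rfl⟩

/-- a tile system -/
structure Sys (m : ℤ) (Ξ : Fin 3 → Finset Pt) (F : Finset Tile) : Prop where
  kind : ∀ τ ∈ F, Kind τ
  cover : Cover Ξ F
  sub : ∀ κ, Ξ κ ⊆ XX m
  gap : ∀ κ s, 0 ≤ s → s < m →
    ((Ξ κ).filter (fun v => v κ ≤ s)).card = ((Ξ (κ+2)).filter (fun v => v κ ≤ s)).card + 1

section
variable {m : ℤ} {Ξ : Fin 3 → Finset Pt} {F : Finset Tile}

theorem Sys.memXX (h : Sys m Ξ F) {τ : Tile} (hτ : τ ∈ F) (κ : Fin 3) : τ κ ∈ XX m :=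
  h.sub κ (h.cover.mem hτ κ)

theorem Sys.badF (h : Sys m Ξ F) {τ : Tile} (hτ : τ ∈ F) (hb : IsBad τ) : BadF m τ :=
  hb.facts (mem_XX.1 (h.memXX hτ 0)).2.2.2

theorem Sys.mono (h : Sys m Ξ F) {τ : Tile} (hτ : τ ∈ F) (κ : Fin 3) : τ κ κ ≤ τ (κ+2) κ := by
  rcases h.kind τ hτ with ⟨x, rfl⟩ | ⟨k, hk⟩ | hb
  · exact le_rfl
  · have hf := hk.facts
    rcases cases3 k κ with rfl | rfl | rfl
    · rw [← hf.main]; exact hf.le0
    · rw [add_one_two]; exact hf.le1
    · rw [add_two_two, hf.main]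
  · exact ((h.badF hτ hb).lt κ).le

theorem Sys.cross (h : Sys m Ξ F) (κ : Fin 3) {s : ℤ} (h0 : 0 ≤ s) (h1 : s < m) :
    (F.filter (fun τ => τ κ κ ≤ s ∧ s < τ (κ+2) κ)).card = 1 := by
  have e1 := h.cover.card_filter κ (fun v => v κ ≤ s)
  have e2 := h.cover.card_filter (κ+2) (fun v => v κ ≤ s)
  have e3 := h.gap κ s h0 h1
  have e4 : (F.filter (fun τ => τ κ κ ≤ s)).card =
      (F.filter (fun τ => τ (κ+2) κ ≤ s)).card +
      (F.filter (fun τ => τ κ κ ≤ s ∧ s < τ (κ+2) κ)).card := by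
    rw [← card_union_of_disjoint]
    · congr 1
      ext τ
      simp only [mem_filter, mem_union]
      constructor
      · rintro ⟨a1, a2⟩
        by_cases hc : τ (κ+2) κ ≤ s
        · exact Or.inl ⟨a1, hc⟩
        · exact Or.inr ⟨a1, a2, not_le.1 hc⟩
      · rintro (⟨a1, a2⟩ | ⟨a1, a2, -⟩)
        · exact ⟨a1, (h.mono a1 κ).trans a2⟩
        · exact ⟨a1, a2⟩
    · rw [disjoint_left]
      intro τ a1 a2
      rw [mem_filter] at a1 a2
      omega
  omega

theorem Sys.cross_unique (h : Sys m Ξ F) {κ : Fin 3} {s : ℤ} {τ σ : Tile}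
    (hτ : τ ∈ F) (hσ : σ ∈ F) (a1 : τ κ κ ≤ s) (a2 : s < τ (κ+2) κ) (b1 : σ κ κ ≤ s)
    (b2 : s < σ (κ+2) κ) : τ = σ := by
  have hX := (mem_XX' κ).1 (h.memXX hτ κ)
  have hX2 := (mem_XX' κ).1 (h.memXX hτ (κ+2))
  have := h.cross κ (s := s) (by omega) (by omega)
  rw [card_eq_one] at this
  obtain ⟨ρ, hρ⟩ := this
  have c1 : τ ∈ F.filter (fun τ => τ κ κ ≤ s ∧ s < τ (κ+2) κ) := mem_filter.2 ⟨hτ, a1, a2⟩
  have c2 : σ ∈ F.filter (fun τ => τ κ κ ≤ s ∧ s < τ (κ+2) κ) := mem_filter.2 ⟨hσ, b1, b2⟩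
  rw [hρ, mem_singleton] at c1 c2
  rw [c1, c2]

/-- one step of a string of type `k` -/
def Rk (F : Finset Tile) (k : Fin 3) (x y : Pt) : Prop := ∃ τ ∈ F, IsStr k τ ∧ τ (k+1) = x ∧ τ k = y

/-- following a string -/
def RT (F : Finset Tile) (k : Fin 3) : Pt → Pt → Prop := Relation.ReflTransGen (Rk F k)

theorem Rk.phi_lt {k : Fin 3} {x y : Pt} (h : Rk F k x y) : phi k x < phi k y := by
  obtain ⟨τ, -, hs, rfl, rfl⟩ := h
  exact hs.facts.phi_lt

theorem Rk.le0 {k : Fin 3} {x y : Pt} (h : Rk F k x y) : y k ≤ x k := by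
  obtain ⟨τ, -, hs, rfl, rfl⟩ := h
  exact hs.facts.le0

theorem Rk.le1 {k : Fin 3} {x y : Pt} (h : Rk F k x y) : x (k+1) ≤ y (k+1) := by
  obtain ⟨τ, -, hs, rfl, rfl⟩ := h
  exact hs.facts.le1

theorem RT.le0 {k : Fin 3} {x y : Pt} (h : RT F k x y) : y k ≤ x k := by
  induction h with
  | refl => exact le_rfl
  | tail _ h2 ih => exact h2.le0.trans ih

theorem RT.le1 {k : Fin 3} {x y : Pt} (h : RT F k x y) : x (k+1) ≤ y (k+1) := by
  induction h with
  | refl => exact le_rfl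
  | tail _ h2 ih => exact ih.trans h2.le1

/-- forward end -/
def FEnd (F : Finset Tile) (k : Fin 3) (x : Pt) : Prop := ∀ w, ¬ Rk F k x w
/-- backward end -/
def BEnd (F : Finset Tile) (k : Fin 3) (x : Pt) : Prop := ∀ w, ¬ Rk F k w x

theorem Sys.exists_fend (h : Sys m Ξ F) (k : Fin 3) (x : Pt) : ∃ y, RT F k x y ∧ FEnd F k y := by
  have key : ∀ n : ℕ, ∀ x, (m - phi k x).toNat = n → ∃ y, RT F k x y ∧ FEnd F k y := by
    intro n
    induction n using Nat.strong_induction_on with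
    | _ n ih =>
      intro x hx
      by_cases hf : FEnd F k x
      · exact ⟨x, Relation.ReflTransGen.refl, hf⟩
      · unfold FEnd at hf
        push Not at hf
        obtain ⟨w, hw⟩ := hf
        have hlt := hw.phi_lt
        have hle : phi k w ≤ m := by
          obtain ⟨τ, hτ, hs, h1, rfl⟩ := hw
          have := (mem_XX' k).1 (h.memXX hτ k)
          simp only [phi]
          omega
        obtain ⟨y, hy, hfy⟩ := ih (m - phi k w).toNat (by omega) w rfl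
        exact ⟨y, Relation.ReflTransGen.head hw hy, hfy⟩
  exact key _ x rfl

theorem Sys.exists_bend (h : Sys m Ξ F) (k : Fin 3) (y : Pt) : ∃ x, RT F k x y ∧ BEnd F k x := by
  have key : ∀ n : ℕ, ∀ y, (phi k y + m).toNat = n → ∃ x, RT F k x y ∧ BEnd F k x := by
    intro n
    induction n using Nat.strong_induction_on with
    | _ n ih =>
      intro y hy
      by_cases hf : BEnd F k y
      · exact ⟨y, Relation.ReflTransGen.refl, hf⟩
      · unfold BEnd at hf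
        push Not at hf
        obtain ⟨w, hw⟩ := hf
        have hlt := hw.phi_lt
        have hle : - m ≤ phi k w := by
          obtain ⟨τ, hτ, hs, rfl, h1⟩ := hw
          have := (mem_XX' k).1 (h.memXX hτ (k+1))
          simp only [phi]
          omega
        obtain ⟨x, hx, hfx⟩ := ih (phi k w + m).toNat (by omega) w rfl
        exact ⟨x, Relation.ReflTransGen.tail hx hw, hfx⟩
  exact key _ y rfl

/-- coverage of gaps of type `k` -/
theorem RT.cover0 {k : Fin 3} {x y : Pt} (h : RT F k x y) {s : ℤ} (h1 : y k ≤ s) (h2 : s < x k) :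
    ∃ τ ∈ F, IsStr k τ ∧ τ k k ≤ s ∧ s < τ (k+2) k ∧ RT F k x (τ (k+1)) ∧ RT F k (τ k) y := by
  induction h with
  | refl => omega
  | @tail b c hab hbc ih =>
    by_cases hb : b k ≤ s
    · obtain ⟨τ, hτ, h3, h4, h5, h6, h7⟩ := ih hb
      exact ⟨τ, hτ, h3, h4, h5, h6, Relation.ReflTransGen.tail h7 hbc⟩
    · obtain ⟨τ, hτ, hs, rfl, rfl⟩ := hbc
      refine ⟨τ, hτ, hs, h1, ?_, hab, Relation.ReflTransGen.refl⟩
      rw [← hs.facts.main]
      omega

/-- coverage of gaps of type `k+1` -/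
theorem RT.cover1 {k : Fin 3} {x y : Pt} (h : RT F k x y) {s : ℤ} (h1 : x (k+1) ≤ s)
    (h2 : s < y (k+1)) :
    ∃ τ ∈ F, IsStr k τ ∧ τ (k+1) (k+1) ≤ s ∧ s < τ (k+1+2) (k+1) ∧ RT F k x (τ (k+1)) ∧
      RT F k (τ k) y := by
  induction h with
  | refl => omega
  | @tail b c hab hbc ih =>
    by_cases hb : s < b (k+1)
    · obtain ⟨τ, hτ, h3, h4, h5, h6, h7⟩ := ih hb
      exact ⟨τ, hτ, h3, h4, h5, h6, Relation.ReflTransGen.tail h7 hbc⟩
    · obtain ⟨τ, hτ, hs, rfl, rfl⟩ := hbc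
      refine ⟨τ, hτ, hs, by omega, ?_, hab, Relation.ReflTransGen.refl⟩
      rw [add_one_two]
      exact h2

/-- `x` has its class `k` cell not in a tile with another cell at `x`. -/
def Hk (F : Finset Tile) (k : Fin 3) (x : Pt) : Prop :=
  ∀ τ ∈ F, τ k = x → τ (k+1) ≠ x ∧ τ (k+2) ≠ x

theorem Sys.Hk_back (h : Sys m Ξ F) {k : Fin 3} {w z : Pt} (hR : Rk F k w z) : Hk F k w := by
  obtain ⟨τ, hτ, hs, rfl, rfl⟩ := hR
  have hf := hs.facts
  intro σ hσ h1
  constructor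
  · intro h2
    have := h.cover.inj hσ hτ h2
    subst this
    exact hf.ne h1
  · intro h2
    rw [hf.main] at h2
    have := h.cover.inj hσ hτ h2
    subst this
    exact hf.ne h1

/-- the source of a string -/
theorem Sys.source (h : Sys m Ξ F) {k : Fin 3} {z : Pt} (hz : Hk F k z) :
    ∃ x, RT F k x z ∧ BEnd F k x ∧ (x = z ∨ ∃ w, Rk F k x w) ∧
      (x ∈ Ξ k → ∃ τ ∈ F, IsBad τ ∧ τ k = x) := by
  obtain ⟨x, hx, hb⟩ := h.exists_bend k z
  have hcase : x = z ∨ ∃ w, Rk F k x w := by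
    rcases Relation.ReflTransGen.cases_head hx with rfl | ⟨w, hw, -⟩
    · exact Or.inl rfl
    · exact Or.inr ⟨w, hw⟩
  have hH : Hk F k x := by
    rcases hcase with rfl | ⟨w, hw⟩
    · exact hz
    · exact h.Hk_back hw
  refine ⟨x, hx, hb, hcase, fun hmem => ?_⟩
  obtain ⟨τ, hτ, rfl⟩ := h.cover.surj hmem
  refine ⟨τ, hτ, ?_, rfl⟩
  have h1 := hH τ hτ rfl
  rcases h.kind τ hτ with ⟨x, rfl⟩ | ⟨k', hk⟩ | hbad
  · exact absurd rfl h1.1
  · exfalso
    have hf := hk.facts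
    rcases cases3 k k' with rfl | rfl | rfl
    · exact hb (τ (k'+1)) ⟨τ, hτ, hk, rfl, rfl⟩
    · have := hf.main
      rw [add_one_one, add_one_two] at this
      exact h1.2 this
    · have := hf.main
      rw [add_two_one, add_two_two] at this
      exact h1.1 this.symm
  · exact hbad

/-- no two cells at `z` lie in the same tile -/
def Jn (F : Finset Tile) (z : Pt) : Prop := ∀ k, Hk F k z

theorem Sys.jn_of (h : Sys m Ξ F) {k : Fin 3} {z : Pt} (h1 : Hk F k z) (h2 : FEnd F k z) :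
    Jn F z := by
  have key : ∀ τ ∈ F, τ (k+1) = z → τ (k+2) ≠ z := by
    intro τ hτ e1 e2
    rcases h.kind τ hτ with ⟨x, rfl⟩ | ⟨k', hk⟩ | hbad
    · exact (h1 _ hτ e1).1 e1
    · have hf := hk.facts
      rcases cases3 k k' with rfl | rfl | rfl
      · exact h2 (τ k') ⟨τ, hτ, hk, e1, rfl⟩
      · have hm := hf.main
        rw [add_one_one, add_one_two] at hm
        exact (h1 τ hτ (hm ▸ e2)).2 e2
      · have hm := hf.main
        rw [add_two_one, add_two_two] at hm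
        exact (h1 τ hτ (hm ▸ e1)).1 e1
    · exact bad_ne (h.badF hτ hbad) (one_ne_two k) (e1.trans e2.symm)
  intro k' τ hτ hz
  rcases cases3 k k' with rfl | rfl | rfl
  · exact h1 τ hτ hz
  · rw [add_one_one, add_one_two]
    exact ⟨key τ hτ hz, fun e => (h1 τ hτ e).1 hz⟩
  · rw [add_two_one, add_two_two]
    exact ⟨fun e => (h1 τ hτ e).2 hz, fun e => key τ hτ e hz⟩

/-- determinism: forward ends are unique -/
theorem Sys.fend_unique (h : Sys m Ξ F) {k : Fin 3} {x y y' : Pt} (h1 : RT F k x y)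
    (h2 : RT F k x y') (e1 : FEnd F k y) (e2 : FEnd F k y') : y = y' := by
  have hru : Relator.RightUnique (Rk F k) := by
    rintro a b c ⟨τ, hτ, hs, rfl, rfl⟩ ⟨σ, hσ, hs', h3, rfl⟩
    rw [h.cover.inj hσ hτ h3]
  rcases Relation.ReflTransGen.total_of_right_unique hru h1 h2 with h3 | h3
  · rcases Relation.ReflTransGen.cases_head h3 with rfl | ⟨w, hw, -⟩
    · rfl
    · exact absurd hw (e1 w)
  · rcases Relation.ReflTransGen.cases_head h3 with rfl | ⟨w, hw, -⟩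
    · rfl
    · exact absurd hw (e2 w)

/-- determinism: backward ends are unique -/
theorem Sys.bend_unique (h : Sys m Ξ F) {k : Fin 3} {x x' y : Pt} (h1 : RT F k x y)
    (h2 : RT F k x' y) (e1 : BEnd F k x) (e2 : BEnd F k x') : x = x' := by
  have hru : Relator.RightUnique (Function.swap (Rk F k)) := by
    rintro a b c ⟨τ, hτ, hs, h3, h4⟩ ⟨σ, hσ, hs', h5, h6⟩
    rw [← h3, ← h5, h.cover.inj hσ hτ (h6.trans h4.symm)]
  rw [RT, ← Relation.reflTransGen_swap] at h1 h2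
  rcases Relation.ReflTransGen.total_of_right_unique hru h1 h2 with h3 | h3
  · rcases Relation.ReflTransGen.cases_head h3 with rfl | ⟨w, hw, -⟩
    · rfl
    · exact absurd hw (e1 w)
  · rcases Relation.ReflTransGen.cases_head h3 with rfl | ⟨w, hw, -⟩
    · rfl
    · exact absurd hw (e2 w)

end

end Q230.Bz
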