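import Mathlib
import Pool.Agent.Q230.BzSys

/-! # The structure theorems -/

set_option linter.unusedSectionVars false

namespace Q230.Bz

open Finset

/-- cells of the first region: the cell of class `κ` at corner `κ` is missing -/
noncomputable def XiA (m : ℤ) (κ : Fin 3) : Finset Pt := (XX m).erase (co m κ)

/-- cells of the second region -/
noncomputable def XiB (m : ℤ) (κ : Fin 3) : Finset Pt := ((XX m).erase (co m κ)).erase (co m (κ+2))

theorem mem_XiA {m : ℤ} {κ : Fin 3} {x : Pt} : x ∈ XiA m κ ↔ x ≠ co m κ ∧ x ∈ XX m := by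
  simp [XiA]

theorem mem_XiB {m : ℤ} {κ : Fin 3} {x : Pt} :
    x ∈ XiB m κ ↔ x ≠ co m (κ+2) ∧ x ≠ co m κ ∧ x ∈ XX m := by
  simp [XiB]

theorem co_ne {m : ℤ} (hm : 0 < m) {k k' : Fin 3} (h : k ≠ k') : co m k ≠ co m k' := by
  intro he
  have := congrFun he k
  simp [co, h] at this
  omega

theorem gapA (m : ℤ) (κ : Fin 3) (s : ℤ) (h0 : 0 ≤ s) (h1 : s < m) :
    ((XiA m κ).filter (fun v => v κ ≤ s)).card =
      ((XiA m (κ+2)).filter (fun v => v κ ≤ s)).card + 1 := by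
  have hm : 0 < m := by omega
  have e1 : (XiA m κ).filter (fun v => v κ ≤ s) = (XX m).filter (fun v => v κ ≤ s) := by
    ext v
    simp only [mem_filter, mem_XiA]
    constructor
    · rintro ⟨⟨_, a⟩, b⟩; exact ⟨a, b⟩
    · rintro ⟨a, b⟩
      refine ⟨⟨?_, a⟩, b⟩
      rintro rfl
      simp at b; omega
  have e2 : (XiA m (κ+2)).filter (fun v => v κ ≤ s) =
      ((XX m).filter (fun v => v κ ≤ s)).erase (co m (κ+2)) := by
    ext v
    simp only [mem_filter, mem_XiA, mem_erase]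
    tauto
  have e3 : co m (κ+2) ∈ (XX m).filter (fun v => v κ ≤ s) := by
    rw [mem_filter]
    refine ⟨co_mem hm.le _, ?_⟩
    have := co_one m (κ+2)
    rw [add_two_one] at this
    omega
  rw [e1, e2, card_erase_of_mem e3]
  have := card_pos.2 ⟨_, e3⟩
  omega

theorem gapB (m : ℤ) (κ : Fin 3) (s : ℤ) (h0 : 0 ≤ s) (h1 : s < m) :
    ((XiB m κ).filter (fun v => v κ ≤ s)).card =
      ((XiB m (κ+2)).filter (fun v => v κ ≤ s)).card + 1 := by
  have hm : 0 < m := by omega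
  have e1 : (XiB m κ).filter (fun v => v κ ≤ s) =
      ((XX m).filter (fun v => v κ ≤ s)).erase (co m (κ+2)) := by
    ext v
    simp only [mem_filter, mem_XiB, mem_erase]
    constructor
    · rintro ⟨⟨c, _, a⟩, b⟩; exact ⟨c, a, b⟩
    · rintro ⟨c, a, b⟩
      refine ⟨⟨c, ?_, a⟩, b⟩
      rintro rfl
      simp at b; omega
  have e2 : (XiB m (κ+2)).filter (fun v => v κ ≤ s) =
      (((XX m).filter (fun v => v κ ≤ s)).erase (co m (κ+2))).erase (co m (κ+1)) := by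
    ext v
    simp only [mem_filter, mem_XiB, mem_erase, add_two_two]
    tauto
  have e3 : co m (κ+1) ∈ ((XX m).filter (fun v => v κ ≤ s)).erase (co m (κ+2)) := by
    rw [mem_erase, mem_filter]
    refine ⟨co_ne hm (one_ne_two κ), co_mem hm.le _, ?_⟩
    have := co_two m (κ+1)
    rw [add_one_two] at this
    omega
  rw [e1, e2, card_erase_of_mem e3]
  have := card_pos.2 ⟨_, e3⟩
  omega

theorem sysA {m : ℤ} {F : Finset Tile} (hk : ∀ τ ∈ F, Kind τ) (hc : Cover (XiA m) F) :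
    Sys m (XiA m) F :=
  ⟨hk, hc, fun κ => erase_subset _ _, gapA m⟩

theorem sysB {m : ℤ} {F : Finset Tile} (hk : ∀ τ ∈ F, Kind τ) (hc : Cover (XiB m) F) :
    Sys m (XiB m) F :=
  ⟨hk, hc, fun κ => (erase_subset _ _).trans (erase_subset _ _), gapB m⟩

/-- In the first region there are no bad tiles. -/
theorem no_bad {m : ℤ} {F : Finset Tile} (h : Sys m (XiA m) F) : ∀ τ ∈ F, ¬ IsBad τ := by
  intro τ0 hτ0 hbad0
  have hF0 := h.badF hτ0 hbad0
  have hX0 := fun κ => mem_XX.1 (h.memXX hτ0 κ)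
  have hm : 0 < m := by
    have h1 := hX0 0
    have h2 := hX0 2
    have h3 : τ0 0 0 < τ0 2 0 := hF0.lt 0
    omega
  -- no string tile crosses a gap crossed by a bad tile
  have excl : ∀ {κ : Fin 3} {s : ℤ} {τ σ : Tile}, τ ∈ F → IsBad τ → τ κ κ ≤ s → s < τ (κ+2) κ →
      ∀ {k}, σ ∈ F → IsStr k σ → σ κ κ ≤ s → s < σ (κ+2) κ → False := by
    intro κ s τ σ hτ hb a1 a2 k hσ hs b1 b2
    have := h.cross_unique hτ hσ a1 a2 b1 b2
    subst this
    exact not_bad_str (h.badF hτ hb) hs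
  obtain ⟨z, hz, hfz⟩ := h.exists_fend 0 (co m 0)
  -- the junction
  have hH0 : Hk F 0 z := by
    rcases Relation.ReflTransGen.cases_tail hz with hzc | ⟨w, -, hw⟩
    · intro τ hτ he
      exfalso
      have := h.cover.mem hτ 0
      rw [mem_XiA] at this
      exact this.1 (he.trans hzc)
    · obtain ⟨σ, hσ, hs, -, hσz⟩ := hw
      intro τ hτ he
      have := h.cover.inj hτ hσ (he.trans hσz.symm)
      subst this
      have hf := hs.facts
      refine ⟨fun e => hf.ne (he.trans e.symm), fun e => hf.ne ?_⟩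
      rw [hf.main]
      exact he.trans e.symm
  have hJ : Jn F z := h.jn_of hH0 hfz
  -- coordinates of `z`
  have hzX : z ∈ XX m := by
    rcases Relation.ReflTransGen.cases_tail hz with hzc | ⟨w, -, hw⟩
    · rw [hzc]; exact co_mem hm.le _
    · obtain ⟨σ, hσ, hs, -, hσz⟩ := hw
      rw [← hσz]; exact h.memXX hσ 0
  have hzc := mem_XX.1 hzX
  obtain ⟨x1, hx1, hb1, hc1, hbad1⟩ := h.source (hJ 1)
  obtain ⟨x2, hx2, hb2, hc2, hbad2⟩ := h.source (hJ 2)
  have memx : ∀ {k x}, RT F k x z → (x = z ∨ ∃ w, Rk F k x w) → x ∈ XX m := by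
    rintro k x - (rfl | ⟨w, τ, hτ, hs, rfl, -⟩)
    · exact hzX
    · exact h.memXX hτ _
  have hx1X := memx hx1 hc1
  have hx2X := memx hx2 hc2
  have c00 : co m 0 0 = m := by simp [co]
  have c01 : co m 0 1 = 0 := by simp [co]
  -- string 0 covers type-0 gaps `≥ z 0` and type-1 gaps `< z 1`
  have cov00 : ∀ {τ : Tile} {s : ℤ}, τ ∈ F → IsBad τ → τ 0 0 ≤ s → s < τ 2 0 → s < z 0 := by
    intro τ s hτ hb a1 a2
    by_contra hcon
    have hXτ := mem_XX.1 (h.memXX hτ 2)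
    obtain ⟨σ, hσ, hs, b1, b2, -, -⟩ := RT.cover0 hz (s := s) (by omega) (by rw [c00]; omega)
    exact excl hτ hb (κ := 0) a1 a2 hσ hs b1 b2
  have cov01 : ∀ {τ : Tile} {s : ℤ}, τ ∈ F → IsBad τ → τ 1 1 ≤ s → s < τ 0 1 → z 1 ≤ s := by
    intro τ s hτ hb a1 a2
    by_contra hcon
    have hXτ := mem_XX.1 (h.memXX hτ 1)
    obtain ⟨σ, hσ, hs, b1, b2, -, -⟩ := RT.cover1 hz (s := s) (by show co m 0 1 ≤ s; omega)
      (by show s < z 1; omega)
    exact excl hτ hb (κ := 1) a1 a2 hσ hs b1 b2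
  by_cases hx1c : x1 = co m 1
  · -- all type-1 gaps are crossed by string tiles
    have a := hF0.lt 1
    have a' : τ0 1 1 < τ0 0 1 := a
    have b := cov01 hτ0 hbad0 le_rfl a'
    have hX := hX0 0
    obtain ⟨σ, hσ, hs, b1, b2, -, -⟩ := RT.cover0 hx1 (s := τ0 1 1) b
      (by rw [hx1c]; simp [co]; omega)
    exact excl hτ0 hbad0 (κ := 1) le_rfl a hσ hs b1 b2
  by_cases hx2c : x2 = co m 2
  · have a := hF0.lt 0
    have b := cov00 hτ0 hbad0 le_rfl a
    have hX := hX0 0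
    obtain ⟨σ, hσ, hs, b1, b2, -, -⟩ := RT.cover1 hx2 (s := τ0 0 0)
      (by rw [hx2c]; show co m 2 0 ≤ _; simp [co]; omega) (by show _ < z 0; exact b)
    exact excl hτ0 hbad0 (κ := 0) le_rfl a hσ hs b1 b2
  obtain ⟨ρ, hρ, hρb, hρx⟩ := hbad1 (mem_XiA.2 ⟨hx1c, hx1X⟩)
  obtain ⟨σ, hσ, hσb, hσx⟩ := hbad2 (mem_XiA.2 ⟨hx2c, hx2X⟩)
  have hFρ := h.badF hρ hρb
  have hFσ := h.badF hσ hσb
  have m1 : x1 2 ≤ z 2 := hx1.le1
  have m2 : z 2 ≤ x2 2 := hx2.le0
  have l2 : ρ 1 2 ≤ σ 2 2 := by rw [hρx, hσx]; exact m1.trans m2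
  have hne : ρ ≠ σ := by
    rintro rfl
    have : ρ 2 2 < ρ 1 2 := hFρ.lt 2
    omega
  -- order 0 : σ is last
  have l0 : ρ 2 0 ≤ σ 0 0 := by
    have a : ρ 0 0 < ρ 2 0 := hFρ.lt 0
    have b := cov00 hρ hρb (s := ρ 2 0 - 1) (by omega) (by omega)
    have hXρ := mem_XX.1 (h.memXX hρ 0)
    have c : ρ 2 0 - 1 < σ 2 0 := by
      by_contra hcon
      obtain ⟨τ, hτ, hs, b1, b2, -, -⟩ := RT.cover1 hx2 (s := ρ 2 0 - 1)
        (by rw [← hσx]; show σ 2 0 ≤ _; omega) (by show _ < z 0; exact b)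
      exact excl hρ hρb (κ := 0) (s := ρ 2 0 - 1) (by omega) (by show _ < ρ 2 0; omega) hτ hs b1 b2
    by_contra hcon
    exact hne (h.cross_unique hρ hσ (κ := 0) (s := ρ 2 0 - 1) (by omega)
      (by show _ < ρ 2 0; omega) (by omega) c)
  -- order 1 : ρ is first
  have l1 : ρ 0 1 ≤ σ 1 1 := by
    have a : σ 1 1 < σ 0 1 := hFσ.lt 1
    have b := cov01 hσ hσb (s := σ 1 1) le_rfl a
    have c : ρ 1 1 ≤ σ 1 1 := by
      by_contra hcon
      obtain ⟨τ, hτ, hs, b1, b2, -, -⟩ := RT.cover0 hx1 (s := σ 1 1) b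
        (by rw [← hρx]; omega)
      exact excl hσ hσb (κ := 1) le_rfl a hτ hs b1 b2
    by_contra hcon
    exact hne (h.cross_unique hρ hσ (κ := 1) (s := σ 1 1) c (by show _ < ρ 0 1; omega) le_rfl a)
  have u := hFρ.up
  have v := hFσ.lo
  omega

/-- In the second region there is exactly one bad tile. -/
theorem one_bad {m : ℤ} (hm : 0 < m) {F : Finset Tile} (h : Sys m (XiB m) F) :
    ∃ τ ∈ F, IsBad τ ∧ ∀ σ ∈ F, IsBad σ → σ = τ := by
  have excl : ∀ {κ : Fin 3} {s : ℤ} {τ σ : Tile}, τ ∈ F → IsBad τ → τ κ κ ≤ s → s < τ (κ+2) κ →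
      ∀ {k}, σ ∈ F → IsStr k σ → σ κ κ ≤ s → s < σ (κ+2) κ → False := by
    intro κ s τ σ hτ hb a1 a2 k hσ hs b1 b2
    have := h.cross_unique hτ hσ a1 a2 b1 b2
    subst this
    exact not_bad_str (h.badF hτ hb) hs
  -- corners carry no main tile
  have hcorner : ∀ (k κ : Fin 3), ∀ τ ∈ F, τ κ = co m k → κ = k + 2 := by
    intro k κ τ hτ he
    have h1 := mem_XiB.1 (h.cover.mem hτ κ)
    rcases cases3 k κ with rfl | rfl | rfl
    · exact absurd he h1.2.1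
    · rw [add_one_two] at h1
      exact absurd he h1.1
    · rfl
  have nomain : ∀ (k k' : Fin 3), ∀ w, ¬ Rk F k (co m k') w := by
    rintro k k' w ⟨τ, hτ, hs, h1, -⟩
    have e1 := hcorner k' (k+1) τ hτ h1
    rw [hs.facts.main] at h1
    have e2 := hcorner k' (k+2) τ hτ h1
    exact one_ne_two k (e1.trans e2.symm)
  have fendc : ∀ (k k' : Fin 3), FEnd F k (co m k') := fun k k' w => nomain k k' w
  have hHc : ∀ k : Fin 3, Hk F k (co m (k+1)) := by
    intro k τ hτ _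
    constructor
    · intro e
      have := hcorner _ _ τ hτ e
      rw [add_one_two] at this
      exact ne_one k this
    · intro e
      have := hcorner _ _ τ hτ e
      rw [add_one_two] at this
      exact ne_two k this
  -- the three source tiles
  have hsrc : ∀ k : Fin 3, ∃ τ ∈ F, IsBad τ ∧ RT F k (τ k) (co m (k+1)) ∧ BEnd F k (τ k) := by
    intro k
    obtain ⟨x, hx, hb, hc, hbad⟩ := h.source (hHc k)
    have hmem : x ∈ XiB m k := by
      rcases hc with rfl | ⟨w, hw⟩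
      · rw [mem_XiB]
        exact ⟨co_ne hm (one_ne_two k), co_ne hm (ne_one k), co_mem hm.le _⟩
      · have h1 : x ∈ XX m := by
          obtain ⟨τ, hτ, hs, rfl, -⟩ := hw
          exact h.memXX hτ _
        rw [mem_XiB]
        refine ⟨?_, ?_, h1⟩
        · rintro rfl; exact nomain _ _ _ hw
        · rintro rfl; exact nomain _ _ _ hw
    obtain ⟨τ, hτ, hb', rfl⟩ := hbad hmem
    exact ⟨τ, hτ, hb', hx, hb⟩
  obtain ⟨t0, ht0, hb0, hr0, he0⟩ := hsrc 0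
  obtain ⟨t1, ht1, hb1, hr1, he1⟩ := hsrc 1
  obtain ⟨t2, ht2, hb2, hr2, he2⟩ := hsrc 2
  -- if two consecutive ones agree, we are done
  have adj : ∀ (k : Fin 3) (τ : Tile), τ ∈ F → IsBad τ → RT F k (τ k) (co m (k+1)) →
      RT F (k+1) (τ (k+1)) (co m (k+2)) → ∀ σ ∈ F, IsBad σ → σ = τ := by
    intro k τ hτ hb r1 r2 σ hσ hσb
    have hXτ0 := (mem_XX' (k+1)).1 (h.memXX hσ (k+1))
    have hXτ := (mem_XX' (k+1)).1 (h.memXX hσ (k+1+2))
    have a := (h.badF hσ hσb).lt (k+1)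
    by_contra hne
    have c1 : τ (k+1) (k+1) ≤ σ (k+1) (k+1) := by
      by_contra hcon
      obtain ⟨ρ, hρ, hs, b1, b2, -, -⟩ := RT.cover0 r2 (s := σ (k+1) (k+1))
        (by
          have : co m (k+2) (k+1) = 0 := by
            have := co_two m (k+2)
            rwa [add_two_two] at this
          rw [this]; exact hXτ0.1) (by omega)
      exact excl hσ hσb (κ := k+1) le_rfl a hρ hs b1 b2
    have c2 : σ (k+1) (k+1) < τ (k+1+2) (k+1) := by
      by_contra hcon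
      rw [add_one_two] at hcon
      obtain ⟨ρ, hρ, hs, b1, b2, -, -⟩ := RT.cover1 r1 (s := σ (k+1) (k+1)) (by omega)
        (by rw [co_self]; omega)
      exact excl hσ hσb (κ := k+1) le_rfl a hρ hs b1 b2
    exact hne (h.cross_unique hσ hτ (κ := k+1) le_rfl a c1 c2)
  by_cases h01 : t0 = t1
  · subst h01
    exact ⟨t0, ht0, hb0, adj 0 t0 ht0 hb0 hr0 hr1⟩
  by_cases h02 : t0 = t2
  · subst h02
    exact ⟨t0, ht0, hb0, adj 2 t0 ht0 hb0 hr2 hr0⟩
  exfalso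
  have hF0 := h.badF ht0 hb0
  -- forward ends of strings 1 and 2 from `t0`
  obtain ⟨y, hy, hfy⟩ := h.exists_fend 1 (t0 1)
  obtain ⟨y', hy', hfy'⟩ := h.exists_fend 2 (t0 2)
  -- backward ends at bad tiles
  have bendbad : ∀ {τ : Tile} (k : Fin 3), τ ∈ F → IsBad τ → BEnd F k (τ k) := by
    rintro τ k hτ hb w ⟨σ, hσ, hs, -, he⟩
    have := h.cover.inj hσ hτ he
    subst this
    exact not_bad_str (h.badF hτ hb) hs
  have Hend : ∀ {τ : Tile} {k : Fin 3} {y : Pt}, τ ∈ F → IsBad τ → RT F k (τ k) y → FEnd F k y →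
      Hk F k y ∧ y ∈ XiB m k := by
    intro τ k y hτ hb hr _
    rcases Relation.ReflTransGen.cases_tail hr with hyc | ⟨w, -, hw⟩
    · refine ⟨?_, hyc ▸ h.cover.mem hτ k⟩
      intro σ hσ he
      have := h.cover.inj hσ hτ (he.trans hyc)
      subst this
      have hf := h.badF hσ hb
      refine ⟨fun e => bad_ne hf (ne_one k) (e.trans he.symm),
        fun e => bad_ne hf (ne_two k) (e.trans he.symm)⟩
    · obtain ⟨ρ, hρ, hs, -, rfl⟩ := hw
      refine ⟨?_, h.cover.mem hρ k⟩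
      intro σ hσ he
      have := h.cover.inj hσ hρ he
      subst this
      have hf := hs.facts
      refine ⟨fun e => hf.ne e.symm, fun e => hf.ne ?_⟩
      rw [hf.main, e]
  obtain ⟨hHy, hyX⟩ := Hend ht0 hb0 hy hfy
  obtain ⟨hHy', hyX'⟩ := Hend ht0 hb0 hy' hfy'
  have hJ := h.jn_of hHy hfy
  have hJ' := h.jn_of hHy' hfy'
  rw [mem_XiB] at hyX hyX'
  -- y is not a corner
  have hyc : ∀ k', y ≠ co m k' := by
    intro k' he
    have : k' = 2 := by
      rcases cases3 1 k' with rfl | rfl | rfl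
      · exact absurd he hyX.2.1
      · rfl
      · exact absurd he hyX.1
    subst this
    apply h01
    have := h.bend_unique (k := 1) (y := co m 2) (he ▸ hy) hr1 (bendbad 1 ht0 hb0) he1
    exact h.cover.inj ht0 ht1 this
  have hyc' : ∀ k', y' ≠ co m k' := by
    intro k' he
    have : k' = 0 := by
      rcases cases3 2 k' with rfl | rfl | rfl
      · exact absurd he hyX'.2.1
      · rfl
      · exact absurd he hyX'.1
    subst this
    apply h02
    have := h.bend_unique (k := 2) (y := co m 0) (he ▸ hy') hr2 (bendbad 2 ht0 hb0) he2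
    exact h.cover.inj ht0 ht2 this
  -- sources of the 0-strings
  have src0 : ∀ {y : Pt}, y ∈ XX m → (∀ k', y ≠ co m k') → Jn F y →
      ∃ σ ∈ F, IsBad σ ∧ RT F 0 (σ 0) y := by
    intro y hyX hyc hJ
    obtain ⟨x, hx, hb, hc, hbad⟩ := h.source (hJ 0)
    have hmem : x ∈ XiB m 0 := by
      rcases hc with rfl | ⟨w, hw⟩
      · rw [mem_XiB]
        exact ⟨hyc _, hyc _, hyX⟩
      · have h1 : x ∈ XX m := by
          obtain ⟨τ, hτ, hs, rfl, -⟩ := hw
          exact h.memXX hτ _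
        rw [mem_XiB]
        refine ⟨?_, ?_, h1⟩
        · rintro rfl; exact nomain _ _ _ hw
        · rintro rfl; exact nomain _ _ _ hw
    obtain ⟨τ, hτ, hb', rfl⟩ := hbad hmem
    exact ⟨τ, hτ, hb', hx⟩
  obtain ⟨s1, hs1, hsb1, hsr1⟩ := src0 hyX.2.2 hyc hJ
  obtain ⟨s2, hs2, hsb2, hsr2⟩ := src0 hyX'.2.2 hyc' hJ'
  have jend : ∀ {y : Pt} (k : Fin 3), Jn F y → FEnd F k y := by
    rintro y k hJ w ⟨τ, hτ, hs, h1, -⟩
    have := (hJ (k+1) τ hτ h1).1
    rw [add_one_one] at this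
    exact this (hs.facts.main ▸ h1)
  have hfy0 := jend 0 hJ
  have hfy0' := jend 0 hJ'
  have hn1 : s1 ≠ t0 := by
    rintro rfl
    exact hyc _ (h.fend_unique hsr1 hr0 hfy0 (fendc 0 1))
  have hn2 : s2 ≠ t0 := by
    rintro rfl
    exact hyc' _ (h.fend_unique hsr2 hr0 hfy0' (fendc 0 1))
  -- order 2
  have o2 : y' 2 < y 2 := by
    have a1 : y' 2 ≤ t0 2 2 := hy'.le0
    have a2 : t0 2 2 < t0 1 2 := hF0.lt 2
    have a3 : t0 1 2 ≤ y 2 := hy.le1
    omega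
  have hyc0 := mem_XX.1 hyX.2.2
  have hyc0' := mem_XX.1 hyX'.2.2
  -- order 0
  have o0 : y' 0 ≤ y 0 := by
    by_contra hcon
    push Not at hcon
    -- crossing tile of gap `y 0` seen from `y`
    have A : ∃ ρ ∈ F, ρ 0 0 ≤ y 0 ∧ y 0 < ρ 2 0 ∧
        ((IsStr 0 ρ ∧ RT F 0 (ρ 0) y) ∨ ρ = s1) := by
      by_cases hc : y 0 < s1 0 0
      · obtain ⟨ρ, hρ, hs, b1, b2, -, b3⟩ := RT.cover0 hsr1 (s := y 0) le_rfl hc
        exact ⟨ρ, hρ, b1, b2, Or.inl ⟨hs, b3⟩⟩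
      · have a1 : y 0 ≤ s1 0 0 := hsr1.le0
        have a2 : s1 0 0 < s1 2 0 := (h.badF hs1 hsb1).lt 0
        exact ⟨s1, hs1, by omega, by omega, Or.inr rfl⟩
    have B : ∃ ρ ∈ F, ρ 0 0 ≤ y 0 ∧ y 0 < ρ 2 0 ∧
        ((IsStr 0 ρ ∧ RT F 0 (ρ 0) (co m 1)) ∨ ρ = t0 ∨ IsStr 2 ρ) := by
      by_cases hc1 : y 0 < t0 0 0
      · obtain ⟨ρ, hρ, hs, b1, b2, -, b3⟩ := RT.cover0 hr0 (s := y 0)
          (by show co m 1 0 ≤ _; simp [co]; omega) hc1
        exact ⟨ρ, hρ, b1, b2, Or.inl ⟨hs, b3⟩⟩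
      by_cases hc2 : y 0 < t0 2 0
      · exact ⟨t0, ht0, by omega, hc2, Or.inr (Or.inl rfl)⟩
      · obtain ⟨ρ, hρ, hs, b1, b2, -, b3⟩ := RT.cover1 hy' (s := y 0)
          (by show t0 2 0 ≤ _; omega) (by show _ < y' 0; omega)
        exact ⟨ρ, hρ, b1, b2, Or.inr (Or.inr hs)⟩
    obtain ⟨ρ, hρ, b1, b2, b3⟩ := A
    obtain ⟨ρ', hρ', b1', b2', b3'⟩ := B
    have := h.cross_unique hρ hρ' (κ := 0) b1 b2 b1' b2'
    subst this
    rcases b3 with ⟨c1, c2⟩ | rfl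
    · rcases b3' with ⟨c3, c4⟩ | rfl | c3
      · exact hyc _ (h.fend_unique c2 c4 hfy0 (fendc 0 1))
      · exact not_bad_str hF0 c1
      · have := str_unique c1 c3
        exact absurd this (by decide)
    · rcases b3' with ⟨c3, c4⟩ | rfl | c3
      · exact not_bad_str (h.badF hs1 hsb1) c3
      · exact hn1 rfl
      · exact not_bad_str (h.badF hs1 hsb1) c3
  -- order 1
  have o1 : y' 1 ≤ y 1 := by
    by_contra hcon
    push Not at hcon
    have A : ∃ ρ ∈ F, ρ 1 1 ≤ y' 1 - 1 ∧ y' 1 - 1 < ρ 0 1 ∧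
        ((IsStr 0 ρ ∧ RT F 0 (ρ 0) y') ∨ ρ = s2) := by
      by_cases hc : s2 0 1 ≤ y' 1 - 1
      · obtain ⟨ρ, hρ, hs, b1, b2, -, b3⟩ := RT.cover1 hsr2 (s := y' 1 - 1) hc
          (by show _ < y' 1; omega)
        exact ⟨ρ, hρ, b1, b2, Or.inl ⟨hs, b3⟩⟩
      · have a1 : s2 0 1 ≤ y' 1 := hsr2.le1
        have a2 : s2 1 1 < s2 0 1 := (h.badF hs2 hsb2).lt 1
        exact ⟨s2, hs2, by omega, by omega, Or.inr rfl⟩
    have B : ∃ ρ ∈ F, ρ 1 1 ≤ y' 1 - 1 ∧ y' 1 - 1 < ρ 0 1 ∧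
        ((IsStr 0 ρ ∧ RT F 0 (ρ 0) (co m 1)) ∨ ρ = t0 ∨ IsStr 1 ρ) := by
      by_cases hc1 : t0 0 1 ≤ y' 1 - 1
      · obtain ⟨ρ, hρ, hs, b1, b2, -, b3⟩ := RT.cover1 hr0 (s := y' 1 - 1) hc1
          (by show _ < co m 1 1; simp [co]; omega)
        exact ⟨ρ, hρ, b1, b2, Or.inl ⟨hs, b3⟩⟩
      by_cases hc2 : t0 1 1 ≤ y' 1 - 1
      · exact ⟨t0, ht0, hc2, by omega, Or.inr (Or.inl rfl)⟩
      · obtain ⟨ρ, hρ, hs, b1, b2, -, b3⟩ := RT.cover0 hy (s := y' 1 - 1)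
          (by omega) (by omega)
        exact ⟨ρ, hρ, b1, b2, Or.inr (Or.inr hs)⟩
    obtain ⟨ρ, hρ, b1, b2, b3⟩ := A
    obtain ⟨ρ', hρ', b1', b2', b3'⟩ := B
    have := h.cross_unique hρ hρ' (κ := 1) b1 b2 b1' b2'
    subst this
    rcases b3 with ⟨c1, c2⟩ | rfl
    · rcases b3' with ⟨c3, c4⟩ | rfl | c3
      · exact hyc' _ (h.fend_unique c2 c4 hfy0' (fendc 0 1))
      · exact not_bad_str hF0 c1
      · have := str_unique c1 c3
        exact absurd this (by decide)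
    · rcases b3' with ⟨c3, c4⟩ | rfl | c3
      · exact not_bad_str (h.badF hs2 hsb2) c3
      · exact hn2 rfl
      · exact not_bad_str (h.badF hs2 hsb2) c3
  omega

end Q230.Bz
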