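import Mathlib
import Pool.Agent.Q230.BzStruct

/-! # Assembling tile systems -/

set_option linter.unusedSectionVars false

namespace Q230.Bz

open Finset

open Classical in
/-- all families of tiles covering `Ξ` -/
noncomputable def Fam (m : ℤ) (Ξ : Fin 3 → Finset Pt) : Finset (Finset Tile) :=
  ((Fintype.piFinset (fun _ : Fin 3 => XX m)).powerset).filter
    (fun F => (∀ τ ∈ F, Kind τ) ∧ Cover Ξ F)

theorem mem_Fam {m : ℤ} {Ξ : Fin 3 → Finset Pt} {F : Finset Tile} :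
    F ∈ Fam m Ξ ↔ (∀ τ ∈ F, ∀ κ, τ κ ∈ XX m) ∧ (∀ τ ∈ F, Kind τ) ∧ Cover Ξ F := by
  simp only [Fam, mem_filter, mem_powerset, subset_iff, Fintype.mem_piFinset]

/-- the assembled family -/
def asm (G : Finset Pt) (D : Fin 3 → Finset Tile) (B : Finset Tile) : Finset Tile :=
  G.image goodT ∪ (D 0 ∪ (D 1 ∪ (D 2 ∪ B)))

theorem mem_asm {G : Finset Pt} {D : Fin 3 → Finset Tile} {B : Finset Tile} {τ : Tile} :
    τ ∈ asm G D B ↔ (∃ x ∈ G, τ = goodT x) ∨ (∃ k, τ ∈ D k) ∨ τ ∈ B := by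
  unfold asm
  simp only [mem_union, mem_image]
  constructor
  · rintro (⟨x, hx, rfl⟩ | h | h | h | h)
    · exact Or.inl ⟨x, hx, rfl⟩
    · exact Or.inr (Or.inl ⟨0, h⟩)
    · exact Or.inr (Or.inl ⟨1, h⟩)
    · exact Or.inr (Or.inl ⟨2, h⟩)
    · exact Or.inr (Or.inr h)
  · rintro (⟨x, hx, rfl⟩ | ⟨k, h⟩ | h)
    · exact Or.inl ⟨x, hx, rfl⟩
    · fin_cases k
      · exact Or.inr (Or.inl h)
      · exact Or.inr (Or.inr (Or.inl h))
      · exact Or.inr (Or.inr (Or.inr (Or.inl h)))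
    · exact Or.inr (Or.inr (Or.inr (Or.inr h)))

theorem goodT_inj {x y : Pt} (h : goodT x = goodT y) : x = y := congrFun h 0

/-- compatibility data -/
structure Dat (m : ℤ) (D : Fin 3 → Finset Tile) (B : Finset Tile) : Prop where
  str : ∀ k, ∀ τ ∈ D k, IsStr k τ
  bad : ∀ τ ∈ B, IsBad τ
  badF : ∀ τ ∈ B, BadF m τ

section
variable {m : ℤ} {G : Finset Pt} {D : Fin 3 → Finset Tile} {B : Finset Tile}

theorem Dat.disj01 (h : Dat m D B) {k k' : Fin 3} (hk : k ≠ k') : Disjoint (D k) (D k') := by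
  rw [disjoint_left]
  intro τ h1 h2
  exact hk (str_unique (h.str k τ h1) (h.str k' τ h2))

theorem Dat.disjB (h : Dat m D B) {k : Fin 3} : Disjoint (D k) B := by
  rw [disjoint_left]
  intro τ h1 h2
  exact not_bad_str (h.badF τ h2) (h.str k τ h1)

theorem Dat.disjG (h : Dat m D B) {k : Fin 3} : Disjoint (G.image goodT) (D k) := by
  rw [disjoint_left]
  intro τ h1 h2
  rw [mem_image] at h1
  obtain ⟨x, -, rfl⟩ := h1
  exact not_good_str (h.str k _ h2)

theorem Dat.disjGB (h : Dat m D B) : Disjoint (G.image goodT) B := by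
  rw [disjoint_left]
  intro τ h1 h2
  rw [mem_image] at h1
  obtain ⟨x, -, rfl⟩ := h1
  exact bad_ne (h.badF _ h2) (show (0 : Fin 3) ≠ 1 by decide) rfl

theorem Dat.d1 (h : Dat m D B) : Disjoint (D 2) B := h.disjB
theorem Dat.d2 (h : Dat m D B) : Disjoint (D 1) (D 2 ∪ B) := by
  rw [disjoint_union_right]; exact ⟨h.disj01 (by decide), h.disjB⟩
theorem Dat.d3 (h : Dat m D B) : Disjoint (D 0) (D 1 ∪ (D 2 ∪ B)) := by
  rw [disjoint_union_right, disjoint_union_right]
  exact ⟨h.disj01 (by decide), h.disj01 (by decide), h.disjB⟩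
theorem Dat.d4 (h : Dat m D B) : Disjoint (G.image goodT) (D 0 ∪ (D 1 ∪ (D 2 ∪ B))) := by
  rw [disjoint_union_right, disjoint_union_right, disjoint_union_right]
  exact ⟨h.disjG, h.disjG, h.disjG, h.disjGB⟩

theorem deg_union {V : Type*} [DecidableEq V] {f : Tile → V} {A C : Finset Tile}
    (h : Disjoint A C) (v : V) : deg f (A ∪ C) v = deg f A v + deg f C v := by
  unfold deg
  rw [filter_union, card_union_of_disjoint (disjoint_filter_filter h)]

theorem deg_good (κ : Fin 3) (v : Pt) :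
    deg (fun τ : Tile => τ κ) (G.image goodT) v = if v ∈ G then 1 else 0 := by
  unfold deg
  rw [filter_image, card_image_of_injective _ (fun _ _ => goodT_inj)]
  have : G.filter (fun a => goodT a κ = v) = G.filter (fun a => a = v) := rfl
  rw [this, filter_eq' G v]
  split_ifs <;> simp

theorem deg_main {k : Fin 3} {A : Finset Tile} (h : ∀ τ ∈ A, IsStr k τ) (v : Pt) :
    deg (fun τ : Tile => τ (k+2)) A v = deg (src k) A v := by
  unfold deg
  refine congrArg card (filter_congr fun τ hτ => ?_)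
  rw [src, (h τ hτ).facts.main]

theorem sum3n (f : Fin 3 → ℕ) (k : Fin 3) : f k + f (k+1) + f (k+2) = f 0 + f 1 + f 2 := by
  fin_cases k
  · rfl
  · show f 1 + f 2 + f 0 = _
    ring
  · show f 2 + f 0 + f 1 = _
    ring

theorem Dat.deg_asm (h : Dat m D B) (κ : Fin 3) (v : Pt) :
    deg (fun τ : Tile => τ κ) (asm G D B) v = (if v ∈ G then 1 else 0) + deg (tgt κ) (D κ) v +
      deg (src (κ+1)) (D (κ+1)) v + deg (src (κ+2)) (D (κ+2)) v +
      deg (fun τ : Tile => τ κ) B v := by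
  unfold asm
  rw [deg_union h.d4, deg_union h.d3, deg_union h.d2, deg_union h.d1, deg_good]
  have e0 : deg (fun τ : Tile => τ κ) (D κ) v = deg (tgt κ) (D κ) v := rfl
  have e1 : deg (fun τ : Tile => τ κ) (D (κ+1)) v = deg (src (κ+1)) (D (κ+1)) v := by
    have := deg_main (k := κ+1) (h.str (κ+1)) v
    rwa [add_one_two] at this
  have e2 : deg (fun τ : Tile => τ κ) (D (κ+2)) v = deg (src (κ+2)) (D (κ+2)) v := by
    have : deg (fun τ : Tile => τ (κ+2+1)) (D (κ+2)) v = deg (src (κ+2)) (D (κ+2)) v := rfl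
    rwa [add_two_one] at this
  rw [← e0, ← e1, ← e2]
  have := sum3n (fun k => deg (fun τ : Tile => τ κ) (D k) v) κ
  omega

theorem Dat.prod_asm {R : Type*} [CommRing R] (wt : Tile → R) (h : Dat m D B)
    (hg : ∀ x, wt (goodT x) = 1) :
    ∏ τ ∈ asm G D B, wt τ = (∏ k, ∏ τ ∈ D k, wt τ) * ∏ τ ∈ B, wt τ := by
  unfold asm
  rw [prod_union h.d4, prod_union h.d3, prod_union h.d2, prod_union h.d1, prod_image]
  · rw [Fin.prod_univ_three, prod_congr rfl (fun x _ => hg x), prod_const_one]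
    ring
  · intro x _ y _ hxy
    exact goodT_inj hxy

theorem Dat.card_asm (h : Dat m D B) :
    (asm G D B).card = G.card + (D 0).card + (D 1).card + (D 2).card + B.card := by
  unfold asm
  rw [card_union_of_disjoint h.d4, card_union_of_disjoint h.d3, card_union_of_disjoint h.d2,
    card_union_of_disjoint h.d1, card_image_of_injective _ (fun _ _ => goodT_inj)]
  ring

theorem Dat.filter_str (h : Dat m D B) (k : Fin 3) [DecidablePred (IsStr k)] :
    (asm G D B).filter (IsStr k) = D k := by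
  ext τ
  rw [mem_filter, mem_asm]
  constructor
  · rintro ⟨⟨x, _, rfl⟩ | ⟨k', hk'⟩ | hB, hs⟩
    · exact absurd hs not_good_str
    · rwa [str_unique hs (h.str k' τ hk')]
    · exact absurd hs (not_bad_str (h.badF τ hB))
  · intro hk
    exact ⟨Or.inr (Or.inl ⟨k, hk⟩), h.str k τ hk⟩

theorem Dat.filter_bad (h : Dat m D B) [DecidablePred IsBad]
    (hD : ∀ k, ∀ τ ∈ D k, ∀ κ, τ κ ∈ XX m) (hG : ∀ x ∈ G, x ∈ XX m) :
    (asm G D B).filter IsBad = B := by
  ext τ
  rw [mem_filter, mem_asm]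
  constructor
  · rintro ⟨⟨x, hx, rfl⟩ | ⟨k', hk'⟩ | hB, hs⟩
    · exact (bad_ne (κ := 0) (κ' := 1) (hs.facts (mem_XX.1 (hG x hx)).2.2.2)
        (by decide) rfl).elim
    · exact absurd (h.str k' τ hk')
        (not_bad_str (hs.facts (mem_XX.1 (hD k' τ hk' 0)).2.2.2))
    · exact hB
  · intro hk
    exact ⟨Or.inr (Or.inr hk), h.bad τ hk⟩

theorem Dat.mem_G (h : Dat m D B) {x : Pt} : goodT x ∈ asm G D B ↔ x ∈ G := by
  rw [mem_asm]
  constructor
  · rintro (⟨y, hy, he⟩ | ⟨k', hk'⟩ | hB)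
    · rwa [goodT_inj he]
    · exact absurd (h.str k' _ hk') not_good_str
    · exact (bad_ne (κ := 0) (κ' := 1) (h.badF _ hB) (by decide) rfl).elim
  · intro hx
    exact Or.inl ⟨x, hx, rfl⟩

end

section
variable {m : ℤ} {F : Finset Tile}

open Classical in
/-- every family of tiles is assembled -/
theorem eq_asm (hk : ∀ τ ∈ F, Kind τ) (hX : ∀ τ ∈ F, ∀ κ, τ κ ∈ XX m) :
    F = asm ((XX m).filter (fun x => goodT x ∈ F)) (fun k => F.filter (IsStr k))
      (F.filter IsBad) := by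
  ext τ
  rw [mem_asm]
  constructor
  · intro hτ
    rcases hk τ hτ with ⟨x, rfl⟩ | ⟨k, hs⟩ | hb
    · exact Or.inl ⟨x, mem_filter.2 ⟨hX _ hτ 0, hτ⟩, rfl⟩
    · exact Or.inr (Or.inl ⟨k, mem_filter.2 ⟨hτ, hs⟩⟩)
    · exact Or.inr (Or.inr (mem_filter.2 ⟨hτ, hb⟩))
  · rintro (⟨x, hx, rfl⟩ | ⟨k, hs⟩ | hb)
    · exact (mem_filter.1 hx).2
    · exact (mem_filter.1 hs).1
    · exact (mem_filter.1 hb).1

open Classical in
theorem dat_of (hX : ∀ τ ∈ F, ∀ κ, τ κ ∈ XX m) :
    Dat m (fun k => F.filter (IsStr k)) (F.filter IsBad) :=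
  ⟨fun k τ hτ => (mem_filter.1 hτ).2, fun τ hτ => (mem_filter.1 hτ).2,
    fun τ hτ => (mem_filter.1 hτ).2.facts (mem_XX.1 (hX τ (mem_filter.1 hτ).1 0)).2.2.2⟩

theorem Cover.card_eq {Ξ : Fin 3 → Finset Pt} (h : Cover Ξ F) (κ : Fin 3) :
    F.card = (Ξ κ).card := by
  have := h.card_filter κ (fun _ => True)
  simpa using this

end

end Q230.Bz
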