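import Mathlib
import Pool.Agent.Q230.BzAsm

/-! # Counting tilings of the first region -/

set_option linter.unusedSectionVars false

namespace Q230.Bz

open Finset

/-- vertex-disjointness -/
def Dj (D : Fin 3 → Finset Tile) : Prop := ∀ v, ∑ k, deg (src k) (D k) v ≤ 1

/-- the points carrying a good stone -/
noncomputable def GA (m : ℤ) (P : Pt) (D : Fin 3 → Finset Tile) : Finset Pt :=
  (XX m).filter (fun v => v ≠ P ∧ ∀ k, deg (src k) (D k) v = 0)

/-- path triples -/
noncomputable def PT (m : ℤ) (P : Pt) : Finset (Fin 3 → Finset Tile) :=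
  Fintype.piFinset (fun k => paths (src k) (tgt k) (arcs m k) (co m k) P)

theorem mem_PT {m : ℤ} {P : Pt} {D : Fin 3 → Finset Tile} :
    D ∈ PT m P ↔ ∀ k, D k ⊆ arcs m k ∧ IsPath (src k) (tgt k) (D k) (co m k) P := by
  unfold PT
  simp only [Fintype.mem_piFinset, mem_paths]

open Classical in
/-- index set -/
noncomputable def IA (m : ℤ) : Finset (Σ _ : Pt, Fin 3 → Finset Tile) :=
  (XX m).sigma (fun P => (PT m P).filter Dj)

theorem mem_IA {m : ℤ} {i : Σ _ : Pt, Fin 3 → Finset Tile} :
    i ∈ IA m ↔ i.1 ∈ XX m ∧ i.2 ∈ PT m i.1 ∧ Dj i.2 := by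
  simp only [IA, mem_sigma, mem_filter]

theorem dat_arcs {m : ℤ} {D : Fin 3 → Finset Tile} (h : ∀ k, D k ⊆ arcs m k) : Dat m D ∅ :=
  ⟨fun k τ hτ => (mem_arcs.1 (h k hτ)).2, fun τ hτ => absurd hτ (notMem_empty τ),
    fun τ hτ => absurd hτ (notMem_empty τ)⟩

theorem deg_zero_of_notMem {m : ℤ} {k : Fin 3} {A : Finset Tile} (h : A ⊆ arcs m k) {v : Pt}
    (hv : v ∉ XX m) : deg (src k) A v = 0 ∧ deg (tgt k) A v = 0 := by
  constructor
  · rw [deg_eq_zero]
    intro τ hτ he
    exact hv (he ▸ (mem_arcs.1 (h hτ)).1 _)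
  · rw [deg_eq_zero]
    intro τ hτ he
    exact hv (he ▸ (mem_arcs.1 (h hτ)).1 _)

theorem ind_le_one {V : Type*} [DecidableEq V] (v a : V) : ind v a ≤ 1 := by
  unfold ind; split_ifs <;> omega

theorem end_zero {m : ℤ} {P : Pt} {D : Fin 3 → Finset Tile} (h : D ∈ PT m P) (k : Fin 3) :
    deg (src k) (D k) P = 0 := by
  have h1 := ((mem_PT.1 h) k).2
  have h2 := h1.bal P
  have h3 := h1.le P
  rw [ind_self] at h2
  omega

theorem GA_ind {m : ℤ} {P : Pt} {D : Fin 3 → Finset Tile} (h : D ∈ PT m P) (hd : Dj D) {v : Pt}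
    (hv : v ∈ XX m) : (if v ∈ GA m P D then 1 else 0) + ind v P +
      (deg (src 0) (D 0) v + deg (src 1) (D 1) v + deg (src 2) (D 2) v) = 1 := by
  have h1 := hd v
  rw [Fin.sum_univ_three] at h1
  by_cases hvP : v = P
  · subst hvP
    rw [if_neg, ind_self, end_zero h 0, end_zero h 1, end_zero h 2]
    simp [GA]
  · rw [ind_ne hvP]
    by_cases hG : v ∈ GA m P D
    · rw [if_pos hG]
      simp only [GA, mem_filter] at hG
      rw [hG.2.2 0, hG.2.2 1, hG.2.2 2]
    · rw [if_neg hG]
      simp only [GA, mem_filter, not_and, not_forall] at hG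
      obtain ⟨k, hk⟩ := hG hv hvP
      fin_cases k
      · have : deg (src 0) (D 0) v ≠ 0 := hk
        omega
      · have : deg (src 1) (D 1) v ≠ 0 := hk
        omega
      · have : deg (src 2) (D 2) v ≠ 0 := hk
        omega

/-- the assembled families are tilings -/
theorem asm_mem {m : ℤ} {P : Pt} {D : Fin 3 → Finset Tile} (h : D ∈ PT m P)
    (hd : Dj D) : asm (GA m P D) D ∅ ∈ Fam m (XiA m) := by
  have hD := mem_PT.1 h
  have hdat := dat_arcs (fun k => (hD k).1)
  rw [mem_Fam]
  refine ⟨?_, ?_, ?_⟩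
  · intro τ hτ κ
    rw [mem_asm] at hτ
    rcases hτ with ⟨x, hx, rfl⟩ | ⟨k, hk⟩ | hB
    · simp only [GA, mem_filter] at hx
      exact hx.1
    · exact (mem_arcs.1 ((hD k).1 hk)).1 κ
    · exact absurd hB (notMem_empty _)
  · intro τ hτ
    rw [mem_asm] at hτ
    rcases hτ with ⟨x, hx, rfl⟩ | ⟨k, hk⟩ | hB
    · exact Or.inl ⟨x, rfl⟩
    · exact Or.inr (Or.inl ⟨k, (mem_arcs.1 ((hD k).1 hk)).2⟩)
    · exact absurd hB (notMem_empty _)
  · intro κ v
    show deg (fun τ : Tile => τ κ) _ v = _
    rw [hdat.deg_asm κ v]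
    have e0 : deg (fun τ : Tile => τ κ) ∅ v = 0 := by simp [deg]
    rw [e0]
    have hs := sum3n (fun k => deg (src k) (D k) v) κ
    have hb := (hD κ).2.bal v
    by_cases hv : v ∈ XX m
    · have hg := GA_ind h hd hv
      by_cases hc : v = co m κ
      · rw [if_neg (show v ∉ XiA m κ from fun h => (mem_XiA.1 h).1 hc)]
        have : ind v (co m κ) = 1 := by rw [hc, ind_self]
        omega
      · rw [if_pos (show v ∈ XiA m κ from mem_XiA.2 ⟨hc, hv⟩)]
        have : ind v (co m κ) = 0 := ind_ne hc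
        omega
    · rw [if_neg (show v ∉ XiA m κ from fun h => hv (mem_XiA.1 h).2), if_neg,
        (deg_zero_of_notMem (hD κ).1 hv).2, (deg_zero_of_notMem (hD (κ+1)).1 hv).1,
        (deg_zero_of_notMem (hD (κ+2)).1 hv).1]
      simp only [GA, mem_filter]
      exact fun h => hv h.1

theorem asm_inj {m : ℤ} {P P' : Pt} {D D' : Fin 3 → Finset Tile} (h : D ∈ PT m P)
    (h' : D' ∈ PT m P') (hP : P ∈ XX m)
    (he : asm (GA m P D) D ∅ = asm (GA m P' D') D' ∅) : P = P' ∧ D = D' := by
  classical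
  have hdat := dat_arcs (fun k => ((mem_PT.1 h) k).1)
  have hdat' := dat_arcs (fun k => ((mem_PT.1 h') k).1)
  have hDD : D = D' := by
    funext k
    rw [← hdat.filter_str (G := GA m P D) k, he, hdat'.filter_str k]
  subst hDD
  refine ⟨?_, rfl⟩
  by_contra hne
  have h1 : P ∈ GA m P' D := by
    simp only [GA, mem_filter]
    exact ⟨hP, hne, fun k => end_zero h k⟩
  rw [← hdat.mem_G, ← he, hdat.mem_G] at h1
  simp [GA] at h1

open Classical in
theorem asm_surj {m : ℤ} (hm : 0 ≤ m) {F : Finset Tile} (hF : F ∈ Fam m (XiA m)) :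
    ∃ P D, P ∈ XX m ∧ D ∈ PT m P ∧ Dj D ∧ asm (GA m P D) D ∅ = F := by
  rw [mem_Fam] at hF
  obtain ⟨hX, hK, hC⟩ := hF
  have hsys := sysA hK hC
  have hB : F.filter IsBad = ∅ := by
    rw [filter_eq_empty_iff]
    exact fun {τ} hτ => no_bad hsys τ hτ
  have hasm := eq_asm hK hX
  have hdat := dat_of hX
  rw [hB] at hasm hdat
  set G := (XX m).filter (fun x => goodT x ∈ F) with hG
  set D : Fin 3 → Finset Tile := fun k => F.filter (IsStr k) with hD
  have hDA : ∀ k, D k ⊆ arcs m k := by
    intro k τ hτ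
    rw [hD, mem_filter] at hτ
    exact mem_arcs.2 ⟨hX τ hτ.1, hτ.2⟩
  have cov : ∀ κ v, (if v ∈ G then 1 else 0) + deg (tgt κ) (D κ) v +
      deg (src (κ+1)) (D (κ+1)) v + deg (src (κ+2)) (D (κ+2)) v =
      if v ∈ XiA m κ then 1 else 0 := by
    intro κ v
    have h1 : deg (fun τ : Tile => τ κ) F v = if v ∈ XiA m κ then 1 else 0 := hC κ v
    rw [← h1]
    have h2 := hdat.deg_asm (G := G) κ v
    rw [← hasm] at h2
    have e0 : deg (fun τ : Tile => τ κ) ∅ v = 0 := by simp [deg]
    rw [e0] at h2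
    omega
  -- term
  let term : Pt → ℕ := fun v => (if v ∈ G then 1 else 0) +
    (deg (src 0) (D 0) v + deg (src 1) (D 1) v + deg (src 2) (D 2) v)
  have term_le : ∀ v, term v ≤ 1 := by
    intro v
    have c0 := cov 0 v
    have c1 := cov 1 v
    have c2 := cov 2 v
    have e1 : (1 : Fin 3) + 1 = 2 := rfl
    have e2 : (1 : Fin 3) + 2 = 0 := rfl
    have e3 : (2 : Fin 3) + 1 = 0 := rfl
    have e4 : (2 : Fin 3) + 2 = 1 := rfl
    have e5 : (0 : Fin 3) + 1 = 1 := rfl
    have e6 : (0 : Fin 3) + 2 = 2 := rfl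
    rw [e5, e6] at c0
    rw [e1, e2] at c1
    rw [e3, e4] at c2
    simp only [term]
    split_ifs at * <;> omega
  have sum_deg : ∀ k, ∑ v ∈ XX m, deg (src k) (D k) v = (D k).card := by
    intro k
    unfold deg
    rw [← card_eq_sum_card_fiberwise]
    intro τ hτ
    exact (mem_arcs.1 (hDA k hτ)).1 _
  have sum_term : ∑ v ∈ XX m, term v = F.card := by
    simp only [term]
    rw [sum_add_distrib, sum_add_distrib, sum_add_distrib, sum_deg, sum_deg, sum_deg,
      ← card_filter]
    have h1 := hdat.card_asm (G := G)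
    rw [← hasm, card_empty] at h1
    rw [h1]
    have : (XX m).filter (fun x => x ∈ G) = G := by
      ext x; simp only [hG, mem_filter]; tauto
    rw [this]
    ring
  have hcard : F.card + 1 = (XX m).card := by
    rw [hC.card_eq 0, XiA, card_erase_of_mem (co_mem hm 0)]
    have := card_pos.2 ⟨_, co_mem hm 0⟩
    omega
  -- the junction
  have hone : ((XX m).filter (fun v => term v = 0)).card = 1 := by
    have h1 : ∑ v ∈ XX m, term v = ((XX m).filter (fun v => ¬ term v = 0)).card := by
      rw [card_filter]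
      refine sum_congr rfl fun v _ => ?_
      have := term_le v
      split_ifs <;> omega
    have h2 := card_filter_add_card_filter_not (s := XX m) (fun v => term v = 0)
    omega
  rw [card_eq_one] at hone
  obtain ⟨P, hP⟩ := hone
  have hPm : P ∈ (XX m).filter (fun v => term v = 0) := by rw [hP]; exact mem_singleton_self P
  rw [mem_filter] at hPm
  have hterm : ∀ v ∈ XX m, term v + ind v P = 1 := by
    intro v hv
    by_cases hvP : v = P
    · subst hvP
      rw [ind_self, hPm.2]
    · rw [ind_ne hvP]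
      have h1 := term_le v
      have h2 : term v ≠ 0 := by
        intro h0
        have : v ∈ (XX m).filter (fun v => term v = 0) := mem_filter.2 ⟨hv, h0⟩
        rw [hP, mem_singleton] at this
        exact hvP this
      omega
  have hPT : D ∈ PT m P := by
    rw [mem_PT]
    intro k
    have bal : ∀ v, ind v (co m k) + deg (tgt k) (D k) v = ind v P + deg (src k) (D k) v := by
      intro v
      by_cases hv : v ∈ XX m
      · have h1 := cov k v
        have h2 := hterm v hv
        have h3 := sum3n (fun k => deg (src k) (D k) v) k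
        simp only [term] at h2
        by_cases hc : v = co m k
        · rw [if_neg (show v ∉ XiA m k from fun h => (mem_XiA.1 h).1 hc)] at h1
          have : ind v (co m k) = 1 := by rw [hc, ind_self]
          omega
        · rw [if_pos (show v ∈ XiA m k from mem_XiA.2 ⟨hc, hv⟩)] at h1
          have : ind v (co m k) = 0 := ind_ne hc
          omega
      · rw [(deg_zero_of_notMem (hDA k) hv).1, (deg_zero_of_notMem (hDA k) hv).2,
          ind_ne (show v ≠ co m k from fun h => hv (h ▸ co_mem hm k)),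
          ind_ne (show v ≠ P from fun h => hv (h ▸ hPm.1))]
    refine ⟨hDA k, bal, fun v => ?_⟩
    rw [bal v]
    by_cases hv : v ∈ XX m
    · have h2 := hterm v hv
      have h3 := sum3n (fun k => deg (src k) (D k) v) k
      simp only [term] at h2
      omega
    · rw [(deg_zero_of_notMem (hDA k) hv).1]
      have := ind_le_one v P
      omega
  have hDj : Dj D := by
    intro v
    rw [Fin.sum_univ_three]
    have := term_le v
    simp only [term] at this
    omega
  refine ⟨P, D, hPm.1, hPT, hDj, ?_⟩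
  have hGG : GA m P D = G := by
    ext v
    by_cases hv : v ∈ XX m
    · have h1 := GA_ind hPT hDj hv
      have h2 := hterm v hv
      simp only [term] at h2
      by_cases a1 : v ∈ GA m P D
      · by_cases a2 : v ∈ G
        · exact ⟨fun _ => a2, fun _ => a1⟩
        · rw [if_pos a1] at h1
          rw [if_neg a2] at h2
          omega
      · by_cases a2 : v ∈ G
        · rw [if_neg a1] at h1
          rw [if_pos a2] at h2
          omega
        · exact ⟨fun h => absurd h a1, fun h => absurd h a2⟩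
    · constructor
      · intro h; exact absurd (mem_filter.1 h).1 hv
      · intro h; exact absurd (mem_filter.1 h).1 hv
  rw [hGG]
  exact hasm.symm

section
variable {R : Type*} [CommRing R]

open Classical in
/-- the weighted sum over tilings as a sum over vertex-disjoint path triples -/
theorem sum_Fam_A (wt : Tile → R) (hg : ∀ x, wt (goodT x) = 1) {m : ℤ} (hm : 0 ≤ m) :
    ∑ F ∈ Fam m (XiA m), ∏ τ ∈ F, wt τ =
      ∑ P ∈ XX m, ∑ D ∈ PT m P, if Dj D then ∏ k, ∏ τ ∈ D k, wt τ else 0 := by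
  have h1 : ∑ i ∈ IA m, ∏ k, ∏ τ ∈ i.2 k, wt τ = ∑ F ∈ Fam m (XiA m), ∏ τ ∈ F, wt τ := by
    refine sum_bij (fun i _ => asm (GA m i.1 i.2) i.2 ∅) ?_ ?_ ?_ ?_
    · intro i hi
      rw [mem_IA] at hi
      exact asm_mem hi.2.1 hi.2.2
    · intro i hi j hj he
      rw [mem_IA] at hi hj
      obtain ⟨e1, e2⟩ := asm_inj hi.2.1 hj.2.1 hi.1 he
      rcases i with ⟨P, D⟩
      rcases j with ⟨P', D'⟩
      simp only at e1 e2
      subst e1; subst e2
      rfl
    · intro F hF
      obtain ⟨P, D, hP, hD, hd, he⟩ := asm_surj hm hF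
      exact ⟨⟨P, D⟩, mem_IA.2 ⟨hP, hD, hd⟩, he⟩
    · intro i hi
      rw [mem_IA] at hi
      have hdat := dat_arcs (fun k => ((mem_PT.1 hi.2.1) k).1)
      rw [hdat.prod_asm wt hg]
      simp
  rw [← h1, IA, sum_sigma]
  refine sum_congr rfl fun P _ => ?_
  rw [sum_filter]

end

end Q230.Bz
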