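import Mathlib
import Pool.Agent.Q230.BzCountA

/-! # Counting tilings of the first region: the formula -/

set_option linter.unusedSectionVars false

namespace Q230.Bz

open Finset

theorem stp_eq (k : Fin 3) : stp (k+1) 2 = stp k 1 := by
  have h1 := stp_self (k+1) 2
  have h2 := stp_one (k+1) 2
  have h3 := stp_two (k+1) 2
  rw [add_one_one] at h2
  rw [add_one_two] at h3
  apply pt_ext k
  · rw [h3, stp_self]; decide
  · rw [h1, stp_one]; decide
  · rw [h2, stp_two]; decide

def eA (k : Fin 3) (P : Pt) : Tile := strT k 1 (P - stp k 1)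
def eB (k : Fin 3) (P : Pt) : Tile := strT (k+1) 2 (P - stp k 1)

/-- the strings `k` and `k+1` arrive at `P` along the same step -/
def EE (k : Fin 3) (P : Pt) (D : Fin 3 → Finset Tile) : Prop := eA k P ∈ D k ∧ eB k P ∈ D (k+1)

theorem tgt_eA (k : Fin 3) (P : Pt) : tgt k (eA k P) = P := by simp [tgt, eA]
theorem src_eA (k : Fin 3) (P : Pt) : src k (eA k P) = P - stp k 1 := by simp [src, eA]
theorem tgt_eB (k : Fin 3) (P : Pt) : tgt (k+1) (eB k P) = P := by
  simp only [tgt, eB, strT_self, stp_eq]; simp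
theorem src_eB (k : Fin 3) (P : Pt) : src (k+1) (eB k P) = P - stp k 1 := by simp [src, eB]

theorem deg_le_one {m : ℤ} {P : Pt} {D : Fin 3 → Finset Tile} (h : D ∈ PT m P) (k : Fin 3)
    (v : Pt) : deg (src k) (D k) v ≤ 1 ∧ deg (tgt k) (D k) v ≤ 1 := by
  have h1 := ((mem_PT.1 h) k).2
  have h2 := h1.bal v
  have h3 := h1.le v
  omega

theorem deg_unique {V : Type*} [DecidableEq V] {f : Tile → V} {A : Finset Tile} {v : V}
    (h : deg f A v ≤ 1) {τ σ : Tile} (hτ : τ ∈ A) (hσ : σ ∈ A) (h1 : f τ = v) (h2 : f σ = v) :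
    τ = σ := by
  unfold deg at h
  rw [card_le_one] at h
  exact h τ (mem_filter.2 ⟨hτ, h1⟩) σ (mem_filter.2 ⟨hσ, h2⟩)

/-- if a path of type `k` to `P` passes through a point with the same `k+1` coordinate as `P`, the
last step has type `1` -/
theorem last_A {m : ℤ} {k : Fin 3} {P v : Pt} {A : Finset Tile} (hA : A ⊆ arcs m k)
    (hp : IsPath (src k) (tgt k) A (co m k) P) (hv : 0 < deg (src k) A v)
    (hc : P (k+1) ≤ v (k+1)) : eA k P ∈ A := by
  have hφ : ∀ τ ∈ A, phi k (src k τ) < phi k (tgt k τ) := fun τ hτ => arcs_phi τ (hA hτ)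
  obtain ⟨f, hf, hfv⟩ := deg_pos.1 hv
  have hPc : P ≠ co m k := by
    rintro rfl
    have : A ∈ paths (src k) (tgt k) (arcs m k) (co m k) (co m k) := mem_paths.2 ⟨hA, hp⟩
    rw [paths_self arcs_phi, mem_singleton] at this
    rw [this] at hf
    exact notMem_empty _ hf
  have hin : 0 < deg (tgt k) A P := by
    have h1 := hp.bal P
    rw [ind_self, ind_ne hPc] at h1
    omega
  obtain ⟨e, he, heP⟩ := deg_pos.1 hin
  obtain ⟨-, j, x, hx⟩ := mem_arcs.1 (hA he)
  have hxP : x = P - stp k j := by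
    rw [← heP, tgt, hx, strT_self]; simp
  by_cases hj : j = 1
  · subst hj
    rw [eA, ← hxP, ← hx]
    exact he
  · exfalso
    have hxc : x (k+1) = P (k+1) - 1 := by
      rw [hxP, Pi.sub_apply, stp_one, if_neg hj]
    have hsrc : src k e = x := by rw [hx, src, strT_one]
    have hpe : IsPath (src k) (tgt k) (A.erase e) (co m k) (src k e) := by
      refine (isPath_insert (notMem_erase e A)
        (fun e' he' => hφ e' (mem_of_mem_erase he')) (hφ e he) (heP ▸ hPc)).1 ?_
      rw [insert_erase he, heP]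
      exact hp
    by_cases hfe : f = e
    · rw [hfe, hsrc] at hfv
      rw [← hfv, hxc] at hc
      omega
    · have := (hpe.mono (fun e' he' => hφ e' (mem_of_mem_erase he')) (c := fun x => x (k+1))
        (fun e' he' => (mem_arcs.1 (hA (mem_of_mem_erase he'))).2.facts.le1) f
        (mem_erase.2 ⟨hfe, hf⟩)).1
      simp only [hfv, hsrc, hxc] at this
      omega

theorem last_B {m : ℤ} {k : Fin 3} {P v : Pt} {A : Finset Tile} (hA : A ⊆ arcs m (k+1))
    (hp : IsPath (src (k+1)) (tgt (k+1)) A (co m (k+1)) P) (hv : 0 < deg (src (k+1)) A v)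
    (hc : v (k+1) ≤ P (k+1)) : eB k P ∈ A := by
  have hφ : ∀ τ ∈ A, phi (k+1) (src (k+1) τ) < phi (k+1) (tgt (k+1) τ) :=
    fun τ hτ => arcs_phi τ (hA hτ)
  obtain ⟨f, hf, hfv⟩ := deg_pos.1 hv
  have hPc : P ≠ co m (k+1) := by
    rintro rfl
    have : A ∈ paths (src (k+1)) (tgt (k+1)) (arcs m (k+1)) (co m (k+1)) (co m (k+1)) :=
      mem_paths.2 ⟨hA, hp⟩
    rw [paths_self arcs_phi, mem_singleton] at this
    rw [this] at hf
    exact notMem_empty _ hf
  have hin : 0 < deg (tgt (k+1)) A P := by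
    have h1 := hp.bal P
    rw [ind_self, ind_ne hPc] at h1
    omega
  obtain ⟨e, he, heP⟩ := deg_pos.1 hin
  obtain ⟨-, j, x, hx⟩ := mem_arcs.1 (hA he)
  have hxP : x = P - stp (k+1) j := by
    rw [← heP, tgt, hx, strT_self]; simp
  by_cases hj : j = 2
  · subst hj
    rw [eB, ← stp_eq, ← hxP, ← hx]
    exact he
  · exfalso
    have hxc : x (k+1) = P (k+1) + 1 := by
      rw [hxP, Pi.sub_apply, stp_self, if_neg hj]; ring
    have hsrc : src (k+1) e = x := by rw [hx, src, strT_one]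
    have hpe : IsPath (src (k+1)) (tgt (k+1)) (A.erase e) (co m (k+1)) (src (k+1) e) := by
      refine (isPath_insert (notMem_erase e A)
        (fun e' he' => hφ e' (mem_of_mem_erase he')) (hφ e he) (heP ▸ hPc)).1 ?_
      rw [insert_erase he, heP]
      exact hp
    by_cases hfe : f = e
    · rw [hfe, hsrc] at hfv
      rw [← hfv, hxc] at hc
      omega
    · have := (hpe.mono (fun e' he' => hφ e' (mem_of_mem_erase he')) (c := fun x => - x (k+1))
        (fun e' he' => neg_le_neg (mem_arcs.1 (hA (mem_of_mem_erase he'))).2.facts.le0) f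
        (mem_erase.2 ⟨hfe, hf⟩)).1
      simp only [hfv, hsrc, hxc] at this
      omega

theorem EE_of_common {m : ℤ} {P : Pt} {D : Fin 3 → Finset Tile} (h : D ∈ PT m P) {k : Fin 3}
    {v : Pt} (h1 : 0 < deg (src k) (D k) v) (h2 : 0 < deg (src (k+1)) (D (k+1)) v) :
    EE k P D := by
  have hD := mem_PT.1 h
  have hφ : ∀ k, ∀ τ ∈ D k, phi k (src k τ) < phi k (tgt k τ) :=
    fun k τ hτ => arcs_phi τ ((hD k).1 hτ)
  obtain ⟨f, hf, hfv⟩ := deg_pos.1 h1
  obtain ⟨g, hg, hgv⟩ := deg_pos.1 h2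
  have a1 := ((hD k).2.mono (hφ k) (c := fun x => x (k+1))
    (fun e' he' => (mem_arcs.1 ((hD k).1 he')).2.facts.le1) f hf).1
  have a2 := ((hD (k+1)).2.mono (hφ (k+1)) (c := fun x => - x (k+1))
    (fun e' he' => neg_le_neg (mem_arcs.1 ((hD (k+1)).1 he')).2.facts.le0) g hg).1
  simp only [hfv, hgv] at a1 a2
  exact ⟨last_A (hD k).1 (hD k).2 h1 (by omega), last_B (hD (k+1)).1 (hD (k+1)).2 h2 (by omega)⟩

theorem dj_iff {m : ℤ} {P : Pt} {D : Fin 3 → Finset Tile} (h : D ∈ PT m P) :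
    ¬ Dj D ↔ ∃ k, EE k P D := by
  constructor
  · intro hn
    unfold Dj at hn
    push Not at hn
    obtain ⟨v, hv⟩ := hn
    rw [Fin.sum_univ_three] at hv
    have d0 := (deg_le_one h 0 v).1
    have d1 := (deg_le_one h 1 v).1
    have d2 := (deg_le_one h 2 v).1
    by_cases c0 : 0 < deg (src 0) (D 0) v
    · by_cases c1 : 0 < deg (src 1) (D 1) v
      · exact ⟨0, EE_of_common h c0 c1⟩
      · exact ⟨2, EE_of_common (k := 2) (v := v) h (by omega) c0⟩
    · exact ⟨1, EE_of_common (k := 1) (v := v) h (by omega)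
        (show 0 < deg (src 2) (D 2) v by omega)⟩
  · rintro ⟨k, h1, h2⟩ hdj
    have h3 := hdj (P - stp k 1)
    have h4 : 0 < deg (src k) (D k) (P - stp k 1) := deg_pos.2 ⟨_, h1, src_eA k P⟩
    have h5 : 0 < deg (src (k+1)) (D (k+1)) (P - stp k 1) := deg_pos.2 ⟨_, h2, src_eB k P⟩
    have h6 := sum3n (fun k' => deg (src k') (D k') (P - stp k 1)) k
    rw [Fin.sum_univ_three] at h3
    omega

theorem EE_unique {m : ℤ} {P : Pt} {D : Fin 3 → Finset Tile} (h : D ∈ PT m P) {k k' : Fin 3}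
    (h1 : EE k P D) (h2 : EE k' P D) : k = k' := by
  have key : ∀ k : Fin 3, EE k P D → ¬ EE (k+1) P D := by
    rintro k ⟨-, a2⟩ ⟨b1, -⟩
    have := deg_unique (deg_le_one h (k+1) P).2 a2 b1 (tgt_eB k P) (tgt_eA (k+1) P)
    have h0 := congrFun this (k+1)
    have h1 := congrFun this (k+1+1)
    rw [eA, eB, strT_one, strT_one] at h1
    have h2 : stp k 1 = stp (k+1) 1 := by
      have := congrArg (fun x => P - x) h1
      simpa using this
    rw [← stp_eq] at h2
    exact absurd (stp_inj h2) (by decide)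
  rcases cases3 k k' with rfl | rfl | rfl
  · rfl
  · exact absurd h2 (key k h1)
  · have := key (k+2) h2
    rw [add_two_one] at this
    exact absurd h1 this

theorem prod3 {R : Type*} [CommRing R] (f : Fin 3 → R) (k : Fin 3) :
    ∏ i, f i = f k * f (k+1) * f (k+2) := by
  rw [Fin.prod_univ_three]
  fin_cases k
  · rfl
  · show _ = f 1 * f 2 * f 0
    ring
  · show _ = f 2 * f 0 * f 1
    ring

section
variable {R : Type*} [CommRing R]

open Classical in
theorem sum_E (wt : Tile → R) {m : ℤ} {P : Pt} (k : Fin 3) :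
    ∑ D ∈ PT m P, (if EE k P D then ∏ k, ∏ τ ∈ D k, wt τ else 0) =
      (∑ A ∈ (paths (src k) (tgt k) (arcs m k) (co m k) P).filter (fun A => eA k P ∈ A),
        ∏ τ ∈ A, wt τ) *
      (∑ A ∈ (paths (src (k+1)) (tgt (k+1)) (arcs m (k+1)) (co m (k+1)) P).filter
        (fun A => eB k P ∈ A), ∏ τ ∈ A, wt τ) *
      WW wt m (k+2) (co m (k+2)) P := by
  let g : Fin 3 → Finset Tile → R := fun i A =>
    if i = k then (if eA k P ∈ A then ∏ τ ∈ A, wt τ else 0)
    else if i = k + 1 then (if eB k P ∈ A then ∏ τ ∈ A, wt τ else 0)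
    else ∏ τ ∈ A, wt τ
  have g0 : ∀ A, g k A = if eA k P ∈ A then ∏ τ ∈ A, wt τ else 0 := fun A => by simp [g]
  have g1 : ∀ A, g (k+1) A = if eB k P ∈ A then ∏ τ ∈ A, wt τ else 0 := fun A => by
    simp [g]
  have g2 : ∀ A, g (k+2) A = ∏ τ ∈ A, wt τ := fun A => by
    simp [g, (one_ne_two k).symm]
  have h1 : ∀ D : Fin 3 → Finset Tile, (if EE k P D then ∏ k, ∏ τ ∈ D k, wt τ else 0) =
      ∏ i, g i (D i) := by
    intro D
    rw [prod3 (fun i => g i (D i)) k, g0, g1, g2, prod3 (fun i => ∏ τ ∈ D i, wt τ) k]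
    unfold EE
    by_cases a1 : eA k P ∈ D k
    · by_cases a2 : eB k P ∈ D (k+1)
      · rw [if_pos ⟨a1, a2⟩, if_pos a1, if_pos a2]
      · rw [if_neg (fun h => a2 h.2), if_neg a2]; ring
    · rw [if_neg (fun h => a1 h.1), if_neg a1]; ring
  rw [sum_congr rfl (fun D _ => h1 D), PT, ← prod_univ_sum, prod3 _ k]
  congr 1
  · congr 1
    · rw [sum_filter]
      exact sum_congr rfl fun A _ => g0 A
    · rw [sum_filter]
      exact sum_congr rfl fun A _ => g1 A
  · rw [WW, W]
    exact sum_congr rfl fun A _ => g2 A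

/-- the value of the correction term -/
theorem sum_E_val (wt : Tile → R) (w : Fin 3 → R) (y : R) (hwt : ∀ k, WtStr wt k (w k) y) {m : ℤ}
    {P : Pt} (hP : P ∈ XX m) (k : Fin 3) :
      (∑ A ∈ (paths (src k) (tgt k) (arcs m k) (co m k) P).filter (fun A => eA k P ∈ A),
        ∏ τ ∈ A, wt τ) *
      (∑ A ∈ (paths (src (k+1)) (tgt (k+1)) (arcs m (k+1)) (co m (k+1)) P).filter
        (fun A => eB k P ∈ A), ∏ τ ∈ A, wt τ) *
      WW wt m (k+2) (co m (k+2)) P =
      w k * w (k+1) * SZ (w k) y (P (k+2) - 1) (P (k+1)) *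
        SZ (w (k+1)) y (P k + 1) (P (k+2) - 1) * SZ (w (k+2)) y (P (k+1)) (P k) := by
  have hPc := (mem_XX' k).1 hP
  have h3 := WW_from_corner wt (hwt (k+2)) P hP
  rw [add_two_two, add_two_one] at h3
  rw [h3]
  by_cases hP' : P - stp k 1 ∈ XX m
  · have hc := (mem_XX' k).1 hP'
    simp only [Pi.sub_apply, stp_self, stp_one, stp_two] at hc
    have hc0 : 0 ≤ P k + 1 := by omega
    have hc2 : 1 ≤ P (k+2) := by
      have := hc.2.2.1
      simp at this
      omega
    have ne1 : P ≠ co m k := by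
      rintro rfl
      simp at hc2
    have ne2 : P ≠ co m (k+1) := by
      rintro rfl
      have : co m (k+1) (k+2) = 0 := by rw [← add_one_one]; simp
      omega
    have ha : eA k P ∈ arcs m k := by
      rw [eA, strT_mem_arcs]
      exact ⟨hP', by simpa using hP⟩
    have hb : eB k P ∈ arcs m (k+1) := by
      rw [eB, strT_mem_arcs, stp_eq]
      exact ⟨hP', by simpa using hP⟩
    rw [sum_last wt arcs_phi ne1 ha (tgt_eA k P), sum_last wt arcs_phi ne2 hb (tgt_eB k P),
      src_eA, src_eB]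
    have h1 := WW_from_corner wt (hwt k) _ hP'
    have h2 := WW_from_corner wt (hwt (k+1)) _ hP'
    rw [WW] at h1 h2
    rw [h1, h2, add_one_two, add_one_one]
    have e1 : wt (eA k P) = w k := ((hwt k) _).2.1
    have e2 : wt (eB k P) = w (k+1) := ((hwt (k+1)) _).2.2
    rw [e1, e2]
    have f1 : (P - stp k 1) k = P k + 1 := by
      rw [Pi.sub_apply, stp_self, if_neg (by decide)]; ring
    have f2 : (P - stp k 1) (k+1) = P (k+1) := by
      rw [Pi.sub_apply, stp_one, if_pos rfl]; ring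
    have f3 : (P - stp k 1) (k+2) = P (k+2) - 1 := by
      rw [Pi.sub_apply, stp_two, if_neg (by decide), if_pos rfl]
    rw [f1, f2, f3]
    ring
  · have hc2 : P (k+2) - 1 < 0 := by
      by_contra hcon
      apply hP'
      rw [mem_XX' k]
      simp only [Pi.sub_apply, stp_self, stp_one, stp_two]
      simp
      omega
    rw [SZ_neg_left (w k) y hc2]
    have hz : (paths (src k) (tgt k) (arcs m k) (co m k) P).filter (fun A => eA k P ∈ A) = ∅ := by
      rw [filter_eq_empty_iff]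
      intro A hA hcon
      have := (mem_paths.1 hA).1 hcon
      rw [eA, strT_mem_arcs] at this
      exact hP' this.1
    rw [hz, sum_empty]
    ring

/-- the number of tilings of the first region -/
theorem count_A (wt : Tile → R) (hg : ∀ x, wt (goodT x) = 1) (w : Fin 3 → R) (y : R)
    (hwt : ∀ k, WtStr wt k (w k) y) {m : ℤ} (hm : 0 ≤ m) :
    ∑ F ∈ Fam m (XiA m), ∏ τ ∈ F, wt τ =
      ∑ P ∈ XX m, (∏ k, SZ (w k) y (P (k+2)) (P (k+1)) -
        ∑ k, w k * w (k+1) * SZ (w k) y (P (k+2) - 1) (P (k+1)) *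
        SZ (w (k+1)) y (P k + 1) (P (k+2) - 1) * SZ (w (k+2)) y (P (k+1)) (P k)) := by
  classical
  rw [sum_Fam_A wt hg hm]
  refine sum_congr rfl fun P hP => ?_
  have h1 : ∀ D ∈ PT m P, (if Dj D then ∏ k, ∏ τ ∈ D k, wt τ else 0) =
      ∏ k, ∏ τ ∈ D k, wt τ - ∑ k, (if EE k P D then ∏ k, ∏ τ ∈ D k, wt τ else 0) := by
    intro D hD
    by_cases hdj : Dj D
    · rw [if_pos hdj]
      have : ∀ k, ¬ EE k P D := fun k hk => (dj_iff hD).2 ⟨k, hk⟩ hdj
      simp [this]
    · rw [if_neg hdj]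
      obtain ⟨k, hk⟩ := (dj_iff hD).1 hdj
      rw [sum_eq_single k]
      · rw [if_pos hk]; ring
      · intro k' _ hne
        rw [if_neg (fun h => hne (EE_unique hD h hk))]
      · intro h; exact absurd (mem_univ _) h
  rw [sum_congr rfl h1, sum_sub_distrib, sum_comm]
  congr 1
  · rw [PT, ← prod_univ_sum (fun k => paths (src k) (tgt k) (arcs m k) (co m k) P)
      (fun _ A => ∏ τ ∈ A, wt τ)]
    refine prod_congr rfl fun k _ => ?_
    exact WW_from_corner wt (hwt k) P hP
  · refine sum_congr rfl fun k _ => ?_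
    rw [sum_E, sum_E_val wt w y hwt hP]

end

end Q230.Bz
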