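import Mathlib
import Pool.Agent.Q230.BzCountA2

/-! # Counting tilings of the second region -/

set_option linter.unusedSectionVars false

namespace Q230.Bz

open Finset

open Classical in
/-- bad tiles in the triangle -/
noncomputable def BadT (m : ℤ) : Finset Tile :=
  (Fintype.piFinset (fun _ : Fin 3 => XX m)).filter IsBad

theorem mem_BadT {m : ℤ} {τ : Tile} : τ ∈ BadT m ↔ (∀ κ, τ κ ∈ XX m) ∧ IsBad τ := by
  simp only [BadT, mem_filter, Fintype.mem_piFinset]

/-- path triples from a bad tile to the corners -/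
noncomputable def PB (m : ℤ) (τ : Tile) : Finset (Fin 3 → Finset Tile) :=
  Fintype.piFinset (fun k => paths (src k) (tgt k) (arcs m k) (τ k) (co m (k+1)))

theorem mem_PB {m : ℤ} {τ : Tile} {D : Fin 3 → Finset Tile} :
    D ∈ PB m τ ↔ ∀ k, D k ⊆ arcs m k ∧ IsPath (src k) (tgt k) (D k) (τ k) (co m (k+1)) := by
  unfold PB
  simp only [Fintype.mem_piFinset, mem_paths]

/-- visits -/
def vis (τ : Tile) (D : Fin 3 → Finset Tile) (k : Fin 3) (v : Pt) : ℕ :=
  ind v (τ k) + deg (tgt k) (D k) v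

/-- the points carrying a good stone -/
noncomputable def GB (m : ℤ) (τ : Tile) (D : Fin 3 → Finset Tile) : Finset Pt :=
  (XX m).filter (fun v => ∀ k, vis τ D k v = 0)

theorem vis_disj {m : ℤ} {τ : Tile} (hb : BadF m τ) {D : Fin 3 → Finset Tile} (h : D ∈ PB m τ)
    (k : Fin 3) (v : Pt) : vis τ D k v = 0 ∨ vis τ D (k+1) v = 0 := by
  by_contra hcon
  push Not at hcon
  have hD := mem_PB.1 h
  have hφ : ∀ k, ∀ τ ∈ D k, phi k (src k τ) < phi k (tgt k τ) :=
    fun k τ hτ => arcs_phi τ ((hD k).1 hτ)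
  have a1 := (hD k).2.le_visited (hφ k) (c := fun x => x (k+1))
    (fun e' he' => (mem_arcs.1 ((hD k).1 he')).2.facts.le1) (v := v)
    (Nat.pos_of_ne_zero hcon.1)
  have a2 := (hD (k+1)).2.le_visited (hφ (k+1)) (c := fun x => - x (k+1))
    (fun e' he' => neg_le_neg (mem_arcs.1 ((hD (k+1)).1 he')).2.facts.le0) (v := v)
    (Nat.pos_of_ne_zero hcon.2)
  have a3 := hb.lt (k+1)
  rw [add_one_two] at a3
  omega

theorem vis_le {m : ℤ} {τ : Tile} {D : Fin 3 → Finset Tile} (h : D ∈ PB m τ) (k : Fin 3)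
    (v : Pt) : vis τ D k v ≤ 1 := ((mem_PB.1 h) k).2.le v

theorem GB_ind {m : ℤ} {τ : Tile} (hb : BadF m τ) {D : Fin 3 → Finset Tile} (h : D ∈ PB m τ)
    {v : Pt} (hv : v ∈ XX m) : (if v ∈ GB m τ D then 1 else 0) +
      (vis τ D 0 v + vis τ D 1 v + vis τ D 2 v) = 1 := by
  have d0 := vis_disj hb h 0 v
  have d1 := vis_disj hb h 1 v
  have d2 := vis_disj hb h 2 v
  have l0 := vis_le h 0 v
  have l1 := vis_le h 1 v
  have l2 := vis_le h 2 v
  have d0' : vis τ D 0 v = 0 ∨ vis τ D 1 v = 0 := d0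
  have d1' : vis τ D 1 v = 0 ∨ vis τ D 2 v = 0 := d1
  have d2' : vis τ D 2 v = 0 ∨ vis τ D 0 v = 0 := d2
  by_cases hG : v ∈ GB m τ D
  · rw [if_pos hG]
    simp only [GB, mem_filter] at hG
    rw [hG.2 0, hG.2 1, hG.2 2]
  · rw [if_neg hG]
    simp only [GB, mem_filter, not_and, not_forall] at hG
    obtain ⟨k, hk⟩ := hG hv
    fin_cases k
    · have : vis τ D 0 v ≠ 0 := hk
      omega
    · have : vis τ D 1 v ≠ 0 := hk
      omega
    · have : vis τ D 2 v ≠ 0 := hk
      omega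

theorem dat_B {m : ℤ} {τ : Tile} (hτ : IsBad τ) (hb : BadF m τ) {D : Fin 3 → Finset Tile}
    (h : ∀ k, D k ⊆ arcs m k) : Dat m D {τ} :=
  ⟨fun k τ hτ => (mem_arcs.1 (h k hτ)).2, fun σ hσ => by rw [mem_singleton.1 hσ]; exact hτ,
    fun σ hσ => by rw [mem_singleton.1 hσ]; exact hb⟩

theorem BadT_facts {m : ℤ} {τ : Tile} (h : τ ∈ BadT m) : BadF m τ := by
  rw [mem_BadT] at h
  exact h.2.facts (mem_XX.1 (h.1 0)).2.2.2

theorem deg_single {V : Type*} [DecidableEq V] (f : Tile → V) (τ : Tile) (v : V) :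
    deg f {τ} v = ind v (f τ) := by
  unfold deg ind
  rw [filter_singleton]
  by_cases h : f τ = v
  · rw [if_pos h, if_pos h.symm]; rfl
  · rw [if_neg h, if_neg (fun h' => h h'.symm)]; rfl

theorem asmB_mem {m : ℤ} (hm : 0 < m) {τ : Tile} (hτ : τ ∈ BadT m) {D : Fin 3 → Finset Tile}
    (h : D ∈ PB m τ) : asm (GB m τ D) D {τ} ∈ Fam m (XiB m) := by
  have hD := mem_PB.1 h
  have hb := BadT_facts hτ
  rw [mem_BadT] at hτ
  have hdat := dat_B hτ.2 hb (fun k => (hD k).1)
  rw [mem_Fam]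
  refine ⟨?_, ?_, ?_⟩
  · intro σ hσ κ
    rw [mem_asm] at hσ
    rcases hσ with ⟨x, hx, rfl⟩ | ⟨k, hk⟩ | hB
    · simp only [GB, mem_filter] at hx
      exact hx.1
    · exact (mem_arcs.1 ((hD k).1 hk)).1 κ
    · rw [mem_singleton.1 hB]; exact hτ.1 κ
  · intro σ hσ
    rw [mem_asm] at hσ
    rcases hσ with ⟨x, hx, rfl⟩ | ⟨k, hk⟩ | hB
    · exact Or.inl ⟨x, rfl⟩
    · exact Or.inr (Or.inl ⟨k, (mem_arcs.1 ((hD k).1 hk)).2⟩)
    · rw [mem_singleton.1 hB]; exact Or.inr (Or.inr hτ.2)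
  · intro κ v
    show deg (fun τ : Tile => τ κ) _ v = _
    rw [hdat.deg_asm κ v, deg_single]
    have hs := sum3n (fun k => vis τ D k v) κ
    have b0 : vis τ D κ v = ind v (τ κ) + deg (tgt κ) (D κ) v := rfl
    have b1 : vis τ D (κ+1) v = ind v (co m (κ+1+1)) + deg (src (κ+1)) (D (κ+1)) v :=
      (hD (κ+1)).2.bal v
    have b2 : vis τ D (κ+2) v = ind v (co m (κ+2+1)) + deg (src (κ+2)) (D (κ+2)) v :=
      (hD (κ+2)).2.bal v
    rw [add_one_one] at b1
    rw [add_two_one] at b2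
    by_cases hv : v ∈ XX m
    · have hg := GB_ind hb h hv
      by_cases hc : v = co m κ
      · rw [if_neg (show v ∉ XiB m κ from fun h => (mem_XiB.1 h).2.1 hc)]
        have e1 : ind v (co m κ) = 1 := by rw [hc, ind_self]
        have e2 : ind v (co m (κ+2)) = 0 := by
          rw [hc]; exact ind_ne (co_ne hm (ne_two κ).symm)
        omega
      · by_cases hc2 : v = co m (κ+2)
        · rw [if_neg (show v ∉ XiB m κ from fun h => (mem_XiB.1 h).1 hc2)]
          have e1 : ind v (co m κ) = 0 := ind_ne hc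
          have e2 : ind v (co m (κ+2)) = 1 := by rw [hc2, ind_self]
          omega
        · rw [if_pos (show v ∈ XiB m κ from mem_XiB.2 ⟨hc2, hc, hv⟩)]
          have e1 : ind v (co m κ) = 0 := ind_ne hc
          have e2 : ind v (co m (κ+2)) = 0 := ind_ne hc2
          omega
    · rw [if_neg (show v ∉ XiB m κ from fun h => hv (mem_XiB.1 h).2.2), if_neg,
        (deg_zero_of_notMem (hD κ).1 hv).2, (deg_zero_of_notMem (hD (κ+1)).1 hv).1,
        (deg_zero_of_notMem (hD (κ+2)).1 hv).1,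
        ind_ne (show v ≠ τ κ from fun h => hv (h ▸ hτ.1 κ))]
      simp only [GB, mem_filter]
      exact fun h => hv h.1

theorem asmB_inj {m : ℤ} {τ τ' : Tile} {D D' : Fin 3 → Finset Tile} (hτ : τ ∈ BadT m)
    (hτ' : τ' ∈ BadT m) (h : D ∈ PB m τ) (h' : D' ∈ PB m τ')
    (he : asm (GB m τ D) D {τ} = asm (GB m τ' D') D' {τ'}) : τ = τ' ∧ D = D' := by
  classical
  have hD := mem_PB.1 h
  have hD' := mem_PB.1 h'
  have hb := BadT_facts hτ
  have hb' := BadT_facts hτ'
  rw [mem_BadT] at hτ hτ'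
  have hdat := dat_B hτ.2 hb (fun k => (hD k).1)
  have hdat' := dat_B hτ'.2 hb' (fun k => (hD' k).1)
  have hDD : D = D' := by
    funext k
    rw [← hdat.filter_str (G := GB m τ D) k, he, hdat'.filter_str k]
  have hBB : ({τ} : Finset Tile) = {τ'} := by
    rw [← hdat.filter_bad (G := GB m τ D) (fun k σ hσ => (mem_arcs.1 ((hD k).1 hσ)).1)
      (fun x hx => (mem_filter.1 hx).1), he,
      hdat'.filter_bad (G := GB m τ' D') (fun k σ hσ => (mem_arcs.1 ((hD' k).1 hσ)).1)
      (fun x hx => (mem_filter.1 hx).1)]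
  exact ⟨singleton_injective hBB, hDD⟩

open Classical in
theorem asmB_surj {m : ℤ} (hm : 0 < m) {F : Finset Tile} (hF : F ∈ Fam m (XiB m)) :
    ∃ τ D, τ ∈ BadT m ∧ D ∈ PB m τ ∧ asm (GB m τ D) D {τ} = F := by
  rw [mem_Fam] at hF
  obtain ⟨hX, hK, hC⟩ := hF
  have hsys := sysB hK hC
  obtain ⟨τ, hτ, hτb, huniq⟩ := one_bad hm hsys
  have hB : F.filter IsBad = {τ} := by
    ext σ
    rw [mem_filter, mem_singleton]
    constructor
    · rintro ⟨h1, h2⟩; exact huniq σ h1 h2
    · rintro rfl; exact ⟨hτ, hτb⟩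
  have hasm := eq_asm hK hX
  have hdat := dat_of hX
  rw [hB] at hasm hdat
  set G := (XX m).filter (fun x => goodT x ∈ F) with hG
  set D : Fin 3 → Finset Tile := fun k => F.filter (IsStr k) with hD
  have hDA : ∀ k, D k ⊆ arcs m k := by
    intro k τ hτ
    rw [hD, mem_filter] at hτ
    exact mem_arcs.2 ⟨hX τ hτ.1, hτ.2⟩
  have cov : ∀ κ v, (if v ∈ G then 1 else 0) + deg (tgt κ) (D κ) v +
      deg (src (κ+1)) (D (κ+1)) v + deg (src (κ+2)) (D (κ+2)) v + ind v (τ κ) =
      if v ∈ XiB m κ then 1 else 0 := by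
    intro κ v
    have h1 : deg (fun τ : Tile => τ κ) F v = if v ∈ XiB m κ then 1 else 0 := hC κ v
    rw [← h1]
    have h2 := hdat.deg_asm (G := G) κ v
    rw [← hasm, deg_single] at h2
    omega
  let term : Pt → ℕ := fun v => (if v ∈ G then 1 else 0) +
    (deg (src 0) (D 0) v + deg (src 1) (D 1) v + deg (src 2) (D 2) v)
  have e1 : (1 : Fin 3) + 1 = 2 := rfl
  have e2 : (1 : Fin 3) + 2 = 0 := rfl
  have e3 : (2 : Fin 3) + 1 = 0 := rfl
  have e4 : (2 : Fin 3) + 2 = 1 := rfl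
  have e5 : (0 : Fin 3) + 1 = 1 := rfl
  have e6 : (0 : Fin 3) + 2 = 2 := rfl
  have term_le : ∀ v, term v ≤ 1 := by
    intro v
    have c0 := cov 0 v
    have c1 := cov 1 v
    have c2 := cov 2 v
    rw [e5, e6] at c0
    rw [e1, e2] at c1
    rw [e3, e4] at c2
    simp only [term]
    split_ifs at * <;> omega
  -- corners
  have term_co : ∀ j, term (co m j) = 0 := by
    intro j
    have n0 : co m j ∉ XiB m j := fun h => (mem_XiB.1 h).2.1 rfl
    have n1 : co m j ∉ XiB m (j+1) := fun h => (mem_XiB.1 h).1 (by rw [add_one_two])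
    have c0 := cov j (co m j)
    have c1 := cov (j+1) (co m j)
    rw [if_neg n0] at c0
    rw [if_neg n1, add_one_one, add_one_two] at c1
    have h3 := sum3n (fun k => deg (src k) (D k) (co m j)) j
    simp only [term]
    omega
  have sum_deg : ∀ k, ∑ v ∈ XX m, deg (src k) (D k) v = (D k).card := by
    intro k
    unfold deg
    rw [← card_eq_sum_card_fiberwise]
    intro τ hτ
    exact (mem_arcs.1 (hDA k hτ)).1 _
  have sum_term : ∑ v ∈ XX m, term v + 1 = F.card := by
    simp only [term]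
    rw [sum_add_distrib, sum_add_distrib, sum_add_distrib, sum_deg, sum_deg, sum_deg,
      ← card_filter]
    have h1 := hdat.card_asm (G := G)
    rw [← hasm, card_singleton] at h1
    rw [h1]
    have : (XX m).filter (fun x => x ∈ G) = G := by
      ext x; simp only [hG, mem_filter]; tauto
    rw [this]
    ring
  have hcard : F.card + 2 = (XX m).card := by
    have hmem : co m 2 ∈ (XX m).erase (co m 0) :=
      mem_erase.2 ⟨co_ne hm (by decide), co_mem hm.le 2⟩
    rw [hC.card_eq 0, XiB, e6, card_erase_of_mem hmem, card_erase_of_mem (co_mem hm.le 0)]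
    have h1 := card_pos.2 ⟨_, hmem⟩
    rw [card_erase_of_mem (co_mem hm.le 0)] at h1
    omega
  have hthree : ((XX m).filter (fun v => term v = 0)).card = 3 := by
    have h1 : ∑ v ∈ XX m, term v = ((XX m).filter (fun v => ¬ term v = 0)).card := by
      rw [card_filter]
      refine sum_congr rfl fun v _ => ?_
      have := term_le v
      split_ifs <;> omega
    have h2 := card_filter_add_card_filter_not (s := XX m) (fun v => term v = 0)
    omega
  have hcor : (univ : Finset (Fin 3)).image (co m) = (XX m).filter (fun v => term v = 0) := by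
    apply eq_of_subset_of_card_le
    · intro v hv
      rw [mem_image] at hv
      obtain ⟨j, -, rfl⟩ := hv
      exact mem_filter.2 ⟨co_mem hm.le j, term_co j⟩
    · rw [hthree, card_image_of_injective]
      · simp
      · intro i j hij
        by_contra hne
        exact co_ne hm hne hij
  have hterm : ∀ v ∈ XX m, term v + (ind v (co m 0) + ind v (co m 1) + ind v (co m 2)) = 1 := by
    intro v hv
    by_cases hc : ∃ j, v = co m j
    · obtain ⟨j, rfl⟩ := hc
      rw [term_co j]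
      have h3 := sum3n (fun k => ind (co m j) (co m k)) j
      have a0 : ind (co m j) (co m j) = 1 := ind_self _
      have a1 : ind (co m j) (co m (j+1)) = 0 := ind_ne (co_ne hm (ne_one j).symm)
      have a2 : ind (co m j) (co m (j+2)) = 0 := ind_ne (co_ne hm (ne_two j).symm)
      omega
    · have h1 := term_le v
      have h2 : term v ≠ 0 := by
        intro h0
        have : v ∈ (XX m).filter (fun v => term v = 0) := mem_filter.2 ⟨hv, h0⟩
        rw [← hcor, mem_image] at this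
        obtain ⟨j, -, rfl⟩ := this
        exact hc ⟨j, rfl⟩
      rw [ind_ne (fun h => hc ⟨0, h⟩), ind_ne (fun h => hc ⟨1, h⟩), ind_ne (fun h => hc ⟨2, h⟩)]
      omega
  have hτX := fun κ => hX τ hτ κ
  have hτB : τ ∈ BadT m := mem_BadT.2 ⟨hτX, hτb⟩
  have hPB : D ∈ PB m τ := by
    rw [mem_PB]
    intro k
    have bal : ∀ v, ind v (τ k) + deg (tgt k) (D k) v =
        ind v (co m (k+1)) + deg (src k) (D k) v := by
      intro v
      by_cases hv : v ∈ XX m
      · have h1 := cov k v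
        have h2 := hterm v hv
        have h3 := sum3n (fun k => deg (src k) (D k) v) k
        have h4 := sum3n (fun k => ind v (co m k)) k
        simp only [term] at h2
        by_cases hc : v = co m k
        · rw [if_neg (show v ∉ XiB m k from fun h => (mem_XiB.1 h).2.1 hc)] at h1
          have a0 : ind v (co m k) = 1 := by rw [hc, ind_self]
          have a2 : ind v (co m (k+2)) = 0 := by
            rw [hc]; exact ind_ne (co_ne hm (ne_two k).symm)
          omega
        · by_cases hc2 : v = co m (k+2)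
          · rw [if_neg (show v ∉ XiB m k from fun h => (mem_XiB.1 h).1 hc2)] at h1
            have a0 : ind v (co m k) = 0 := ind_ne hc
            have a2 : ind v (co m (k+2)) = 1 := by rw [hc2, ind_self]
            omega
          · rw [if_pos (show v ∈ XiB m k from mem_XiB.2 ⟨hc2, hc, hv⟩)] at h1
            have a0 : ind v (co m k) = 0 := ind_ne hc
            have a2 : ind v (co m (k+2)) = 0 := ind_ne hc2
            omega
      · rw [(deg_zero_of_notMem (hDA k) hv).1, (deg_zero_of_notMem (hDA k) hv).2,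
          ind_ne (show v ≠ co m (k+1) from fun h => hv (h ▸ co_mem hm.le _)),
          ind_ne (show v ≠ τ k from fun h => hv (h ▸ hτX k))]
    refine ⟨hDA k, bal, fun v => ?_⟩
    by_cases hv : v ∈ XX m
    · have h1 := cov k v
      have : (if v ∈ XiB m k then 1 else 0) ≤ 1 := by split_ifs <;> omega
      omega
    · rw [(deg_zero_of_notMem (hDA k) hv).2]
      have := ind_le_one v (τ k)
      omega
  refine ⟨τ, D, hτB, hPB, ?_⟩
  have hb := BadT_facts hτB
  have hGG : GB m τ D = G := by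
    ext v
    by_cases hv : v ∈ XX m
    · have h1 := GB_ind hb hPB hv
      have h2 := hterm v hv
      simp only [term] at h2
      have b0 : vis τ D 0 v = ind v (co m (0+1)) + deg (src 0) (D 0) v :=
        ((mem_PB.1 hPB) 0).2.bal v
      have b1 : vis τ D 1 v = ind v (co m (1+1)) + deg (src 1) (D 1) v :=
        ((mem_PB.1 hPB) 1).2.bal v
      have b2 : vis τ D 2 v = ind v (co m (2+1)) + deg (src 2) (D 2) v :=
        ((mem_PB.1 hPB) 2).2.bal v
      rw [e5] at b0
      rw [e1] at b1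
      rw [e3] at b2
      by_cases a1 : v ∈ GB m τ D
      · by_cases a2 : v ∈ G
        · exact ⟨fun _ => a2, fun _ => a1⟩
        · rw [if_pos a1] at h1
          rw [if_neg a2] at h2
          omega
      · by_cases a2 : v ∈ G
        · rw [if_neg a1] at h1
          rw [if_pos a2] at h2
          omega
        · exact ⟨fun h => absurd h a1, fun h => absurd h a2⟩
    · constructor
      · intro h; exact absurd (mem_filter.1 h).1 hv
      · intro h; exact absurd (mem_filter.1 h).1 hv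
  rw [hGG]
  exact hasm.symm

section
variable {R : Type*} [CommRing R]

theorem sum_Fam_B (wt : Tile → R) (hg : ∀ x, wt (goodT x) = 1) {m : ℤ} (hm : 0 < m) :
    ∑ F ∈ Fam m (XiB m), ∏ τ ∈ F, wt τ =
      ∑ τ ∈ BadT m, wt τ * ∏ k, WW wt m k (τ k) (co m (k+1)) := by
  have h1 : ∑ i ∈ (BadT m).sigma (fun τ => PB m τ), (∏ k, ∏ τ ∈ i.2 k, wt τ) * wt i.1 =
      ∑ F ∈ Fam m (XiB m), ∏ τ ∈ F, wt τ := by
    refine sum_bij (fun i _ => asm (GB m i.1 i.2) i.2 {i.1}) ?_ ?_ ?_ ?_
    · intro i hi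
      rw [mem_sigma] at hi
      exact asmB_mem hm hi.1 hi.2
    · intro i hi j hj he
      rw [mem_sigma] at hi hj
      obtain ⟨e1, e2⟩ := asmB_inj hi.1 hj.1 hi.2 hj.2 he
      rcases i with ⟨P, D⟩
      rcases j with ⟨P', D'⟩
      simp only at e1 e2
      subst e1; subst e2
      rfl
    · intro F hF
      obtain ⟨τ, D, hτ, hD, he⟩ := asmB_surj hm hF
      exact ⟨⟨τ, D⟩, mem_sigma.2 ⟨hτ, hD⟩, he⟩
    · intro i hi
      rw [mem_sigma] at hi
      have hdat := dat_B (mem_BadT.1 hi.1).2 (BadT_facts hi.1)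
        (fun k => ((mem_PB.1 hi.2) k).1)
      rw [hdat.prod_asm wt hg, prod_singleton]
  rw [← h1, sum_sigma]
  refine sum_congr rfl fun τ _ => ?_
  show ∑ D ∈ PB m τ, (∏ k, ∏ σ ∈ D k, wt σ) * wt τ = _
  rw [← sum_mul, mul_comm, PB, ← prod_univ_sum
    (fun k => paths (src k) (tgt k) (arcs m k) (τ k) (co m (k+1))) (fun _ A => ∏ τ ∈ A, wt τ)]
  rfl

theorem bs1_mem {m : ℤ} {y : Pt} : (∀ κ, bs1 y κ ∈ XX m) ↔ y ∈ XX (m-1) := by
  constructor
  · intro h
    have h0 := mem_XX.1 (h 0)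
    have h1 := mem_XX.1 (h 1)
    simp [bs1, ee] at h0 h1
    rw [mem_XX]
    omega
  · intro h κ
    rw [mem_XX] at h
    rw [mem_XX]
    fin_cases κ <;> simp [bs1, ee] <;> omega

theorem bs2_mem {m : ℤ} {y : Pt} : (∀ κ, bs2 y κ ∈ XX m) ↔ y ∈ XX (m-2) := by
  constructor
  · intro h
    have h0 := mem_XX.1 (h 0)
    have h1 := mem_XX.1 (h 1)
    have h2 := mem_XX.1 (h 2)
    simp [bs2, ee] at h0 h1 h2
    rw [mem_XX]
    omega
  · intro h κ
    rw [mem_XX] at h
    rw [mem_XX]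
    fin_cases κ <;> simp [bs2, ee] <;> omega

theorem bb_mem {m : ℤ} {κ0 : Fin 3} {y : Pt} : (∀ κ, bb κ0 y κ ∈ XX m) ↔ y ∈ XX (m-2) := by
  constructor
  · intro h
    have h0 := mem_XX.1 (h 0)
    have h1 := mem_XX.1 (h 1)
    have h2 := mem_XX.1 (h 2)
    rw [mem_XX]
    fin_cases κ0 <;> simp [bb, ee] at h0 h1 h2 <;> omega
  · intro h κ
    rw [mem_XX] at h
    rw [mem_XX]
    fin_cases κ0 <;> fin_cases κ <;> simp [bb, ee] <;> omega

theorem sum_BadT (f : Tile → R) (m : ℤ) :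
    ∑ τ ∈ BadT m, f τ = ∑ y ∈ XX (m-1), f (bs1 y) + ∑ y ∈ XX (m-2), f (bs2 y) +
      ∑ κ, ∑ y ∈ XX (m-2), f (bb κ y) := by
  classical
  have h1 : BadT m = (XX (m-1)).image bs1 ∪ ((XX (m-2)).image bs2 ∪
      ((univ : Finset (Fin 3)) ×ˢ XX (m-2)).image (fun p => bb p.1 p.2)) := by
    ext τ
    rw [mem_BadT]
    simp only [mem_union, mem_image, mem_product, mem_univ, true_and]
    constructor
    · rintro ⟨h, ⟨y, rfl⟩ | ⟨y, rfl⟩ | ⟨κ, y, rfl⟩⟩
      · exact Or.inl ⟨y, bs1_mem.1 h, rfl⟩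
      · exact Or.inr (Or.inl ⟨y, bs2_mem.1 h, rfl⟩)
      · exact Or.inr (Or.inr ⟨(κ, y), bb_mem.1 h, rfl⟩)
    · rintro (⟨y, h, rfl⟩ | ⟨y, h, rfl⟩ | ⟨⟨κ, y⟩, h, rfl⟩)
      · exact ⟨bs1_mem.2 h, Or.inl ⟨y, rfl⟩⟩
      · exact ⟨bs2_mem.2 h, Or.inr (Or.inl ⟨y, rfl⟩)⟩
      · exact ⟨bb_mem.2 h, Or.inr (Or.inr ⟨κ, y, rfl⟩)⟩
  have d12 : ∀ y y', bs1 y ≠ bs2 y' := by
    intro y y' h
    have a := congrFun (congrFun h 0) 0
    have b := congrFun (congrFun h 1) 0
    simp [bs1, bs2, ee] at a b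
    omega
  have d13 : ∀ y κ y', bs1 y ≠ bb κ y' := by
    intro y κ y' h
    have a0 := congrFun (congrFun h 0) 0
    have b0 := congrFun (congrFun h 1) 0
    have c0 := congrFun (congrFun h 2) 0
    have a1 := congrFun (congrFun h 0) 1
    have b1 := congrFun (congrFun h 1) 1
    have c1 := congrFun (congrFun h 2) 1
    have a2 := congrFun (congrFun h 0) 2
    have b2 := congrFun (congrFun h 1) 2
    have c2 := congrFun (congrFun h 2) 2
    fin_cases κ <;> simp [bs1, bb, ee] at a0 b0 c0 a1 b1 c1 a2 b2 c2 <;> omega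
  have d23 : ∀ y κ y', bs2 y ≠ bb κ y' := by
    intro y κ y' h
    have a0 := congrFun (congrFun h 0) 0
    have b0 := congrFun (congrFun h 1) 0
    have c0 := congrFun (congrFun h 2) 0
    have a1 := congrFun (congrFun h 0) 1
    have b1 := congrFun (congrFun h 1) 1
    have c1 := congrFun (congrFun h 2) 1
    have a2 := congrFun (congrFun h 0) 2
    have b2 := congrFun (congrFun h 1) 2
    have c2 := congrFun (congrFun h 2) 2
    fin_cases κ <;> simp [bs2, bb, ee] at a0 b0 c0 a1 b1 c1 a2 b2 c2 <;> omega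
  have i1 : ∀ y y', bs1 y = bs1 y' → y = y' := by
    intro y y' h
    have := congrFun h 0
    simpa [bs1] using this
  have i2 : ∀ y y', bs2 y = bs2 y' → y = y' := by
    intro y y' h
    have := congrFun h 0
    simpa [bs2] using this
  have i3 : ∀ κ y κ' y', bb κ y = bb κ' y' → κ = κ' ∧ y = y' := by
    intro κ y κ' y' h
    have a0 := congrFun (congrFun h 0) 0
    have b0 := congrFun (congrFun h 1) 0
    have c0 := congrFun (congrFun h 2) 0
    have a1 := congrFun (congrFun h 0) 1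
    have b1 := congrFun (congrFun h 1) 1
    have c1 := congrFun (congrFun h 2) 1
    have a2 := congrFun (congrFun h 0) 2
    have b2 := congrFun (congrFun h 1) 2
    have c2 := congrFun (congrFun h 2) 2
    have hk : κ = κ' := by
      fin_cases κ <;> fin_cases κ' <;> simp [bb, ee] at a0 b0 c0 a1 b1 c1 a2 b2 c2 ⊢ <;> omega
    refine ⟨hk, ?_⟩
    subst hk
    have := congrFun h κ
    simpa [bb] using this
  rw [h1, sum_union, sum_union, sum_image, sum_image, sum_image, sum_product, add_assoc]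
  · rintro ⟨κ, y⟩ _ ⟨κ', y'⟩ _ h
    obtain ⟨e1, e2⟩ := i3 _ _ _ _ h
    exact Prod.ext e1 e2
  · exact fun y _ y' _ h => i2 _ _ h
  · exact fun y _ y' _ h => i1 _ _ h
  · rw [disjoint_left]
    intro τ a b
    simp only [mem_image] at a b
    obtain ⟨y, _, rfl⟩ := a
    obtain ⟨p, _, hp⟩ := b
    exact d23 _ _ _ hp.symm
  · rw [disjoint_left]
    intro τ a b
    simp only [mem_image, mem_union] at a b
    obtain ⟨y, _, rfl⟩ := a
    rcases b with ⟨y', _, h⟩ | ⟨p, _, hp⟩
    · exact d12 _ _ h.symm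
    · exact d13 _ _ _ hp.symm

/-- the number of tilings of the second region -/
theorem count_B (wt : Tile → R) (hg : ∀ x, wt (goodT x) = 1) (w : Fin 3 → R) (y : R)
    (hwt : ∀ k, WtStr wt k (w k) y) (h1 : ∀ x, wt (bs1 x) = 1) (h2 : ∀ x, wt (bs2 x) = 1)
    (h3 : ∀ κ x, wt (bb κ x) = w (κ+2)) {m : ℤ} (hm : 0 < m) :
    ∑ F ∈ Fam m (XiB m), ∏ τ ∈ F, wt τ =
      ∑ v ∈ XX (m-1), ∏ k, SZ (w k) y (v (k+2)) (v k) +
      ∑ v ∈ XX (m-2), ∏ k, SZ (w k) y (v (k+2) + 1) (v k) +
      ∑ κ, w (κ+2) * ∑ v ∈ XX (m-2), SZ (w κ) y (v (κ+2)) (v κ) *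
        SZ (w (κ+1)) y (v κ + 1) (v (κ+1)) * SZ (w (κ+2)) y (v (κ+1) + 1) (v (κ+2)) := by
  rw [sum_Fam_B wt hg hm, sum_BadT]
  have key : ∀ τ : Tile, (∀ κ, τ κ ∈ XX m) → ∏ k, WW wt m k (τ k) (co m (k+1)) =
      ∏ k, SZ (w k) y (τ k (k+2)) (τ k k) := by
    intro τ hτ
    exact prod_congr rfl fun k _ => WW_to_corner wt (hwt k) (τ k) (hτ k)
  congr 1
  · congr 1
    · refine sum_congr rfl fun v hv => ?_
      rw [h1, one_mul, key _ (bs1_mem.2 hv)]
      refine prod_congr rfl fun k _ => ?_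
      have e1 : bs1 v k (k+2) = v (k+2) := by
        simp only [bs1, Pi.add_apply]
        rw [ee_ne (one_ne_two k).symm, add_zero]
      have e2 : bs1 v k k = v k := by
        simp only [bs1, Pi.add_apply]
        rw [ee_ne (ne_one k).symm, add_zero]
      rw [e1, e2]
    · refine sum_congr rfl fun v hv => ?_
      rw [h2, one_mul, key _ (bs2_mem.2 hv)]
      refine prod_congr rfl fun k _ => ?_
      have e1 : bs2 v k (k+2) = v (k+2) + 1 := by
        simp only [bs2, Pi.add_apply]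
        rw [ee_ne (one_ne_two k).symm, add_zero, ee_self]
      have e2 : bs2 v k k = v k := by
        simp only [bs2, Pi.add_apply]
        rw [ee_ne (ne_one k).symm, ee_ne (ne_two k).symm, add_zero, add_zero]
      rw [e1, e2]
  · refine sum_congr rfl fun κ _ => ?_
    rw [mul_sum]
    refine sum_congr rfl fun v hv => ?_
    rw [h3, key _ (bb_mem.2 hv), prod3 _ κ, add_one_two, add_two_two]
    congr 1
    have a0 : bb κ v κ = v + ee (κ+1) + ee (κ+1) := by simp [bb]
    have a1 : bb κ v (κ+1) = v + ee κ + ee (κ+2) := by simp [bb]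
    have a2 : bb κ v (κ+2) = v + ee κ + ee (κ+1) := by
      simp [bb, (one_ne_two κ).symm]
    rw [a0, a1, a2]
    simp only [Pi.add_apply, ee_self]
    rw [ee_ne (one_ne_two κ).symm, ee_ne (ne_one κ).symm, ee_ne (ne_two κ).symm, ee_ne (ne_one κ),
      ee_ne (one_ne_two κ), ee_ne (ne_two κ)]
    simp

end

end Q230.Bz
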