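import Mathlib

/-!
# Benzels and their tilings by stones and bones: definitions

Cells of the hexagonal grid are the integer triples `(i,j,k)` with `i + j + k = 1`
(functions `c : Fin 3 → ℤ` with `c 0 + c 1 + c 2 = 1`).
-/

namespace Q230.Benzel

/-- Integer triples. The cells of the hexagonal grid are the triples with coordinate sum `1`. -/
abbrev Cell := Fin 3 → ℤ

/-- The unit vector `e i`. -/
def e (i : Fin 3) : Cell := Pi.single i 1

/-- The `(a,b)`-benzel. -/
def benzel (a b : ℤ) : Set Cell :=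
  {c | c 0 + c 1 + c 2 = 1 ∧ -(a - 1) ≤ c 1 - c 0 ∧ c 1 - c 0 ≤ b - 1 ∧
    -(a - 1) ≤ c 2 - c 1 ∧ c 2 - c 1 ≤ b - 1 ∧ -(a - 1) ≤ c 0 - c 2 ∧ c 0 - c 2 ≤ b - 1}

/-- `t` is a right stone `{u + e 0, u + e 1, u + e 2}` with `u` of coordinate sum `0`. -/
def IsRightStone (t : Finset Cell) : Prop :=
  ∃ u : Cell, u 0 + u 1 + u 2 = 0 ∧ t = {u + e 0, u + e 1, u + e 2}

/-- `t` is a left stone `{v - e 0, v - e 1, v - e 2}` with `v` of coordinate sum `2`. -/
def IsLeftStone (t : Finset Cell) : Prop :=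
  ∃ v : Cell, v 0 + v 1 + v 2 = 2 ∧ t = {v - e 0, v - e 1, v - e 2}

/-- `t` is a bone `{x - d, x, x + d}` in the direction `d = e i - e (i+1)` (indices mod 3), i.e.
`d = (1,-1,0)`, `(0,1,-1)`, `(-1,0,1)` for `i = 0, 1, 2`; `x` is a cell. -/
def IsBone (i : Fin 3) (t : Finset Cell) : Prop :=
  ∃ x : Cell, x 0 + x 1 + x 2 = 1 ∧ t = {x - (e i - e (i+1)), x, x + (e i - e (i+1))}

/-- `P` is a tiling of the set of cells `Ω` by allowed pieces. -/
structure IsTiling (allowed : Finset Cell → Prop) (Ω : Set Cell) (P : Finset (Finset Cell)) :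
    Prop where
  /-- every piece is allowed -/
  piece : ∀ t ∈ P, allowed t
  /-- different pieces are disjoint -/
  disjoint : ∀ t ∈ P, ∀ t' ∈ P, t ≠ t' → Disjoint t t'
  /-- the union of the pieces is `Ω` -/
  cover : ∀ c, c ∈ Ω ↔ ∃ t ∈ P, c ∈ t

/-- The number of tilings. -/
noncomputable def numTilings (allowed : Finset Cell → Prop) (Ω : Set Cell) : ℕ :=
  {P | IsTiling allowed Ω P}.ncard

end Q230.Benzel
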