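import Mathlib
import Pool.Agent.Q230.BzCountB
import Pool.Agent.Q230.BzDefs

/-! # From tilings of benzels to abstract tile systems -/

set_option linter.unusedSectionVars false

namespace Q230.Bz

open Finset Q230.Benzel

theorem e_eq_ee (i : Fin 3) : e i = ee i := rfl

theorem fin3_cases : ∀ i : Fin 3, i = 0 ∨ i = 1 ∨ i = 2 := by decide

/-- the vertex of the hexagonal grid attached to a lattice point -/
def uu (x : Pt) : Cell := fun i => x (i+2) - x i

theorem uu_add (x y : Pt) : uu (x + y) = uu x + uu y := by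
  funext i; simp [uu]; ring
theorem uu_sub (x y : Pt) : uu (x - y) = uu x - uu y := by
  funext i; simp [uu]; ring
theorem uu_ee (j : Fin 3) : uu (ee j) = ee (j+1) - ee j := by
  funext i
  fin_cases j <;> fin_cases i <;> simp [uu, ee]
theorem uu_sum (x : Pt) : uu x 0 + uu x 1 + uu x 2 = 0 := by
  have e1 : (1 : Fin 3) + 2 = 0 := rfl
  have e2 : (2 : Fin 3) + 2 = 1 := rfl
  have e3 : (0 : Fin 3) + 2 = 2 := rfl
  simp only [uu, e1, e2, e3]
  ring

/-- the cell of class `κ` of the lattice point `x` -/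
def toCell (x : Pt) (κ : Fin 3) : Cell := uu x + ee (κ+1)

theorem toCell_sum (x : Pt) (κ : Fin 3) :
    toCell x κ 0 + toCell x κ 1 + toCell x κ 2 = 1 := by
  have h := uu_sum x
  have h2 : ee (κ+1) 0 + ee (κ+1) 1 + ee (κ+1) 2 = 1 := by
    fin_cases κ <;> simp [ee]
  simp only [toCell, Pi.add_apply]
  linarith

/-- coordinate sum -/
def sm (x : Pt) : ℤ := x 0 + x 1 + x 2

theorem toCell_coords (x : Pt) (κ : Fin 3) :
    toCell x κ 0 = x 2 - x 0 + (if κ = 2 then 1 else 0) ∧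
    toCell x κ 1 = x 0 - x 1 + (if κ = 0 then 1 else 0) ∧
    toCell x κ 2 = x 1 - x 2 + (if κ = 1 then 1 else 0) := by
  have e1 : (1 : Fin 3) + 2 = 0 := rfl
  have e2 : (2 : Fin 3) + 2 = 1 := rfl
  have e3 : (0 : Fin 3) + 2 = 2 := rfl
  refine ⟨?_, ?_, ?_⟩
  · simp only [toCell, Pi.add_apply, uu, e3]
    fin_cases κ <;> simp [ee]
  · simp only [toCell, Pi.add_apply, uu, e1]
    fin_cases κ <;> simp [ee]
  · simp only [toCell, Pi.add_apply, uu, e2]
    fin_cases κ <;> simp [ee]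

theorem toCell_inj {x y : Pt} {κ κ' : Fin 3} (hs : sm x = sm y)
    (h : toCell x κ = toCell y κ') : x = y ∧ κ = κ' := by
  obtain ⟨a0, a1, a2⟩ := toCell_coords x κ
  obtain ⟨b0, b1, b2⟩ := toCell_coords y κ'
  rw [h] at a0 a1 a2
  rw [a0] at b0
  rw [a1] at b1
  rw [a2] at b2
  unfold sm at hs
  have hk : κ = κ' := by
    fin_cases κ <;> fin_cases κ' <;> simp at b0 b1 b2 ⊢ <;> omega
  subst hk
  refine ⟨?_, rfl⟩
  apply pt_ext 0
  · omega
  · show x 1 = y 1
    omega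
  · show x 2 = y 2
    omega

theorem toCell_surj (m : ℤ) {c : Cell} (hc : c 0 + c 1 + c 2 = 1) :
    ∃ x κ, sm x = m ∧ toCell x κ = c := by
  have key : ∀ κ : Fin 3, ∀ q : ℤ, m + c 1 - c 0 = 3 * q + (if κ = 0 then 1 else 0)
      - (if κ = 2 then 1 else 0) → ∃ x κ, sm x = m ∧ toCell x κ = c := by
    intro κ q hq
    refine ⟨![q, q - c 1 + (if κ = 0 then 1 else 0), q + c 0 - (if κ = 2 then 1 else 0)], κ, ?_, ?_⟩
    · simp only [sm, Matrix.cons_val_zero, Matrix.cons_val_one, Matrix.cons_val_two]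
      simp
      linarith
    · obtain ⟨a0, a1, a2⟩ := toCell_coords
        ![q, q - c 1 + (if κ = 0 then 1 else 0), q + c 0 - (if κ = 2 then 1 else 0)] κ
      have hk : (if κ = 0 then (1:ℤ) else 0) + (if κ = 1 then 1 else 0) +
          (if κ = 2 then 1 else 0) = 1 := by fin_cases κ <;> simp
      apply pt_ext 0
      · rw [a0]; simp
        try ring
      · show toCell _ κ 1 = c 1
        rw [a1]; simp
        try ring
      · show toCell _ κ 2 = c 2
        rw [a2]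
        simp
        linarith
  have h3 : (m + c 1 - c 0) % 3 = 0 ∨ (m + c 1 - c 0) % 3 = 1 ∨ (m + c 1 - c 0) % 3 = 2 := by omega
  rcases h3 with h | h | h
  · exact key 1 ((m + c 1 - c 0) / 3) (by simp; omega)
  · exact key 0 ((m + c 1 - c 0) / 3) (by simp; omega)
  · exact key 2 ((m + c 1 - c 0) / 3 + 1) (by simp; omega)

/-- membership in the first benzel -/
theorem mem_benzelA {m : ℤ} {x : Pt} (hs : sm x = m) (κ : Fin 3) :
    toCell x κ ∈ benzel (m+2) (2*m+1) ↔ x ∈ XiA m κ := by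
  obtain ⟨a0, a1, a2⟩ := toCell_coords x κ
  have hsum := toCell_sum x κ
  unfold sm at hs
  rw [mem_XiA]
  have h1 : (x ≠ co m κ ∧ x ∈ XX m) ↔ (x κ ≠ m ∧ x ∈ XX m) := by
    constructor
    · rintro ⟨h1, h2⟩; exact ⟨fun h => h1 ((eq_co h2).2 h), h2⟩
    · rintro ⟨h1, h2⟩; exact ⟨fun h => h1 ((eq_co h2).1 h), h2⟩
  rw [h1, mem_XX]
  simp only [benzel, Set.mem_ofPred_eq]
  fin_cases κ
  · simp at a0 a1 a2 ⊢
    omega
  · simp at a0 a1 a2 ⊢
    omega
  · simp at a0 a1 a2 ⊢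
    omega

/-- membership in the second benzel -/
theorem mem_benzelB {m : ℤ} {x : Pt} (hs : sm x = m) (κ : Fin 3) :
    toCell x κ ∈ benzel (m+2) (2*m) ↔ x ∈ XiB m κ := by
  obtain ⟨a0, a1, a2⟩ := toCell_coords x κ
  have hsum := toCell_sum x κ
  unfold sm at hs
  rw [mem_XiB]
  have h1 : (x ≠ co m (κ+2) ∧ x ≠ co m κ ∧ x ∈ XX m) ↔ (x (κ+2) ≠ m ∧ x κ ≠ m ∧ x ∈ XX m) := by
    constructor
    · rintro ⟨h0, h1, h2⟩
      exact ⟨fun h => h0 ((eq_co h2).2 h), fun h => h1 ((eq_co h2).2 h), h2⟩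
    · rintro ⟨h0, h1, h2⟩
      exact ⟨fun h => h0 ((eq_co h2).1 h), fun h => h1 ((eq_co h2).1 h), h2⟩
  rw [h1, mem_XX]
  simp only [benzel, Set.mem_ofPred_eq]
  fin_cases κ
  · show _ ↔ x 2 ≠ m ∧ x 0 ≠ m ∧ _
    simp at a0 a1 a2 ⊢
    omega
  · show _ ↔ x 0 ≠ m ∧ x 1 ≠ m ∧ _
    simp at a0 a1 a2 ⊢
    omega
  · show _ ↔ x 1 ≠ m ∧ x 2 ≠ m ∧ _
    simp at a0 a1 a2 ⊢
    omega

/-- the piece of a tile -/
def piece (τ : Tile) : Finset Cell := univ.image (fun κ => toCell (τ κ) κ)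

theorem mem_piece_iff {τ : Tile} {c : Cell} : c ∈ piece τ ↔ ∃ κ, toCell (τ κ) κ = c := by
  simp [piece]

theorem mem_piece {m : ℤ} {τ : Tile} (hτ : ∀ κ, sm (τ κ) = m) {v : Pt} (hv : sm v = m)
    {κ : Fin 3} : toCell v κ ∈ piece τ ↔ τ κ = v := by
  rw [mem_piece_iff]
  constructor
  · rintro ⟨κ', h⟩
    obtain ⟨h1, rfl⟩ := toCell_inj ((hτ κ').trans hv.symm) h
    exact h1
  · rintro rfl
    exact ⟨κ, rfl⟩

theorem piece_inj {m : ℤ} {τ σ : Tile} (hτ : ∀ κ, sm (τ κ) = m) (hσ : ∀ κ, sm (σ κ) = m)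
    (h : piece τ = piece σ) : τ = σ := by
  funext κ
  have h1 : toCell (τ κ) κ ∈ piece τ := mem_piece_iff.2 ⟨κ, rfl⟩
  rw [h, mem_piece hσ (hτ κ)] at h1
  exact h1.symm

theorem piece_eq {τ : Tile} {a b c : Cell} (k : Fin 3) (h0 : toCell (τ k) k = a)
    (h1 : toCell (τ (k+1)) (k+1) = b) (h2 : toCell (τ (k+2)) (k+2) = c) :
    piece τ = {a, b, c} := by
  ext x
  rw [mem_piece_iff]
  simp only [mem_insert, mem_singleton]
  constructor
  · rintro ⟨κ, rfl⟩
    rcases cases3 k κ with rfl | rfl | rfl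
    · exact Or.inl h0
    · exact Or.inr (Or.inl h1)
    · exact Or.inr (Or.inr h2)
  · rintro (rfl | rfl | rfl)
    · exact ⟨k, h0⟩
    · exact ⟨k+1, h1⟩
    · exact ⟨k+2, h2⟩

theorem set3_rot {a b c : Cell} : ({a, b, c} : Finset Cell) = {b, c, a} := by
  ext x; simp only [mem_insert, mem_singleton]; tauto
theorem set3_rev {a b c : Cell} : ({a, b, c} : Finset Cell) = {c, b, a} := by
  ext x; simp only [mem_insert, mem_singleton]; tauto

theorem right_rot (u : Cell) (k : Fin 3) :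
    ({u + ee 0, u + ee 1, u + ee 2} : Finset Cell) = {u + ee k, u + ee (k+1), u + ee (k+2)} := by
  fin_cases k
  · rfl
  · show _ = ({u + ee 1, u + ee 2, u + ee 0} : Finset Cell)
    exact set3_rot
  · show _ = ({u + ee 2, u + ee 0, u + ee 1} : Finset Cell)
    exact set3_rot.trans set3_rot

theorem left_rot (u : Cell) (k : Fin 3) :
    ({u - ee 0, u - ee 1, u - ee 2} : Finset Cell) = {u - ee k, u - ee (k+1), u - ee (k+2)} := by
  fin_cases k
  · rfl
  · show _ = ({u - ee 1, u - ee 2, u - ee 0} : Finset Cell)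
    exact set3_rot
  · show _ = ({u - ee 2, u - ee 0, u - ee 1} : Finset Cell)
    exact set3_rot.trans set3_rot

theorem stp0 (k : Fin 3) : stp k 0 = ee (k+1) - ee k := by
  apply pt_ext k
  · rw [stp_self, Pi.sub_apply, ee_ne (ne_one k).symm, ee_self]; decide
  · rw [stp_one, Pi.sub_apply, ee_ne (ne_one k), ee_self]; decide
  · rw [stp_two, Pi.sub_apply, ee_ne (ne_two k), ee_ne (one_ne_two k).symm]; decide

theorem stp1 (k : Fin 3) : stp k 1 = ee (k+2) - ee k := by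
  apply pt_ext k
  · rw [stp_self, Pi.sub_apply, ee_ne (ne_two k).symm, ee_self]; decide
  · rw [stp_one, Pi.sub_apply, ee_ne (ne_one k), ee_ne (one_ne_two k)]; decide
  · rw [stp_two, Pi.sub_apply, ee_ne (ne_two k), ee_self]; decide

theorem stp2 (k : Fin 3) : stp k 2 = ee (k+1) - ee (k+2) := by
  apply pt_ext k
  · rw [stp_self, Pi.sub_apply, ee_ne (ne_two k).symm, ee_ne (ne_one k).symm]; decide
  · rw [stp_one, Pi.sub_apply, ee_self, ee_ne (one_ne_two k)]; decide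
  · rw [stp_two, Pi.sub_apply, ee_ne (one_ne_two k).symm, ee_self]; decide

theorem add3 (k : Fin 3) : k + 1 + 1 + 1 = k := by revert k; decide
theorem add12 (k : Fin 3) : k + 1 + 1 = k + 2 := by revert k; decide
theorem add21 (k : Fin 3) : k + 2 + 1 = k := by revert k; decide

theorem piece_good (x : Pt) : piece (goodT x) = {uu x + ee 0, uu x + ee 1, uu x + ee 2} := by
  rw [right_rot _ 1]
  exact piece_eq 0 rfl rfl rfl

theorem piece_bs1 (x : Pt) : piece (bs1 x) = {uu x + ee 0, uu x + ee 1, uu x + ee 2} := by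
  rw [right_rot _ 2]
  refine piece_eq 0 ?_ ?_ ?_
  · show uu (x + ee (0+1)) + ee (0+1) = _
    rw [uu_add, uu_ee]
    show uu x + (ee 2 - ee 1) + ee 1 = uu x + ee 2
    abel
  · show uu (x + ee (1+1)) + ee (1+1) = _
    rw [uu_add, uu_ee]
    show uu x + (ee 0 - ee 2) + ee 2 = uu x + ee 0
    abel
  · show uu (x + ee (2+1)) + ee (2+1) = _
    rw [uu_add, uu_ee]
    show uu x + (ee 1 - ee 0) + ee 0 = uu x + ee 1
    abel

theorem piece_bs2 (x : Pt) : piece (bs2 x) = {uu x + ee 0, uu x + ee 1, uu x + ee 2} := by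
  refine piece_eq 0 ?_ ?_ ?_
  · show uu (x + ee (0+1) + ee (0+2)) + ee (0+1) = _
    rw [uu_add, uu_add, uu_ee, uu_ee]
    show uu x + (ee 2 - ee 1) + (ee 0 - ee 2) + ee 1 = uu x + ee 0
    abel
  · show uu (x + ee (1+1) + ee (1+2)) + ee (1+1) = _
    rw [uu_add, uu_add, uu_ee, uu_ee]
    show uu x + (ee 0 - ee 2) + (ee 1 - ee 0) + ee 2 = uu x + ee 1
    abel
  · show uu (x + ee (2+1) + ee (2+2)) + ee (2+1) = _
    rw [uu_add, uu_add, uu_ee, uu_ee]
    show uu x + (ee 1 - ee 0) + (ee 2 - ee 1) + ee 0 = uu x + ee 2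
    abel

theorem piece_str0 (k : Fin 3) (x : Pt) : piece (strT k 0 x) =
    {(uu x + ee k + ee (k+2)) - ee 0, (uu x + ee k + ee (k+2)) - ee 1,
      (uu x + ee k + ee (k+2)) - ee 2} := by
  rw [left_rot _ (k+1)]
  refine (piece_eq k (a := uu x + ee k + ee (k+2) - ee (k+1))
    (b := uu x + ee k + ee (k+2) - ee k) (c := uu x + ee k + ee (k+2) - ee (k+2)) ?_ ?_ ?_).trans ?_
  · rw [strT_self, toCell, stp0, uu_add, uu_sub, uu_ee, uu_ee, add12]
    abel
  · rw [strT_one, toCell, add12]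
    abel
  · rw [strT_two, toCell, add21]
    abel
  · rw [add12, add_one_two]
    ext x; simp only [mem_insert, mem_singleton]; tauto

theorem piece_str1 (k : Fin 3) (x : Pt) : piece (strT k 1 x) =
    {(uu x + ee k) - (ee (k+2) - ee (k+2+1)), uu x + ee k,
      (uu x + ee k) + (ee (k+2) - ee (k+2+1))} := by
  refine (piece_eq k (a := uu x + ee k - (ee (k+2) - ee (k+2+1)))
    (b := uu x + ee k + (ee (k+2) - ee (k+2+1))) (c := uu x + ee k) ?_ ?_ ?_).trans ?_
  · rw [strT_self, toCell, stp1, uu_add, uu_sub, uu_ee, uu_ee, add21]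
    abel
  · rw [strT_one, toCell, add12, add21]
    abel
  · rw [strT_two, toCell, add21]
  · ext x; simp only [mem_insert, mem_singleton]; tauto

theorem piece_str2 (k : Fin 3) (x : Pt) : piece (strT k 2 x) =
    {(uu x + ee (k+2)) - (ee (k+2) - ee (k+2+1)), uu x + ee (k+2),
      (uu x + ee (k+2)) + (ee (k+2) - ee (k+2+1))} := by
  refine (piece_eq k (a := uu x + ee (k+2) + (ee (k+2) - ee (k+2+1)))
    (b := uu x + ee (k+2)) (c := uu x + ee (k+2) - (ee (k+2) - ee (k+2+1))) ?_ ?_ ?_).trans ?_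
  · rw [strT_self, toCell, stp2, uu_add, uu_sub, uu_ee, uu_ee, add12, add21]
    abel
  · rw [strT_one, toCell, add12]
  · rw [strT_two, toCell, add21]
    abel
  · exact set3_rev

theorem piece_bb (κ : Fin 3) (x : Pt) : piece (bb κ x) =
    {(uu x + ee (κ+2)) - (ee (κ+1) - ee (κ+1+1)), uu x + ee (κ+2),
      (uu x + ee (κ+2)) + (ee (κ+1) - ee (κ+1+1))} := by
  have a0 : bb κ x κ = x + ee (κ+1) + ee (κ+1) := by simp [bb]
  have a1 : bb κ x (κ+1) = x + ee κ + ee (κ+2) := by simp [bb]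
  have a2 : bb κ x (κ+2) = x + ee κ + ee (κ+1) := by
    simp [bb, (one_ne_two κ).symm]
  refine (piece_eq κ (a := uu x + ee (κ+2) - (ee (κ+1) - ee (κ+1+1)))
    (b := uu x + ee (κ+2) + (ee (κ+1) - ee (κ+1+1))) (c := uu x + ee (κ+2)) ?_ ?_ ?_).trans ?_
  · rw [a0, toCell, uu_add, uu_add, uu_ee, add12]
    abel
  · rw [a1, toCell, uu_add, uu_add, uu_ee, uu_ee, add12, add21]
    abel
  · rw [a2, toCell, uu_add, uu_add, uu_ee, uu_ee, add12, add21]
    abel
  · ext x; simp only [mem_insert, mem_singleton]; tauto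

/-- pieces of the five kinds -/
def All5 (t : Finset Cell) : Prop := IsRightStone t ∨ IsLeftStone t ∨ ∃ i, IsBone i t

theorem All5_piece {τ : Tile} (h : Kind τ) : All5 (piece τ) := by
  rcases h with ⟨x, rfl⟩ | ⟨k, j, x, rfl⟩ | ⟨y, rfl⟩ | ⟨y, rfl⟩ | ⟨κ, y, rfl⟩
  · exact Or.inl ⟨uu x, uu_sum x, piece_good x⟩
  · have hs : ∀ k, (uu x + ee k) 0 + (uu x + ee k) 1 + (uu x + ee k) 2 = 1 := by
      intro k
      have h := uu_sum x
      have h2 : ee k 0 + ee k 1 + ee k 2 = 1 := by fin_cases k <;> simp [ee]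
      simp only [Pi.add_apply]
      linarith
    have hj : j = 0 ∨ j = 1 ∨ j = 2 := by revert j; decide
    rcases hj with rfl | rfl | rfl
    · refine Or.inr (Or.inl ⟨uu x + ee k + ee (k+2), ?_, piece_str0 k x⟩)
      have h := hs k
      have h2 : ee (k+2) 0 + ee (k+2) 1 + ee (k+2) 2 = 1 := by fin_cases k <;> simp [ee]
      simp only [Pi.add_apply] at h ⊢
      linarith
    · exact Or.inr (Or.inr ⟨k+2, uu x + ee k, hs k, piece_str1 k x⟩)
    · exact Or.inr (Or.inr ⟨k+2, uu x + ee (k+2), hs _, piece_str2 k x⟩)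
  · exact Or.inl ⟨uu y, uu_sum y, piece_bs1 y⟩
  · exact Or.inl ⟨uu y, uu_sum y, piece_bs2 y⟩
  · refine Or.inr (Or.inr ⟨κ+1, uu y + ee (κ+2), ?_, piece_bb κ y⟩)
    have h := uu_sum y
    have h2 : ee (κ+2) 0 + ee (κ+2) 1 + ee (κ+2) 2 = 1 := by fin_cases κ <;> simp [ee]
    simp only [Pi.add_apply]
    linarith

/-- solving `uu x = u` with prescribed sum -/
theorem uu_solve {u : Cell} (hu : u 0 + u 1 + u 2 = 0) {n q : ℤ} (h : n + u 1 - u 0 = 3 * q) :
    ∃ x : Pt, sm x = n ∧ uu x = u := by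
  refine ⟨![q, q - u 1, q + u 0], ?_, ?_⟩
  · simp [sm]; linarith
  · apply pt_ext 0
    · simp [uu]
    · show uu _ 1 = u 1
      have e1 : (1 : Fin 3) + 2 = 0 := rfl
      simp [uu, e1]
    · show uu _ 2 = u 2
      have e2 : (2 : Fin 3) + 2 = 1 := rfl
      simp [uu, e2]
      linarith

theorem sm_add (x y : Pt) : sm (x + y) = sm x + sm y := by simp [sm]; ring
theorem sm_sub (x y : Pt) : sm (x - y) = sm x - sm y := by simp [sm]; ring
theorem sm_ee (k : Fin 3) : sm (ee k) = 1 := by fin_cases k <;> simp [sm, ee]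
theorem sm_stp (k j : Fin 3) : sm (stp k j) = 0 := by
  have hj : j = 0 ∨ j = 1 ∨ j = 2 := by revert j; decide
  rcases hj with rfl | rfl | rfl
  · rw [stp0, sm_sub, sm_ee, sm_ee]; ring
  · rw [stp1, sm_sub, sm_ee, sm_ee]; ring
  · rw [stp2, sm_sub, sm_ee, sm_ee]; ring

/-- every piece comes from a tile -/
theorem exists_tile (m : ℤ) {t : Finset Cell} (h : All5 t) :
    ∃ τ, Kind τ ∧ (∀ κ, sm (τ κ) = m) ∧ piece τ = t := by
  rcases h with ⟨u, hu, rfl⟩ | ⟨v, hv, rfl⟩ | ⟨i, c, hc, rfl⟩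
  · have h3 : (m + u 1 - u 0) % 3 = 0 ∨ (m + u 1 - u 0) % 3 = 1 ∨
        (m + u 1 - u 0) % 3 = 2 := by omega
    rcases h3 with h | h | h
    · obtain ⟨x, hx, rfl⟩ := uu_solve hu (n := m) (q := (m + u 1 - u 0) / 3) (by omega)
      exact ⟨goodT x, Or.inl ⟨x, rfl⟩, fun κ => hx, piece_good x⟩
    · obtain ⟨x, hx, rfl⟩ := uu_solve hu (n := m-1) (q := (m + u 1 - u 0) / 3) (by omega)
      exact ⟨bs1 x, Or.inr (Or.inr (Or.inl ⟨x, rfl⟩)), fun κ => by
        simp only [bs1]; rw [sm_add, sm_ee, hx]; ring, piece_bs1 x⟩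
    · obtain ⟨x, hx, rfl⟩ := uu_solve hu (n := m-2) (q := (m + u 1 - u 0) / 3) (by omega)
      exact ⟨bs2 x, Or.inr (Or.inr (Or.inr (Or.inl ⟨x, rfl⟩))), fun κ => by
        simp only [bs2]; rw [sm_add, sm_add, sm_ee, sm_ee, hx]; ring, piece_bs2 x⟩
  · -- left stones
    have main : ∀ k : Fin 3, (∃ q, m + (v - ee k - ee (k+2)) 1 - (v - ee k - ee (k+2)) 0 = 3 * q) →
        ∃ τ, Kind τ ∧ (∀ κ, sm (τ κ) = m) ∧ piece τ = {v - e 0, v - e 1, v - e 2} := by
      rintro k ⟨q, hq⟩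
      have hu : (v - ee k - ee (k+2)) 0 + (v - ee k - ee (k+2)) 1 + (v - ee k - ee (k+2)) 2 = 0 := by
        have h2 := sm_ee k
        have h3 := sm_ee (k+2)
        simp only [sm] at h2 h3
        simp only [Pi.sub_apply]
        linarith
      obtain ⟨x, hx, hxu⟩ := uu_solve hu hq
      refine ⟨strT k 0 x, Or.inr (Or.inl ⟨k, 0, x, rfl⟩), fun κ => ?_, ?_⟩
      · rcases cases3 k κ with rfl | rfl | rfl
        · rw [strT_self, sm_add, sm_stp, hx]; ring
        · rw [strT_one, hx]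
        · rw [strT_two, hx]
      · rw [piece_str0, hxu]
        have : v - ee k - ee (k+2) + ee k + ee (k+2) = v := by abel
        rw [this]; rfl
    have h3 : (m + v 1 - v 0) % 3 = 0 ∨ (m + v 1 - v 0) % 3 = 1 ∨
        (m + v 1 - v 0) % 3 = 2 := by omega
    rcases h3 with h | h | h
    · refine main 1 ⟨(m + v 1 - v 0) / 3, ?_⟩
      simp [ee]
      omega
    · refine main 2 ⟨(m + v 1 - v 0) / 3, ?_⟩
      simp [ee]
      omega
    · refine main 0 ⟨(m + v 1 - v 0) / 3 + 1, ?_⟩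
      simp [ee]
      omega
  · -- bones
    have hcs : ∀ k, (c - ee k) 0 + (c - ee k) 1 + (c - ee k) 2 = 0 := by
      intro k
      have h2 := sm_ee k
      simp only [sm] at h2
      simp only [Pi.sub_apply]
      linarith
    have A : ∀ k : Fin 3, k + 2 = i → (∃ q, m + (c - ee k) 1 - (c - ee k) 0 = 3 * q) →
        ∃ τ, Kind τ ∧ (∀ κ, sm (τ κ) = m) ∧ piece τ =
          {c - (e i - e (i+1)), c, c + (e i - e (i+1))} := by
      rintro k rfl ⟨q, hq⟩
      obtain ⟨x, hx, hxu⟩ := uu_solve (hcs k) hq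
      refine ⟨strT k 1 x, Or.inr (Or.inl ⟨k, 1, x, rfl⟩), fun κ => ?_, ?_⟩
      · rcases cases3 k κ with rfl | rfl | rfl
        · rw [strT_self, sm_add, sm_stp, hx]; ring
        · rw [strT_one, hx]
        · rw [strT_two, hx]
      · rw [piece_str1, hxu, sub_add_cancel]; rfl
    have B : ∀ k : Fin 3, k + 2 = i → (∃ q, m + (c - ee (k+2)) 1 - (c - ee (k+2)) 0 = 3 * q) →
        ∃ τ, Kind τ ∧ (∀ κ, sm (τ κ) = m) ∧ piece τ =
          {c - (e i - e (i+1)), c, c + (e i - e (i+1))} := by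
      rintro k rfl ⟨q, hq⟩
      obtain ⟨x, hx, hxu⟩ := uu_solve (hcs (k+2)) hq
      refine ⟨strT k 2 x, Or.inr (Or.inl ⟨k, 2, x, rfl⟩), fun κ => ?_, ?_⟩
      · rcases cases3 k κ with rfl | rfl | rfl
        · rw [strT_self, sm_add, sm_stp, hx]; ring
        · rw [strT_one, hx]
        · rw [strT_two, hx]
      · rw [piece_str2, hxu, sub_add_cancel]; rfl
    have C : ∀ κ0 : Fin 3, κ0 + 1 = i →
        (∃ q, m - 2 + (c - ee (κ0+2)) 1 - (c - ee (κ0+2)) 0 = 3 * q) →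
        ∃ τ, Kind τ ∧ (∀ κ, sm (τ κ) = m) ∧ piece τ =
          {c - (e i - e (i+1)), c, c + (e i - e (i+1))} := by
      rintro κ0 rfl ⟨q, hq⟩
      obtain ⟨x, hx, hxu⟩ := uu_solve (hcs (κ0+2)) hq
      refine ⟨bb κ0 x, Or.inr (Or.inr (Or.inr (Or.inr ⟨κ0, x, rfl⟩))), fun κ => ?_, ?_⟩
      · simp only [bb]
        split_ifs
        · rw [sm_add, sm_add, sm_ee, hx]; ring
        · rw [sm_add, sm_add, sm_ee, sm_ee, hx]; ring
        · rw [sm_add, sm_add, sm_ee, sm_ee, hx]; ring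
      · rw [piece_bb, hxu, sub_add_cancel]; rfl
    have hi : i = 0 ∨ i = 1 ∨ i = 2 := fin3_cases i
    have h3 : (m + c 1 - c 0) % 3 = 0 ∨ (m + c 1 - c 0) % 3 = 1 ∨
        (m + c 1 - c 0) % 3 = 2 := by omega
    rcases hi with rfl | rfl | rfl
    · rcases h3 with h | h | h
      · refine C 2 rfl ⟨(m + c 1 - c 0) / 3 - 1, ?_⟩
        show m - 2 + (c - ee 1) 1 - (c - ee 1) 0 = _
        simp [ee]; omega
      · refine A 1 rfl ⟨(m + c 1 - c 0) / 3, ?_⟩
        simp [ee]; omega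
      · refine B 1 rfl ⟨(m + c 1 - c 0) / 3 + 1, ?_⟩
        show m + (c - ee 0) 1 - (c - ee 0) 0 = _
        simp [ee]; omega
    · rcases h3 with h | h | h
      · refine A 2 rfl ⟨(m + c 1 - c 0) / 3, ?_⟩
        simp [ee]; omega
      · refine B 2 rfl ⟨(m + c 1 - c 0) / 3, ?_⟩
        show m + (c - ee 1) 1 - (c - ee 1) 0 = _
        simp [ee]; omega
      · refine C 0 rfl ⟨(m + c 1 - c 0) / 3, ?_⟩
        show m - 2 + (c - ee 2) 1 - (c - ee 2) 0 = _
        simp [ee]; omega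
    · rcases h3 with h | h | h
      · refine B 0 rfl ⟨(m + c 1 - c 0) / 3, ?_⟩
        show m + (c - ee 2) 1 - (c - ee 2) 0 = _
        simp [ee]; omega
      · refine C 1 rfl ⟨(m + c 1 - c 0) / 3, ?_⟩
        show m - 2 + (c - ee 0) 1 - (c - ee 0) 0 = _
        simp [ee]; omega
      · refine A 0 rfl ⟨(m + c 1 - c 0) / 3 + 1, ?_⟩
        simp [ee]; omega

end Q230.Bz
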