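import Mathlib
import Pool.Agent.Q230.BzConc

/-! # The bijection between tilings and tile families -/

set_option linter.unusedSectionVars false

namespace Q230.Bz

open Finset Q230.Benzel

/-- `Ξ` is the coordinate version of the region `Ω` -/
structure Reg (m : ℤ) (Ω : Set Cell) (Ξ : Fin 3 → Finset Pt) : Prop where
  mem : ∀ x κ, sm x = m → (toCell x κ ∈ Ω ↔ x ∈ Ξ κ)
  sum : ∀ c ∈ Ω, c 0 + c 1 + c 2 = 1
  sub : ∀ κ, Ξ κ ⊆ XX m

theorem sm_of_XX {m : ℤ} {x : Pt} (h : x ∈ XX m) : sm x = m := (mem_XX.1 h).2.2.2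

theorem regA (m : ℤ) : Reg m (benzel (m+2) (2*m+1)) (XiA m) where
  mem x κ h := mem_benzelA h κ
  sum c hc := hc.1
  sub κ := erase_subset _ _

theorem regB (m : ℤ) : Reg m (benzel (m+2) (2*m)) (XiB m) where
  mem x κ h := mem_benzelB h κ
  sum c hc := hc.1
  sub κ := (erase_subset _ _).trans (erase_subset _ _)

section
variable {m : ℤ} {Ω : Set Cell} {Ξ : Fin 3 → Finset Pt}

theorem Fam_sm (hR : Reg m Ω Ξ) {F : Finset Tile} (hF : F ∈ Fam m Ξ) {τ : Tile} (hτ : τ ∈ F)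
    (κ : Fin 3) : sm (τ κ) = m := sm_of_XX ((mem_Fam.1 hF).1 τ hτ κ)

theorem tiling_of_Fam (hR : Reg m Ω Ξ) {F : Finset Tile} (hF : F ∈ Fam m Ξ) :
    IsTiling All5 Ω (F.image piece) := by
  obtain ⟨h1, h2, h3⟩ := mem_Fam.1 hF
  have hsm : ∀ τ ∈ F, ∀ κ, sm (τ κ) = m := fun τ hτ κ => Fam_sm hR hF hτ κ
  refine ⟨?_, ?_, ?_⟩
  · intro t ht
    obtain ⟨τ, hτ, rfl⟩ := mem_image.1 ht
    exact All5_piece (h2 τ hτ)
  · intro t ht t' ht' hne
    obtain ⟨τ, hτ, rfl⟩ := mem_image.1 ht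
    obtain ⟨σ, hσ, rfl⟩ := mem_image.1 ht'
    rw [disjoint_left]
    intro c hc hc'
    obtain ⟨κ, rfl⟩ := mem_piece_iff.1 hc
    rw [mem_piece (hsm σ hσ) (hsm τ hτ κ)] at hc'
    exact hne (by rw [h3.inj hσ hτ hc'])
  · intro c
    constructor
    · intro hc
      obtain ⟨x, κ, hx, rfl⟩ := toCell_surj m (hR.sum c hc)
      rw [hR.mem x κ hx] at hc
      have := h3 κ x
      rw [if_pos hc, card_eq_one] at this
      obtain ⟨τ, hτ⟩ := this
      have hτ' : τ ∈ F.filter (fun τ => τ κ = x) := by rw [hτ]; exact mem_singleton_self _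
      rw [mem_filter] at hτ'
      exact ⟨piece τ, mem_image_of_mem _ hτ'.1, mem_piece_iff.2 ⟨κ, by rw [hτ'.2]⟩⟩
    · rintro ⟨t, ht, hc⟩
      obtain ⟨τ, hτ, rfl⟩ := mem_image.1 ht
      obtain ⟨κ, rfl⟩ := mem_piece_iff.1 hc
      rw [hR.mem _ κ (hsm τ hτ κ)]
      exact h3.mem hτ κ

theorem Fam_image_inj (hR : Reg m Ω Ξ) {F F' : Finset Tile} (hF : F ∈ Fam m Ξ)
    (hF' : F' ∈ Fam m Ξ) (h : F.image piece = F'.image piece) : F = F' := by
  have key : ∀ F ∈ Fam m Ξ, ∀ F' ∈ Fam m Ξ, F.image piece = F'.image piece → F ⊆ F' := by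
    intro F hF F' hF' h τ hτ
    have : piece τ ∈ F'.image piece := h ▸ mem_image_of_mem _ hτ
    obtain ⟨σ, hσ, hs⟩ := mem_image.1 this
    have := piece_inj (fun κ => Fam_sm hR hF' hσ κ) (fun κ => Fam_sm hR hF hτ κ) hs
    exact this ▸ hσ
  exact Subset.antisymm (key F hF F' hF' h) (key F' hF' F hF h.symm)

theorem exists_Fam (hR : Reg m Ω Ξ) {P : Finset (Finset Cell)} (hP : IsTiling All5 Ω P) :
    ∃ F ∈ Fam m Ξ, F.image piece = P := by
  classical
  choose! g hg1 hg2 hg3 using fun t (ht : t ∈ P) => exists_tile m (hP.piece t ht)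
  refine ⟨P.image g, ?_, ?_⟩
  · have hmem : ∀ t ∈ P, ∀ κ, g t κ ∈ Ξ κ := by
      intro t ht κ
      rw [← hR.mem _ κ (hg2 t ht κ), hP.cover]
      refine ⟨t, ht, ?_⟩
      have : toCell (g t κ) κ ∈ piece (g t) := mem_piece_iff.2 ⟨κ, rfl⟩
      rwa [hg3 t ht] at this
    rw [mem_Fam]
    refine ⟨?_, ?_, ?_⟩
    · intro τ hτ κ
      obtain ⟨t, ht, rfl⟩ := mem_image.1 hτ
      exact hR.sub κ (hmem t ht κ)
    · intro τ hτ
      obtain ⟨t, ht, rfl⟩ := mem_image.1 hτ
      exact hg1 t ht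
    · intro κ v
      by_cases hv : v ∈ Ξ κ
      · rw [if_pos hv]
        have hvm : sm v = m := sm_of_XX (hR.sub κ hv)
        have h1 : toCell v κ ∈ Ω := (hR.mem v κ hvm).2 hv
        obtain ⟨t, ht, hc⟩ := (hP.cover _).1 h1
        have h2 : g t κ = v := by
          have := hc
          rw [← hg3 t ht, mem_piece (hg2 t ht) hvm] at this
          exact this
        rw [card_eq_one]
        refine ⟨g t, ?_⟩
        ext σ
        rw [mem_filter, mem_singleton, mem_image]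
        constructor
        · rintro ⟨⟨t', ht', rfl⟩, h3⟩
          have h4 : toCell v κ ∈ t' := by
            have := (mem_piece (hg2 t' ht') hvm (κ := κ)).2 h3
            rwa [hg3 t' ht'] at this
          by_contra hne
          have hne' : t ≠ t' := fun h => hne (by rw [h])
          exact disjoint_left.1 (hP.disjoint t ht t' ht' hne') hc h4
        · rintro rfl
          exact ⟨⟨t, ht, rfl⟩, h2⟩
      · rw [if_neg hv, card_eq_zero, filter_eq_empty_iff]
        intro τ hτ h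
        obtain ⟨t, ht, rfl⟩ := mem_image.1 hτ
        exact hv (h ▸ hmem t ht κ)
  · rw [image_image]
    ext t
    rw [mem_image]
    constructor
    · rintro ⟨t', ht', rfl⟩
      simp only [Function.comp]
      rwa [hg3 t' ht']
    · intro ht
      exact ⟨t, ht, hg3 t ht⟩

open Classical in
/-- the set of all tilings, as a finset -/
noncomputable def Til (m : ℤ) (Ξ : Fin 3 → Finset Pt) : Finset (Finset (Finset Cell)) :=
  (Fam m Ξ).image (fun F => F.image piece)

theorem tilings_eq (hR : Reg m Ω Ξ) (P : Finset (Finset Cell)) :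
    IsTiling All5 Ω P ↔ P ∈ Til m Ξ := by
  unfold Til
  rw [mem_image]
  constructor
  · intro h
    obtain ⟨F, hF, h2⟩ := exists_Fam hR h
    exact ⟨F, hF, h2⟩
  · rintro ⟨F, hF, rfl⟩
    exact tiling_of_Fam hR hF

/-- transfer of weighted sums -/
theorem sum_tilings {R : Type*} [CommRing R] (hR : Reg m Ω Ξ) (pw : Finset Cell → R)
    (T : Finset (Finset (Finset Cell))) (hT : ∀ P, P ∈ T ↔ IsTiling All5 Ω P) :
    ∑ P ∈ T, ∏ t ∈ P, pw t = ∑ F ∈ Fam m Ξ, ∏ τ ∈ F, pw (piece τ) := by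
  classical
  have : T = Til m Ξ := by
    ext P; rw [hT, tilings_eq hR]
  rw [this, Til, sum_image (fun F hF F' hF' h => Fam_image_inj hR hF hF' h)]
  refine sum_congr rfl fun F hF => ?_
  rw [prod_image]
  intro τ hτ σ hσ h
  exact piece_inj (fun κ => Fam_sm hR hF hτ κ) (fun κ => Fam_sm hR hF hσ κ) h

/-- number of restricted tilings -/
theorem numTilings_eq {R : Type*} [CommRing R] (hR : Reg m Ω Ξ) (al : Finset Cell → Prop)
    [DecidablePred al] (hal : ∀ t, al t → All5 t) :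
    (numTilings al Ω : R) = ∑ F ∈ Fam m Ξ, ∏ τ ∈ F, (if al (piece τ) then 1 else 0) := by
  have h0 := sum_tilings hR (fun t => if al t then (1:R) else 0)
    (Til m Ξ) (fun P => (tilings_eq hR P).symm)
  refine Eq.trans ?_ h0
  have h1 : {P | IsTiling al Ω P} =
      ↑((Til m Ξ).filter (fun P => ∀ t ∈ P, al t)) := by
    ext P
    simp only [Set.mem_ofPred_eq, coe_filter]
    rw [← tilings_eq hR]
    constructor
    · rintro ⟨a, b, c⟩
      exact ⟨⟨fun t ht => hal t (a t ht), b, c⟩, a⟩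
    · rintro ⟨⟨a, b, c⟩, d⟩
      exact ⟨d, b, c⟩
  rw [numTilings, h1, Set.ncard_coe_finset, card_filter, Nat.cast_sum]
  refine sum_congr rfl fun P _ => ?_
  by_cases hP : ∀ t ∈ P, al t
  · rw [if_pos hP, prod_congr rfl (fun t ht => if_pos (hP t ht))]
    simp
  · rw [if_neg hP]
    push Not at hP
    obtain ⟨t, ht, hna⟩ := hP
    rw [prod_eq_zero ht (by rw [if_neg hna])]
    simp

/-- size of the families -/
theorem Fam_card {F : Finset Tile} (hF : F ∈ Fam m Ξ) (κ : Fin 3) : F.card = (Ξ κ).card := by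
  obtain ⟨h1, h2, h3⟩ := mem_Fam.1 hF
  rw [card_eq_sum_card_fiberwise (f := fun τ => τ κ) (t := Ξ κ) (fun τ hτ => h3.mem hτ κ)]
  rw [sum_congr rfl (fun v hv => by rw [h3 κ v, if_pos hv]), sum_const, smul_eq_mul, mul_one]

end

/-! ### exclusivity -/

theorem right_const {t : Finset Cell} (h : IsRightStone t) (k : Fin 3) :
    ∃ c ∈ t, ∃ c' ∈ t, c k ≠ c' k := by
  obtain ⟨u, _, rfl⟩ := h
  refine ⟨u + e k, ?_, u + e (k+1), ?_, ?_⟩
  · fin_cases k <;> simp
  · fin_cases k <;> simp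
  · fin_cases k <;> simp [e]

theorem left_const {t : Finset Cell} (h : IsLeftStone t) (k : Fin 3) :
    ∃ c ∈ t, ∃ c' ∈ t, c k ≠ c' k := by
  obtain ⟨u, _, rfl⟩ := h
  refine ⟨u - e k, ?_, u - e (k+1), ?_, ?_⟩
  · fin_cases k <;> simp
  · fin_cases k <;> simp
  · fin_cases k <;> simp [e]

theorem bone_const {t : Finset Cell} {i : Fin 3} (h : IsBone i t) :
    ∀ c ∈ t, ∀ c' ∈ t, c (i+2) = c' (i+2) := by
  obtain ⟨x, _, rfl⟩ := h
  have h0 : (e i - e (i+1)) (i+2) = 0 := by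
    fin_cases i <;> simp [e]
  intro c hc c' hc'
  simp only [mem_insert, mem_singleton] at hc hc'
  rcases hc with rfl | rfl | rfl <;> rcases hc' with rfl | rfl | rfl <;>
    simp only [Pi.add_apply, Pi.sub_apply] at h0 ⊢ <;> omega

theorem bone_nonconst {t : Finset Cell} {i j : Fin 3} (h : IsBone i t) (hj : j ≠ i + 2) :
    ∃ c ∈ t, ∃ c' ∈ t, c j ≠ c' j := by
  obtain ⟨x, _, rfl⟩ := h
  refine ⟨x, by simp, x + (e i - e (i+1)), by simp, ?_⟩
  have hj' : j = i ∨ j = i + 1 := by revert i j; decide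
  simp only [Pi.add_apply, Pi.sub_apply]
  rcases hj' with rfl | rfl
  · simp [e]
  · simp [e]

theorem not_right_bone {t : Finset Cell} (h : IsRightStone t) (i : Fin 3) : ¬ IsBone i t := by
  intro hb
  obtain ⟨c, hc, c', hc', hne⟩ := right_const h (i+2)
  exact hne (bone_const hb c hc c' hc')

theorem not_left_bone {t : Finset Cell} (h : IsLeftStone t) (i : Fin 3) : ¬ IsBone i t := by
  intro hb
  obtain ⟨c, hc, c', hc', hne⟩ := left_const h (i+2)
  exact hne (bone_const hb c hc c' hc')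

theorem bone_unique {t : Finset Cell} {i j : Fin 3} (hi : IsBone i t) (hj : IsBone j t) :
    i = j := by
  by_contra hne
  have : i + 2 ≠ j + 2 := fun h => hne (by simpa using h)
  obtain ⟨c, hc, c', hc', hne'⟩ := bone_nonconst hj this
  exact hne' (bone_const hi c hc c' hc')

theorem not_right_left {t : Finset Cell} (h : IsRightStone t) : ¬ IsLeftStone t := by
  rintro ⟨v, hv, rfl⟩
  obtain ⟨u, hu, h⟩ := h
  have a : ∀ k : Fin 3, 1 ≤ v k - u k := by
    intro k
    have h1 : u + e k ∈ ({v - e 0, v - e 1, v - e 2} : Finset Cell) := by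
      rw [h]
      fin_cases k <;> simp
    have h2 : ∃ j, u + e k = v - e j := by
      simp only [mem_insert, mem_singleton] at h1
      rcases h1 with h1 | h1 | h1
      · exact ⟨0, h1⟩
      · exact ⟨1, h1⟩
      · exact ⟨2, h1⟩
    obtain ⟨j, hj⟩ := h2
    have h3 := congrFun hj k
    simp only [Pi.add_apply, Pi.sub_apply] at h3
    have h4 : e k k = 1 := by simp [e]
    have h5 : 0 ≤ e j k := by
      unfold e
      by_cases hjk : k = j
      · subst hjk; simp
      · rw [Pi.single_eq_of_ne hjk]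
    linarith
  have a0 := a 0
  have a1 := a 1
  have a2 := a 2
  linarith

/-- weights of pieces and tiles -/
structure PW {R : Type*} [CommRing R] (pw : Finset Cell → R) (y : R) (β : Fin 3 → R) : Prop where
  right : ∀ t, IsRightStone t → pw t = 1
  left : ∀ t, IsLeftStone t → pw t = y
  bone : ∀ i t, IsBone i t → pw t = β i

section
variable {R : Type*} [CommRing R] {pw : Finset Cell → R} {y : R} {β : Fin 3 → R}

theorem PW.good (h : PW pw y β) (x : Pt) : pw (piece (goodT x)) = 1 :=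
  h.right _ ⟨uu x, uu_sum x, piece_good x⟩
theorem PW.b1 (h : PW pw y β) (x : Pt) : pw (piece (bs1 x)) = 1 :=
  h.right _ ⟨uu x, uu_sum x, piece_bs1 x⟩
theorem PW.b2 (h : PW pw y β) (x : Pt) : pw (piece (bs2 x)) = 1 :=
  h.right _ ⟨uu x, uu_sum x, piece_bs2 x⟩

theorem uu_ee_sum (x : Pt) (k : Fin 3) :
    (uu x + ee k) 0 + (uu x + ee k) 1 + (uu x + ee k) 2 = 1 := by
  have h := uu_sum x
  have h2 : ee k 0 + ee k 1 + ee k 2 = 1 := by fin_cases k <;> simp [ee]
  simp only [Pi.add_apply]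
  linarith

theorem PW.bb (h : PW pw y β) (κ : Fin 3) (x : Pt) : pw (piece (bb κ x)) = β (κ+1) :=
  h.bone _ _ ⟨uu x + ee (κ+2), uu_ee_sum x _, piece_bb κ x⟩

theorem PW.str (h : PW pw y β) (k : Fin 3) : WtStr (fun τ => pw (piece τ)) k (β (k+2)) y := by
  intro x
  refine ⟨h.left _ ⟨uu x + ee k + ee (k+2), ?_, piece_str0 k x⟩,
    h.bone _ _ ⟨uu x + ee k, uu_ee_sum x _, piece_str1 k x⟩,
    h.bone _ _ ⟨uu x + ee (k+2), uu_ee_sum x _, piece_str2 k x⟩⟩
  have h1 := uu_ee_sum x k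
  have h2 : ee (k+2) 0 + ee (k+2) 1 + ee (k+2) 2 = 1 := by fin_cases k <;> simp [ee]
  simp only [Pi.add_apply] at h1 ⊢
  linarith

/-- weighted count for the first region -/
theorem countA (h : PW pw y β) {m : ℤ} (hm : 0 ≤ m) :
    ∑ F ∈ Fam m (XiA m), ∏ τ ∈ F, pw (piece τ) =
      ∑ P ∈ XX m, (∏ k, SZ (β (k+2)) y (P (k+2)) (P (k+1)) -
        ∑ k, β (k+2) * β k * SZ (β (k+2)) y (P (k+2) - 1) (P (k+1)) *
        SZ (β k) y (P k + 1) (P (k+2) - 1) * SZ (β (k+1)) y (P (k+1)) (P k)) := by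
  have := count_A (fun τ => pw (piece τ)) h.good (fun k => β (k+2)) y h.str hm
  simpa only [add_one_two, add_two_two] using this

/-- weighted count for the second region -/
theorem countB (h : PW pw y β) {m : ℤ} (hm : 0 < m) :
    ∑ F ∈ Fam m (XiB m), ∏ τ ∈ F, pw (piece τ) =
      ∑ v ∈ XX (m-1), ∏ k, SZ (β (k+2)) y (v (k+2)) (v k) +
      ∑ v ∈ XX (m-2), ∏ k, SZ (β (k+2)) y (v (k+2) + 1) (v k) +
      ∑ κ, β (κ+1) * ∑ v ∈ XX (m-2), SZ (β (κ+2)) y (v (κ+2)) (v κ) *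
        SZ (β κ) y (v κ + 1) (v (κ+1)) * SZ (β (κ+1)) y (v (κ+1) + 1) (v (κ+2)) := by
  have := count_B (fun τ => pw (piece τ)) h.good (fun k => β (k+2)) y h.str h.b1 h.b2
    (fun κ x => by rw [h.bb κ x, add_two_two]) hm
  simpa only [add_one_two, add_two_two] using this

end

end Q230.Bz
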