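import Mathlib
import Pool.Agent.Q230.BzBij

/-! # Stones as triples of pairwise adjacent cells -/

set_option linter.unusedSectionVars false

namespace Q230.Benzel

/-- two cells are adjacent -/
def Adj (c c' : Cell) : Prop := |c 0 - c' 0| + |c 1 - c' 1| + |c 2 - c' 2| = 2

/-- a stone: a set of three pairwise adjacent cells -/
def IsStone (t : Finset Cell) : Prop :=
  t.card = 3 ∧ (∀ c ∈ t, c 0 + c 1 + c 2 = 1) ∧ ∀ c ∈ t, ∀ c' ∈ t, c ≠ c' → Adj c c'

/-- a bone: `{c - d, c, c + d}` where `c` is a cell and `d` is a permutation of `(1,-1,0)` -/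
def IsBoneAny (t : Finset Cell) : Prop :=
  ∃ c d : Cell, c 0 + c 1 + c 2 = 1 ∧ (∃ i j, i ≠ j ∧ d = e i - e j) ∧ t = {c - d, c, c + d}

end Q230.Benzel

namespace Q230.Bz

open Finset Q230.Benzel

theorem set_perm {f : Fin 3 → Cell} {i j l : Fin 3} (h1 : i ≠ j) (h2 : i ≠ l) (h3 : j ≠ l) :
    ({f i, f j, f l} : Finset Cell) = {f 0, f 1, f 2} := by
  have e1 : ({f i, f j, f l} : Finset Cell) = ({i, j, l} : Finset (Fin 3)).image f := by
    simp [image_insert]
  have e2 : ({f 0, f 1, f 2} : Finset Cell) = ({0, 1, 2} : Finset (Fin 3)).image f := by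
    simp [image_insert]
  have key : ∀ i j l : Fin 3, i ≠ j → i ≠ l → j ≠ l →
      ({i, j, l} : Finset (Fin 3)) = {0, 1, 2} := by decide
  rw [e1, e2, key i j l h1 h2 h3]

theorem e_sum (i : Fin 3) : e i 0 + e i 1 + e i 2 = 1 := by
  fin_cases i <;> simp [e]

theorem cell_ext {a b : Cell} (h0 : a 0 = b 0) (h1 : a 1 = b 1) (h2 : a 2 = b 2) : a = b := by
  funext i
  fin_cases i
  · exact h0
  · exact h1
  · exact h2

theorem adj_diff {a b : Cell} (ha : a 0 + a 1 + a 2 = 1) (hb : b 0 + b 1 + b 2 = 1)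
    (h : Adj a b) : ∃ i j : Fin 3, i ≠ j ∧ b = a + e i - e j := by
  unfold Adj at h
  have key : (b 0 = a 0 + 1 ∧ b 1 = a 1 - 1 ∧ b 2 = a 2) ∨ (b 0 = a 0 + 1 ∧ b 1 = a 1 ∧ b 2 = a 2 - 1) ∨
      (b 0 = a 0 ∧ b 1 = a 1 + 1 ∧ b 2 = a 2 - 1) ∨ (b 0 = a 0 - 1 ∧ b 1 = a 1 + 1 ∧ b 2 = a 2) ∨
      (b 0 = a 0 - 1 ∧ b 1 = a 1 ∧ b 2 = a 2 + 1) ∨ (b 0 = a 0 ∧ b 1 = a 1 - 1 ∧ b 2 = a 2 + 1) := by
    obtain ⟨x, hx⟩ : ∃ x, b 0 = a 0 + x := ⟨b 0 - a 0, by ring⟩
    obtain ⟨y, hy⟩ : ∃ y, b 1 = a 1 + y := ⟨b 1 - a 1, by ring⟩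
    have hz : b 2 = a 2 - x - y := by linarith
    rw [hx, hy, hz]
    rw [hx, hy, hz, sub_add_cancel_left, sub_add_cancel_left,
      show a 2 - (a 2 - x - y) = x + y by ring, abs_neg, abs_neg] at h
    have h1 : |x| ≤ 1 := by
      have := abs_add_le (x+y) (-y)
      rw [abs_neg, add_neg_cancel_right] at this
      linarith
    have h2 : |y| ≤ 1 := by
      have := abs_add_le (x+y) (-x)
      rw [abs_neg, show x + y + -x = y by ring] at this
      linarith
    rw [abs_le] at h1 h2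
    obtain ⟨h1a, h1b⟩ := h1
    obtain ⟨h2a, h2b⟩ := h2
    interval_cases x <;> interval_cases y <;> simp at h ⊢ <;> omega
  rcases key with ⟨h0, h1, h2⟩ | ⟨h0, h1, h2⟩ | ⟨h0, h1, h2⟩ | ⟨h0, h1, h2⟩ | ⟨h0, h1, h2⟩ | ⟨h0, h1, h2⟩
  · exact ⟨0, 1, by decide, cell_ext (by simp [e, h0]) (by simp [e, h1]) (by simp [e, h2])⟩
  · exact ⟨0, 2, by decide, cell_ext (by simp [e, h0]) (by simp [e, h1]) (by simp [e, h2])⟩
  · exact ⟨1, 2, by decide, cell_ext (by simp [e, h0]) (by simp [e, h1]) (by simp [e, h2])⟩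
  · exact ⟨1, 0, by decide, cell_ext (by simp [e, h0]) (by simp [e, h1]) (by simp [e, h2])⟩
  · exact ⟨2, 0, by decide, cell_ext (by simp [e, h0]) (by simp [e, h1]) (by simp [e, h2])⟩
  · exact ⟨2, 1, by decide, cell_ext (by simp [e, h0]) (by simp [e, h1]) (by simp [e, h2])⟩

theorem not_adj : ∀ i j k l : Fin 3, i ≠ j → k ≠ l → i ≠ k → j ≠ l →
    |(e i 0 - e j 0) - (e k 0 - e l 0)| + |(e i 1 - e j 1) - (e k 1 - e l 1)| +
      |(e i 2 - e j 2) - (e k 2 - e l 2)| ≠ 2 := by
  intro i j k l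
  fin_cases i <;> fin_cases j <;> fin_cases k <;> fin_cases l <;> simp [e]

theorem right_adj (u : Cell) (hu : u 0 + u 1 + u 2 = 0) :
    IsStone {u + e 0, u + e 1, u + e 2} := by
  have hs : ∀ i, (u + e i) 0 + (u + e i) 1 + (u + e i) 2 = 1 := by
    intro i
    have := e_sum i
    simp only [Pi.add_apply]
    linarith
  have hne : ∀ i j : Fin 3, i ≠ j → u + e i ≠ u + e j := by
    intro i j hij h
    have := congrFun (add_left_cancel h) i
    simp [e, hij] at this
  have hadj : ∀ i j : Fin 3, i ≠ j → Adj (u + e i) (u + e j) := by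
    intro i j hij
    unfold Adj
    simp only [Pi.add_apply, add_sub_add_left_eq_sub]
    fin_cases i <;> fin_cases j <;> simp [e] at hij ⊢
  refine ⟨?_, ?_, ?_⟩
  · rw [card_eq_three]
    exact ⟨_, _, _, hne 0 1 (by decide), hne 0 2 (by decide), hne 1 2 (by decide), rfl⟩
  · intro c hc
    simp only [mem_insert, mem_singleton] at hc
    rcases hc with rfl | rfl | rfl <;> exact hs _
  · have hex : ∀ c ∈ ({u + e 0, u + e 1, u + e 2} : Finset Cell), ∃ i, c = u + e i := by
      intro c hc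
      simp only [mem_insert, mem_singleton] at hc
      rcases hc with rfl | rfl | rfl
      · exact ⟨_, rfl⟩
      · exact ⟨_, rfl⟩
      · exact ⟨_, rfl⟩
    intro c hc c' hc' hcc
    obtain ⟨i, rfl⟩ := hex c hc
    obtain ⟨j, rfl⟩ := hex c' hc'
    exact hadj i j (fun h => hcc (by rw [h]))

theorem left_adj (u : Cell) (hu : u 0 + u 1 + u 2 = 2) :
    IsStone {u - e 0, u - e 1, u - e 2} := by
  have hs : ∀ i, (u - e i) 0 + (u - e i) 1 + (u - e i) 2 = 1 := by
    intro i
    have := e_sum i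
    simp only [Pi.sub_apply]
    linarith
  have hne : ∀ i j : Fin 3, i ≠ j → u - e i ≠ u - e j := by
    intro i j hij h
    have := congrFun (sub_right_injective h) i
    simp [e, hij] at this
  have hadj : ∀ i j : Fin 3, i ≠ j → Adj (u - e i) (u - e j) := by
    intro i j hij
    unfold Adj
    simp only [Pi.sub_apply, sub_sub_sub_cancel_left]
    fin_cases i <;> fin_cases j <;> simp [e] at hij ⊢
  refine ⟨?_, ?_, ?_⟩
  · rw [card_eq_three]
    exact ⟨_, _, _, hne 0 1 (by decide), hne 0 2 (by decide), hne 1 2 (by decide), rfl⟩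
  · intro c hc
    simp only [mem_insert, mem_singleton] at hc
    rcases hc with rfl | rfl | rfl <;> exact hs _
  · have hex : ∀ c ∈ ({u - e 0, u - e 1, u - e 2} : Finset Cell), ∃ i, c = u - e i := by
      intro c hc
      simp only [mem_insert, mem_singleton] at hc
      rcases hc with rfl | rfl | rfl
      · exact ⟨_, rfl⟩
      · exact ⟨_, rfl⟩
      · exact ⟨_, rfl⟩
    intro c hc c' hc' hcc
    obtain ⟨i, rfl⟩ := hex c hc
    obtain ⟨j, rfl⟩ := hex c' hc'
    exact hadj i j (fun h => hcc (by rw [h]))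

theorem stone_iff (t : Finset Cell) : IsStone t ↔ IsRightStone t ∨ IsLeftStone t := by
  constructor
  · rintro ⟨h3, hc, hadj⟩
    obtain ⟨a, b, c, hab, hac, hbc, rfl⟩ := card_eq_three.1 h3
    have ma := hc a (by simp)
    have mb := hc b (by simp)
    have mc := hc c (by simp)
    obtain ⟨i, j, hij, rfl⟩ := adj_diff ma mb (hadj a (by simp) b (by simp) hab)
    obtain ⟨k, l, hkl, rfl⟩ := adj_diff ma mc (hadj a (by simp) c (by simp) hac)
    by_cases hik : i = k
    · subst hik
      have hjl : j ≠ l := fun h => hbc (by rw [h])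
      refine Or.inr ⟨a + e i, ?_, ?_⟩
      · have := e_sum i
        simp only [Pi.add_apply]
        linarith
      · rw [← set_perm (f := fun x => a + e i - e x) hij hkl hjl]
        simp
    · by_cases hjl : j = l
      · subst hjl
        refine Or.inl ⟨a - e j, ?_, ?_⟩
        · have := e_sum j
          simp only [Pi.sub_apply]
          linarith
        · rw [← set_perm (f := fun x => a - e j + e x) hij.symm hkl.symm hik]
          simp only [sub_add_cancel]
          rw [show a + e i - e j = a - e j + e i by abel, show a + e k - e j = a - e j + e k by abel]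
      · exfalso
        have h := hadj (a + e i - e j) (by simp) (a + e k - e l) (by simp) hbc
        unfold Adj at h
        simp only [Pi.add_apply, Pi.sub_apply] at h
        have e0 : ∀ x, a x + e i x - e j x - (a x + e k x - e l x) =
            (e i x - e j x) - (e k x - e l x) := fun x => by ring
        rw [e0, e0, e0] at h
        exact not_adj i j k l hij hkl hik hjl h
  · rintro (⟨u, hu, rfl⟩ | ⟨u, hu, rfl⟩)
    · exact right_adj u hu
    · exact left_adj u hu

theorem boneAny_iff (t : Finset Cell) : IsBoneAny t ↔ ∃ i, IsBone i t := by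
  constructor
  · rintro ⟨c, d, hc, ⟨i, j, hij, rfl⟩, rfl⟩
    have hj : j = i + 1 ∨ i = j + 1 := by revert i j; decide
    rcases hj with rfl | rfl
    · exact ⟨i, c, hc, rfl⟩
    · refine ⟨j, c, hc, ?_⟩
      have e1 : c - (e (j+1) - e j) = c + (e j - e (j+1)) := by abel
      have e2 : c + (e (j+1) - e j) = c - (e j - e (j+1)) := by abel
      rw [e1, e2]
      exact set3_rev
  · rintro ⟨i, c, hc, rfl⟩
    exact ⟨c, e i - e (i+1), hc, ⟨i, i+1, by revert i; decide, rfl⟩, rfl⟩

theorem all_iff (t : Finset Cell) : IsStone t ∨ IsBoneAny t ↔ All5 t := by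
  rw [stone_iff, boneAny_iff, or_assoc]
  rfl

end Q230.Bz
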