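import Mathlib
import Pool.Agent.Q230.BzTiles

/-! # Schröder paths and the numbers `S 1 1 p q` -/

set_option linter.unusedSectionVars false

namespace Q230.Benzel

/-- `l` is the list of steps of a lattice path from `(0,0)` to `(x,y)` with steps `(1,0)`, `(0,1)`,
`(1,1)` that never goes above the line `y = x`. -/
def IsRoyalPath (x y : ℤ) (l : List (ℤ × ℤ)) : Prop :=
  (∀ s ∈ l, s = (1, 0) ∨ s = (0, 1) ∨ s = (1, 1)) ∧ l.sum = (x, y) ∧
    ∀ l', l' <+: l → l'.sum.2 ≤ l'.sum.1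

/-- The large Schröder number `S_n`: the number of lattice paths from `(0,0)` to `(n,n)` with steps
`(1,0)`, `(0,1)`, `(1,1)` that never go above the line `y = x`. -/
noncomputable def largeSchroeder (n : ℕ) : ℕ := {l | IsRoyalPath n n l}.ncard

end Q230.Benzel

namespace Q230.Bz

open Finset Q230.Benzel

/-- the set of royal paths to `(x,y)` -/
def PS (x y : ℤ) : Set (List (ℤ × ℤ)) := {l | IsRoyalPath x y l}

theorem sum_nonneg' {l : List (ℤ × ℤ)} (h : ∀ s ∈ l, s = (1, 0) ∨ s = (0, 1) ∨ s = (1, 1)) :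
    0 ≤ l.sum.2 := by
  induction l with
  | nil => simp
  | cons a l ih =>
    rw [List.sum_cons, Prod.snd_add]
    have h1 := ih (fun s hs => h s (List.mem_cons_of_mem _ hs))
    rcases h a List.mem_cons_self with rfl | rfl | rfl <;> simp <;> omega

theorem PS_empty_neg {x y : ℤ} (h : y < 0) : PS x y = ∅ := by
  ext l
  simp only [PS, Set.mem_ofPred_eq, Set.mem_empty_iff_false, iff_false]
  rintro ⟨h1, h2, -⟩
  have := sum_nonneg' h1
  rw [h2] at this
  simp at this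
  omega

theorem PS_empty_lt {x y : ℤ} (h : x < y) : PS x y = ∅ := by
  ext l
  simp only [PS, Set.mem_ofPred_eq, Set.mem_empty_iff_false, iff_false]
  rintro ⟨-, h2, h3⟩
  have := h3 l List.prefix_rfl
  rw [h2] at this
  simp at this
  omega

/-- appending a step -/
def app (s : ℤ × ℤ) (l : List (ℤ × ℤ)) : List (ℤ × ℤ) := l ++ [s]

theorem app_inj {s s' : ℤ × ℤ} {l l' : List (ℤ × ℤ)} (h : app s l = app s' l') : l = l' ∧ s = s' := by
  have := List.append_inj' h rfl
  exact ⟨this.1, by simpa using this.2⟩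

theorem royal_app {x y : ℤ} {s : ℤ × ℤ} {l : List (ℤ × ℤ)} :
    IsRoyalPath x y (app s l) ↔ IsRoyalPath (x - s.1) (y - s.2) l ∧
      (s = (1, 0) ∨ s = (0, 1) ∨ s = (1, 1)) ∧ y ≤ x := by
  unfold IsRoyalPath app
  constructor
  · rintro ⟨h1, h2, h3⟩
    have e1 : l.sum + s = (x, y) := by simpa using h2
    refine ⟨⟨fun t ht => h1 t (by simp [ht]), ?_, fun l' hl' => h3 l' (hl'.trans (List.prefix_append _ _))⟩,
      h1 s (by simp), ?_⟩
    · have : l.sum = (x, y) - s := by rw [← e1]; abel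
      rw [this]
      ext <;> simp
    · have := h3 _ List.prefix_rfl
      rw [h2] at this
      exact this
  · rintro ⟨⟨h1, h2, h3⟩, h4, h5⟩
    have e1 : (l ++ [s]).sum = (x, y) := by
      rw [List.sum_append, h2]
      ext <;> simp
    refine ⟨?_, e1, ?_⟩
    · intro t ht
      rw [List.mem_append, List.mem_singleton] at ht
      rcases ht with ht | rfl
      · exact h1 t ht
      · exact h4
    · intro l' hl'
      rw [List.prefix_concat_iff] at hl'
      rcases hl' with rfl | hl'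
      · rw [e1]; exact h5
      · exact h3 l' hl'

theorem PS_rec {x y : ℤ} (h : ¬ (x = 0 ∧ y = 0)) (hyx : y ≤ x) :
    PS x y = app (1,0) '' PS (x-1) y ∪ (app (1,1) '' PS (x-1) (y-1) ∪
      app (0,1) '' PS x (y-1)) := by
  ext l
  simp only [Set.mem_union, Set.mem_image]
  constructor
  · intro hl
    rcases List.eq_nil_or_concat l with rfl | ⟨l', s, rfl⟩
    · exfalso
      have := hl.2.1
      simp only [List.sum_nil] at this
      apply h
      have h1 := congrArg Prod.fst this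
      have h2 := congrArg Prod.snd this
      simp at h1 h2
      exact ⟨h1.symm, h2.symm⟩
    · rw [List.concat_eq_append] at hl ⊢
      obtain ⟨h1, h2, h3⟩ := royal_app.1 (show IsRoyalPath x y (app s l') from hl)
      rcases h2 with rfl | rfl | rfl
      · exact Or.inl ⟨l', by simpa [PS] using h1, rfl⟩
      · exact Or.inr (Or.inr ⟨l', by simpa [PS] using h1, rfl⟩)
      · exact Or.inr (Or.inl ⟨l', by simpa [PS] using h1, rfl⟩)
  · rintro (⟨l', h1, rfl⟩ | ⟨l', h1, rfl⟩ | ⟨l', h1, rfl⟩)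
    · exact royal_app.2 ⟨by simpa [PS] using h1, by simp, hyx⟩
    · exact royal_app.2 ⟨by simpa [PS] using h1, by simp, hyx⟩
    · exact royal_app.2 ⟨by simpa [PS] using h1, by simp, hyx⟩

theorem PS_zero : PS 0 0 = {[]} := by
  ext l
  simp only [PS, Set.mem_ofPred_eq, Set.mem_singleton_iff]
  constructor
  · rintro ⟨h1, h2, h3⟩
    cases l with
    | nil => rfl
    | cons a l =>
      exfalso
      have h4 : ∀ l : List (ℤ × ℤ), (∀ s ∈ l, s = (1, 0) ∨ s = (0, 1) ∨ s = (1, 1)) →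
          0 ≤ l.sum.1 + l.sum.2 := by
        intro l
        induction l with
        | nil => simp
        | cons a l ih =>
          intro h
          rw [List.sum_cons, Prod.snd_add, Prod.fst_add]
          have h1 := ih (fun s hs => h s (List.mem_cons_of_mem _ hs))
          rcases h a List.mem_cons_self with rfl | rfl | rfl <;> simp <;> omega
      have h5 := h4 l (fun s hs => h1 s (List.mem_cons_of_mem _ hs))
      rw [List.sum_cons] at h2
      have e1 := congrArg Prod.fst h2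
      have e2 := congrArg Prod.snd h2
      simp only [Prod.fst_add, Prod.snd_add] at e1 e2
      rcases h1 a List.mem_cons_self with rfl | rfl | rfl <;> simp at e1 e2 <;> omega
  · rintro rfl
    refine ⟨by simp, rfl, ?_⟩
    intro l' hl'
    rw [List.prefix_nil.1 hl']
    simp

theorem app_injective (s : ℤ × ℤ) : Function.Injective (app s) := fun _ _ h => (app_inj h).1

theorem PS_card_rec {x y : ℤ} (h : ¬ (x = 0 ∧ y = 0)) (hyx : y ≤ x)
    (f1 : (PS (x-1) y).Finite) (f2 : (PS (x-1) (y-1)).Finite) (f3 : (PS x (y-1)).Finite) :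
    (PS x y).Finite ∧ (PS x y).ncard = (PS (x-1) y).ncard +
      ((PS (x-1) (y-1)).ncard + (PS x (y-1)).ncard) := by
  rw [PS_rec h hyx]
  have g1 := f1.image (app (1,0))
  have g2 := f2.image (app (1,1))
  have g3 := f3.image (app (0,1))
  refine ⟨g1.union (g2.union g3), ?_⟩
  rw [Set.ncard_union_eq _ g1 (g2.union g3), Set.ncard_union_eq _ g2 g3,
    Set.ncard_image_of_injective _ (app_injective _), Set.ncard_image_of_injective _ (app_injective _),
    Set.ncard_image_of_injective _ (app_injective _)]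
  · rw [Set.disjoint_left]
    rintro _ ⟨l, _, rfl⟩ ⟨l', _, h⟩
    have := (app_inj h).2
    simp at this
  · rw [Set.disjoint_left]
    rintro _ ⟨l, _, rfl⟩ (⟨l', _, h⟩ | ⟨l', _, h⟩)
    · have := (app_inj h).2
      simp at this
    · have := (app_inj h).2
      simp at this

theorem PS_card (q : ℕ) : ∀ p : ℕ, (PS (p+q) q).Finite ∧
    ((PS (p+q) q).ncard : ℤ) = S 1 1 p q := by
  induction q with
  | zero =>
    intro p
    induction p with
    | zero =>
      simp only [Nat.cast_zero, add_zero, PS_zero]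
      exact ⟨Set.finite_singleton _, by rw [Set.ncard_singleton, S_zero]; simp⟩
    | succ p ih =>
      have e1 : (((p+1:ℕ):ℤ) + ((0:ℕ):ℤ)) - 1 = (p:ℤ) + ((0:ℕ):ℤ) := by push_cast; ring
      have z1 : PS ((((p+1:ℕ):ℤ) + ((0:ℕ):ℤ)) - 1) (((0:ℕ):ℤ) - 1) = ∅ :=
        PS_empty_neg (by norm_num)
      have z2 : PS (((p+1:ℕ):ℤ) + ((0:ℕ):ℤ)) (((0:ℕ):ℤ) - 1) = ∅ :=
        PS_empty_neg (by norm_num)
      obtain ⟨f, c⟩ := PS_card_rec (x := ((p+1:ℕ):ℤ) + ((0:ℕ):ℤ)) (y := ((0:ℕ):ℤ))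
        (by push_cast; omega) (by push_cast; omega) (by rw [e1]; exact ih.1)
        (by rw [z1]; exact Set.finite_empty) (by rw [z2]; exact Set.finite_empty)
      refine ⟨f, ?_⟩
      rw [c, z1, z2, e1]
      push_cast
      simp only [Set.ncard_empty, Nat.cast_zero, add_zero]
      have := ih.2
      simp only [Nat.cast_zero, add_zero] at this
      rw [this, S_zero, S_zero]
      simp
  | succ q ih =>
    intro p
    induction p with
    | zero =>
      have e1 : ((0:ℕ):ℤ) + ((q+1:ℕ):ℤ) - 1 = ((0:ℕ):ℤ) + (q:ℤ) := by push_cast; ring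
      have e2 : ((q+1:ℕ):ℤ) - 1 = (q:ℤ) := by push_cast; ring
      have e3 : ((0:ℕ):ℤ) + ((q+1:ℕ):ℤ) = ((1:ℕ):ℤ) + (q:ℤ) := by push_cast; ring
      have z1 : PS (((0:ℕ):ℤ) + ((q+1:ℕ):ℤ) - 1) ((q+1:ℕ):ℤ) = ∅ :=
        PS_empty_lt (by push_cast; omega)
      obtain ⟨f, c⟩ := PS_card_rec (x := ((0:ℕ):ℤ) + ((q+1:ℕ):ℤ)) (y := ((q+1:ℕ):ℤ))
        (by push_cast; omega) (by push_cast; omega)
        (by rw [z1]; exact Set.finite_empty)
        (by rw [e1, e2]; exact (ih 0).1) (by rw [e2, e3]; exact (ih 1).1)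
      refine ⟨f, ?_⟩
      rw [c, z1, e1, e2, e3, S_zero_succ]
      push_cast
      have h0 := (ih 0).2
      have h1 := (ih 1).2
      push_cast at h0 h1
      rw [h0, h1]
      simp
    | succ p ihp =>
      have e1 : ((p+1:ℕ):ℤ) + ((q+1:ℕ):ℤ) - 1 = ((p:ℕ):ℤ) + ((q+1:ℕ):ℤ) := by push_cast; ring
      have e1' : ((p:ℕ):ℤ) + ((q+1:ℕ):ℤ) = ((p+1:ℕ):ℤ) + (q:ℤ) := by push_cast; ring
      have e2 : ((q+1:ℕ):ℤ) - 1 = (q:ℤ) := by push_cast; ring
      have e3 : ((p+1:ℕ):ℤ) + ((q+1:ℕ):ℤ) = ((p+2:ℕ):ℤ) + (q:ℤ) := by push_cast; ring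
      obtain ⟨f, c⟩ := PS_card_rec (x := ((p+1:ℕ):ℤ) + ((q+1:ℕ):ℤ)) (y := ((q+1:ℕ):ℤ))
        (by push_cast; omega) (by push_cast; omega)
        (by rw [e1]; exact ihp.1)
        (by rw [e1, e1', e2]; exact (ih (p+1)).1) (by rw [e2, e3]; exact (ih (p+2)).1)
      refine ⟨f, ?_⟩
      rw [c, S_succ_succ]
      have h0 : ((PS (((p+1:ℕ):ℤ) + ((q+1:ℕ):ℤ) - 1) ((q+1:ℕ):ℤ)).ncard : ℤ) = S 1 1 p (q+1) := by
        rw [e1]; exact ihp.2
      have h1 : ((PS (((p+1:ℕ):ℤ) + ((q+1:ℕ):ℤ) - 1) (((q+1:ℕ):ℤ) - 1)).ncard : ℤ) =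
          S 1 1 (p+1) q := by
        rw [e1, e1', e2]; exact (ih (p+1)).2
      have h2 : ((PS (((p+1:ℕ):ℤ) + ((q+1:ℕ):ℤ)) (((q+1:ℕ):ℤ) - 1)).ncard : ℤ) =
          S 1 1 (p+2) q := by
        rw [e2, e3]; exact (ih (p+2)).2
      generalize (PS (((p+1:ℕ):ℤ) + ((q+1:ℕ):ℤ) - 1) ((q+1:ℕ):ℤ)).ncard = A at h0 ⊢
      generalize (PS (((p+1:ℕ):ℤ) + ((q+1:ℕ):ℤ) - 1) (((q+1:ℕ):ℤ) - 1)).ncard = B at h1 ⊢
      generalize (PS (((p+1:ℕ):ℤ) + ((q+1:ℕ):ℤ)) (((q+1:ℕ):ℤ) - 1)).ncard = C at h2 ⊢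
      rw [Nat.cast_add, Nat.cast_add, h0, h1, h2]
      ring

theorem schroeder_eq (n : ℕ) : (largeSchroeder n : ℤ) = S 1 1 0 n := by
  have := (PS_card n 0).2
  rw [← this, largeSchroeder]
  simp [PS]

end Q230.Bz
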