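import Mathlib
import Pool.Agent.Q230.BzBij
import Pool.Agent.Q230.BzSchr

/-! # Tilings of type 112 -/

set_option linter.unusedSectionVars false

namespace Q230.Bz

open Finset Q230.Benzel

/-- both stones, and bones in the two directions different from `i` -/
def Al112 (i : Fin 3) (t : Finset Cell) : Prop :=
  IsRightStone t ∨ IsLeftStone t ∨ ∃ j, j ≠ i ∧ IsBone j t

theorem Al112_all {i : Fin 3} {t : Finset Cell} (h : Al112 i t) : All5 t := by
  rcases h with h | h | ⟨j, -, h⟩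
  · exact Or.inl h
  · exact Or.inr (Or.inl h)
  · exact Or.inr (Or.inr ⟨j, h⟩)

/-- bone weights -/
def be (i : Fin 3) (j : Fin 3) : ℤ := if j = i then 0 else 1

theorem PW112 (i : Fin 3) [DecidablePred (Al112 i)] :
    PW (fun t => if Al112 i t then (1:ℤ) else 0) 1 (be i) where
  right t h := if_pos (Or.inl h)
  left t h := if_pos (Or.inr (Or.inl h))
  bone j t h := by
    unfold be
    by_cases hj : j = i
    · subst hj
      rw [if_pos rfl, if_neg]
      rintro (h' | h' | ⟨k, hk, h'⟩)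
      · exact not_right_bone h' _ h
      · exact not_left_bone h' _ h
      · exact hk (bone_unique h' h)
    · rw [if_neg hj]
      exact if_pos (Or.inr (Or.inr ⟨j, hj, h⟩))

theorem S01_zero (q : ℕ) : S (0:ℤ) 1 0 q = 1 := by
  induction q with
  | zero => rw [S_zero]; simp
  | succ q ih => rw [S_zero_succ, ih]; ring

theorem S01_succ (p q : ℕ) : S (0:ℤ) 1 (p+1) q = 0 := by
  induction q with
  | zero => rw [S_zero]; simp
  | succ q ih => rw [S_succ_succ, ih]; ring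

theorem SZ01 {p q : ℤ} (hp : 0 ≤ p) (hq : 0 ≤ q) : SZ (0:ℤ) 1 p q = if p = 0 then 1 else 0 := by
  obtain ⟨p, rfl⟩ := Int.eq_ofNat_of_zero_le hp
  obtain ⟨q, rfl⟩ := Int.eq_ofNat_of_zero_le hq
  rw [SZ_nat]
  cases p with
  | zero => rw [S01_zero]; simp
  | succ p => rw [S01_succ]; simp; omega

theorem SZ_zero {R : Type*} [CommRing R] (w y : R) {p : ℤ} (hp : 0 ≤ p) :
    SZ w y p 0 = w ^ p.toNat := by
  obtain ⟨p, rfl⟩ := Int.eq_ofNat_of_zero_le hp
  have : (0:ℤ) = ((0:ℕ):ℤ) := rfl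
  rw [this, SZ_nat, S_zero]
  simp

/-- point with given coordinates -/
def mk3 (k : Fin 3) (a b c : ℤ) : Pt := fun i => if i = k then a else if i = k+1 then b else c

theorem mk3_0 (k : Fin 3) (a b c : ℤ) : mk3 k a b c k = a := by simp [mk3]
theorem mk3_1 (k : Fin 3) (a b c : ℤ) : mk3 k a b c (k+1) = b := by simp [mk3]
theorem mk3_2 (k : Fin 3) (a b c : ℤ) : mk3 k a b c (k+2) = c := by
  have h : k + 2 ≠ k + 1 := by revert k; decide
  simp [mk3, h]

/-- sums over an edge of the triangle -/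
theorem sum_edge {R : Type*} [CommRing R] (k : Fin 3) (n : ℕ) (g : ℤ → ℤ → R) :
    ∑ P ∈ XX n, (if P (k+2) = 0 then g (P k) (P (k+1)) else 0) =
      ∑ j ∈ range (n+1), g j (n-j : ℕ) := by
  rw [← sum_filter]
  symm
  apply sum_nbij' (i := fun j : ℕ => mk3 k j ((n-j : ℕ)) 0) (j := fun P => (P k).toNat)
  · intro j hj
    rw [mem_range] at hj
    rw [mem_filter, mem_XX' k, mk3_0, mk3_1, mk3_2]
    refine ⟨⟨?_, ?_, ?_, ?_⟩, rfl⟩ <;> omega
  · intro P hP
    rw [mem_filter, mem_XX' k] at hP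
    rw [mem_range]
    omega
  · intro j hj
    rw [mk3_0]
    simp
  · intro P hP
    rw [mem_filter, mem_XX' k] at hP
    apply pt_ext k
    · rw [mk3_0]; omega
    · rw [mk3_1]; omega
    · rw [mk3_2]; omega
  · intro j hj
    rw [mk3_0, mk3_1]

/-- antidiagonal sums -/
def DD (n : ℕ) : ℤ := ∑ j ∈ range (n+1), S 1 1 j (n-j)

theorem DD_eq (n : ℕ) : S (1:ℤ) 1 0 (n+1) = 2 * DD n := by
  -- `D_{n+1}` computed in two ways
  have a1 : DD (n+1) = S 1 1 0 (n+1) + ∑ j ∈ range n, S 1 1 (j+1) (n-j) + S 1 1 (n+1) 0 := by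
    unfold DD
    rw [sum_range_succ, sum_range_succ']
    simp only [Nat.sub_self, Nat.sub_zero]
    rw [add_comm (∑ k ∈ range n, _)]
    congr 2
    refine sum_congr rfl fun j _ => ?_
    rw [show n + 1 - (j + 1) = n - j by omega]
  have a2 : ∑ j ∈ range n, S (1:ℤ) 1 (j+1) (n-j) = ∑ j ∈ range n, S 1 1 j (n-j) +
      ∑ j ∈ range n, S 1 1 (j+1) (n-1-j) + ∑ j ∈ range n, S 1 1 (j+2) (n-1-j) := by
    rw [← sum_add_distrib, ← sum_add_distrib]
    refine sum_congr rfl fun j hj => ?_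
    rw [mem_range] at hj
    obtain ⟨q, hq⟩ : ∃ q, n - j = q + 1 := ⟨n - j - 1, by omega⟩
    rw [hq, show n - 1 - j = q by omega, S_succ_succ]
    ring
  have a3 : DD n = ∑ j ∈ range n, S 1 1 j (n-j) + S 1 1 n 0 := by
    unfold DD
    rw [sum_range_succ, Nat.sub_self]
  have a4 : DD n = S 1 1 0 n + ∑ j ∈ range n, S 1 1 (j+1) (n-1-j) := by
    unfold DD
    rw [sum_range_succ', Nat.sub_zero, add_comm]
    congr 1
    refine sum_congr rfl fun j _ => ?_
    rw [show n - (j + 1) = n - 1 - j by omega]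
  have a5 : DD (n+1) = S 1 1 0 (n+1) + (S 1 1 1 n + ∑ j ∈ range n, S 1 1 (j+2) (n-1-j)) := by
    unfold DD
    rw [sum_range_succ', Nat.sub_zero, add_comm, sum_range_succ']
    congr 1
    rw [add_comm]
    congr 1
    refine sum_congr rfl fun j _ => ?_
    rw [show n + 1 - (j + 1 + 1) = n - 1 - j by omega]
  have a6 := S_zero_succ (1:ℤ) 1 n
  have a7 : S (1:ℤ) 1 n 0 = 1 := by rw [S_zero]; simp
  have a8 : S (1:ℤ) 1 (n+1) 0 = 1 := by rw [S_zero]; simp
  linarith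

theorem XX_pos {m : ℤ} {P : Pt} (h : P ∈ XX m) (k : Fin 3) : 0 ≤ P k := ((mem_XX' k).1 h).1

theorem sum3' {R : Type*} [CommRing R] (f : Fin 3 → R) (k : Fin 3) :
    ∑ i, f i = f k + f (k+1) + f (k+2) := by
  rw [Fin.sum_univ_three]
  fin_cases k
  · rfl
  · show _ = f 1 + f 2 + f 0
    ring
  · show _ = f 2 + f 0 + f 1
    ring

theorem be_self (i : Fin 3) : be i i = 0 := if_pos rfl
theorem be_ne {i j : Fin 3} (h : j ≠ i) : be i j = 1 := if_neg h

theorem sum_reindex (n : ℕ) (g : ℕ → ℕ → ℤ) :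
    ∑ j ∈ range (n+1), g (n-j) j = ∑ j ∈ range (n+1), g j (n-j) := by
  rw [← sum_range_reflect]
  refine sum_congr rfl fun j hj => ?_
  rw [mem_range] at hj
  rw [show n + 1 - 1 - j = n - j by omega, show n - (n - j) = j by omega]

/-- tilings of the first region of type 112 -/
theorem T112A (i : Fin 3) (m : ℕ) :
    (numTilings (Al112 i) (benzel (m+2) (2*m+1)) : ℤ) = S 1 1 0 m := by
  classical
  obtain ⟨k, rfl⟩ : ∃ k : Fin 3, k + 2 = i := ⟨i + 1, by revert i; decide⟩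
  rw [numTilings_eq (regA m) (Al112 (k+2)) (fun t h => Al112_all h),
    countA (PW112 (k+2)) (by positivity)]
  have n0 : k ≠ k + 2 := by revert k; decide
  have n1 : k + 1 ≠ k + 2 := by revert k; decide
  have h1 : ∀ P ∈ XX m, (∏ j, SZ (be (k+2) (j+2)) 1 (P (j+2)) (P (j+1)) -
        ∑ j, be (k+2) (j+2) * be (k+2) j * SZ (be (k+2) (j+2)) 1 (P (j+2) - 1) (P (j+1)) *
        SZ (be (k+2) j) 1 (P j + 1) (P (j+2) - 1) * SZ (be (k+2) (j+1)) 1 (P (j+1)) (P j)) =
      (if P (k+2) = 0 then (SZ 1 1 (P (k+1)) (P k) -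
        SZ 1 1 (P (k+1) + 1) (P k - 1)) else 0) := by
    intro P hP
    have p0 := XX_pos hP k
    have p1 := XX_pos hP (k+1)
    have p2 := XX_pos hP (k+2)
    rw [prod3 _ k, sum3' _ k]
    simp only [add_one_two, add_two_two, add_one_one, add_two_one, be_self, be_ne n0, be_ne n1]
    rw [SZ01 p2 p1]
    by_cases hz : P (k+2) = 0
    · rw [if_pos hz, if_pos hz, hz, SZ_zero _ _ p0]
      by_cases hk : P k = 0
      · rw [hk]
        rw [SZ_neg_right (1:ℤ) 1 (p := P (k+1) + 1) (q := 0 - 1) (by norm_num)]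
        ring
      · rw [SZ_zero _ _ (p := P k - 1) (by omega)]
        simp
    · rw [if_neg hz, if_neg hz]
      ring
  rw [sum_congr rfl h1, sum_edge k m (fun a b => SZ 1 1 b a - SZ 1 1 (b+1) (a-1)),
    sum_sub_distrib]
  have e1 : ∑ j ∈ range (m+1), SZ (1:ℤ) 1 ((m-j : ℕ):ℤ) j = DD m := by
    unfold DD
    rw [← sum_reindex m (fun a b => S 1 1 a b)]
    exact sum_congr rfl fun j _ => SZ_nat _ _ _ _
  have e2 : ∑ j ∈ range (m+1), SZ (1:ℤ) 1 (((m-j : ℕ):ℤ) + 1) ((j:ℤ)-1) = DD m - S 1 1 0 m := by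
    rw [sum_range_succ']
    rw [SZ_neg_right (1:ℤ) 1 (q := ((0:ℕ):ℤ) - 1) (by norm_num), add_zero]
    unfold DD
    rw [← sum_reindex m (fun a b => S 1 1 a b), sum_range_succ, Nat.sub_self]
    simp only [add_sub_cancel_right]
    refine sum_congr rfl fun j hj => ?_
    rw [mem_range] at hj
    have e3 : (((m - (j+1) : ℕ):ℤ) + 1) = ((m-j : ℕ) : ℤ) := by omega
    have e4 : ((j+1:ℕ):ℤ) - 1 = (j:ℤ) := by push_cast; ring
    rw [e3, e4, SZ_nat]
  rw [e1, e2]
  ring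

/-- tilings of the second region of type 112 -/
theorem T112B (i : Fin 3) (m : ℕ) :
    (numTilings (Al112 i) (benzel ((m+1:ℕ)+2) (2*(m+1:ℕ))) : ℤ) = S 1 1 0 (m+1) - S 1 1 0 m := by
  classical
  obtain ⟨k, rfl⟩ : ∃ k : Fin 3, k + 2 = i := ⟨i + 1, by revert i; decide⟩
  rw [numTilings_eq (regB (m+1:ℕ)) (Al112 (k+2)) (fun t h => Al112_all h),
    countB (PW112 (k+2)) (by positivity)]
  have n0 : k ≠ k + 2 := by revert k; decide
  have n1 : k + 1 ≠ k + 2 := by revert k; decide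
  have q1 : ((m+1:ℕ):ℤ) - 1 = m := by push_cast; ring
  have h1 : ∀ v ∈ XX (((m+1:ℕ):ℤ) - 1), ∏ j, SZ (be (k+2) (j+2)) 1 (v (j+2)) (v j) =
      (if v (k+2) = 0 then SZ 1 1 (v k) (v (k+1)) else 0) := by
    intro P hP
    have p0 := XX_pos hP k
    have p1 := XX_pos hP (k+1)
    have p2 := XX_pos hP (k+2)
    rw [prod3 _ k]
    simp only [add_one_two, add_two_two, add_one_one, add_two_one, be_self, be_ne n0, be_ne n1]
    rw [SZ01 p2 p0]
    by_cases hz : P (k+2) = 0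
    · rw [if_pos hz, if_pos hz, hz, SZ_zero _ _ p1]
      simp
    · rw [if_neg hz, if_neg hz]
      ring
  have h2 : ∀ v ∈ XX (((m+1:ℕ):ℤ) - 2), ∏ j, SZ (be (k+2) (j+2)) 1 (v (j+2) + 1) (v j) = 0 := by
    intro P hP
    have p0 := XX_pos hP k
    have p2 := XX_pos hP (k+2)
    apply prod_eq_zero (mem_univ k)
    rw [be_self, SZ01 (by omega) p0, if_neg (by omega)]
  have h3 : ∑ κ, be (k+2) (κ+1) * ∑ v ∈ XX (((m+1:ℕ):ℤ)-2), SZ (be (k+2) (κ+2)) 1 (v (κ+2)) (v κ) *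
        SZ (be (k+2) κ) 1 (v κ + 1) (v (κ+1)) * SZ (be (k+2) (κ+1)) 1 (v (κ+1) + 1) (v (κ+2)) =
      ∑ v ∈ XX (((m+1:ℕ):ℤ)-2), (if v (k+2) = 0 then SZ 1 1 (v k + 1) (v (k+1)) else 0) := by
    rw [sum3' _ k]
    simp only [add_one_two, add_two_two, add_one_one, add_two_one, be_self, be_ne n0, be_ne n1]
    rw [zero_mul, add_zero, one_mul, one_mul]
    have z : ∑ v ∈ XX (((m+1:ℕ):ℤ)-2), SZ (1:ℤ) 1 (v (k+1)) (v (k+2)) *
        SZ 0 1 (v (k+2) + 1) (v k) * SZ 1 1 (v k + 1) (v (k+1)) = 0 := by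
      apply sum_eq_zero
      intro P hP
      have p0 := XX_pos hP k
      have p2 := XX_pos hP (k+2)
      rw [SZ01 (by omega) p0, if_neg (by omega)]
      ring
    rw [z, add_zero]
    refine sum_congr rfl fun P hP => ?_
    have p0 := XX_pos hP k
    have p1 := XX_pos hP (k+1)
    have p2 := XX_pos hP (k+2)
    rw [SZ01 p2 p0]
    by_cases hz : P (k+2) = 0
    · rw [if_pos hz, if_pos hz, hz, SZ_zero _ _ (by omega)]
      simp
    · rw [if_neg hz, if_neg hz]
      ring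
  rw [h3, sum_congr rfl h2, sum_const_zero, sum_congr rfl h1, q1,
    sum_edge k m (fun a b => SZ 1 1 a b)]
  have e1 : ∑ j ∈ range (m+1), SZ (1:ℤ) 1 (j:ℤ) ((m-j : ℕ):ℤ) = DD m := by
    unfold DD
    exact sum_congr rfl fun j _ => SZ_nat _ _ _ _
  rw [e1]
  have e2 : ∑ v ∈ XX (((m+1:ℕ):ℤ)-2), (if v (k+2) = 0 then SZ 1 1 (v k + 1) (v (k+1)) else 0) =
      DD m - S 1 1 0 m := by
    cases m with
    | zero =>
      have : XX (((0+1:ℕ):ℤ)-2) = ∅ := by
        ext P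
        rw [mem_XX]
        simp only [notMem_empty, iff_false]
        push_cast
        omega
      rw [this, sum_empty]
      unfold DD
      simp
    | succ m =>
      have q2 : ((m+1+1:ℕ):ℤ) - 2 = m := by push_cast; ring
      rw [q2, sum_edge k m (fun a b => SZ 1 1 (a+1) b)]
      unfold DD
      rw [sum_range_succ' (n := m + 1), Nat.sub_zero, add_sub_cancel_right]
      refine sum_congr rfl fun j hj => ?_
      rw [show m + 1 - (j + 1) = m - j by omega]
      have e3 : ((j:ℤ) + 1) = ((j+1:ℕ):ℤ) := by push_cast; ring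
      rw [e3, SZ_nat]
  rw [e2, DD_eq]
  ring

end Q230.Bz
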