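import Mathlib
import Pool.Agent.Q230.BzTiles

/-! # The trace formula -/

set_option linter.unusedSectionVars false

namespace Q230.Bz

open Finset

theorem S_map {R R' : Type*} [CommRing R] [CommRing R'] (f : R →+* R') (w y : R) (q : ℕ) :
    ∀ p, f (S w y p q) = S (f w) (f y) p q := by
  induction q with
  | zero => intro p; rw [S_zero, S_zero, map_pow]
  | succ q ih =>
    intro p
    induction p with
    | zero => rw [S_zero_succ, S_zero_succ, map_add, map_mul, map_mul, ih, ih]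
    | succ p ihp =>
      rw [S_succ_succ, S_succ_succ, map_add, map_add, map_mul, map_mul, map_mul, ih, ih, ihp]

section nil
variable {B : Type*} [CommRing B]

theorem nil_fix (x : B) (n : ℕ) (hx : x ^ n = 0) (Φ : B → B)
    (h : ∀ i a b, x ^ i ∣ a - b → x ^ (i+1) ∣ Φ a - Φ b) : ∃ a, a = Φ a := by
  have key : ∀ i, x ^ i ∣ Φ (Φ^[i] 0) - Φ^[i] 0 := by
    intro i
    induction i with
    | zero => simp
    | succ i ih =>
      rw [Function.iterate_succ_apply']
      exact h i _ _ ih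
  refine ⟨Φ^[n] 0, ?_⟩
  have := key n
  rw [hx, zero_dvd_iff, sub_eq_zero] at this
  exact this.symm

theorem nil_sys (x t : B) (n : ℕ) (hx : x ^ n = 0) (δ : ℕ → B)
    (h0 : δ 0 = x * (t * δ 0 + δ 1))
    (h1 : ∀ p, δ (p+1) = δ p + x * (t * δ (p+1) + δ (p+2))) : ∀ p, δ p = 0 := by
  have key : ∀ i, ∀ p, x ^ i ∣ δ p := by
    intro i
    induction i with
    | zero => simp
    | succ i ih =>
      intro p
      induction p with
      | zero =>
        rw [h0, pow_succ']
        exact mul_dvd_mul_left x (dvd_add (Dvd.dvd.mul_left (ih 0) t) (ih 1))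
      | succ p ihp =>
        rw [h1]
        refine dvd_add ihp ?_
        rw [pow_succ']
        exact mul_dvd_mul_left x (dvd_add (Dvd.dvd.mul_left (ih _) t) (ih _))
  intro p
  have := key n p
  rwa [hx, zero_dvd_iff] at this

/-- the truncated generating function of a column -/
def th (x t : B) (n p : ℕ) : B := ∑ q ∈ range n, S 1 t p q * x ^ q

theorem th_zero (x t : B) (n : ℕ) (hx : x ^ n = 0) :
    th x t n 0 = 1 + x * (t * th x t n 0 + th x t n 1) := by
  have h1 : x * (t * th x t n 0 + th x t n 1) = ∑ q ∈ range n, S 1 t 0 (q+1) * x ^ (q+1) := by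
    unfold th
    rw [mul_sum, ← sum_add_distrib, mul_sum]
    refine sum_congr rfl fun q _ => ?_
    rw [S_zero_succ]
    ring
  have h2 := sum_range_succ' (fun q => S 1 t 0 q * x ^ q) n
  rw [sum_range_succ, hx, mul_zero, add_zero] at h2
  rw [h1]
  unfold th
  rw [h2, S_zero]
  ring

theorem th_succ (x t : B) (n : ℕ) (hx : x ^ n = 0) (p : ℕ) :
    th x t n (p+1) = th x t n p + x * (t * th x t n (p+1) + th x t n (p+2)) := by
  have h1 : x * (t * th x t n (p+1) + th x t n (p+2)) =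
      ∑ q ∈ range n, S 1 t (p+1) (q+1) * x ^ (q+1) - ∑ q ∈ range n, S 1 t p (q+1) * x ^ (q+1) := by
    unfold th
    rw [mul_sum, ← sum_add_distrib, mul_sum, ← sum_sub_distrib]
    refine sum_congr rfl fun q _ => ?_
    rw [S_succ_succ]
    ring
  have h2 := sum_range_succ' (fun q => S 1 t (p+1) q * x ^ q) n
  rw [sum_range_succ, hx, mul_zero, add_zero, S_zero] at h2
  have h3 := sum_range_succ' (fun q => S 1 t p q * x ^ q) n
  rw [sum_range_succ, hx, mul_zero, add_zero, S_zero] at h3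
  rw [h1]
  unfold th
  rw [h2, h3]
  ring

theorem nil_theta (x t : B) (n : ℕ) (hx : x ^ n = 0) :
    ∃ Θ : B, Θ = 1 + x * (t * Θ + Θ ^ 2) ∧ ∀ p, th x t n p = Θ ^ (p+1) := by
  obtain ⟨Θ, hΘ⟩ := nil_fix x n hx (fun a => 1 + x * (t * a + a ^ 2)) (by
    rintro i a b ⟨c, hc⟩
    refine ⟨c * (t + a + b), ?_⟩
    have : a = b + x ^ i * c := by rw [← hc]; ring
    rw [pow_succ]
    linear_combination (x * (t + a + b)) * hc)
  refine ⟨Θ, hΘ, fun p => ?_⟩
  have := nil_sys x t n hx (fun p => th x t n p - Θ ^ (p+1)) (by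
      simp only [zero_add, pow_one]
      have := th_zero x t n hx
      linear_combination this - hΘ) (by
      intro p
      have := th_succ x t n hx p
      linear_combination this - Θ^(p+1) * hΘ) p
  exact sub_eq_zero.1 this

end nil

/-! ### upper triangular matrices -/

section tri
variable {A : Type*} [CommRing A] {n : ℕ}

/-- upper triangular -/
def Up (L : Matrix (Fin n) (Fin n) A) : Prop := ∀ i j, j < i → L i j = 0

theorem Up.mul {L L' : Matrix (Fin n) (Fin n) A} (h : Up L) (h' : Up L') : Up (L * L') := by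
  intro i j hij
  rw [Matrix.mul_apply]
  apply sum_eq_zero
  intro k _
  by_cases hk : k < i
  · rw [h i k hk, zero_mul]
  · rw [h' k j (by order), mul_zero]

theorem Up.diag {L L' : Matrix (Fin n) (Fin n) A} (h : Up L) (h' : Up L') (i : Fin n) :
    (L * L') i i = L i i * L' i i := by
  rw [Matrix.mul_apply, sum_eq_single i]
  · intro k _ hk
    by_cases hk' : k < i
    · rw [h i k hk', zero_mul]
    · rw [h' k i (by order), mul_zero]
  · intro h; exact absurd (mem_univ i) h

theorem Up.trace3 {L1 L2 L3 : Matrix (Fin n) (Fin n) A} (h1 : Up L1) (h2 : Up L2) (h3 : Up L3) :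
    (L1 * L2 * L3).trace = ∑ i, L1 i i * L2 i i * L3 i i := by
  rw [Matrix.trace]
  refine sum_congr rfl fun i _ => ?_
  rw [Matrix.diag_apply, (h1.mul h2).diag h3, h1.diag h2]

theorem trace_conj {T M1 M2 M3 L1 L2 L3 : Matrix (Fin n) (Fin n) A} (hT : IsUnit T)
    (h1 : M1 * T = T * L1) (h2 : M2 * T = T * L2) (h3 : M3 * T = T * L3) :
    (M1 * M2 * M3).trace = (L1 * L2 * L3).trace := by
  obtain ⟨u, rfl⟩ := hT
  have e : ∀ M L : Matrix (Fin n) (Fin n) A, M * u = u * L → M = u * L * (u⁻¹ : _) := by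
    intro M L h
    rw [← h, mul_assoc, Units.mul_inv, mul_one]
  rw [e M1 L1 h1, e M2 L2 h2, e M3 L3 h3]
  have : (u : Matrix (Fin n) (Fin n) A) * L1 * (u⁻¹ : _) * (u * L2 * (u⁻¹ : _)) *
      (u * L3 * (u⁻¹ : _)) = u * (L1 * L2 * L3) * (u⁻¹ : _) := by
    simp only [mul_assoc, Units.inv_mul_cancel_left]
  rw [this, Matrix.trace_mul_comm, ← mul_assoc, Units.inv_mul, one_mul]

end tri

section trace
variable {A : Type*} [CommRing A]

open Polynomial

theorem trace_formula (n : ℕ) (z t s lam : A) (hz : z ^ n = 0)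
    (hs : s = 1 + z * (t * s ^ 2 + s ^ 3))
    (hl : lam * (1 - z * s * (t + 2 * s)) = z * s * (t + s)) (a b c : ℕ) :
    (1 - lam ^ 3) * ∑ p : Fin n, ∑ q : Fin n, ∑ r : Fin n,
      (S 1 t (p+a) q * z ^ (q:ℕ)) * (S 1 t (q+b) r * z ^ (r:ℕ)) * (S 1 t (r+c) p * z ^ (p:ℕ)) =
      s ^ (a+b+c+3) := by
  classical
  have hzn : IsNilpotent z := ⟨n, hz⟩
  have hunit : ∀ d, IsUnit (1 - z * d) := fun d =>
    IsNilpotent.isUnit_one_sub (Commute.isNilpotent_mul_right (Commute.all z d) hzn)
  -- the functional equation in `A[X]`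
  set x : A[X] := C z * (C s + X) with hxdef
  have hx : x ^ n = 0 := by rw [hxdef, mul_pow, ← C_pow, hz]; simp
  obtain ⟨Θ, hΘ, hth⟩ := nil_theta x (C t) n hx
  have hSC : ∀ p q, S 1 (C t : A[X]) p q = C (S 1 t p q) := by
    intro p q
    rw [S_map (C : A →+* A[X]) 1 t q p, map_one]
  -- value at zero
  have e0 : Θ.eval 0 = s := by
    have h1 := congrArg (Polynomial.eval 0) hΘ
    simp only [hxdef, eval_add, eval_mul, eval_one, eval_C, eval_X, add_zero, eval_pow] at h1
    have h2 : (s - Θ.eval 0) * (1 - z * (s * (t + s + Θ.eval 0))) = 0 := by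
      linear_combination hs - h1
    have h3 := (hunit (s * (t + s + Θ.eval 0))).mul_left_eq_zero.1 h2
    exact (sub_eq_zero.1 h3).symm
  -- derivative at zero
  have e1 : Θ.coeff 1 = lam := by
    have h0 : Θ.coeff 1 = (derivative Θ).eval 0 := by
      rw [← coeff_zero_eq_eval_zero, coeff_derivative]
      simp
    have h1 := congrArg (fun P => (derivative P).eval 0) hΘ
    simp only [hxdef, derivative_add, derivative_mul, derivative_one, derivative_C, derivative_X,
      derivative_pow, eval_add, eval_mul, eval_C, eval_X, eval_pow, eval_zero, eval_one,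
      eval_natCast, e0, ← h0] at h1
    norm_num at h1
    have h2 : (Θ.coeff 1 - lam) * (1 - z * (s * (t + 2 * s))) = 0 := by
      linear_combination h1 - hl
    have h3 := (hunit (s * (t + 2 * s))).mul_left_eq_zero.1 h2
    exact sub_eq_zero.1 h3
  set Ψ : A[X] := divX Θ with hΨdef
  have eΘ : Θ = C s + X * Ψ := by
    have := divX_mul_X_add Θ
    rw [coeff_zero_eq_eval_zero, e0] at this
    rw [← this, hΨdef]; ring
  have eΨ : Ψ.coeff 0 = lam := by rw [hΨdef, coeff_divX, zero_add, e1]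
  -- matrices
  let T : Matrix (Fin n) (Fin n) A := fun q k => ((C s + X) ^ (q:ℕ) : A[X]).coeff k
  let M : ℕ → Matrix (Fin n) (Fin n) A := fun a p q => S 1 t (p+a) q * z ^ (q:ℕ)
  let L : ℕ → Matrix (Fin n) (Fin n) A := fun a j k => (Θ ^ (a+1) * (X * Ψ) ^ (j:ℕ)).coeff k
  have hmonic : (C s + X : A[X]).Monic := by
    rw [add_comm]; exact monic_X_add_C s
  have hdeg : ∀ q : ℕ, ((C s + X : A[X]) ^ q).natDegree ≤ q := by
    intro q
    refine (natDegree_pow_le).trans ?_
    have : (C s + X : A[X]).natDegree ≤ 1 := by compute_degree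
    nlinarith
  have hTlow : ∀ i j : Fin n, i < j → T i j = 0 := by
    intro i j hij
    exact coeff_eq_zero_of_natDegree_lt (lt_of_le_of_lt (hdeg i) hij)
  have hTdiag : ∀ i : Fin n, T i i = 1 := by
    intro i
    by_cases hA : Nontrivial A
    · have h1 : ((C s + X : A[X]) ^ (i:ℕ)).natDegree = i := by
        rw [hmonic.natDegree_pow, add_comm, natDegree_X_add_C, mul_one]
      have h2 := (hmonic.pow (i:ℕ)).coeff_natDegree
      rwa [h1] at h2
    · rw [not_nontrivial_iff_subsingleton] at hA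
      exact Subsingleton.elim _ _
  have hTunit : IsUnit T := by
    rw [Matrix.isUnit_iff_isUnit_det]
    rw [Matrix.det_of_isLowerTriangular T (fun i j hij => hTlow i j hij)]
    simp [hTdiag]
  have hML : ∀ a, M a * T = T * L a := by
    intro a
    ext p k
    rw [Matrix.mul_apply, Matrix.mul_apply]
    have h1 : ∑ q : Fin n, M a p q * T q k = (Θ ^ ((p:ℕ) + a + 1)).coeff k := by
      rw [← hth, th, finsetSum_coeff, Finset.sum_range]
      refine sum_congr rfl fun q _ => ?_
      rw [hSC, hxdef, mul_pow, ← C_pow, ← mul_assoc, ← C_mul, coeff_C_mul]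
    have h2 : ∑ j, T p j * L a j k = (Θ ^ (a + 1) * Θ ^ (p:ℕ)).coeff k := by
      have h3 : Θ ^ (p:ℕ) = ∑ j ∈ range n, C (((C s + X : A[X]) ^ (p:ℕ)).coeff j) * (X * Ψ) ^ j := by
        have h4 := eval₂_eq_sum_range' (C : A →+* A[X]) (p := (C s + X : A[X]) ^ (p:ℕ)) (n := n)
          (lt_of_le_of_lt (hdeg p) p.2) (X * Ψ)
        rw [← h4, eval₂_pow, eval₂_add, eval₂_C, eval₂_X, ← eΘ]
      rw [h3, mul_sum, finsetSum_coeff, Finset.sum_range]
      refine sum_congr rfl fun j _ => ?_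
      show ((C s + X : A[X]) ^ (p:ℕ)).coeff j * (Θ ^ (a+1) * (X * Ψ) ^ (j:ℕ)).coeff k = _
      rw [mul_left_comm, coeff_C_mul]
    rw [h1, h2, ← pow_add]
    congr 2
    omega
  have hLup : ∀ a, Up (L a) := by
    intro a i j hij
    show (Θ ^ (a+1) * (X * Ψ) ^ (i:ℕ)).coeff j = 0
    rw [mul_pow, mul_left_comm, coeff_X_pow_mul', if_neg (by have : (j:ℕ) < i := hij; omega)]
  have hLdiag : ∀ a i, L a i i = s ^ (a+1) * lam ^ (i:ℕ) := by
    intro a i
    show (Θ ^ (a+1) * (X * Ψ) ^ (i:ℕ)).coeff i = _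
    rw [mul_pow, mul_left_comm, coeff_X_pow_mul', if_pos le_rfl, Nat.sub_self,
      coeff_zero_eq_eval_zero, eval_mul, eval_pow, eval_pow, e0, ← coeff_zero_eq_eval_zero, eΨ]
  have htr := trace_conj hTunit (hML a) (hML b) (hML c)
  rw [(hLup a).trace3 (hLup b) (hLup c)] at htr
  have hleft : (M a * M b * M c).trace = ∑ p : Fin n, ∑ q : Fin n, ∑ r : Fin n,
      (S 1 t (p+a) q * z ^ (q:ℕ)) * (S 1 t (q+b) r * z ^ (r:ℕ)) * (S 1 t (r+c) p * z ^ (p:ℕ)) := by
    rw [Matrix.trace]
    refine sum_congr rfl fun p _ => ?_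
    rw [Matrix.diag_apply, Matrix.mul_apply]
    simp only [Matrix.mul_apply, sum_mul]
    rw [sum_comm]
  rw [← hleft, htr]
  simp only [hLdiag]
  have hsum : ∑ i : Fin n, s ^ (a+1) * lam ^ (i:ℕ) * (s ^ (b+1) * lam ^ (i:ℕ)) *
      (s ^ (c+1) * lam ^ (i:ℕ)) = s ^ (a+b+c+3) * ∑ i ∈ range n, (lam ^ 3) ^ i := by
    rw [← Fin.sum_univ_eq_sum_range (fun i => (lam ^ 3) ^ i) n, mul_sum]
    refine sum_congr rfl fun i _ => ?_
    ring
  have hlam : (lam ^ 3) ^ n = 0 := by
    have h1 : lam = z * (s * (t + s) + lam * (s * (t + 2 * s))) := by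
      linear_combination hl
    have h2 : lam ^ n = 0 := by rw [h1, mul_pow, hz, zero_mul]
    rw [← pow_mul, mul_comm, pow_mul, h2]
    simp
  rw [hsum, mul_left_comm, mul_neg_geom_sum, hlam]
  ring

end trace

end Q230.Bz
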