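import Mathlib
import Pool.Agent.Q230.BzTrace
import Pool.Agent.Q230.BzT112

/-! # Generating functions of the triple sums -/

set_option linter.unusedSectionVars false

namespace Q230.Bz

open Finset

section V
variable {R : Type*} [CommRing R]

/-- sums over triples with sum `m` -/
def V (m : ℕ) (g : ℕ → ℕ → ℕ → R) : R :=
  ∑ p ∈ range (m+1), ∑ q ∈ range (m+1), ∑ r ∈ range (m+1), if p+q+r=m then g p q r else 0

theorem V_indep (g : ℕ → ℕ → ℕ → R) {m N : ℕ} (h : m < N) :
    ∑ p ∈ range N, ∑ q ∈ range N, ∑ r ∈ range N, (if p+q+r=m then g p q r else 0) = V m g := by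
  have hsub : range (m+1) ⊆ range N := range_mono (by omega)
  unfold V
  rw [← sum_subset hsub]
  · refine sum_congr rfl fun p _ => ?_
    rw [← sum_subset hsub]
    · refine sum_congr rfl fun q _ => ?_
      rw [← sum_subset hsub]
      intro r _ hr
      rw [mem_range] at hr
      rw [if_neg (by omega)]
    · intro q _ hq
      rw [mem_range] at hq
      exact sum_eq_zero fun r _ => if_neg (by omega)
  · intro p _ hp
    rw [mem_range] at hp
    exact sum_eq_zero fun q _ => sum_eq_zero fun r _ => if_neg (by omega)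

theorem V_congr {g g' : ℕ → ℕ → ℕ → R} {m : ℕ} (h : ∀ p q r, p + q + r = m → g p q r = g' p q r) :
    V m g = V m g' := by
  unfold V
  refine sum_congr rfl fun p _ => sum_congr rfl fun q _ => sum_congr rfl fun r _ => ?_
  split_ifs with hc
  · exact h p q r hc
  · rfl

theorem V_swap (g : ℕ → ℕ → ℕ → R) (m : ℕ) : V m g = V m (fun p q r => g q p r) := by
  unfold V
  rw [sum_comm]
  refine sum_congr rfl fun p _ => sum_congr rfl fun q _ => sum_congr rfl fun r _ => ?_
  rw [add_comm q p]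

theorem V_swap' (g : ℕ → ℕ → ℕ → R) (m : ℕ) : V m g = V m (fun p q r => g p r q) := by
  unfold V
  refine sum_congr rfl fun p _ => ?_
  rw [sum_comm]
  refine sum_congr rfl fun q _ => sum_congr rfl fun r _ => ?_
  rw [add_right_comm p r q]

theorem V_rot (g : ℕ → ℕ → ℕ → R) (m : ℕ) : V m g = V m (fun p q r => g q r p) := by
  rw [V_swap', V_swap]

theorem V_rev (g : ℕ → ℕ → ℕ → R) (m : ℕ) : V m g = V m (fun p q r => g r q p) := by
  rw [V_rot, V_swap']

theorem sum_XX (k : Fin 3) (m : ℕ) (g : ℤ → ℤ → ℤ → R) :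
    ∑ P ∈ XX m, g (P k) (P (k+1)) (P (k+2)) = V m (fun p q r => g p q r) := by
  classical
  have h1 : V m (fun p q r => g p q r) =
      ∑ x ∈ ((range (m+1)) ×ˢ ((range (m+1)) ×ˢ (range (m+1)))).filter
        (fun x => x.1 + x.2.1 + x.2.2 = m), g x.1 x.2.1 x.2.2 := by
    rw [sum_filter, sum_product]
    unfold V
    refine sum_congr rfl fun p _ => ?_
    rw [sum_product]
  rw [h1]
  apply sum_nbij' (i := fun P : Pt => (((P k).toNat, ((P (k+1)).toNat, (P (k+2)).toNat)) : ℕ × ℕ × ℕ))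
    (j := fun x : ℕ × ℕ × ℕ => mk3 k x.1 x.2.1 x.2.2)
  · intro P hP
    rw [mem_XX' k] at hP
    simp only [mem_filter, mem_product, mem_range]
    omega
  · intro x hx
    simp only [mem_filter, mem_product, mem_range] at hx
    rw [mem_XX' k, mk3_0, mk3_1, mk3_2]
    omega
  · intro P hP
    rw [mem_XX' k] at hP
    apply pt_ext k
    · rw [mk3_0]; simp only; omega
    · rw [mk3_1]; simp only; omega
    · rw [mk3_2]; simp only; omega
  · intro x hx
    simp only [mk3_0, mk3_1, mk3_2, Int.toNat_natCast]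
  · intro P hP
    rw [mem_XX' k] at hP
    simp only
    rw [Int.toNat_of_nonneg hP.1, Int.toNat_of_nonneg hP.2.1, Int.toNat_of_nonneg hP.2.2.1]

theorem V_shift (g : ℤ → ℤ → ℤ → R) (m : ℕ) (h0 : ∀ p q, g p q (-1) = 0) :
    V (m+1) (fun p q r => g p q ((r:ℤ) - 1)) = V m (fun p q r => g p q r) := by
  have h1 : V m (fun p q r => g p q r) =
      ∑ p ∈ range (m+1+1), ∑ q ∈ range (m+1+1), ∑ r ∈ range (m+1),
        if p+q+r=m then g p q r else 0 := by
    rw [← V_indep _ (show m < m+1+1 by omega)]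
    refine sum_congr rfl fun p _ => sum_congr rfl fun q _ => ?_
    rw [sum_range_succ, if_neg (by omega), add_zero]
  rw [h1]
  unfold V
  refine sum_congr rfl fun p _ => sum_congr rfl fun q _ => ?_
  rw [sum_range_succ']
  have h2 : (if p + q + 0 = m + 1 then g p q (((0:ℕ):ℤ) - 1) else 0) = 0 := by
    have : ((0:ℕ):ℤ) - 1 = -1 := by norm_num
    rw [this, h0]
    simp
  rw [h2, add_zero]
  refine sum_congr rfl fun r _ => ?_
  have e : ((r+1:ℕ):ℤ) - 1 = r := by push_cast; ring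
  beta_reduce
  rw [e]
  by_cases hc : p + q + r = m
  · rw [if_pos hc, if_pos (by omega)]
  · rw [if_neg hc, if_neg (by omega)]

/-- the triple sums -/
def TS (t : R) (a b c m : ℕ) : R :=
  V m (fun p q r => S 1 t (p+a) q * S 1 t (q+b) r * S 1 t (r+c) p)

/-- the number of tilings of the first region -/
theorem G_eq (t : R) (m : ℕ) :
    ∑ P ∈ XX ((m+1:ℕ):ℤ), (∏ k, SZ 1 t (P (k+2)) (P (k+1)) -
        ∑ k, 1 * 1 * SZ 1 t (P (k+2) - 1) (P (k+1)) *
        SZ 1 t (P k + 1) (P (k+2) - 1) * SZ 1 t (P (k+1)) (P k)) =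
      TS t 0 0 0 (m+1) - 3 * TS t 0 0 1 m := by
  rw [sum_sub_distrib, sum_comm]
  congr 1
  · have h1 := sum_XX (R := R) 0 (m+1) (fun x y z => SZ 1 t z y * SZ 1 t x z * SZ 1 t y x)
    have h2 : ∑ P ∈ XX ((m+1:ℕ):ℤ), ∏ k, SZ 1 t (P (k+2)) (P (k+1)) =
        ∑ P ∈ XX ((m+1:ℕ):ℤ), SZ 1 t (P (0+2)) (P (0+1)) * SZ 1 t (P 0) (P (0+2)) *
          SZ 1 t (P (0+1)) (P 0) := by
      refine sum_congr rfl fun P _ => ?_
      rw [Fin.prod_univ_three]
      rfl
    rw [h2, h1, V_rev]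
    unfold TS
    apply V_congr
    intro p q r _
    simp only [SZ_nat, add_zero]
    ring
  · have key : ∀ k : Fin 3, ∑ P ∈ XX ((m+1:ℕ):ℤ), 1 * 1 * SZ 1 t (P (k+2) - 1) (P (k+1)) *
        SZ 1 t (P k + 1) (P (k+2) - 1) * SZ 1 t (P (k+1)) (P k) = TS t 0 0 1 m := by
      intro k
      have h1 := sum_XX (R := R) k (m+1) (fun x y z => 1 * 1 * SZ 1 t (z-1) y *
        SZ 1 t (x+1) (z-1) * SZ 1 t y x)
      rw [h1, V_shift (fun x y z => 1 * 1 * SZ 1 t z y * SZ 1 t (x+1) z * SZ 1 t y x) m, V_rev]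
      · unfold TS
        apply V_congr
        intro p q r _
        have e3 : ((r:ℤ) + 1) = ((r+1:ℕ):ℤ) := by push_cast; ring
        simp only [e3, SZ_nat, add_zero]
        ring
      · intro p q
        rw [SZ_neg_left (1:R) t (p := -1) (by norm_num)]
        ring
    rw [sum_congr rfl (fun k _ => key k)]
    simp

/-- the number of tilings of the second region -/
theorem H_eq (t : R) (m : ℕ) :
    ∑ v ∈ XX (((m+2:ℕ):ℤ)-1), ∏ k, SZ 1 t (v (k+2)) (v k) +
      ∑ v ∈ XX (((m+2:ℕ):ℤ)-2), ∏ k, SZ 1 t (v (k+2) + 1) (v k) +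
      ∑ κ, 1 * ∑ v ∈ XX (((m+2:ℕ):ℤ)-2), SZ 1 t (v (κ+2)) (v κ) *
        SZ 1 t (v κ + 1) (v (κ+1)) * SZ 1 t (v (κ+1) + 1) (v (κ+2)) =
      TS t 0 0 0 (m+1) + TS t 1 1 1 m + 3 * TS t 0 1 1 m := by
  have q1 : ((m+2:ℕ):ℤ) - 1 = ((m+1:ℕ):ℤ) := by push_cast; ring
  have q2 : ((m+2:ℕ):ℤ) - 2 = (m:ℤ) := by push_cast; ring
  rw [q1, q2]
  congr 1
  · congr 1
    · have h1 := sum_XX (R := R) 0 (m+1) (fun x y z => SZ 1 t z x * SZ 1 t x y * SZ 1 t y z)
      have h2 : ∑ P ∈ XX ((m+1:ℕ):ℤ), ∏ k, SZ 1 t (P (k+2)) (P k) =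
          ∑ P ∈ XX ((m+1:ℕ):ℤ), SZ 1 t (P (0+2)) (P 0) * SZ 1 t (P 0) (P (0+1)) *
            SZ 1 t (P (0+1)) (P (0+2)) := by
        refine sum_congr rfl fun P _ => ?_
        rw [Fin.prod_univ_three]
        rfl
      rw [h2, h1]
      unfold TS
      apply V_congr
      intro p q r _
      simp only [SZ_nat, add_zero]
      ring
    · have h1 := sum_XX (R := R) 0 m (fun x y z => SZ 1 t (z+1) x * SZ 1 t (x+1) y *
        SZ 1 t (y+1) z)
      have h2 : ∑ P ∈ XX (m:ℤ), ∏ k, SZ 1 t (P (k+2) + 1) (P k) =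
          ∑ P ∈ XX (m:ℤ), SZ 1 t (P (0+2) + 1) (P 0) * SZ 1 t (P 0 + 1) (P (0+1)) *
            SZ 1 t (P (0+1) + 1) (P (0+2)) := by
        refine sum_congr rfl fun P _ => ?_
        rw [Fin.prod_univ_three]
        rfl
      rw [h2, h1]
      unfold TS
      apply V_congr
      intro p q r _
      have e1 : ∀ r : ℕ, ((r:ℤ) + 1) = ((r+1:ℕ):ℤ) := fun r => by push_cast; ring
      simp only [e1, SZ_nat]
      ring
  · have key : ∀ k : Fin 3, 1 * ∑ v ∈ XX (m:ℤ), SZ 1 t (v (k+2)) (v k) *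
        SZ 1 t (v k + 1) (v (k+1)) * SZ 1 t (v (k+1) + 1) (v (k+2)) = TS t 0 1 1 m := by
      intro k
      have h1 := sum_XX (R := R) k m (fun x y z => SZ 1 t z x *
        SZ 1 t (x+1) y * SZ 1 t (y+1) z)
      rw [one_mul, h1]
      unfold TS
      rw [V_rot]
      apply V_congr
      intro p q r _
      have e1 : ∀ r : ℕ, ((r:ℤ) + 1) = ((r+1:ℕ):ℤ) := fun r => by push_cast; ring
      simp only [e1, SZ_nat, add_zero]
    rw [sum_congr rfl (fun k _ => key k)]
    simp

end V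

section series
variable {R : Type*} [CommRing R]

open PowerSeries

/-- the generating function of the triple sums -/
theorem TS_series (t : R) (s lam : R⟦X⟧)
    (hs : s = 1 + X * (C t * s ^ 2 + s ^ 3))
    (hl : lam * (1 - X * s * (C t + 2 * s)) = X * s * (C t + s)) (a b c : ℕ) :
    (1 - lam ^ 3) * PowerSeries.mk (TS t a b c) = s ^ (a+b+c+3) := by
  have key : ∀ n : ℕ, (X : R⟦X⟧) ^ n ∣
      (1 - lam ^ 3) * PowerSeries.mk (TS t a b c) - s ^ (a+b+c+3) := by
    intro n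
    set I : Ideal R⟦X⟧ := Ideal.span {(X : R⟦X⟧) ^ n} with hI
    set π := Ideal.Quotient.mk I with hπ
    have hz : (π X) ^ n = 0 := by
      rw [← map_pow, hπ, Ideal.Quotient.eq_zero_iff_mem, hI]
      exact Ideal.mem_span_singleton_self _
    have hs' : π s = 1 + π X * (π (C t) * π s ^ 2 + π s ^ 3) := by
      conv_lhs => rw [hs]
      simp only [map_add, map_mul, map_pow, map_one]
    have hl' : π lam * (1 - π X * π s * (π (C t) + 2 * π s)) = π X * π s * (π (C t) + π s) := by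
      have := congrArg π hl
      simpa only [map_add, map_mul, map_sub, map_one, map_ofNat] using this
    have htr := trace_formula n (π X) (π (C t)) (π s) (π lam) hz hs' hl' a b c
    have hSC : ∀ p q, S 1 (π (C t)) p q = π (C (S 1 t p q)) := by
      intro p q
      have := S_map (π.comp (C : R →+* R⟦X⟧)) 1 t q p
      rw [map_one] at this
      exact this.symm
    set Pn : R⟦X⟧ := ∑ p : Fin n, ∑ q : Fin n, ∑ r : Fin n,
      (C (S 1 t (p+a) q) * X ^ (q:ℕ)) * (C (S 1 t (q+b) r) * X ^ (r:ℕ)) *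
        (C (S 1 t (r+c) p) * X ^ (p:ℕ)) with hPn
    have h1 : π ((1 - lam ^ 3) * Pn - s ^ (a+b+c+3)) = 0 := by
      rw [map_sub, sub_eq_zero, map_mul, map_pow π s, ← htr, map_sub, map_one, map_pow]
      congr 1
      rw [hPn]
      simp only [map_sum, map_mul, map_pow, hSC]
    rw [hπ, Ideal.Quotient.eq_zero_iff_mem, hI, Ideal.mem_span_singleton] at h1
    have h2 : (X : R⟦X⟧) ^ n ∣ PowerSeries.mk (TS t a b c) - Pn := by
      rw [PowerSeries.X_pow_dvd_iff]
      intro m hm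
      rw [map_sub, coeff_mk, sub_eq_zero, hPn]
      unfold TS
      rw [← V_indep _ hm]
      simp only [map_sum]
      rw [Finset.sum_range]
      refine sum_congr rfl fun p _ => ?_
      rw [Finset.sum_range]
      refine sum_congr rfl fun q _ => ?_
      rw [Finset.sum_range]
      refine sum_congr rfl fun r _ => ?_
      have e : (C (S 1 t (p+a) q) * X ^ (q:ℕ)) * (C (S 1 t (q+b) r) * X ^ (r:ℕ)) *
          (C (S 1 t (r+c) p) * X ^ (p:ℕ)) =
          C (S 1 t (p+a) q * S 1 t (q+b) r * S 1 t (r+c) p) * (X : R⟦X⟧) ^ ((p:ℕ)+q+r) := by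
        simp only [map_mul, pow_add]
        ring
      rw [e, coeff_C_mul, coeff_X_pow]
      by_cases hc : (p:ℕ) + q + r = m
      · rw [if_pos hc, if_pos hc.symm, mul_one]
      · rw [if_neg hc, if_neg (fun h => hc h.symm), mul_zero]
    have e2 : (1 - lam ^ 3) * PowerSeries.mk (TS t a b c) - s ^ (a+b+c+3) =
        (1 - lam ^ 3) * (PowerSeries.mk (TS t a b c) - Pn) +
          ((1 - lam ^ 3) * Pn - s ^ (a+b+c+3)) := by ring
    rw [e2]
    exact dvd_add (Dvd.dvd.mul_left h2 _) h1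
  ext m
  have := key (m+1)
  rw [PowerSeries.X_pow_dvd_iff] at this
  have h := this m (by omega)
  rw [map_sub, sub_eq_zero] at h
  exact h

end series

end Q230.Bz
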