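import Mathlib
import Pool.Agent.Q230.BzGF

/-! # Tilings of type 103 -/

set_option linter.unusedSectionVars false

namespace Q230.Bz

open Finset Q230.Benzel

/-- right stones and all bones -/
def Al103 (t : Finset Cell) : Prop := IsRightStone t ∨ ∃ j, IsBone j t

theorem Al103_all {t : Finset Cell} (h : Al103 t) : All5 t := by
  rcases h with h | ⟨j, h⟩
  · exact Or.inl h
  · exact Or.inr (Or.inr ⟨j, h⟩)

theorem PW103 [DecidablePred Al103] :
    PW (fun t => if Al103 t then (1:ℤ) else 0) 0 (fun _ => 1) where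
  right t h := if_pos (Or.inl h)
  left t h := by
    apply if_neg
    rintro (h' | ⟨j, h'⟩)
    · exact not_right_left h' h
    · exact not_left_bone h j h'
  bone j t h := if_pos (Or.inr ⟨j, h⟩)

theorem T103_eq (m : ℕ) :
    (numTilings Al103 (benzel ((m+1:ℕ)+2) (2*(m+1:ℕ)+1)) : ℤ) =
      TS 0 0 0 0 (m+1) - 3 * TS 0 0 0 1 m := by
  classical
  rw [numTilings_eq (regA (m+1:ℕ)) Al103 (fun t h => Al103_all h),
    countA PW103 (by positivity), ← G_eq]

section ps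
open PowerSeries
variable {R : Type*} [CommRing R]

theorem ps_fix (Φ : R⟦X⟧ → R⟦X⟧) (h : ∀ i a b, (X:R⟦X⟧) ^ i ∣ a - b → X ^ (i+1) ∣ Φ a - Φ b) :
    ∃ a, a = Φ a := by
  have key : ∀ i, (X:R⟦X⟧) ^ i ∣ Φ (Φ^[i] 0) - Φ^[i] 0 := by
    intro i
    induction i with
    | zero => simp
    | succ i ih =>
      rw [Function.iterate_succ_apply']
      exact h i _ _ ih
  have key2 : ∀ i d, (X:R⟦X⟧) ^ i ∣ Φ^[i+d] 0 - Φ^[i] 0 := by
    intro i d
    induction d with
    | zero => simp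
    | succ d ih =>
      have h1 := (pow_dvd_pow (X:R⟦X⟧) (show i ≤ i + d by omega)).trans (key (i+d))
      rw [show i + (d+1) = (i+d) + 1 by ring, Function.iterate_succ_apply']
      have h2 := dvd_add h1 ih
      rwa [sub_add_sub_cancel] at h2
  set a : R⟦X⟧ := PowerSeries.mk (fun n => coeff n (Φ^[n+1] 0)) with ha
  have key3 : ∀ n, (X:R⟦X⟧) ^ n ∣ a - Φ^[n] 0 := by
    intro n
    rw [X_pow_dvd_iff]
    intro m hm
    obtain ⟨d, rfl⟩ : ∃ d, n = m + 1 + d := ⟨n - (m+1), by omega⟩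
    have h1 := key2 (m+1) d
    rw [X_pow_dvd_iff] at h1
    have h2 := h1 m (by omega)
    rw [map_sub, sub_eq_zero] at h2
    rw [map_sub, ha, coeff_mk, h2, sub_self]
  refine ⟨a, ?_⟩
  ext m
  have h1 := h m _ _ (key3 m)
  have h2 := key3 (m+1)
  rw [Function.iterate_succ_apply'] at h2
  rw [X_pow_dvd_iff] at h1 h2
  have h3 := h1 m (by omega)
  have h4 := h2 m (by omega)
  rw [map_sub, sub_eq_zero] at h3 h4
  rw [h3, h4]

/-- the basic algebraic series exists -/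
theorem exists_s (t : R⟦X⟧) : ∃ s : R⟦X⟧, s = 1 + X * (t * s ^ 2 + s ^ 3) := by
  apply ps_fix
  rintro i a b ⟨c, hc⟩
  refine ⟨c * (t * (a + b) + (a^2 + a*b + b^2)), ?_⟩
  rw [pow_succ]
  linear_combination (X * (t * (a + b) + (a^2 + a*b + b^2))) * hc

/-- the binomial series -/
noncomputable def BB (k : ℕ) : ℤ⟦X⟧ := PowerSeries.mk (fun m => ((3*m+k).choose m : ℤ))

theorem BB_zero : BB 0 = 1 + 3 * X * BB 2 := by
  ext m
  cases m with
  | zero => simp [BB]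
  | succ m =>
    have h3 : (3 : ℤ⟦X⟧) * X * BB 2 = X * (C 3 * BB 2) := by
      rw [show (C (3:ℤ) : ℤ⟦X⟧) = 3 by rfl]; ring
    rw [map_add, h3, coeff_succ_X_mul, coeff_C_mul, BB, BB, coeff_mk, coeff_mk, coeff_one,
      if_neg (by omega)]
    have h1 := Nat.add_one_mul_choose_eq (3*m+2) m
    have h2 : (3*(m+1)+0).choose (m+1) = 3 * (3*m+2).choose m := by
      rw [show 3*(m+1)+0 = 3*m+2+1 by ring]
      have : (m+1) * ((3*m+2+1).choose (m+1)) = (m+1) * (3 * (3*m+2).choose m) := by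
        rw [mul_comm (m+1), ← h1]; ring
      exact Nat.eq_of_mul_eq_mul_left (by omega) this
    rw [h2]
    push_cast
    ring

theorem BB_succ (k : ℕ) : BB (k+1) = BB k + X * BB (k+3) := by
  ext m
  cases m with
  | zero => simp [BB]
  | succ m =>
    rw [map_add, coeff_succ_X_mul, BB, BB, BB, coeff_mk, coeff_mk, coeff_mk]
    rw [show 3*(m+1)+(k+1) = (3*m+(k+3))+1 by ring, show 3*(m+1)+k = 3*m+(k+3) by ring,
      Nat.choose_succ_succ]
    push_cast
    ring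

theorem BB_eq (s D : ℤ⟦X⟧) (hs : s = 1 + X * s ^ 3) (hD : (3 - 2 * s) * D = 1) (k : ℕ) :
    BB k = s ^ (k+1) * D := by
  have h0 : BB 0 - s * D = 3 * X * (BB 2 - s ^ 3 * D) := by
    linear_combination BB_zero - hD - 3 * D * hs
  have h1 : ∀ k, BB (k+1) - s ^ (k+2) * D = (BB k - s ^ (k+1) * D) +
      X * (BB (k+3) - s ^ (k+4) * D) := by
    intro k
    linear_combination BB_succ k - s ^ (k+1) * D * hs
  have key : ∀ i k, (X:ℤ⟦X⟧) ^ i ∣ BB k - s ^ (k+1) * D := by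
    intro i
    induction i with
    | zero => simp
    | succ i ih =>
      intro k
      induction k with
      | zero =>
        rw [zero_add, pow_one, h0, pow_succ]
        have := ih 2
        rw [mul_comm 3, mul_assoc, mul_comm (X ^ i)]
        exact mul_dvd_mul_left X (Dvd.dvd.mul_left this _)
      | succ k ihk =>
        rw [h1]
        refine dvd_add ihk ?_
        rw [pow_succ']
        exact mul_dvd_mul_left X (ih (k+3))
  have : BB k - s ^ (k+1) * D = 0 := by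
    ext m
    have := key (m+1) k
    rw [X_pow_dvd_iff] at this
    rw [this m (by omega), map_zero]
  exact sub_eq_zero.1 this

theorem G103 (m : ℕ) : (TS 0 0 0 0 (m+1) - 3 * TS 0 0 0 1 m : ℤ) =
    8 * ((3*(m+1)).choose (m+1) : ℤ) - 12 * ((3*(m+1)+1).choose (m+1) : ℤ) +
      6 * ((3*(m+1)+2).choose (m+1) : ℤ) - ((3*(m+1)+3).choose (m+1) : ℤ) := by
  obtain ⟨s, hs⟩ := exists_s (0 : ℤ⟦X⟧)
  have hs3 : s = 1 + X * s ^ 3 := by linear_combination hs
  have hc : constantCoeff s = 1 := by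
    rw [hs3]; simp
  have u1 : IsUnit (3 - 2 * s) := by
    rw [isUnit_iff_constantCoeff, map_sub, map_mul, hc, map_ofNat, map_ofNat]
    norm_num
  have u2 : IsUnit (2 - s) := by
    rw [isUnit_iff_constantCoeff, map_sub, hc, map_ofNat]
    norm_num
  have u3 : IsUnit (s^2 - 3 * s + 3) := by
    rw [isUnit_iff_constantCoeff, map_add, map_sub, map_mul, map_pow, hc, map_ofNat]
    norm_num
  have u4 : IsUnit s := by
    rw [isUnit_iff_constantCoeff, hc]
    norm_num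
  obtain ⟨D, hD⟩ := u1.exists_right_inv
  obtain ⟨E, hE⟩ := u2.exists_right_inv
  set lam : ℤ⟦X⟧ := (s - 1) * E with hlam
  have hl : lam * (1 - X * s * (C 0 + 2 * s)) = X * s * (C 0 + s) := by
    rw [map_zero, zero_add, zero_add]
    have h1 : (lam * (1 - X * s * (2 * s)) - X * s * s) * s = 0 := by
      rw [hlam]
      linear_combination (s-1) * hE + (2*(s-1)*E+1) * hs3
    exact sub_eq_zero.1 (u4.mul_left_eq_zero.1 h1)
  have hser1 := TS_series (0:ℤ) s lam (by rw [map_zero]; exact hs) hl 0 0 0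
  have hser2 := TS_series (0:ℤ) s lam (by rw [map_zero]; exact hs) hl 0 0 1
  set U0 : ℤ⟦X⟧ := PowerSeries.mk (TS 0 0 0 0) with hU0
  set U1 : ℤ⟦X⟧ := PowerSeries.mk (TS 0 0 0 1) with hU1
  -- `G (3 - 2 s) = s (2 - s)^3`
  have hG : (U0 - 3 * X * U1) * (3 - 2 * s) = s * (2 - s) ^ 3 := by
    have e1 : (U0 - 3 * X * U1) * (1 - lam ^ 3) = s ^ 3 - 3 * X * s ^ 4 := by
      linear_combination hser1 - 3 * X * hser2
    have e2 : (1 - lam ^ 3) * (2 - s) ^ 3 = (3 - 2 * s) * (s^2 - 3 * s + 3) := by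
      have e3 : lam * (2 - s) = s - 1 := by rw [hlam]; linear_combination (s-1) * hE
      have e4 : lam ^ 3 * (2 - s) ^ 3 = (s - 1) ^ 3 := by rw [← mul_pow, e3]
      linear_combination -e4
    have e5 : ((U0 - 3 * X * U1) * (3 - 2 * s) - s * (2 - s) ^ 3) * (s^2 - 3 * s + 3) = 0 := by
      have e6 : (U0 - 3 * X * U1) * ((3 - 2 * s) * (s^2 - 3 * s + 3)) =
          (s ^ 3 - 3 * X * s ^ 4) * (2 - s) ^ 3 := by
        rw [← e2, ← mul_assoc, e1]
      linear_combination e6 + 3 * s * (2 - s) ^ 3 * hs3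
    exact sub_eq_zero.1 (u3.mul_left_eq_zero.1 e5)
  have hB : U0 - 3 * X * U1 = 8 * BB 0 - 12 * BB 1 + 6 * BB 2 - BB 3 := by
    rw [BB_eq s D hs3 hD, BB_eq s D hs3 hD, BB_eq s D hs3 hD, BB_eq s D hs3 hD]
    linear_combination D * hG - (U0 - 3 * X * U1) * hD
  have hcoef := congrArg (coeff (m+1)) hB
  have e3 : (3 : ℤ⟦X⟧) * X * U1 = X * (C 3 * U1) := by
    rw [show (C (3:ℤ) : ℤ⟦X⟧) = 3 by rfl]; ring
  have e8 : ∀ f : ℤ⟦X⟧, (8 : ℤ⟦X⟧) * f = C 8 * f := fun f => by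
    rw [show (C (8:ℤ) : ℤ⟦X⟧) = 8 by rfl]
  have e12 : ∀ f : ℤ⟦X⟧, (12 : ℤ⟦X⟧) * f = C 12 * f := fun f => by
    rw [show (C (12:ℤ) : ℤ⟦X⟧) = 12 by rfl]
  have e6 : ∀ f : ℤ⟦X⟧, (6 : ℤ⟦X⟧) * f = C 6 * f := fun f => by
    rw [show (C (6:ℤ) : ℤ⟦X⟧) = 6 by rfl]
  rw [e3, e8, e12, e6, map_sub, map_sub, map_add, map_sub, coeff_succ_X_mul, coeff_C_mul,
    coeff_C_mul, coeff_C_mul, coeff_C_mul, hU0, hU1, coeff_mk, coeff_mk, BB, BB, BB, BB,
    coeff_mk, coeff_mk, coeff_mk, coeff_mk] at hcoef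
  rw [hcoef]
  simp only [add_zero]

theorem closed_alg (x F J K : ℚ) (hx : 0 ≤ x) (hJ : J ≠ 0) (hK : K ≠ 0) :
    8 * ((3*x+9) * F / ((x+3) * (x+2) * (x+1) * J * K)) -
      12 * ((3*x+10) * (3*x+9) * F / ((x+3) * (x+2) * (x+1) * J * ((2*x+7) * K))) +
      6 * ((3*x+11) * (3*x+10) * (3*x+9) * F /
        ((x+3) * (x+2) * (x+1) * J * ((2*x+8) * (2*x+7) * K))) -
      (3*x+12) * (3*x+11) * (3*x+10) * (3*x+9) * F /
        ((x+3) * (x+2) * (x+1) * J * ((2*x+9) * (2*x+8) * (2*x+7) * K)) =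
    (3*x+18) * F / (J * ((2*x+9) * (2*x+8) * (2*x+7) * K)) := by
  have p1 : x + 1 ≠ 0 := by positivity
  have p2 : x + 2 ≠ 0 := by positivity
  have p3 : x + 3 ≠ 0 := by positivity
  have p7 : 2*x + 7 ≠ 0 := by positivity
  have p8 : 2*x + 8 ≠ 0 := by positivity
  have p9 : 2*x + 9 ≠ 0 := by positivity
  field_simp
  ring

/-- closed form -/
theorem closed_form (j : ℕ) :
    (8 * ((3*(j+3)).choose (j+3) : ℚ) - 12 * ((3*(j+3)+1).choose (j+3) : ℚ) +
      6 * ((3*(j+3)+2).choose (j+3) : ℚ) - ((3*(j+3)+3).choose (j+3) : ℚ)) =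
    (3*j+18) * (3*j+8).factorial / (j.factorial * (2*j+9).factorial) := by
  have f0 : ((j+3).factorial : ℚ) = (j+3) * (j+2) * (j+1) * j.factorial := by
    rw [Nat.factorial_succ, Nat.factorial_succ, Nat.factorial_succ]; push_cast; ring
  have g7 : ((2*j+7).factorial : ℚ) = (2*j+7) * (2*j+6).factorial := by
    rw [Nat.factorial_succ]; push_cast; ring
  have g8 : ((2*j+8).factorial : ℚ) = (2*j+8) * (2*j+7) * (2*j+6).factorial := by
    rw [Nat.factorial_succ, Nat.cast_mul, g7]; push_cast; ring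
  have g9 : ((2*j+9).factorial : ℚ) = (2*j+9) * (2*j+8) * (2*j+7) * (2*j+6).factorial := by
    rw [Nat.factorial_succ, Nat.cast_mul, g8]; push_cast; ring
  have k9 : ((3*j+9).factorial : ℚ) = (3*j+9) * (3*j+8).factorial := by
    rw [Nat.factorial_succ]; push_cast; ring
  have k10 : ((3*j+10).factorial : ℚ) = (3*j+10) * (3*j+9) * (3*j+8).factorial := by
    rw [Nat.factorial_succ, Nat.cast_mul, k9]; push_cast; ring
  have k11 : ((3*j+11).factorial : ℚ) = (3*j+11) * (3*j+10) * (3*j+9) * (3*j+8).factorial := by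
    rw [Nat.factorial_succ, Nat.cast_mul, k10]; push_cast; ring
  have k12 : ((3*j+12).factorial : ℚ) =
      (3*j+12) * (3*j+11) * (3*j+10) * (3*j+9) * (3*j+8).factorial := by
    rw [Nat.factorial_succ, Nat.cast_mul, k11]; push_cast; ring
  have nz1 : (j.factorial : ℚ) ≠ 0 := by exact_mod_cast Nat.factorial_ne_zero _
  have nz2 : ((2*j+6).factorial : ℚ) ≠ 0 := by exact_mod_cast Nat.factorial_ne_zero _
  have c0 : ((3*(j+3)).choose (j+3) : ℚ) =
      (3*j+9).factorial / ((j+3).factorial * (2*j+6).factorial) := by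
    rw [Nat.cast_choose ℚ (by omega), show 3*(j+3) - (j+3) = 2*j+6 by omega,
      show 3*(j+3) = 3*j+9 by ring]
  have c1 : ((3*(j+3)+1).choose (j+3) : ℚ) =
      (3*j+10).factorial / ((j+3).factorial * (2*j+7).factorial) := by
    rw [Nat.cast_choose ℚ (by omega), show 3*(j+3)+1 - (j+3) = 2*j+7 by omega,
      show 3*(j+3)+1 = 3*j+10 by ring]
  have c2 : ((3*(j+3)+2).choose (j+3) : ℚ) =
      (3*j+11).factorial / ((j+3).factorial * (2*j+8).factorial) := by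
    rw [Nat.cast_choose ℚ (by omega), show 3*(j+3)+2 - (j+3) = 2*j+8 by omega,
      show 3*(j+3)+2 = 3*j+11 by ring]
  have c3 : ((3*(j+3)+3).choose (j+3) : ℚ) =
      (3*j+12).factorial / ((j+3).factorial * (2*j+9).factorial) := by
    rw [Nat.cast_choose ℚ (by omega), show 3*(j+3)+3 - (j+3) = 2*j+9 by omega,
      show 3*(j+3)+3 = 3*j+12 by ring]
  rw [c0, c1, c2, c3, f0, g7, g8, g9, k9, k10, k11, k12]
  exact closed_alg (j:ℚ) _ _ _ (by positivity) nz1 nz2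

theorem T103_final (n : ℕ) (hn : 5 ≤ n) :
    (numTilings Al103 (benzel n (2*n-3)) : ℚ) =
      (3*n+3) * (3*n-7).factorial / ((n-5).factorial * (2*n-1).factorial) := by
  obtain ⟨j, rfl⟩ : ∃ j, n = j + 5 := ⟨n - 5, by omega⟩
  have h1 := T103_eq (j+2)
  rw [G103 (j+2)] at h1
  have e1 : (((j+2+1:ℕ):ℤ)+2) = ((j+5:ℕ):ℤ) := by push_cast; ring
  have e2 : (2*((j+2+1:ℕ):ℤ)+1) = 2*((j+5:ℕ):ℤ)-3 := by push_cast; ring
  rw [e1, e2] at h1
  have h2 : (numTilings Al103 (benzel ((j+5:ℕ):ℤ) (2*((j+5:ℕ):ℤ)-3)) : ℚ) =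
      (8 * ((3*(j+3)).choose (j+3) : ℚ) - 12 * ((3*(j+3)+1).choose (j+3) : ℚ) +
      6 * ((3*(j+3)+2).choose (j+3) : ℚ) - ((3*(j+3)+3).choose (j+3) : ℚ)) := by
    exact_mod_cast h1
  rw [h2, closed_form, show 3*(j+5)-7 = 3*j+8 by omega, show j+5-5 = j by omega,
    show 2*(j+5)-1 = 2*j+9 by omega]
  push_cast
  ring

end ps

end Q230.Bz
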