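import Mathlib
import Pool.Agent.Q230.BzGF

/-! # 2-adic periodicity of the coefficients -/

set_option linter.unusedSectionVars false

namespace Q230.Bz

open Finset PowerSeries

section per
variable {R : Type*} [CommRing R]

/-- the coefficients from index `e` on are periodic with period a power of `2` -/
def Per (e : ℕ) (f : R⟦X⟧) : Prop := ∃ j : ℕ, ∀ m, e ≤ m → coeff (m + 2^j) f = coeff m f

theorem per_iter {e N : ℕ} {f : ℕ → R} (h : ∀ m, e ≤ m → f (m+N) = f m) (l : ℕ) :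
    ∀ m, e ≤ m → f (m + N * l) = f m := by
  induction l with
  | zero => intro m _; simp
  | succ l ih =>
    intro m hm
    rw [Nat.mul_succ, ← add_assoc, h _ (by omega), ih m hm]

theorem Per.mono {e e' : ℕ} {f : R⟦X⟧} (h : Per e f) (he : e ≤ e') : Per e' f := by
  obtain ⟨j, hj⟩ := h
  exact ⟨j, fun m hm => hj m (he.trans hm)⟩

theorem Per.le {e : ℕ} {f : R⟦X⟧} {j j' : ℕ} (h : ∀ m, e ≤ m → coeff (m + 2^j) f = coeff m f)
    (hj : j ≤ j') : ∀ m, e ≤ m → coeff (m + 2^j') f = coeff m f := by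
  obtain ⟨d, rfl⟩ := Nat.exists_eq_add_of_le hj
  intro m hm
  rw [pow_add]
  exact per_iter (f := fun m => coeff m f) h (2^d) m hm

theorem Per.add {e : ℕ} {f g : R⟦X⟧} (hf : Per e f) (hg : Per e g) : Per e (f + g) := by
  obtain ⟨j, hj⟩ := hf
  obtain ⟨j', hj'⟩ := hg
  refine ⟨max j j', fun m hm => ?_⟩
  rw [map_add, map_add, Per.le hj (le_max_left _ _) m hm, Per.le hj' (le_max_right _ _) m hm]

theorem Per.smul {e : ℕ} {f : R⟦X⟧} (hf : Per e f) (c : R) : Per e (c • f) := by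
  obtain ⟨j, hj⟩ := hf
  refine ⟨j, fun m hm => ?_⟩
  rw [map_smul, map_smul, hj m hm]

theorem Per.zero (e : ℕ) : Per e (0 : R⟦X⟧) := ⟨0, fun m _ => by simp⟩

theorem Per.sum {e : ℕ} {ι : Type*} (s : Finset ι) (f : ι → R⟦X⟧) (h : ∀ i ∈ s, Per e (f i)) :
    Per e (∑ i ∈ s, f i) := by
  classical
  induction s using Finset.induction_on with
  | empty => rw [sum_empty]; exact Per.zero e
  | insert a s ha ih =>
    rw [sum_insert ha]
    exact (h a (mem_insert_self _ _)).add (ih fun i hi => h i (mem_insert_of_mem hi))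

theorem per_poly {e : ℕ} {f : R⟦X⟧} (h : ∀ m, e ≤ m → coeff m f = 0) : Per e f :=
  ⟨0, fun m hm => by rw [h m hm, h _ (by omega)]⟩

/-- the geometric series -/
noncomputable def uG : R⟦X⟧ := PowerSeries.mk 1

theorem uG_mul : (uG : R⟦X⟧) * (1 - X) = 1 := mk_one_mul_one_sub_eq_one R

theorem coeff_uG_mul (f : R⟦X⟧) (m : ℕ) : coeff m (uG * f) = ∑ l ∈ range (m+1), coeff l f := by
  rw [mul_comm, coeff_mul, Finset.Nat.sum_antidiagonal_eq_sum_range_succ_mk]
  refine sum_congr rfl fun l _ => ?_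
  simp [uG]

theorem per_uG_mul {k : ℕ} (hk : (2:R)^k = 0) {f : R⟦X⟧} (hf : Per 0 f) : Per 0 (uG * f) := by
  obtain ⟨j, hj⟩ := hf
  set σ : R := ∑ l ∈ range (2^j), coeff l f with hσ
  have h1 : ∀ m, 0 ≤ m → coeff (m + 2^j) (uG * f) = coeff m (uG * f) + σ := by
    intro m _
    rw [coeff_uG_mul, coeff_uG_mul, show m + 2^j + 1 = 2^j + (m+1) by ring, sum_range_add,
      ← hσ, add_comm]
    congr 1
    refine sum_congr rfl fun l _ => ?_
    rw [add_comm, hj l (by omega)]
  have h2 : ∀ l m, coeff (m + 2^j * l) (uG * f) = coeff m (uG * f) + l * σ := by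
    intro l
    induction l with
    | zero => intro m; simp
    | succ l ih =>
      intro m
      rw [Nat.mul_succ, ← add_assoc, h1 _ (by omega), ih m]
      push_cast
      ring
  refine ⟨j + k, fun m _ => ?_⟩
  rw [pow_add, h2]
  push_cast
  rw [hk, zero_mul, add_zero]

theorem per_uG_pow {k : ℕ} (hk : (2:R)^k = 0) (i : ℕ) : Per 0 ((uG : R⟦X⟧) ^ (i+1)) := by
  induction i with
  | zero =>
    rw [zero_add, pow_one]
    exact ⟨0, fun m _ => by simp [uG]⟩
  | succ i ih => rw [pow_succ']; exact per_uG_mul hk ih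

/-- the algebra of polynomials in the geometric series -/
noncomputable def AA (R : Type*) [CommRing R] : Subalgebra R R⟦X⟧ := Algebra.adjoin R {uG}

theorem uG_mem : (uG : R⟦X⟧) ∈ AA R := Algebra.subset_adjoin (Set.mem_singleton _)

theorem coeff_one_sub_X_pow {d m : ℕ} (h : d < m) : coeff m ((1 - X : R⟦X⟧) ^ d) = 0 := by
  have e : ((1 - X : R⟦X⟧) ^ d) = (((1 - Polynomial.X : Polynomial R) ^ d : Polynomial R) : R⟦X⟧) := by
    simp
  rw [e, Polynomial.coeff_coe]
  apply Polynomial.coeff_eq_zero_of_natDegree_lt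
  refine lt_of_le_of_lt (Polynomial.natDegree_pow_le) ?_
  have : (1 - Polynomial.X : Polynomial R).natDegree ≤ 1 := by compute_degree
  nlinarith

theorem per_AA {k : ℕ} (hk : (2:R)^k = 0) {P : R⟦X⟧} (hP : P ∈ AA R) (e : ℕ) :
    Per (e+1) ((1 - X) ^ e * P) := by
  rw [AA, Algebra.adjoin_singleton_eq_range_aeval] at hP
  obtain ⟨p, rfl⟩ := hP
  have : (Polynomial.aeval (uG : R⟦X⟧)).toRingHom p =
      ∑ i ∈ range (p.natDegree + 1), p.coeff i • uG ^ i := Polynomial.aeval_eq_sum_range uG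
  rw [this, mul_sum]
  apply Per.sum
  intro i _
  rw [mul_smul_comm]
  apply Per.smul
  by_cases hi : i ≤ e
  · obtain ⟨d, rfl⟩ := Nat.exists_eq_add_of_le hi
    have : (1 - X : R⟦X⟧) ^ (i + d) * uG ^ i = (1 - X) ^ d := by
      have h1 : ((uG : R⟦X⟧) * (1 - X)) ^ i = 1 := by rw [uG_mul, one_pow]
      rw [mul_pow] at h1
      rw [pow_add]
      linear_combination (1 - X) ^ d * h1
    rw [this]
    apply per_poly
    intro m hm
    exact coeff_one_sub_X_pow (by omega)
  · obtain ⟨d, rfl⟩ : ∃ d, i = e + (d+1) := ⟨i - e - 1, by omega⟩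
    have : (1 - X : R⟦X⟧) ^ e * uG ^ (e + (d+1)) = uG ^ (d+1) := by
      have h1 : ((uG : R⟦X⟧) * (1 - X)) ^ e = 1 := by rw [uG_mul, one_pow]
      rw [mul_pow] at h1
      rw [pow_add]
      linear_combination uG ^ (d+1) * h1
    rw [this]
    exact (per_uG_pow hk d).mono (by omega)

end per

section alg
variable {R : Type*} [CommRing R]

theorem nilp2 {A : Type*} [CommRing A] {k : ℕ} (hk : (2:A)^k = 0) (a : A) : IsNilpotent (2 * a) :=
  ⟨k, by rw [mul_pow, hk, zero_mul]⟩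

theorem coe_2 : (((2 : AA R)) : R⟦X⟧) = 2 := map_ofNat (AA R).val 2
theorem coe_3 : (((3 : AA R)) : R⟦X⟧) = 3 := map_ofNat (AA R).val 3
theorem coe_4 : (((4 : AA R)) : R⟦X⟧) = 4 := map_ofNat (AA R).val 4

/-- the algebraic part -/
theorem two_adic {k : ℕ} (hk : (2:R)^k = 0) (t τ : R) (hτ : IsUnit τ) (ht : t + 1 = 2 * τ) :
    Per 2 (PowerSeries.mk (TS t 0 0 0) - 3 * X * PowerSeries.mk (TS t 0 0 1)) ∧
    Per 3 (X * PowerSeries.mk (TS t 0 0 0) + X^2 * PowerSeries.mk (TS t 1 1 1) +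
      3 * X^2 * PowerSeries.mk (TS t 0 1 1)) := by
  -- the ring `𝒜`
  let u : AA R := ⟨uG, uG_mem⟩
  let T : AA R := algebraMap R (AA R) τ
  have hk2 : (2 : AA R)^k = 0 := by
    have := congrArg (algebraMap R (AA R)) hk
    rw [map_pow, map_ofNat, map_zero] at this
    exact this
  have hk4 : (4 : AA R)^k = 0 := by
    rw [show (4 : AA R) = 2 * 2 by norm_num, mul_pow, hk2, zero_mul]
  have hT : IsUnit T := hτ.map _
  obtain ⟨w, hw⟩ := nil_fix (4 : AA R) k hk4 (fun w => (u - 1) * (T + 4 * w * (1 + w) * (T + w))) (by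
    rintro i a b ⟨c, hc⟩
    refine ⟨c * (u - 1) * (T * (1 + a + b) + (a + b) + (a^2 + a*b + b^2)), ?_⟩
    rw [pow_succ]
    linear_combination (4 * (u - 1) * (T * (1 + a + b) + (a + b) + (a^2 + a*b + b^2))) * hc)
  have hden : IsUnit (T - 2 * w ^ 2) := by
    rw [sub_eq_neg_add]
    exact (nilp2 hk2 (w^2)).neg.isUnit_add_right_of_commute hT (Commute.all _ _)
  obtain ⟨E, hE⟩ := hden.exists_right_inv
  set lamA : AA R := 2 * (w * (w + T) * E) with hlamA
  have hF : IsUnit (1 - lamA ^ 3) := by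
    apply IsNilpotent.isUnit_one_sub
    rw [hlamA]
    exact (nilp2 hk2 _).pow_of_pos (by norm_num)
  obtain ⟨F, hFF⟩ := hF.exists_right_inv
  obtain ⟨T', hT'⟩ := hT.exists_right_inv
  -- pass to power series
  set W : R⟦X⟧ := (w : R⟦X⟧) with hW
  set E' : R⟦X⟧ := (E : R⟦X⟧) with hE'
  set F' : R⟦X⟧ := (F : R⟦X⟧) with hF'
  set V' : R⟦X⟧ := (T' : R⟦X⟧) with hV'
  have cT0 : ((T : AA R) : R⟦X⟧) = C τ := rfl
  have cu0 : ((u : AA R) : R⟦X⟧) = uG := rfl
  have cw : W = (uG - 1) * (C τ + 4 * W * (1 + W) * (C τ + W)) := by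
    have := congrArg (fun a : AA R => (a : R⟦X⟧)) hw
    simpa only [Subalgebra.coe_mul, Subalgebra.coe_sub, Subalgebra.coe_add, Subalgebra.coe_one,
      cT0, cu0, coe_2, coe_3, coe_4] using this
  have cE : (C τ - 2 * W ^ 2) * E' = 1 := by
    have := congrArg (fun a : AA R => (a : R⟦X⟧)) hE
    simpa only [Subalgebra.coe_mul, Subalgebra.coe_sub, Subalgebra.coe_add, Subalgebra.coe_one,
      cT0, cu0, coe_2, coe_3, coe_4, Subalgebra.coe_pow] using this
  have cT : C τ * V' = 1 := by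
    have := congrArg (fun a : AA R => (a : R⟦X⟧)) hT'
    simpa only [Subalgebra.coe_mul, Subalgebra.coe_sub, Subalgebra.coe_add, Subalgebra.coe_one,
      cT0, cu0, coe_2, coe_3, coe_4, Subalgebra.coe_pow] using this
  set L' : R⟦X⟧ := 2 * (W * (W + C τ) * E') with hL'
  have cL : ((lamA : AA R) : R⟦X⟧) = L' := by
    rw [hlamA]
    simp only [Subalgebra.coe_mul, Subalgebra.coe_sub, Subalgebra.coe_add, Subalgebra.coe_one,
      cT0, cu0, coe_2, coe_3, coe_4, Subalgebra.coe_pow, hL', hW, hE']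
  have cF : (1 - L' ^ 3) * F' = 1 := by
    have := congrArg (fun a : AA R => (a : R⟦X⟧)) hFF
    simpa only [Subalgebra.coe_mul, Subalgebra.coe_sub, Subalgebra.coe_add, Subalgebra.coe_one,
      cT0, cu0, cL, coe_2, coe_3, coe_4, Subalgebra.coe_pow] using this
  have htC : C t + 1 = 2 * (C τ : R⟦X⟧) := by
    have := congrArg (C : R → R⟦X⟧) ht
    rw [map_add, map_mul, map_one, map_ofNat] at this
    exact this
  have hu : (uG : R⟦X⟧) * (1 - X) = 1 := uG_mul
  have w1 : W = X * (C τ + W) * (1 + 2 * W) ^ 2 := by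
    linear_combination (1 - X) * cw + (C τ + 4 * W * (1 + W) * (C τ + W)) * hu
  have c0 : constantCoeff W = 0 := by
    rw [w1, map_mul, map_mul, constantCoeff_X]
    simp
  set s : R⟦X⟧ := 1 + 2 * W with hsdef
  have us : IsUnit s := by
    rw [isUnit_iff_constantCoeff, hsdef, map_add, map_mul, c0]
    simp
  have uw : IsUnit (W + C τ) := by
    rw [isUnit_iff_constantCoeff, map_add, c0, zero_add, constantCoeff_C]
    exact hτ
  have hs : s = 1 + X * (C t * s ^ 2 + s ^ 3) := by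
    rw [hsdef]
    linear_combination 2 * w1 - X * (1 + 2 * W) ^ 2 * htC
  have hl : L' * (1 - X * s * (C t + 2 * s)) = X * s * (C t + s) := by
    have h1 : (L' * (1 - X * s * (C t + 2 * s)) - X * s * (C t + s)) * ((W + C τ) * s) = 0 := by
      rw [hL', hsdef]
      linear_combination (2 * W * (W + C τ)) * cE +
        (2 * (W * (W + C τ) * E') * (C t + 2 * (1 + 2 * W)) + (C t + (1 + 2 * W))) * w1 -
        W * (2 * (W * (W + C τ) * E') + 1) * htC
    exact sub_eq_zero.1 ((uw.mul us).mul_left_eq_zero.1 h1)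
  have s0 := TS_series t s L' hs hl 0 0 0
  have s1 := TS_series t s L' hs hl 0 0 1
  have s2 := TS_series t s L' hs hl 0 1 1
  have s3 := TS_series t s L' hs hl 1 1 1
  constructor
  · let PA : AA R := F * (1+2*w)^3 * (u * (1 - 3*(1+2*w)) + 3*(1+2*w))
    have cP : ((PA : AA R) : R⟦X⟧) = F' * s^3 * (uG * (1 - 3 * s) + 3 * s) := by
      simp only [PA, Subalgebra.coe_mul, Subalgebra.coe_sub, Subalgebra.coe_add, Subalgebra.coe_one,
        cu0, coe_2, coe_3, coe_4, Subalgebra.coe_pow, ← hW, ← hF', ← hsdef]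
    have := per_AA hk PA.2 1
    rw [cP] at this
    have e : PowerSeries.mk (TS t 0 0 0) - 3 * X * PowerSeries.mk (TS t 0 0 1) =
        (1 - X) ^ 1 * (F' * s^3 * (uG * (1 - 3 * s) + 3 * s)) := by
      linear_combination F' * s0 - 3 * X * F' * s1 -
        (PowerSeries.mk (TS t 0 0 0) - 3 * X * PowerSeries.mk (TS t 0 0 1)) * cF -
        F' * s^3 * (1 - 3 * s) * hu
    rw [e]
    exact this
  · let PA : AA R := w * (1 - 4 * (u - 1) * w * (1 + w)) * T' * (1+2*w) *
      (u + w * (1 - 4 * (u - 1) * w * (1 + w)) * T' * ((1+2*w) + 3)) * F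
    set Y : R⟦X⟧ := W * (1 - 4 * (uG - 1) * W * (1 + W)) * V' with hY
    have cP : ((PA : AA R) : R⟦X⟧) = Y * s * (uG + Y * (s + 3)) * F' := by
      simp only [PA, Subalgebra.coe_mul, Subalgebra.coe_sub, Subalgebra.coe_add, Subalgebra.coe_one,
        cu0, coe_2, coe_3, coe_4, Subalgebra.coe_pow, ← hW, ← hF', ← hsdef, ← hV', ← hY]
    have hQ : (W + C τ) * (1 - 4 * (uG - 1) * W * (1 + W)) = uG * C τ := by
      linear_combination cw
    have hXs : X * s ^ 2 = (1 - X) * Y := by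
      have h1 : (X * s ^ 2 - (1 - X) * Y) * (W + C τ) = 0 := by
        rw [hY, hsdef]
        linear_combination -w1 - (1 - X) * W * V' * hQ - W * hu - (1 - X) * uG * W * cT
      exact sub_eq_zero.1 (uw.mul_left_eq_zero.1 h1)
    have := per_AA hk PA.2 2
    rw [cP] at this
    have e : X * PowerSeries.mk (TS t 0 0 0) + X^2 * PowerSeries.mk (TS t 1 1 1) +
      3 * X^2 * PowerSeries.mk (TS t 0 1 1) = (1 - X) ^ 2 * (Y * s * (uG + Y * (s + 3)) * F') := by
      have e1 : X * PowerSeries.mk (TS t 0 0 0) + X^2 * PowerSeries.mk (TS t 1 1 1) +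
          3 * X^2 * PowerSeries.mk (TS t 0 1 1) = F' * ((X * s^2) * s * (1 + (X * s^2) * (s + 3))) := by
        linear_combination F' * X * s0 + F' * X^2 * s3 + 3 * X^2 * F' * s2 -
          (X * PowerSeries.mk (TS t 0 0 0) + X^2 * PowerSeries.mk (TS t 1 1 1) +
          3 * X^2 * PowerSeries.mk (TS t 0 1 1)) * cF
      rw [e1, hXs]
      linear_combination - F' * (1 - X) * Y * s * hu
    rw [e]
    exact this

end alg

end Q230.Bz
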