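import Mathlib
import Pool.Agent.Q230.BzTwo

/-! # Tilings of type 113: 2-adic continuity -/

set_option linter.unusedSectionVars false

namespace Q230.Bz

open Finset Q230.Benzel

theorem PW113 (R : Type*) [CommRing R] [DecidablePred All5] :
    PW (fun t => if All5 t then (1:R) else 0) 1 (fun _ => 1) where
  right t h := if_pos (Or.inl h)
  left t h := if_pos (Or.inr (Or.inl h))
  bone j t h := if_pos (Or.inr (Or.inr ⟨j, h⟩))

theorem T113A (R : Type*) [CommRing R] (m : ℕ) :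
    (numTilings All5 (benzel ((m+1:ℕ)+2) (2*(m+1:ℕ)+1)) : R) =
      TS 1 0 0 0 (m+1) - 3 * TS 1 0 0 1 m := by
  classical
  rw [numTilings_eq (regA (m+1:ℕ)) All5 (fun t h => h), countA (PW113 R) (by positivity), ← G_eq]

theorem T113B (R : Type*) [CommRing R] (m : ℕ) :
    (numTilings All5 (benzel ((m+2:ℕ)+2) (2*(m+2:ℕ))) : R) =
      TS 1 0 0 0 (m+1) + TS 1 1 1 1 m + 3 * TS 1 0 1 1 m := by
  classical
  rw [numTilings_eq (regB (m+2:ℕ)) All5 (fun t h => h), countB (PW113 R) (by positivity), ← H_eq]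

/-- eventually periodic functions -/
def PerF {R : Type*} (e : ℕ) (h : ℕ → R) : Prop := ∃ j : ℕ, ∀ m, e ≤ m → h (m + 2^j) = h m

theorem PerF.mul {R : Type*} [CommRing R] {e : ℕ} {f g : ℕ → R} (hf : PerF e f) (hg : PerF e g) :
    PerF e (fun m => f m * g m) := by
  obtain ⟨j, hj⟩ := hf
  obtain ⟨j', hj'⟩ := hg
  refine ⟨j + j', fun m hm => ?_⟩
  have h1 := per_iter hj (2^j') m hm
  have h2 := per_iter hj' (2^j) m hm
  rw [← pow_add] at h1 h2
  rw [add_comm j' j] at h2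
  simp only [h1, h2]

theorem cont_of_per (f : ℕ → ℕ) (e c : ℕ) (hce : c ≤ e) (k : ℕ) (h : ℕ → ZMod (2^k))
    (hp : PerF (e - c) h) (hf : ∀ n, e ≤ n → (f n : ZMod (2^k)) = h (n - c)) :
    ∃ j : ℕ, ∀ n n', e ≤ n → e ≤ n' → n ≡ n' [MOD 2^j] → f n ≡ f n' [MOD 2^k] := by
  obtain ⟨j, hj⟩ := hp
  refine ⟨j, ?_⟩
  have key : ∀ n n', e ≤ n → n ≤ n' → n ≡ n' [MOD 2^j] → f n ≡ f n' [MOD 2^k] := by
    intro n n' hn hnn hmod
    obtain ⟨l, hl⟩ := (Nat.modEq_iff_dvd' hnn).1 hmod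
    rw [← ZMod.natCast_eq_natCast_iff, hf n hn, hf n' (hn.trans hnn)]
    have : n' - c = (n - c) + 2^j * l := by omega
    rw [this]
    exact (per_iter hj l (n - c) (by omega)).symm
  intro n n' hn hn' hmod
  rcases le_total n n' with h1 | h1
  · exact key n n' hn h1 hmod
  · exact (key n' n hn' h1 hmod.symm).symm

theorem two_pow_zero (k : ℕ) : (2 : ZMod (2^k)) ^ k = 0 := by
  have := ZMod.natCast_self (2^k)
  push_cast at this
  exact this

theorem per_coeff {R : Type*} [CommRing R] {e : ℕ} {f : PowerSeries R} (h : Per e f) :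
    PerF e (fun m => PowerSeries.coeff m f) := h

theorem perA {k : ℕ} (t τ : ZMod (2^k)) (hτ : IsUnit τ) (ht : t + 1 = 2 * τ) :
    PerF 2 (fun m => PowerSeries.coeff m
      (PowerSeries.mk (TS t 0 0 0) - 3 * PowerSeries.X * PowerSeries.mk (TS t 0 0 1))) :=
  (two_adic (two_pow_zero k) t τ hτ ht).1

theorem perB {k : ℕ} (t τ : ZMod (2^k)) (hτ : IsUnit τ) (ht : t + 1 = 2 * τ) :
    PerF 3 (fun m => PowerSeries.coeff m
      (PowerSeries.X * PowerSeries.mk (TS t 0 0 0) +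
        PowerSeries.X^2 * PowerSeries.mk (TS t 1 1 1) +
      3 * PowerSeries.X^2 * PowerSeries.mk (TS t 0 1 1))) :=
  (two_adic (two_pow_zero k) t τ hτ ht).2

theorem coeffA {R : Type*} [CommRing R] (t : R) (m : ℕ) : PowerSeries.coeff (m+1)
      (PowerSeries.mk (TS t 0 0 0) - 3 * PowerSeries.X * PowerSeries.mk (TS t 0 0 1)) =
    TS t 0 0 0 (m+1) - 3 * TS t 0 0 1 m := by
  have e3 : (3 : PowerSeries R) * PowerSeries.X * PowerSeries.mk (TS t 0 0 1) =
      PowerSeries.X * (PowerSeries.C 3 * PowerSeries.mk (TS t 0 0 1)) := by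
    rw [show (PowerSeries.C (3:R) : PowerSeries R) = 3 from map_ofNat _ 3]; ring
  rw [map_sub, e3, PowerSeries.coeff_succ_X_mul, PowerSeries.coeff_C_mul, PowerSeries.coeff_mk,
    PowerSeries.coeff_mk]

theorem coeffB {R : Type*} [CommRing R] (t : R) (m : ℕ) : PowerSeries.coeff (m+2)
      (PowerSeries.X * PowerSeries.mk (TS t 0 0 0) +
        PowerSeries.X^2 * PowerSeries.mk (TS t 1 1 1) +
      3 * PowerSeries.X^2 * PowerSeries.mk (TS t 0 1 1)) =
    TS t 0 0 0 (m+1) + TS t 1 1 1 m + 3 * TS t 0 1 1 m := by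
  have e3 : (PowerSeries.X * PowerSeries.mk (TS t 0 0 0) +
        PowerSeries.X^2 * PowerSeries.mk (TS t 1 1 1) +
      3 * PowerSeries.X^2 * PowerSeries.mk (TS t 0 1 1)) =
      PowerSeries.X * (PowerSeries.mk (TS t 0 0 0) + PowerSeries.X * (PowerSeries.mk (TS t 1 1 1) +
      PowerSeries.C 3 * PowerSeries.mk (TS t 0 1 1))) := by
    rw [show (PowerSeries.C (3:R) : PowerSeries R) = 3 from map_ofNat _ 3]; ring
  rw [e3, PowerSeries.coeff_succ_X_mul, map_add, PowerSeries.coeff_succ_X_mul, map_add,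
    PowerSeries.coeff_C_mul, PowerSeries.coeff_mk, PowerSeries.coeff_mk, PowerSeries.coeff_mk]
  ring

/-- 2-adic continuity of `T113(n,2n-3)`, `n ≥ 4` -/
theorem contA (k : ℕ) : ∃ j : ℕ, ∀ n n' : ℕ, 4 ≤ n → 4 ≤ n' → n ≡ n' [MOD 2^j] →
    numTilings All5 (benzel n (2*n-3)) ≡ numTilings All5 (benzel n' (2*n'-3)) [MOD 2^k] := by
  refine cont_of_per (fun n => numTilings All5 (benzel n (2*n-3))) 4 2 (by norm_num) k
    (fun m => PowerSeries.coeff m
      (PowerSeries.mk (TS 1 0 0 0) - 3 * PowerSeries.X * PowerSeries.mk (TS 1 0 0 1)))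
    (perA 1 1 isUnit_one (by norm_num)) ?_
  intro n hn
  obtain ⟨m, rfl⟩ : ∃ m, n = m + 3 := ⟨n - 3, by omega⟩
  have h := T113A (ZMod (2^k)) m
  have e1 : (((m+1:ℕ):ℤ)+2) = ((m+3:ℕ):ℤ) := by push_cast; ring
  have e2 : (2*((m+1:ℕ):ℤ)+1) = 2*((m+3:ℕ):ℤ)-3 := by push_cast; ring
  rw [e1, e2] at h
  beta_reduce
  rw [h, show m + 3 - 2 = m + 1 by omega, coeffA]

/-- 2-adic continuity of `T113(n,2n-4)`, `n ≥ 5` -/
theorem contB (k : ℕ) : ∃ j : ℕ, ∀ n n' : ℕ, 5 ≤ n → 5 ≤ n' → n ≡ n' [MOD 2^j] →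
    numTilings All5 (benzel n (2*n-4)) ≡ numTilings All5 (benzel n' (2*n'-4)) [MOD 2^k] := by
  refine cont_of_per (fun n => numTilings All5 (benzel n (2*n-4))) 5 2 (by norm_num) k
    (fun m => PowerSeries.coeff m
      (PowerSeries.X * PowerSeries.mk (TS 1 0 0 0) +
        PowerSeries.X^2 * PowerSeries.mk (TS 1 1 1 1) +
      3 * PowerSeries.X^2 * PowerSeries.mk (TS 1 0 1 1)))
    (perB 1 1 isUnit_one (by norm_num)) ?_
  intro n hn
  obtain ⟨m, rfl⟩ : ∃ m, n = m + 4 := ⟨n - 4, by omega⟩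
  have h := T113B (ZMod (2^k)) m
  have e1 : (((m+2:ℕ):ℤ)+2) = ((m+4:ℕ):ℤ) := by push_cast; ring
  have e2 : (2*((m+2:ℕ):ℤ)) = 2*((m+4:ℕ):ℤ)-4 := by push_cast; ring
  rw [e1, e2] at h
  beta_reduce
  rw [h, show m + 4 - 2 = m + 2 by omega, coeffB]

end Q230.Bz
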