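import Mathlib
import Pool.Agent.Q230.BzT113

/-! # Weighted tilings -/

set_option linter.unusedSectionVars false

namespace Q230.Benzel

/-- the number of stones (right and left) in a tiling -/
noncomputable def stoneCount (P : Finset (Finset Cell)) : ℕ :=
  {t | t ∈ P ∧ (IsRightStone t ∨ IsLeftStone t)}.ncard

/-- `T(a,b;x)`: the sum of `x ^ (number of stones)` over all tilings of `Ω` by right stones, left
stones and bones of the three directions. -/
noncomputable def weightedTilings (x : ℕ) (Ω : Set Cell) : ℕ :=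
  ∑ᶠ P ∈ {P | IsTiling (fun t => IsRightStone t ∨ IsLeftStone t ∨ ∃ i, IsBone i t) Ω P},
    x ^ stoneCount P

end Q230.Benzel

namespace Q230.Bz

open Finset Q230.Benzel

section hom
variable {R : Type*} [CommRing R]

theorem S_hom (a w y : R) (q : ℕ) : ∀ p, S (a * w) (a^2 * y) p q = a ^ (p + 2*q) * S w y p q := by
  induction q with
  | zero => intro p; rw [S_zero, S_zero, mul_pow]; simp
  | succ q ih =>
    intro p
    induction p with
    | zero =>
      rw [S_zero_succ, S_zero_succ, ih, ih]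
      ring
    | succ p ihp =>
      rw [S_succ_succ, S_succ_succ, ih, ih, ihp]
      ring

/-- the triple sums with general weights -/
def TW (w y : R) (a b c m : ℕ) : R :=
  V m (fun p q r => S w y (p+a) q * S w y (q+b) r * S w y (r+c) p)

theorem TW_hom (x t : R) (a b c m : ℕ) :
    TW x (x^2 * t) a b c m = x ^ (3*m+a+b+c) * TS t a b c m := by
  have h1 : TW x (x^2 * t) a b c m =
      V m (fun p q r => x ^ (3*m+a+b+c) * (S 1 t (p+a) q * S 1 t (q+b) r * S 1 t (r+c) p)) := by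
    apply V_congr
    intro p q r hm
    have h := fun p q => S_hom x 1 t q p
    rw [mul_one] at h
    rw [h, h, h, ← hm]
    ring
  rw [h1]
  unfold V TS V
  simp only [mul_sum, mul_ite, mul_zero]

theorem G_eq_w (w y : R) (m : ℕ) :
    ∑ P ∈ XX ((m+1:ℕ):ℤ), (∏ k, SZ w y (P (k+2)) (P (k+1)) -
        ∑ k, w * w * SZ w y (P (k+2) - 1) (P (k+1)) *
        SZ w y (P k + 1) (P (k+2) - 1) * SZ w y (P (k+1)) (P k)) =
      TW w y 0 0 0 (m+1) - 3 * (w^2 * TW w y 0 0 1 m) := by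
  rw [sum_sub_distrib, sum_comm]
  congr 1
  · have h1 := sum_XX (R := R) 0 (m+1) (fun x' y' z => SZ w y z y' * SZ w y x' z * SZ w y y' x')
    have h2 : ∑ P ∈ XX ((m+1:ℕ):ℤ), ∏ k, SZ w y (P (k+2)) (P (k+1)) =
        ∑ P ∈ XX ((m+1:ℕ):ℤ), SZ w y (P (0+2)) (P (0+1)) * SZ w y (P 0) (P (0+2)) *
          SZ w y (P (0+1)) (P 0) := by
      refine sum_congr rfl fun P _ => ?_
      rw [Fin.prod_univ_three]
      rfl
    rw [h2, h1, V_rev]
    unfold TW
    apply V_congr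
    intro p q r _
    simp only [SZ_nat, add_zero]
    ring
  · have key : ∀ k : Fin 3, ∑ P ∈ XX ((m+1:ℕ):ℤ), w * w * SZ w y (P (k+2) - 1) (P (k+1)) *
        SZ w y (P k + 1) (P (k+2) - 1) * SZ w y (P (k+1)) (P k) = w^2 * TW w y 0 0 1 m := by
      intro k
      have h1 := sum_XX (R := R) k (m+1) (fun x' y' z => w * w * SZ w y (z-1) y' *
        SZ w y (x'+1) (z-1) * SZ w y y' x')
      rw [h1, V_shift (fun x' y' z => w * w * SZ w y z y' * SZ w y (x'+1) z * SZ w y y' x') m,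
        V_rev]
      · have h3 : w^2 * TW w y 0 0 1 m = V m (fun p q r =>
            w^2 * (S w y (p+0) q * S w y (q+0) r * S w y (r+1) p)) := by
          unfold TW V
          simp only [mul_sum, mul_ite, mul_zero]
        rw [h3]
        apply V_congr
        intro p q r _
        have e3 : ((r:ℤ) + 1) = ((r+1:ℕ):ℤ) := by push_cast; ring
        simp only [e3, SZ_nat, add_zero]
        ring
      · intro p q
        rw [SZ_neg_left w y (p := -1) (by norm_num)]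
        ring
    rw [sum_congr rfl (fun k _ => key k)]
    simp

theorem H_eq_w (w y : R) (m : ℕ) :
    ∑ v ∈ XX (((m+2:ℕ):ℤ)-1), ∏ k, SZ w y (v (k+2)) (v k) +
      ∑ v ∈ XX (((m+2:ℕ):ℤ)-2), ∏ k, SZ w y (v (k+2) + 1) (v k) +
      ∑ κ, w * ∑ v ∈ XX (((m+2:ℕ):ℤ)-2), SZ w y (v (κ+2)) (v κ) *
        SZ w y (v κ + 1) (v (κ+1)) * SZ w y (v (κ+1) + 1) (v (κ+2)) =
      TW w y 0 0 0 (m+1) + TW w y 1 1 1 m + 3 * (w * TW w y 0 1 1 m) := by
  have q1 : ((m+2:ℕ):ℤ) - 1 = ((m+1:ℕ):ℤ) := by push_cast; ring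
  have q2 : ((m+2:ℕ):ℤ) - 2 = (m:ℤ) := by push_cast; ring
  have e1 : ∀ r : ℕ, ((r:ℤ) + 1) = ((r+1:ℕ):ℤ) := fun r => by push_cast; ring
  rw [q1, q2]
  congr 1
  · congr 1
    · have h1 := sum_XX (R := R) 0 (m+1) (fun x' y' z => SZ w y z x' * SZ w y x' y' * SZ w y y' z)
      have h2 : ∑ P ∈ XX ((m+1:ℕ):ℤ), ∏ k, SZ w y (P (k+2)) (P k) =
          ∑ P ∈ XX ((m+1:ℕ):ℤ), SZ w y (P (0+2)) (P 0) * SZ w y (P 0) (P (0+1)) *
            SZ w y (P (0+1)) (P (0+2)) := by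
        refine sum_congr rfl fun P _ => ?_
        rw [Fin.prod_univ_three]
        rfl
      rw [h2, h1]
      unfold TW
      apply V_congr
      intro p q r _
      simp only [SZ_nat, add_zero]
      ring
    · have h1 := sum_XX (R := R) 0 m (fun x' y' z => SZ w y (z+1) x' * SZ w y (x'+1) y' *
        SZ w y (y'+1) z)
      have h2 : ∑ P ∈ XX (m:ℤ), ∏ k, SZ w y (P (k+2) + 1) (P k) =
          ∑ P ∈ XX (m:ℤ), SZ w y (P (0+2) + 1) (P 0) * SZ w y (P 0 + 1) (P (0+1)) *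
            SZ w y (P (0+1) + 1) (P (0+2)) := by
        refine sum_congr rfl fun P _ => ?_
        rw [Fin.prod_univ_three]
        rfl
      rw [h2, h1]
      unfold TW
      apply V_congr
      intro p q r _
      simp only [e1, SZ_nat]
      ring
  · have key : ∀ k : Fin 3, w * ∑ v ∈ XX (m:ℤ), SZ w y (v (k+2)) (v k) *
        SZ w y (v k + 1) (v (k+1)) * SZ w y (v (k+1) + 1) (v (k+2)) = w * TW w y 0 1 1 m := by
      intro k
      have h1 := sum_XX (R := R) k m (fun x' y' z => SZ w y z x' *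
        SZ w y (x'+1) y' * SZ w y (y'+1) z)
      rw [h1]
      congr 1
      unfold TW
      rw [V_rot]
      apply V_congr
      intro p q r _
      simp only [e1, SZ_nat, add_zero]
    rw [sum_congr rfl (fun k _ => key k)]
    simp

end hom

theorem card_XX (m : ℕ) : 2 * (XX (m:ℤ)).card = (m+1) * (m+2) := by
  have rec' : ∀ m : ℕ, ((XX ((m+1:ℕ):ℤ)).card : ℤ) = (XX (m:ℤ)).card + (m+2) := by
    intro m
    have h0 : ∑ P ∈ XX ((m+1:ℕ):ℤ), (if P (0+2) = 0 then (fun _ _ => (1:ℤ)) (P 0) (P (0+1)) else 0) =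
        m + 2 := by
      have := sum_edge (R := ℤ) 0 (m+1) (fun _ _ => 1)
      rw [this]
      simp
      ring
    have h1 : ∑ P ∈ XX ((m+1:ℕ):ℤ), (if 0 ≤ P (0+2) - 1 then (1:ℤ) else 0) = (XX (m:ℤ)).card := by
      have a1 := sum_XX (R := ℤ) 0 (m+1) (fun _ _ z => if 0 ≤ z - 1 then (1:ℤ) else 0)
      have a2 := sum_XX (R := ℤ) 0 m (fun _ _ z => if 0 ≤ z then (1:ℤ) else 0)
      rw [a1, V_shift (fun _ _ z => if 0 ≤ z then (1:ℤ) else 0) m (by intro p q; norm_num), ← a2]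
      rw [sum_congr rfl (fun P hP => if_pos (XX_pos hP (0+2)))]
      simp
    have h2 : ((XX ((m+1:ℕ):ℤ)).card : ℤ) = ∑ P ∈ XX ((m+1:ℕ):ℤ),
        ((if P (0+2) = 0 then (fun _ _ => (1:ℤ)) (P 0) (P (0+1)) else 0) +
          (if 0 ≤ P (0+2) - 1 then (1:ℤ) else 0)) := by
      rw [card_eq_sum_ones, Nat.cast_sum]
      refine sum_congr rfl fun P hP => ?_
      have := XX_pos hP (0+2)
      by_cases hz : P (0+2) = 0
      · rw [if_pos hz, if_neg (by omega)]; simp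
      · rw [if_neg hz, if_pos (by omega)]; simp
    rw [h2, sum_add_distrib, h0, h1]
    ring
  have key : (2 * (XX (m:ℤ)).card : ℤ) = (m+1) * (m+2) := by
    induction m with
    | zero =>
      have : XX ((0:ℕ):ℤ) = {0} := by
        ext P
        rw [mem_XX, mem_singleton]
        constructor
        · rintro ⟨h0, h1, h2, h3⟩
          apply pt_ext 0
          · simp; omega
          · show P 1 = 0
            simp at h3; omega
          · show P 2 = 0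
            simp at h3; omega
        · rintro rfl
          simp
      rw [this]
      simp
    | succ m ih =>
      rw [rec' m, mul_add, ih]
      push_cast
      ring
  exact_mod_cast key

section
variable {R : Type*} [CommRing R]

/-- the weights -/
noncomputable def pwS (θ : R) (t : Finset Cell) : R := by
  classical
  exact if IsRightStone t ∨ IsLeftStone t then 1 else θ

theorem PWS (θ : R) : PW (pwS θ) 1 (fun _ => θ) where
  right t h := by unfold pwS; rw [if_pos (Or.inl h)]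
  left t h := by unfold pwS; rw [if_pos (Or.inr h)]
  bone j t h := by
    unfold pwS
    rw [if_neg]
    rintro (h' | h')
    · exact not_right_bone h' _ h
    · exact not_left_bone h' _ h

theorem prod_pwS (θ x : R) (hx : x * θ = 1) (P : Finset (Finset Cell)) :
    x ^ stoneCount P = x ^ P.card * ∏ t ∈ P, pwS θ t := by
  classical
  have h1 : stoneCount P = (P.filter (fun t => IsRightStone t ∨ IsLeftStone t)).card := by
    unfold stoneCount
    rw [← Set.ncard_coe_finset]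
    congr 1
    ext t
    simp
  rw [h1, ← prod_const, ← prod_const, ← prod_mul_distrib, prod_filter]
  refine prod_congr rfl fun t _ => ?_
  unfold pwS
  split_ifs
  · rw [mul_one]
  · exact hx.symm

theorem weighted_eq {m : ℤ} {Ω : Set Cell} {Ξ : Fin 3 → Finset Pt} (hR : Reg m Ω Ξ) (x : ℕ) (θ : R)
    (hx : (x:R) * θ = 1) :
    (weightedTilings x Ω : R) = (x:R) ^ (Ξ 0).card * ∑ F ∈ Fam m Ξ, ∏ τ ∈ F, pwS θ (piece τ) := by
  classical
  have h1 : {P | IsTiling (fun t => IsRightStone t ∨ IsLeftStone t ∨ ∃ i, IsBone i t) Ω P} =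
      ↑(Til m Ξ) := by
    ext P
    exact tilings_eq hR P
  unfold weightedTilings
  rw [h1, finsum_mem_coe_finset, Nat.cast_sum]
  rw [← sum_tilings hR (pwS θ) (Til m Ξ) (fun P => (tilings_eq hR P).symm), mul_sum]
  refine sum_congr rfl fun P hP => ?_
  push_cast
  rw [prod_pwS θ (x:R) hx]
  congr 2
  unfold Til at hP
  obtain ⟨F, hF, rfl⟩ := mem_image.1 hP
  rw [card_image_of_injOn, Fam_card hF 0]
  intro τ hτ σ hσ h
  exact piece_inj (fun κ => Fam_sm hR hF hτ κ) (fun κ => Fam_sm hR hF hσ κ) h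

theorem WTA (x : ℕ) (θ : R) (hx : (x:R) * θ = 1) (m : ℕ) :
    (weightedTilings x (benzel ((m+1:ℕ)+2) (2*(m+1:ℕ)+1)) : R) =
      (x:R) ^ (XiA (m+1:ℕ) 0).card * (θ ^ (3*(m+1)) *
        (TS ((x:R)^2) 0 0 0 (m+1) - 3 * TS ((x:R)^2) 0 0 1 m)) := by
  rw [weighted_eq (regA (m+1:ℕ)) x θ hx, countA (PWS θ) (by positivity), G_eq_w]
  have h1 : (1:R) = θ^2 * (x:R)^2 := by
    rw [← mul_pow, mul_comm θ, hx, one_pow]
  have h2 := fun a b c m => TW_hom θ ((x:R)^2) a b c m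
  rw [← h1] at h2
  rw [h2, h2]
  ring

theorem WTB (x : ℕ) (θ : R) (hx : (x:R) * θ = 1) (m : ℕ) :
    (weightedTilings x (benzel ((m+2:ℕ)+2) (2*(m+2:ℕ))) : R) =
      (x:R) ^ (XiB (m+2:ℕ) 0).card * (θ ^ (3*(m+1)) *
        (TS ((x:R)^2) 0 0 0 (m+1) + TS ((x:R)^2) 1 1 1 m + 3 * TS ((x:R)^2) 0 1 1 m)) := by
  rw [weighted_eq (regB (m+2:ℕ)) x θ hx, countB (PWS θ) (by positivity), H_eq_w]
  have h1 : (1:R) = θ^2 * (x:R)^2 := by
    rw [← mul_pow, mul_comm θ, hx, one_pow]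
  have h2 := fun a b c m => TW_hom θ ((x:R)^2) a b c m
  rw [← h1] at h2
  rw [h2, h2, h2]
  ring

end

theorem card_XiA (m : ℕ) : (XiA (m:ℤ) 0).card = (XX (m:ℤ)).card - 1 :=
  card_erase_of_mem (co_mem (by positivity) 0)

theorem card_XiB (m : ℕ) (hm : 0 < m) : (XiB (m:ℤ) 0).card = (XX (m:ℤ)).card - 2 := by
  unfold XiB
  rw [card_erase_of_mem, card_erase_of_mem (co_mem (by positivity) 0)]
  · rfl
  · rw [mem_erase]
    exact ⟨co_ne (by exact_mod_cast hm) (by decide), co_mem (by positivity) _⟩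

theorem pow_per {R : Type*} [CommRing R] {x : R} {N : ℕ} (hx : x ^ N = 1) (a c : ℕ) :
    x ^ (a + N * c) = x ^ a := by rw [pow_add, pow_mul, hx, one_pow, mul_one]

theorem card_shift (m k : ℕ) : (XX ((m + 2^(k+1) : ℕ):ℤ)).card =
    (XX (m:ℤ)).card + 2^k * (2*m + 3 + 2^(k+1)) := by
  have h1 := card_XX m
  have h2 := card_XX (m + 2^(k+1))
  have h3 : 2 * (XX ((m + 2^(k+1) : ℕ):ℤ)).card =
      2 * ((XX (m:ℤ)).card + 2^k * (2*m + 3 + 2^(k+1))) := by
    rw [h2, Nat.mul_add 2 (XX (m:ℤ)).card, h1]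
    ring
  omega

section
variable {k : ℕ}

/-- the unit `3` -/
def u3 (k : ℕ) : (ZMod (2^(k+1)))ˣ := ZMod.unitOfCoprime 3 (by
  apply Nat.Coprime.pow_right
  norm_num)

/-- the unit `5` -/
def u5 (k : ℕ) : (ZMod (2^(k+1)))ˣ := ZMod.unitOfCoprime 5 (by
  apply Nat.Coprime.pow_right
  norm_num)

theorem u3_val : ((u3 k : (ZMod (2^(k+1)))ˣ) : ZMod (2^(k+1))) = 3 := by
  unfold u3
  rw [ZMod.coe_unitOfCoprime]
  rfl

theorem u5_val : ((u5 k : (ZMod (2^(k+1)))ˣ) : ZMod (2^(k+1))) = 5 := by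
  unfold u5
  rw [ZMod.coe_unitOfCoprime]
  rfl

theorem u3_pow : (u3 k) ^ (2^k) = 1 := by
  have := ZMod.pow_totient (u3 k)
  rwa [Nat.totient_prime_pow_succ Nat.prime_two, show 2 - 1 = 1 from rfl, mul_one] at this

/-- the inverse of `3` -/
def th3 (k : ℕ) : ZMod (2^(k+1)) := (((u3 k)⁻¹ : (ZMod (2^(k+1)))ˣ) : ZMod (2^(k+1)))

theorem th3_mul : ((3:ℕ) : ZMod (2^(k+1))) * th3 k = 1 := by
  unfold th3
  have : ((3:ℕ) : ZMod (2^(k+1))) = ((u3 k : (ZMod (2^(k+1)))ˣ) : ZMod (2^(k+1))) := by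
    rw [u3_val]; norm_num
  rw [this, Units.mul_inv]

theorem three_pow : ((3:ℕ) : ZMod (2^(k+1))) ^ (2^k) = 1 := by
  have : ((3:ℕ) : ZMod (2^(k+1))) = ((u3 k : (ZMod (2^(k+1)))ˣ) : ZMod (2^(k+1))) := by
    rw [u3_val]; norm_num
  rw [this, ← Units.val_pow_eq_pow_val, u3_pow, Units.val_one]

theorem th3_pow : (th3 k) ^ (2^k) = 1 := by
  unfold th3
  rw [← Units.val_pow_eq_pow_val, inv_pow, u3_pow, inv_one, Units.val_one]

theorem perA3 : PerF 2 (fun m => ((3:ℕ) : ZMod (2^(k+1))) ^ ((XX (m:ℤ)).card - 1)) := by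
  refine ⟨k+1, fun m hm => ?_⟩
  beta_reduce
  have h1 := card_XX m
  have h2 : 1 ≤ (XX (m:ℤ)).card := by nlinarith
  rw [card_shift, show (XX (m:ℤ)).card + 2^k * (2*m + 3 + 2^(k+1)) - 1 =
    ((XX (m:ℤ)).card - 1) + 2^k * (2*m + 3 + 2^(k+1)) by omega]
  exact pow_per three_pow _ _

theorem perB3 : PerF 3 (fun m => ((3:ℕ) : ZMod (2^(k+1))) ^ ((XX (m:ℤ)).card - 2)) := by
  refine ⟨k+1, fun m hm => ?_⟩
  beta_reduce
  have h1 := card_XX m
  have h2 : 2 ≤ (XX (m:ℤ)).card := by nlinarith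
  rw [card_shift, show (XX (m:ℤ)).card + 2^k * (2*m + 3 + 2^(k+1)) - 2 =
    ((XX (m:ℤ)).card - 2) + 2^k * (2*m + 3 + 2^(k+1)) by omega]
  exact pow_per three_pow _ _

theorem perT (e c : ℕ) (hc : c ≤ e) : PerF e (fun m => (th3 k) ^ (3*(m-c))) := by
  refine ⟨k, fun m hm => ?_⟩
  beta_reduce
  rw [show 3*(m + 2^k - c) = 3*(m-c) + 2^k * 3 by omega]
  exact pow_per th3_pow _ _

end

/-- 2-adic continuity of `T(n,2n-3;3)`, `n ≥ 4` -/
theorem contA3 (k : ℕ) (hk : 1 ≤ k) : ∃ j : ℕ, ∀ n n' : ℕ, 4 ≤ n → 4 ≤ n' → n ≡ n' [MOD 2^j] →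
    weightedTilings 3 (benzel n (2*n-3)) ≡ weightedTilings 3 (benzel n' (2*n'-3)) [MOD 2^k] := by
  obtain ⟨k, rfl⟩ : ∃ k', k = k' + 1 := ⟨k - 1, by omega⟩
  have h5 : IsUnit (5 : ZMod (2^(k+1))) := u5_val (k := k) ▸ (u5 k).isUnit
  refine cont_of_per (fun n => weightedTilings 3 (benzel n (2*n-3))) 4 2 (by norm_num) (k+1)
    (fun m => ((3:ℕ) : ZMod (2^(k+1))) ^ ((XX (m:ℤ)).card - 1) * ((th3 k) ^ (3*(m-0)) *
      PowerSeries.coeff m
      (PowerSeries.mk (TS (((3:ℕ) : ZMod (2^(k+1)))^2) 0 0 0) -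
        3 * PowerSeries.X * PowerSeries.mk (TS (((3:ℕ) : ZMod (2^(k+1)))^2) 0 0 1))))
    (perA3.mul ((perT 2 0 (by norm_num)).mul (perA _ 5 h5 (by norm_num)))) ?_
  intro n hn
  obtain ⟨m, rfl⟩ : ∃ m, n = m + 3 := ⟨n - 3, by omega⟩
  have h := WTA 3 (th3 k) th3_mul m
  have e1 : (((m+1:ℕ):ℤ)+2) = ((m+3:ℕ):ℤ) := by push_cast; ring
  have e2 : (2*((m+1:ℕ):ℤ)+1) = 2*((m+3:ℕ):ℤ)-3 := by push_cast; ring
  rw [e1, e2] at h
  beta_reduce
  rw [h, show m + 3 - 2 = m + 1 by omega, coeffA, card_XiA, Nat.sub_zero]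

/-- 2-adic continuity of `T(n,2n-4;3)`, `n ≥ 5` -/
theorem contB3 (k : ℕ) (hk : 1 ≤ k) : ∃ j : ℕ, ∀ n n' : ℕ, 5 ≤ n → 5 ≤ n' → n ≡ n' [MOD 2^j] →
    weightedTilings 3 (benzel n (2*n-4)) ≡ weightedTilings 3 (benzel n' (2*n'-4)) [MOD 2^k] := by
  obtain ⟨k, rfl⟩ : ∃ k', k = k' + 1 := ⟨k - 1, by omega⟩
  have h5 : IsUnit (5 : ZMod (2^(k+1))) := u5_val (k := k) ▸ (u5 k).isUnit
  refine cont_of_per (fun n => weightedTilings 3 (benzel n (2*n-4))) 5 2 (by norm_num) (k+1)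
    (fun m => ((3:ℕ) : ZMod (2^(k+1))) ^ ((XX (m:ℤ)).card - 2) * ((th3 k) ^ (3*(m-1)) *
      PowerSeries.coeff m
      (PowerSeries.X * PowerSeries.mk (TS (((3:ℕ) : ZMod (2^(k+1)))^2) 0 0 0) +
        PowerSeries.X^2 * PowerSeries.mk (TS (((3:ℕ) : ZMod (2^(k+1)))^2) 1 1 1) +
      3 * PowerSeries.X^2 * PowerSeries.mk (TS (((3:ℕ) : ZMod (2^(k+1)))^2) 0 1 1))))
    (perB3.mul ((perT 3 1 (by norm_num)).mul (perB _ 5 h5 (by norm_num)))) ?_
  intro n hn
  obtain ⟨m, rfl⟩ : ∃ m, n = m + 4 := ⟨n - 4, by omega⟩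
  have h := WTB 3 (th3 k) th3_mul m
  have e1 : (((m+2:ℕ):ℤ)+2) = ((m+4:ℕ):ℤ) := by push_cast; ring
  have e2 : (2*((m+2:ℕ):ℤ)) = 2*((m+4:ℕ):ℤ)-4 := by push_cast; ring
  rw [e1, e2] at h
  beta_reduce
  rw [h, show m + 4 - 2 = m + 2 by omega, coeffB, card_XiB _ (by omega),
    show m + 2 - 1 = m + 1 by omega]

end Q230.Bz
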