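import Mathlib

/-!
Explicit data: a class in `H^4(ℤ^8)` whose pairing on `H^2(ℤ^8)` is `E₈ ⊕ 10 H`, checked by the kernel.
-/

namespace Pool.Agent.Q230.E8Data

/-- the terms `(c, i, j, k, l)` of the class `ω = ∑ c • x_i x_j x_k x_l` (indices `0..7`) -/
def omL : List (ℤ × ℕ × ℕ × ℕ × ℕ) := [
  (1, 0, 1, 2, 3), (-1, 0, 1, 2, 5), (1, 0, 1, 2, 6), (1, 0, 1, 3, 4), (1, 0, 1, 3, 6),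
  (1, 0, 1, 3, 7), (-1, 0, 1, 4, 6), (-1, 0, 1, 4, 7), (-1, 0, 1, 5, 6), (-1, 0, 1, 6, 7),
  (-1, 0, 2, 3, 4), (-1, 0, 2, 3, 6), (1, 0, 2, 3, 7), (-1, 0, 2, 4, 5), (1, 0, 2, 4, 6),
  (1, 0, 2, 4, 7), (1, 0, 2, 5, 6), (1, 0, 2, 5, 7), (1, 0, 3, 4, 6), (1, 0, 3, 5, 6),
  (-1, 0, 3, 5, 7), (1, 0, 3, 6, 7), (-1, 0, 4, 6, 7), (1, 1, 2, 3, 4), (1, 1, 2, 3, 5),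
  (1, 1, 2, 3, 7), (1, 1, 2, 4, 7), (1, 1, 2, 6, 7), (-1, 1, 3, 4, 7), (-1, 1, 4, 5, 7),
  (1, 1, 5, 6, 7), (-1, 2, 3, 5, 6), (-1, 2, 3, 6, 7), (1, 2, 4, 6, 7), (1, 2, 5, 6, 7),
  (1, 3, 4, 5, 6), (1, 3, 4, 5, 7), (-1, 3, 5, 6, 7)]

/-- the pairs of indices -/
def prL : List (ℕ × ℕ) := [(0, 1), (0, 2), (0, 3), (0, 4), (0, 5), (0, 6), (0, 7), (1, 2), (1, 3), (1, 4), (1, 5), (1, 6), (1, 7), (2, 3), (2, 4), (2, 5), (2, 6), (2, 7), (3, 4), (3, 5), (3, 6), (3, 7), (4, 5), (4, 6), (4, 7), (5, 6), (5, 7), (6, 7)]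

/-- the matrix of the pairing in the standard basis -/
def GrL : List (List ℤ) := [
  [0, 0, 0, 0, 0, 0, 0, 0, 0, 0, 0, 0, 0, 0, 1, 0, -1, 1, 1, -1, 0, 0, -1, 0, -1, 0, 0, 0],
  [0, 0, 0, 0, 0, 0, 0, 0, 0, -1, 0, 1, -1, 0, 0, 0, 0, 0, -1, 0, 1, 0, 0, 0, 0, 1, 0, 0],
  [0, 0, 0, 0, 0, 0, 0, 0, 0, -1, 1, 0, 0, 0, 1, 0, -1, 0, 0, 0, 0, 0, 1, 0, 0, 1, 0, 0],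
  [0, 0, 0, 0, 0, 0, 0, 1, 1, 0, 1, 0, 1, -1, 0, 0, 0, 0, 0, -1, 0, 0, 0, 0, 0, -1, 0, -1],
  [0, 0, 0, 0, 0, 0, 0, 0, -1, -1, 0, 0, 0, 0, 0, 0, -1, 0, 1, 0, -1, 0, 0, 1, 0, 0, 0, 1],
  [0, 0, 0, 0, 0, 0, 0, -1, 0, 0, 0, 0, 0, 1, 0, 1, 0, 0, 0, 1, 0, 0, -1, 0, 1, 0, -1, 0],
  [0, 0, 0, 0, 0, 0, 0, 1, 0, -1, 0, 0, 0, 0, 0, 0, 0, 0, 0, 0, 0, 0, 0, -1, 0, 1, 0, 0],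
  [0, 0, 0, 1, 0, -1, 1, 0, 0, 0, 0, 0, 0, 0, 0, 0, 0, 0, 0, 1, 0, 0, 1, 1, 1, 0, -1, 0],
  [0, 0, 0, 1, -1, 0, 0, 0, 0, 0, 0, 0, 0, 0, 0, -1, 0, 0, 0, 0, 0, 0, 0, 1, -1, -1, 1, 1],
  [0, -1, -1, 0, -1, 0, -1, 0, 0, 0, 0, 0, 0, 0, 0, -1, -1, -1, 0, 0, -1, 1, 0, 0, 0, 1, 1, 0],
  [0, 0, 1, 1, 0, 0, 0, 0, 0, 0, 0, 0, 0, 1, 1, 0, 0, 1, 0, 0, 1, -1, 0, -1, -1, 0, 0, 1],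
  [0, 1, 0, 0, 0, 0, 0, 0, 0, 0, 0, 0, 0, 0, 1, 0, 0, 0, 1, -1, 0, -1, 1, 0, 0, 0, -1, 0],
  [0, -1, 0, 1, 0, 0, 0, 0, 0, 0, 0, 0, 0, 0, 1, -1, 0, 0, -1, 1, 1, 0, 1, 0, 0, 1, 0, 0],
  [0, 0, 0, -1, 0, 1, 0, 0, 0, 0, 1, 0, 0, 0, 0, 0, 0, 0, 0, 0, 0, 0, -1, 0, -1, -1, 1, 0],
  [1, 0, 1, 0, 0, 0, 0, 0, 0, 0, 1, 1, 1, 0, 0, 0, 0, 0, 0, 1, 0, 1, 0, 0, 0, -1, 1, 0],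
  [0, 0, 0, 0, 0, 1, 0, 0, -1, -1, 0, 0, -1, 0, 0, 0, 0, 0, -1, 0, 1, -1, 0, 1, -1, 0, 0, 1],
  [-1, 0, -1, 0, -1, 0, 0, 0, 0, -1, 0, 0, 0, 0, 0, 0, 0, 0, 0, -1, 0, 0, -1, 0, 0, 0, -1, 0],
  [1, 0, 0, 0, 0, 0, 0, 0, 0, -1, 1, 0, 0, 0, 0, 0, 0, 0, -1, 1, 0, 0, 1, 0, 0, 1, 0, 0],
  [1, -1, 0, 0, 1, 0, 0, 0, 0, 0, 0, 1, -1, 0, 0, -1, 0, -1, 0, 0, 0, 0, 0, 0, 0, 0, -1, -1],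
  [-1, 0, 0, -1, 0, 1, 0, 1, 0, 0, 0, -1, 1, 0, 1, 0, -1, 1, 0, 0, 0, 0, 0, 0, 1, 0, 0, 0],
  [0, 1, 0, 0, -1, 0, 0, 0, 0, -1, 1, 0, 1, 0, 0, 1, 0, 0, 0, 0, 0, 0, 0, 0, 1, 0, 0, 0],
  [0, 0, 0, 0, 0, 0, 0, 0, 0, 1, -1, -1, 0, 0, 1, -1, 0, 0, 0, 0, 0, 0, -1, -1, 0, 0, 0, 0],
  [-1, 0, 1, 0, 0, -1, 0, 1, 0, 0, 0, 1, 1, -1, 0, 0, -1, 1, 0, 0, 0, -1, 0, 0, 0, 0, 0, 1],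
  [0, 0, 0, 0, 1, 0, -1, 1, 1, 0, -1, 0, 0, 0, 0, 1, 0, 0, 0, 0, 0, -1, 0, 0, 0, 0, -1, 0],
  [-1, 0, 0, 0, 0, 1, 0, 1, -1, 0, -1, 0, 0, -1, 0, -1, 0, 0, 0, 1, 1, 0, 0, 0, 0, 1, 0, 0],
  [0, 1, 1, -1, 0, 0, 1, 0, -1, 1, 0, 0, 1, -1, -1, 0, 0, 1, 0, 0, 0, 0, 0, 0, 1, 0, 0, 0],
  [0, 0, 0, 0, 0, -1, 0, -1, 1, 1, 0, -1, 0, 1, 1, 0, -1, 0, -1, 0, 0, 0, 0, -1, 0, 0, 0, 0],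
  [0, 0, 0, -1, 1, 0, 0, 0, 1, 0, 1, 0, 0, 0, 0, 1, 0, 0, -1, 0, 0, 0, 1, 0, 0, 0, 0, 0]]

/-- the coordinates of the new basis -/
def BL : List (List ℤ) := [
  [1, -1, -4, -1, 0, -1, -1, -1, 0, -1, -1, 0, -1, -2, 0, 1, -1, 1, 2, 2, 2, 0, 1, -2, 1, -2, 1, 2],
  [1, -3, 3, -2, -3, 0, 1, -1, 1, -1, -1, -1, -1, -1, 0, 1, 0, 0, 1, 0, 1, 1, 1, -1, 0, -1, -1, 1],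
  [0, 1, 1, 2, 0, 2, 0, 1, 0, 1, 1, 0, -1, 0, 0, 0, 0, 0, -1, -1, -1, 1, 0, 0, 0, 0, -1, -1],
  [-2, 3, -4, 3, 3, 1, 1, 0, -2, 1, -1, 3, 2, 2, 1, 1, -1, 0, -3, 1, -4, -1, -1, 0, -1, 1, 2, -1],
  [2, -1, 1, -1, -1, 1, 1, -1, 2, -1, 0, -1, -1, -3, -1, -1, 0, 0, 2, -1, 2, 0, 1, -1, 1, -1, -1, 1],
  [2, -5, 4, -5, -4, -3, -1, -1, 3, -2, 0, -4, -1, -1, -2, -1, 0, 0, 4, 0, 6, -1, 1, 0, 1, -1, -1, 1],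
  [0, 1, -5, 1, 1, 1, 0, 0, -1, 1, -1, 2, 0, -1, 1, 2, -1, 0, 0, 2, -1, 1, 0, -1, 0, 0, 1, 2],
  [-1, 0, 3, 2, 0, 2, 2, 0, 0, 0, 0, 2, 1, 0, 1, -1, 1, 1, -3, -2, -4, -3, 0, 0, 0, 0, 0, -3],
  [0, 0, 0, 0, 0, 0, 1, 0, 0, 0, 0, 0, 0, 0, 0, 0, 0, 0, 0, 0, 0, 0, 0, 0, 0, 0, 0, 0],
  [0, 0, 0, 0, 0, 0, 0, 1, 0, 0, 0, 0, 0, 0, 0, 0, 0, 0, 0, 0, 0, 0, 0, 0, 0, 0, 0, 0],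
  [0, 1, 0, 0, 0, 0, 0, 0, 0, 0, 0, 0, 0, 0, 0, 0, 0, 0, 0, 0, 0, 0, 0, 0, 0, 0, 0, 0],
  [0, 0, 0, 0, 0, 0, 0, 0, 0, 0, 0, 0, 0, 0, 0, 0, 0, 0, 0, 0, 1, 0, 0, 0, 0, 0, 0, 0],
  [0, 0, 0, 0, 0, 0, 0, 0, 1, 0, 0, 0, 0, 0, 0, 0, 0, 0, 0, 0, 0, 0, 0, 0, 0, 0, 0, 0],
  [0, 0, 0, 0, 0, 0, 0, 0, 0, 0, 0, 0, 0, 0, 0, 0, 0, 0, 0, 0, 0, 0, 0, 0, 0, 0, 0, 1],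
  [1, 0, 0, 0, 0, 0, 0, 0, 0, 0, 0, 0, 0, 0, 0, 0, 0, 0, 0, 0, 0, 0, 0, 0, 0, 0, 0, 0],
  [0, 0, 0, 0, 0, 0, 0, 0, 0, 0, 0, 0, 0, 0, 0, 0, 0, 1, 0, 0, 0, 0, 0, 0, 0, 0, 0, 0],
  [0, 0, 0, 0, 0, 0, 0, 0, 0, 0, 0, 0, 0, 1, 0, 0, 0, 0, 0, 0, 0, 0, 0, 0, 0, 0, 0, 0],
  [0, 0, 0, 0, 0, 1, 1, 0, 0, 0, 0, 1, 0, 0, 0, 0, 0, 0, 0, 0, -1, 0, 0, 0, 0, 0, 0, 0],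
  [0, 0, 0, 0, 0, 0, 0, 0, 0, 0, 0, 0, 0, 0, 0, 0, 1, 1, 0, 0, 0, 0, 0, 0, 0, 0, 0, 0],
  [0, 0, -1, 0, 0, 0, 0, 0, 0, 0, 0, 0, 0, 0, 0, 0, 0, 0, 0, 0, 0, 0, 0, 0, 0, 0, 0, 0],
  [0, -1, 0, 0, 0, 0, 0, 0, -1, 0, 0, 0, 0, 1, 0, 1, 0, 0, 0, 0, 0, 1, 0, 0, 0, 0, 0, 1],
  [0, 0, 0, 0, 0, 0, 0, 0, 0, 0, 0, 0, 0, -1, 0, 0, 0, 0, 0, 0, 0, -1, 0, 0, 0, 0, 0, 0],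
  [0, 1, -1, 1, 1, 1, 0, 0, 0, 0, 0, 0, 0, 0, 0, 0, 0, 0, 0, 0, 0, 1, 0, 0, 0, 0, 0, 0],
  [0, -2, 2, -1, -1, 0, 1, -1, 1, -1, -1, 0, 1, 0, 0, 0, 0, 0, 0, 0, 0, -1, 0, 0, 0, 0, 0, 0],
  [0, -1, 1, 0, 0, 0, 0, 0, 0, 0, 1, 0, 0, 0, 0, -1, 1, 1, 0, -1, 0, -1, 0, 0, 1, 0, 0, 0],
  [0, 0, 2, 0, 0, 0, 0, 0, 0, 0, 1, -1, 0, 1, -1, -1, 0, 0, 0, -1, 1, 1, 0, 0, 0, 0, -1, 0],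
  [2, -3, 3, -1, -2, 1, 2, -1, 2, -1, 0, -1, 0, -1, -1, -1, 0, 0, 1, -2, 2, -1, 1, -1, 1, -1, -1, 0],
  [-1, 2, -3, 1, 2, -1, -1, 1, -2, 1, 0, 1, 1, 2, 1, 1, 0, -1, -1, 1, -1, 1, -1, 1, -1, 1, 1, 0]]

/-- an auxiliary product -/
def WL : List (List ℤ) := [
  [0, 0, 0, -3, 2, 1, 0, 0, 0, 2, -1, -1, 0, 0, 0, 0, 0, 0, -2, 0, 0, 0, 0, 1, 1, -3, 0, 0],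
  [0, 0, 0, -1, 0, 1, 0, 0, 0, -1, 2, -1, 0, 0, 2, 0, 0, 0, 0, 0, 0, 0, 0, -2, -2, 1, 1, 0],
  [0, 0, 0, 3, -2, -1, 0, 0, 0, -1, 0, 1, 0, 0, 0, 0, 0, 0, 2, 0, 0, 0, -3, 0, 0, 0, -1, 0],
  [0, 0, 0, -4, 2, 2, 0, 0, 0, 3, -1, -2, 0, 0, -1, 0, 0, 0, -3, 0, 0, 0, 1, 1, 1, -2, 2, 0],
  [0, 0, 0, 4, -1, -3, 0, 0, 0, -3, -1, 3, -1, 0, 0, 0, 0, 0, 3, -1, 0, 0, -1, -1, 0, 3, -3, 0],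
  [0, 0, 0, 2, -2, 0, 0, 0, 0, -2, 3, 0, 1, 0, 0, 0, 0, 0, 1, 1, 0, 0, 2, 0, -2, 1, 2, 0],
  [0, 0, 0, -5, 3, 2, 0, 0, 0, 5, -3, -2, 0, 0, 0, 0, 0, 0, -3, 0, 0, 0, -1, 1, 3, -3, -1, 0],
  [0, 0, 0, 6, -3, -3, 0, 0, 0, -5, 3, 3, 1, 0, 0, 0, 0, 0, 3, 1, 0, 0, 5, 0, -2, 4, -1, 0],
  [0, 0, 0, 0, 0, 0, 0, 1, 0, -1, 0, 0, 0, 0, 0, 0, 0, 0, 0, 0, 0, 0, 0, -1, 0, 1, 0, 0],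
  [0, 0, 0, 1, 0, -1, 1, 0, 0, 0, 0, 0, 0, 0, 0, 0, 0, 0, 0, 1, 0, 0, 1, 1, 1, 0, -1, 0],
  [0, 0, 0, 0, 0, 0, 0, 0, 0, -1, 0, 1, -1, 0, 0, 0, 0, 0, -1, 0, 1, 0, 0, 0, 0, 1, 0, 0],
  [0, 1, 0, 0, -1, 0, 0, 0, 0, -1, 1, 0, 1, 0, 0, 1, 0, 0, 0, 0, 0, 0, 0, 0, 1, 0, 0, 0],
  [0, 0, 0, 1, -1, 0, 0, 0, 0, 0, 0, 0, 0, 0, 0, -1, 0, 0, 0, 0, 0, 0, 0, 1, -1, -1, 1, 1],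
  [0, 0, 0, -1, 1, 0, 0, 0, 1, 0, 1, 0, 0, 0, 0, 1, 0, 0, -1, 0, 0, 0, 1, 0, 0, 0, 0, 0],
  [0, 0, 0, 0, 0, 0, 0, 0, 0, 0, 0, 0, 0, 0, 1, 0, -1, 1, 1, -1, 0, 0, -1, 0, -1, 0, 0, 0],
  [1, 0, 0, 0, 0, 0, 0, 0, 0, -1, 1, 0, 0, 0, 0, 0, 0, 0, -1, 1, 0, 0, 1, 0, 0, 1, 0, 0],
  [0, 0, 0, -1, 0, 1, 0, 0, 0, 0, 1, 0, 0, 0, 0, 0, 0, 0, 0, 0, 0, 0, -1, 0, -1, -1, 1, 0],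
  [0, 0, 0, 0, 1, 0, 0, 0, 0, 0, -1, 0, -1, 1, 1, 0, 0, 0, 1, 0, 0, -1, 0, -1, 0, 1, -2, 0],
  [0, 0, -1, 0, -1, 0, 0, 0, 0, -2, 1, 0, 0, 0, 0, 0, 0, 0, -1, 0, 0, 0, 0, 0, 0, 1, -1, 0],
  [0, 0, 0, 0, 0, 0, 0, 0, 0, 1, -1, 0, 0, 0, -1, 0, 1, 0, 0, 0, 0, 0, -1, 0, 0, -1, 0, 0],
  [0, 0, 0, -3, 2, 2, 0, 0, 0, 1, 1, -2, 0, 0, 1, 1, 0, 0, -1, 0, 0, -1, -1, -1, -1, -1, 0, 0],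
  [0, 0, 0, 1, 0, -1, 0, 0, 0, -1, 0, 1, 0, 0, -1, 1, 0, 0, 0, 0, 0, 0, 2, 1, 1, 1, -1, 0],
  [0, 0, 0, 0, 0, 0, 0, 0, 0, 0, -1, 0, 0, 0, 0, 0, 0, 0, 0, 0, 0, 0, -3, 0, 1, -1, -1, 0],
  [0, 0, 0, 0, 0, 1, 0, 0, 0, -1, 2, -1, 1, 0, 1, 0, 0, 0, 0, 1, 0, 0, 3, 0, -1, 1, 1, 0],
  [0, 0, 0, 2, -1, -1, 0, 0, 0, -2, 2, 1, 1, 0, 0, 0, 0, 0, 1, 1, 0, 0, 2, -1, -1, 2, -1, 0],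
  [0, 0, 0, 1, -1, 0, 0, 0, 0, -2, 2, 0, 0, 0, 1, 0, 0, 0, 1, 0, 0, 0, -1, -2, -1, 2, 1, 0],
  [0, 0, 0, 5, -3, -2, 0, 0, 0, -4, 3, 2, 1, 0, 1, 0, 0, 0, 4, 0, 0, 0, 0, -2, -3, 3, 0, 0],
  [0, 0, 0, -4, 2, 2, 0, 0, 0, 4, -2, -2, 0, 0, 0, 0, 0, 0, -2, -1, 0, 0, -2, 1, 1, -4, 1, 0]]

/-- the transposed inverse of the coordinate matrix -/
def QL : List (List ℤ) := [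
  [0, 0, 0, 0, 0, 0, 0, 0, 0, 0, 0, 0, 0, 0, 0, 0, 0, 0, 0, 0, 0, 0, -1, 0, 0, -1, 0, 0],
  [0, 0, 0, 1, -1, 0, 0, 0, 0, -2, 2, 0, 0, 0, 1, 0, 0, 0, 1, 0, 0, 0, 0, -2, -2, 2, 1, 0],
  [0, 0, 0, 3, -2, -1, 0, 0, 0, -2, 1, 1, 0, 0, 0, 0, 0, 0, 2, 0, 0, 0, -2, -1, -1, 1, 0, 0],
  [0, 0, 0, 3, -2, -1, 0, 0, 0, -3, 2, 1, 0, 0, 0, 0, 0, 0, 2, 0, 0, 0, 0, -2, -2, 3, 1, 0],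
  [0, 0, 0, 6, -3, -3, 0, 0, 0, -5, 2, 3, 0, 0, 0, 0, 0, 0, 4, 0, 0, 0, 1, -2, -2, 5, -1, 0],
  [0, 0, 0, 5, -3, -2, 0, 0, 0, -4, 3, 2, 1, 0, 0, 0, 0, 0, 3, 1, 0, 0, 3, -1, -2, 4, 0, 0],
  [0, 0, 0, 2, -1, -1, 0, 0, 0, -1, 1, 1, 1, 0, 0, 0, 0, 0, 1, 1, 0, 0, 3, 0, 0, 2, -1, 0],
  [0, 0, 0, 4, -2, -2, 0, 0, 0, -3, 2, 2, 1, 0, 0, 0, 0, 0, 2, 1, 0, 0, 4, 0, -1, 3, -1, 0],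
  [0, 0, 0, 1, 0, -1, 1, 0, 0, 0, 0, 0, 0, 0, 0, 0, 0, 0, 0, 1, 0, 0, 1, 1, 1, 0, -1, 0],
  [0, 0, 0, 0, 0, 0, 0, 1, 0, -1, 0, 0, 0, 0, 0, 0, 0, 0, 0, 0, 0, 0, 0, -1, 0, 1, 0, 0],
  [0, 1, 0, 0, -1, 0, 0, 0, 0, -1, 1, 0, 1, 0, 0, 1, 0, 0, 0, 0, 0, 0, 0, 0, 1, 0, 0, 0],
  [0, 0, 0, 0, 0, 0, 0, 0, 0, -1, 0, 1, -1, 0, 0, 0, 0, 0, -1, 0, 1, 0, 0, 0, 0, 1, 0, 0],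
  [0, 0, 0, -1, 1, 0, 0, 0, 1, 0, 1, 0, 0, 0, 0, 1, 0, 0, -1, 0, 0, 0, 1, 0, 0, 0, 0, 0],
  [0, 0, 0, 1, -1, 0, 0, 0, 0, 0, 0, 0, 0, 0, 0, -1, 0, 0, 0, 0, 0, 0, 0, 1, -1, -1, 1, 1],
  [1, 0, 0, 0, 0, 0, 0, 0, 0, -1, 1, 0, 0, 0, 0, 0, 0, 0, -1, 1, 0, 0, 1, 0, 0, 1, 0, 0],
  [0, 0, 0, 0, 0, 0, 0, 0, 0, 0, 0, 0, 0, 0, 1, 0, -1, 1, 1, -1, 0, 0, -1, 0, -1, 0, 0, 0],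
  [0, 0, 0, 0, 1, 0, 0, 0, 0, 0, -1, 0, -1, 1, 1, 0, 0, 0, 1, 0, 0, -1, 0, -1, 0, 1, -2, 0],
  [0, 0, 0, -1, 0, 1, 0, 0, 0, 0, 1, 0, 0, 0, 0, 0, 0, 0, 0, 0, 0, 0, -1, 0, -1, -1, 1, 0],
  [0, 0, 0, 0, 0, 0, 0, 0, 0, 1, -1, 0, 0, 0, -1, 0, 1, 0, 0, 0, 0, 0, -1, 0, 0, -1, 0, 0],
  [0, 0, -1, 0, -1, 0, 0, 0, 0, -2, 1, 0, 0, 0, 0, 0, 0, 0, -1, 0, 0, 0, 0, 0, 0, 1, -1, 0],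
  [0, 0, 0, 1, 0, -1, 0, 0, 0, -1, 0, 1, 0, 0, -1, 1, 0, 0, 0, 0, 0, 0, 2, 1, 1, 1, -1, 0],
  [0, 0, 0, -3, 2, 2, 0, 0, 0, 1, 1, -2, 0, 0, 1, 1, 0, 0, -1, 0, 0, -1, -1, -1, -1, -1, 0, 0],
  [0, 0, 0, 0, 0, 1, 0, 0, 0, -1, 2, -1, 1, 0, 1, 0, 0, 0, 0, 1, 0, 0, 3, 0, -1, 1, 1, 0],
  [0, 0, 0, 0, 0, 0, 0, 0, 0, 0, -1, 0, 0, 0, 0, 0, 0, 0, 0, 0, 0, 0, -3, 0, 1, -1, -1, 0],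
  [0, 0, 0, 1, -1, 0, 0, 0, 0, -2, 2, 0, 0, 0, 1, 0, 0, 0, 1, 0, 0, 0, -1, -2, -1, 2, 1, 0],
  [0, 0, 0, 2, -1, -1, 0, 0, 0, -2, 2, 1, 1, 0, 0, 0, 0, 0, 1, 1, 0, 0, 2, -1, -1, 2, -1, 0],
  [0, 0, 0, -4, 2, 2, 0, 0, 0, 4, -2, -2, 0, 0, 0, 0, 0, 0, -2, -1, 0, 0, -2, 1, 1, -4, 1, 0],
  [0, 0, 0, 5, -3, -2, 0, 0, 0, -4, 3, 2, 1, 0, 1, 0, 0, 0, 4, 0, 0, 0, 0, -2, -3, 3, 0, 0]]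

/-- the sign of the product `x_{a₁} ⋯ x_{a_n}`: the product of the signs of all pairs -/
def sgAll (a : ℕ) : List ℕ → ℤ → ℤ
  | [], k => k
  | b :: t, k => if a < b then sgAll a t k else if b < a then - sgAll a t k else 0

/-- the sign of a list -/
def eps : List ℕ → ℤ
  | [] => 1
  | a :: t => sgAll a t (eps t)

/-- the value of the pairing on two pairs -/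
def val (p q : ℕ × ℕ) : ℤ :=
  (omL.map fun t => t.1 * eps [p.1 % 8, p.2 % 8, q.1 % 8, q.2 % 8, t.2.1 % 8, t.2.2.1 % 8,
    t.2.2.2.1 % 8, t.2.2.2.2 % 8]).sum

/-- dot product -/
def dot : List ℤ → List ℤ → ℤ
  | a :: u, b :: v => a * b + dot u v
  | _, _ => 0

/-- the form `E₈ ⊕ 10 H` as a list -/
def ML : List (List ℤ) :=
  [[2, 0, -1, 0, 0, 0, 0, 0], [0, 2, 0, -1, 0, 0, 0, 0], [-1, 0, 2, -1, 0, 0, 0, 0],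
   [0, -1, -1, 2, -1, 0, 0, 0], [0, 0, 0, -1, 2, -1, 0, 0], [0, 0, 0, 0, -1, 2, -1, 0],
   [0, 0, 0, 0, 0, -1, 2, -1], [0, 0, 0, 0, 0, 0, -1, 2]].map (fun r => r ++ List.replicate 20 0) ++
  (List.range 20).map (fun i => (List.replicate (8 + 2 * (i / 2)) 0 ++
    (if i % 2 = 0 then [0, 1] else [1, 0]) ++ List.replicate (18 - 2 * (i / 2)) 0))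

theorem chkG : (prL.map fun p => prL.map fun q => val p q) = GrL := by decide +kernel

theorem chkW : (BL.map fun r => GrL.map (dot r)) = WL := by decide +kernel

theorem chkM : (BL.map fun r => WL.map (dot r)) = ML := by decide +kernel

theorem chkQ : (BL.map fun r => QL.map (dot r)) =
    (List.range 28).map (fun i => (List.range 28).map (fun j => if i = j then 1 else 0)) := by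
  decide +kernel

end Pool.Agent.Q230.E8Data
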