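import Pool.Agent.Q230.E8Data

/-! The pairing `⟨x y ω, [T]⟩` on `Λ² ℤ^8` for an explicit `ω`, in an explicit basis. -/

namespace Pool.Agent.Q230.E8Pair

open ExteriorAlgebra Pool.Agent.Q230.E8Data Finset

/-- `H¹(ℤ^8)` -/
abbrev H1 : Type := Fin 8 → ℤ

/-- the evaluation `H*(ℤ^8) → ℤ`, `z ↦ ⟨z, [T]⟩`, on the fundamental class: zero on the exterior
powers of degree `≠ 8`, and `v_1 ⋯ v_8 ↦ det (v_1, …, v_8)` in degree `8` -/
noncomputable def evalT : ExteriorAlgebra ℤ H1 →ₗ[ℤ] ℤ :=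
  ExteriorAlgebra.liftAlternating (Function.update 0 8 Matrix.detRowAlternating)

/-- the pairing `B_ω(x, y) = ⟨x ∪ y ∪ ω, [T]⟩` -/
noncomputable def pairing (ω : ⋀[ℤ]^4 H1) (x y : ⋀[ℤ]^2 H1) : ℤ :=
  evalT ((x : ExteriorAlgebra ℤ H1) * (y : ExteriorAlgebra ℤ H1) * (ω : ExteriorAlgebra ℤ H1))

/-- the sign of a pair -/
def sg (a b : ℕ) : ℤ := if a < b then 1 else if b < a then -1 else 0

/-- the sign of a tuple -/
def E {n : ℕ} (f : Fin n → ℕ) : ℤ := ∏ i, ∏ j ∈ Ioi i, sg (f i) (f j)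

theorem sgAll_eq (a : ℕ) (l : List ℕ) (k : ℤ) : sgAll a l k = (l.map (sg a)).prod * k := by
  induction l with
  | nil => simp [sgAll]
  | cons b t ih =>
    rw [sgAll, List.map_cons, List.prod_cons, ih]
    unfold sg
    split_ifs <;> ring

theorem eps_ofFn {n : ℕ} (f : Fin n → ℕ) : eps (List.ofFn f) = E f := by
  induction n with
  | zero => simp [eps, E]
  | succ n ih =>
    rw [List.ofFn_succ, eps, sgAll_eq, ih]
    conv_rhs => rw [E, Fin.prod_univ_succ]
    congr 1
    · rw [Fin.prod_Ioi_zero, List.map_ofFn, List.prod_ofFn]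
      rfl
    · unfold E
      refine prod_congr rfl fun i _ => ?_
      rw [Fin.prod_Ioi_succ]

theorem evalT_single (f : Fin 8 → Fin 8) :
    evalT (ιMulti ℤ 8 (fun r => (Pi.single (f r) 1 : H1))) = E (fun i => (f i : ℕ)) := by
  have h0 : evalT (ιMulti ℤ 8 (fun r => (Pi.single (f r) 1 : H1))) =
      (Matrix.detRowAlternating : (Fin 8 → ℤ) [⋀^Fin 8]→ₗ[ℤ] ℤ)
        (fun r => (Pi.single (f r) 1 : H1)) := by
    unfold evalT
    rw [liftAlternating_apply_ιMulti, Function.update_self]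
  rw [h0]
  by_cases hf : Function.Injective f
  · have hb : Function.Bijective f := Finite.injective_iff_bijective.1 hf
    set σ : Equiv.Perm (Fin 8) := Equiv.ofBijective f hb with hσ
    have h1 : (fun r => (Pi.single (f r) 1 : H1)) =
        (fun r => (Pi.single r 1 : H1)) ∘ σ := rfl
    rw [h1, AlternatingMap.map_perm]
    have h2 : (Matrix.detRowAlternating : (Fin 8 → ℤ) [⋀^Fin 8]→ₗ[ℤ] ℤ)
        (fun r => (Pi.single r 1 : H1)) = 1 := by
      have h3 : (fun r => (Pi.single r 1 : H1)) = (1 : Matrix (Fin 8) (Fin 8) ℤ) := by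
        funext i j
        rw [Matrix.one_apply, Pi.single_apply]
        exact if_congr eq_comm rfl rfl
      change Matrix.det (fun r => (Pi.single r 1 : H1)) = 1
      rw [h3]
      exact Matrix.det_one
    rw [h2, Equiv.Perm.sign_eq_prod_prod_Ioi]
    unfold E
    simp only [Units.smul_def, Units.coe_prod, smul_eq_mul, mul_one]
    refine prod_congr rfl fun i _ => prod_congr rfl fun j hj => ?_
    rw [mem_Ioi] at hj
    have hne : f i ≠ f j := fun e => (ne_of_lt hj) (hf e)
    have hσi : ∀ x, σ x = f x := fun x => rfl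
    rw [hσi, hσi]
    unfold sg
    rcases lt_or_gt_of_ne hne with h | h
    · simp [h]
    · have h' : ¬ f i < f j := not_lt.2 h.le
      have h3 : ¬ (f i : ℕ) < (f j : ℕ) := h'
      have h4 : (f j : ℕ) < (f i : ℕ) := h
      simp [h', h3, h4]
  · have hex : ∃ i j, i < j ∧ f i = f j := by
      unfold Function.Injective at hf
      push Not at hf
      obtain ⟨i, j, hij, hne⟩ := hf
      rcases lt_or_gt_of_ne hne with h | h
      · exact ⟨i, j, h, hij⟩
      · exact ⟨j, i, h, hij.symm⟩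
    obtain ⟨i, j, hlt, hij⟩ := hex
    rw [AlternatingMap.map_eq_zero_of_eq _ _ (by simp only [hij]) hlt.ne]
    unfold E
    symm
    refine prod_eq_zero (mem_univ i) (prod_eq_zero (mem_Ioi.2 hlt) ?_)
    simp only [hij]
    simp [sg]

/-- the standard basis vectors, indexed by natural numbers -/
def e (n : ℕ) : H1 := Pi.single (Fin.ofNat 8 n) 1

theorem evalT_prod (a b c d i j k l : ℕ) :
    evalT (ιMulti ℤ 2 ![e a, e b] * ιMulti ℤ 2 ![e c, e d] * ιMulti ℤ 4 ![e i, e j, e k, e l]) =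
      eps [a % 8, b % 8, c % 8, d % 8, i % 8, j % 8, k % 8, l % 8] := by
  have h1 : ιMulti ℤ 2 ![e a, e b] * ιMulti ℤ 2 ![e c, e d] * ιMulti ℤ 4 ![e i, e j, e k, e l] =
      ιMulti ℤ 8 (fun r => (Pi.single ((![Fin.ofNat 8 a, Fin.ofNat 8 b, Fin.ofNat 8 c,
        Fin.ofNat 8 d, Fin.ofNat 8 i, Fin.ofNat 8 j, Fin.ofNat 8 k, Fin.ofNat 8 l] :
          Fin 8 → Fin 8) r) 1 : H1)) := by
    simp only [ιMulti_apply, List.ofFn_succ, List.ofFn_zero, List.prod_cons, List.prod_nil,
      mul_assoc, mul_one]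
    rfl
  rw [h1, evalT_single, ← eps_ofFn]
  rfl

/-- the `k`-th pair -/
def pr (k : Fin 28) : ℕ × ℕ := prL.getD k (0, 0)

theorem pr_lt : ∀ k : Fin 28, (pr k).1 < (pr k).2 ∧ (pr k).2 < 8 := by decide

theorem pr_inj : ∀ k l : Fin 28, pr k = pr l → k = l := by decide

/-- the pair as an increasing map -/
def emb (k : Fin 28) : Fin 2 ↪o Fin 8 :=
  OrderEmbedding.ofStrictMono ![Fin.ofNat 8 (pr k).1, Fin.ofNat 8 (pr k).2] (by
    have h := pr_lt k
    have h1 : Fin.ofNat 8 (pr k).1 < Fin.ofNat 8 (pr k).2 := by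
      rw [Fin.lt_def, Fin.val_ofNat, Fin.val_ofNat, Nat.mod_eq_of_lt (by omega),
        Nat.mod_eq_of_lt h.2]
      exact h.1
    intro i j hij
    fin_cases i <;> fin_cases j <;> first | exact absurd hij (by decide) | exact h1)

/-- the pair as a two element set -/
noncomputable def phi (k : Fin 28) : Set.powersetCard (Fin 8) 2 :=
  Set.powersetCard.ofFinEmbEquiv (emb k)

theorem phi_inj : Function.Injective phi := by
  intro k l h
  have h1 : emb k = emb l := Set.powersetCard.ofFinEmbEquiv.injective h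
  have h2 : Fin.ofNat 8 (pr k).1 = Fin.ofNat 8 (pr l).1 := by
    have := congrArg (fun g : Fin 2 ↪o Fin 8 => g 0) h1
    exact this
  have h3 : Fin.ofNat 8 (pr k).2 = Fin.ofNat 8 (pr l).2 := by
    have := congrArg (fun g : Fin 2 ↪o Fin 8 => g 1) h1
    exact this
  have hk := pr_lt k
  have hl := pr_lt l
  rw [Fin.ext_iff, Fin.val_ofNat, Fin.val_ofNat, Nat.mod_eq_of_lt (by omega),
    Nat.mod_eq_of_lt (by omega)] at h2 h3
  exact pr_inj k l (Prod.ext h2 h3)

theorem phi_bij : Function.Bijective phi := by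
  refine (Fintype.bijective_iff_injective_and_card phi).2 ⟨phi_inj, ?_⟩
  rw [Fintype.card_fin, Fintype.card_eq_nat_card, Set.powersetCard.card]
  simp
  decide

/-- the standard basis of `H²` -/
noncomputable def cB : Module.Basis (Fin 28) ℤ (⋀[ℤ]^2 H1) :=
  ((Pi.basisFun ℤ (Fin 8)).exteriorPower 2).reindex (Equiv.ofBijective phi phi_bij).symm

theorem cB_apply (k : Fin 28) : ((cB k : ⋀[ℤ]^2 H1) : ExteriorAlgebra ℤ H1) =
    ιMulti ℤ 2 ![e (pr k).1, e (pr k).2] := by
  unfold cB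
  rw [Module.Basis.reindex_apply, Equiv.symm_symm, exteriorPower.basis_apply]
  change ιMulti ℤ 2 (fun i => Pi.basisFun ℤ (Fin 8)
    (Set.powersetCard.ofFinEmbEquiv.symm (phi k) i)) = _
  unfold phi
  rw [Equiv.symm_apply_apply]
  congr 1
  funext i
  fin_cases i
  · exact Pi.basisFun_apply ℤ (Fin 8) _
  · exact Pi.basisFun_apply ℤ (Fin 8) _

/-- the class `ω` -/
noncomputable def om : ⋀[ℤ]^4 H1 :=
  (omL.map fun t => t.1 • exteriorPower.ιMulti ℤ 4 ![e t.2.1, e t.2.2.1, e t.2.2.2.1,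
    e t.2.2.2.2]).sum

theorem pairing_cB (k l : Fin 28) : pairing om (cB k) (cB l) = val (pr k) (pr l) := by
  unfold pairing om Pool.Agent.Q230.E8Data.val
  rw [cB_apply, cB_apply]
  have h1 : ∀ L : List (ℤ × ℕ × ℕ × ℕ × ℕ),
      evalT (ιMulti ℤ 2 ![e (pr k).1, e (pr k).2] * ιMulti ℤ 2 ![e (pr l).1, e (pr l).2] *
        (((L.map fun t => t.1 • exteriorPower.ιMulti ℤ 4 ![e t.2.1, e t.2.2.1, e t.2.2.2.1,
          e t.2.2.2.2]).sum : ⋀[ℤ]^4 H1) : ExteriorAlgebra ℤ H1)) =
      (L.map fun t => t.1 * eps [(pr k).1 % 8, (pr k).2 % 8, (pr l).1 % 8, (pr l).2 % 8,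
        t.2.1 % 8, t.2.2.1 % 8, t.2.2.2.1 % 8, t.2.2.2.2 % 8]).sum := by
    intro L
    induction L with
    | nil => simp
    | cons t L ih =>
      rw [List.map_cons, List.sum_cons, List.map_cons, List.sum_cons, ← ih, Submodule.coe_add,
        mul_add, map_add, Submodule.coe_smul, mul_smul_comm, map_smul,
        exteriorPower.ιMulti_apply_coe, evalT_prod, smul_eq_mul]
  generalize omL = L
  exact h1 L

/-- entries of a list of lists -/
def ent (L : List (List ℤ)) (i k : ℕ) : ℤ := (L.getD i []).getD k 0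

theorem dot_eq (n : ℕ) : ∀ u v : List ℤ, u.length = n → v.length = n →
    dot u v = ∑ k ∈ range n, u.getD k 0 * v.getD k 0 := by
  induction n with
  | zero =>
    intro u v hu hv
    rw [List.length_eq_zero_iff.1 hu]
    simp [dot]
  | succ n ih =>
    intro u v hu hv
    match u, v, hu, hv with
    | a :: u, b :: v, hu, hv =>
      rw [dot, ih u v (by simpa using hu) (by simpa using hv), sum_range_succ']
      simp only [List.getD_cons_zero, List.getD_cons_succ]
      ring

theorem ent_mm {α β : Type} (f : α → β → ℤ) (A : List α) (B : List β) (i j : ℕ)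
    (hi : i < A.length) (hj : j < B.length) :
    ent (A.map fun r => B.map (f r)) i j = f A[i] B[j] := by
  simp [ent, hi, hj]

theorem ent_map {A B C : List (List ℤ)} (h : (A.map fun r => B.map (dot r)) = C)
    (hA : A.length = 28 ∧ ∀ r ∈ A, r.length = 28) (hB : B.length = 28 ∧ ∀ r ∈ B, r.length = 28)
    (i j : Fin 28) : ∑ k : Fin 28, ent A i k * ent B j k = ent C i j := by
  have hi : (i : ℕ) < A.length := by rw [hA.1]; exact i.2
  have hj : (j : ℕ) < B.length := by rw [hB.1]; exact j.2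
  rw [← h, ent_mm dot A B i j hi hj,
    dot_eq 28 _ _ (hA.2 _ (List.getElem_mem _)) (hB.2 _ (List.getElem_mem _)), Finset.sum_range]
  unfold ent
  rw [List.getD_eq_getElem _ _ hi, List.getD_eq_getElem _ _ hj]

theorem lenB : BL.length = 28 ∧ ∀ r ∈ BL, r.length = 28 := by decide
theorem lenG : GrL.length = 28 ∧ ∀ r ∈ GrL, r.length = 28 := by decide
theorem lenW : WL.length = 28 ∧ ∀ r ∈ WL, r.length = 28 := by decide
theorem lenQ : QL.length = 28 ∧ ∀ r ∈ QL, r.length = 28 := by decide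
theorem lenP : prL.length = 28 := by decide

theorem val_eq (k l : Fin 28) : val (pr k) (pr l) = ent GrL k l := by
  have hk : (k : ℕ) < prL.length := by rw [lenP]; exact k.2
  have hl : (l : ℕ) < prL.length := by rw [lenP]; exact l.2
  rw [← chkG, ent_mm _ prL prL k l hk hl]
  unfold pr
  rw [List.getD_eq_getElem _ _ hk, List.getD_eq_getElem _ _ hl]

/-- the coordinate matrix -/
def P : Matrix (Fin 28) (Fin 28) ℤ := fun i k => ent BL i k

/-- its inverse -/
def Q : Matrix (Fin 28) (Fin 28) ℤ := fun k j => ent QL j k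

theorem idL (i j : Fin 28) : ent ((List.range 28).map
    (fun i => (List.range 28).map (fun j => if i = j then 1 else 0))) i j =
    (1 : Matrix (Fin 28) (Fin 28) ℤ) i j := by
  rw [ent_mm (fun i j : ℕ => if i = j then (1 : ℤ) else 0) (List.range 28) (List.range 28) i j
    (by simp) (by simp), List.getElem_range, List.getElem_range, Matrix.one_apply]
  exact if_congr Fin.ext_iff.symm rfl rfl

theorem PQ : P * Q = 1 := by
  ext i j
  rw [Matrix.mul_apply, ← idL]
  exact ent_map chkQ lenB lenQ i j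

theorem QP : Q * P = 1 := mul_eq_one_comm.1 PQ

/-- the change of coordinates -/
noncomputable def T : (Fin 28 → ℤ) ≃ₗ[ℤ] (Fin 28 → ℤ) :=
  LinearEquiv.ofLinear (Matrix.vecMulLinear Q) (Matrix.vecMulLinear P)
    (LinearMap.ext fun y => by
      change Matrix.vecMul (Matrix.vecMul y P) Q = y
      rw [Matrix.vecMul_vecMul, PQ, Matrix.vecMul_one])
    (LinearMap.ext fun y => by
      change Matrix.vecMul (Matrix.vecMul y Q) P = y
      rw [Matrix.vecMul_vecMul, QP, Matrix.vecMul_one])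

/-- the new basis, numbered -/
noncomputable def nB : Module.Basis (Fin 28) ℤ (⋀[ℤ]^2 H1) :=
  Module.Basis.ofEquivFun (cB.equivFun.trans T)

theorem nB_apply (i : Fin 28) : nB i = ∑ k, P i k • cB k := by
  unfold nB
  rw [Module.Basis.coe_ofEquivFun]
  change cB.equivFun.symm (T.symm (Pi.single i 1)) = _
  have h1 : T.symm (Pi.single i 1) = P i := by
    change Matrix.vecMul (Pi.single i 1) P = _
    rw [Matrix.single_one_vecMul]
    rfl
  rw [h1, Module.Basis.equivFun_symm_apply]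

theorem pairing_sum {I : Type} [Fintype I] (a b : I → ℤ) (x y : I → ⋀[ℤ]^2 H1)
    (ω : ⋀[ℤ]^4 H1) :
    pairing ω (∑ k, a k • x k) (∑ l, b l • y l) = ∑ k, a k * ∑ l, b l * pairing ω (x k) (y l) := by
  unfold pairing
  simp only [Submodule.coe_sum, Submodule.coe_smul, Finset.sum_mul, Finset.mul_sum, map_sum,
    smul_mul_assoc, mul_smul_comm, map_smul, smul_eq_mul]
  rw [sum_comm]
  refine sum_congr rfl fun k _ => sum_congr rfl fun l _ => ?_
  ring

theorem pairing_nB (i j : Fin 28) : pairing om (nB i) (nB j) = ent ML i j := by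
  rw [nB_apply, nB_apply, pairing_sum]
  simp only [pairing_cB, val_eq]
  rw [← ent_map chkM lenB lenW i j]
  refine sum_congr rfl fun k _ => ?_
  rw [← ent_map chkW lenB lenG j k]
  rfl

/-- the numbering of the basis of `E₈ ⊕ 10 H` -/
def num : Fin 8 ⊕ Fin 10 × Fin 2 ≃ Fin 28 :=
  (Equiv.sumCongr (Equiv.refl (Fin 8)) finProdFinEquiv).trans finSumFinEquiv

/-- the basis, indexed as `E₈ ⊕ 10 H` -/
noncomputable def fB : Module.Basis (Fin 8 ⊕ Fin 10 × Fin 2) ℤ (⋀[ℤ]^2 H1) := nB.reindex num.symm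

theorem pairing_fB (i j : Fin 8 ⊕ Fin 10 × Fin 2) :
    pairing om (fB i) (fB j) = ent ML (num i) (num j) := by
  unfold fB
  rw [Module.Basis.reindex_apply, Module.Basis.reindex_apply, Equiv.symm_symm, pairing_nB]

end Pool.Agent.Q230.E8Pair
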