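import Mathlib

/-!
# Quadratic systems `x i ^ 2 = ∑ j, C i j * x j` with invertible `C`
For at least two unknowns there is a solution with two nonzero coordinates.
-/

set_option autoImplicit false

open MvPolynomial

namespace Pool.Agent.Q230.Evo

variable {κ : Type*} [Fintype κ] [DecidableEq κ]

/-- linear forms -/
noncomputable def lin (A : Matrix κ κ ℂ) (i : κ) : MvPolynomial κ ℂ := ∑ j, C (A i j) * X j

/-- the equations -/
noncomputable def eqn (A : Matrix κ κ ℂ) (i : κ) : MvPolynomial κ ℂ := X i ^ 2 - lin A i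

/-- products of linear forms -/
noncomputable def Lp (A : Matrix κ κ ℂ) (k : κ → ℕ) : MvPolynomial κ ℂ := ∏ i, lin A i ^ k i

/-- exponents -/
noncomputable def ex (k : κ → ℕ) : κ →₀ ℕ := Finsupp.equivFunOnFinite.symm (fun i => 2 * k i + 1)

/-- the box of exponents -/
def box (κ : Type*) [Fintype κ] [DecidableEq κ] (D : ℕ) : Finset (κ → ℕ) :=
  Fintype.piFinset (fun _ : κ => Finset.range (D + 1))

/-- the truncated residue at infinity -/
noncomputable def lam (A : Matrix κ κ ℂ) (D : ℕ) (g : MvPolynomial κ ℂ) : ℂ :=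
  ∑ k ∈ box κ D, coeff (ex k) (g * Lp A k)

lemma lin_deg (A : Matrix κ κ ℂ) (i : κ) : (lin A i).totalDegree ≤ 1 := by
  unfold lin
  refine (totalDegree_finsetSum _ _).trans (Finset.sup_le fun j _ => ?_)
  refine (totalDegree_mul _ _).trans ?_
  rw [totalDegree_C, totalDegree_X]

lemma Lp_deg (A : Matrix κ κ ℂ) (k : κ → ℕ) : (Lp A k).totalDegree ≤ ∑ i, k i := by
  unfold Lp
  refine (totalDegree_finset_prod _ _).trans (Finset.sum_le_sum fun i _ => ?_)
  refine (totalDegree_pow _ _).trans ?_
  calc k i * (lin A i).totalDegree ≤ k i * 1 := Nat.mul_le_mul_left _ (lin_deg A i)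
    _ = k i := mul_one _

lemma ex_apply (k : κ → ℕ) (i : κ) : ex k i = 2 * k i + 1 := rfl

lemma ex_sum (k : κ → ℕ) : ∑ i ∈ (ex k).support, ex k i = 2 * (∑ i, k i) + Fintype.card κ := by
  have h1 : (ex k).support = Finset.univ := by
    ext i
    simp [ex_apply]
  rw [h1]
  simp only [ex_apply]
  rw [Finset.sum_add_distrib, Finset.mul_sum]
  simp

lemma coeff_small (A : Matrix κ κ ℂ) (k : κ → ℕ) (g : MvPolynomial κ ℂ)
    (h : g.totalDegree < (∑ i, k i) + Fintype.card κ) : coeff (ex k) (g * Lp A k) = 0 := by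
  refine coeff_eq_zero_of_totalDegree_lt ?_
  rw [ex_sum]
  have h1 := totalDegree_mul g (Lp A k)
  have h2 := Lp_deg A k
  omega

lemma Lp_update (A : Matrix κ κ ℂ) (k : κ → ℕ) (j : κ) :
    Lp A (Function.update k j (k j + 1)) = lin A j * Lp A k := by
  unfold Lp
  rw [← Finset.mul_prod_erase _ _ (Finset.mem_univ j), ← Finset.mul_prod_erase _ (fun i => lin A i ^ k i)
    (Finset.mem_univ j)]
  rw [Function.update_self, pow_succ]
  have : ∏ x ∈ Finset.univ.erase j, lin A x ^ Function.update k j (k j + 1) x =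
      ∏ x ∈ Finset.univ.erase j, lin A x ^ k x := by
    refine Finset.prod_congr rfl fun x hx => ?_
    rw [Function.update_of_ne (Finset.ne_of_mem_erase hx)]
  rw [this]
  ring

lemma coeff_shift (A : Matrix κ κ ℂ) (k : κ → ℕ) (j : κ) (h : MvPolynomial κ ℂ) :
    coeff (ex (Function.update k j (k j + 1))) (X j ^ 2 * h * Lp A (Function.update k j (k j + 1))) =
      coeff (ex k) (lin A j * h * Lp A k) := by
  have h1 : (X j ^ 2 : MvPolynomial κ ℂ) = monomial (Finsupp.single j 2) 1 := by
    rw [X_pow_eq_monomial]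
  have hle : Finsupp.single j 2 ≤ ex (Function.update k j (k j + 1)) := by
    rw [Finsupp.single_le_iff, ex_apply, Function.update_self]
    omega
  rw [h1, mul_assoc, coeff_monomial_mul', if_pos hle, one_mul, Lp_update]
  have h2 : ex (Function.update k j (k j + 1)) - Finsupp.single j 2 = ex k := by
    ext i
    rw [Finsupp.tsub_apply, ex_apply, ex_apply]
    by_cases hi : i = j
    · subst hi
      rw [Function.update_self, Finsupp.single_eq_same]
      omega
    · rw [Function.update_of_ne hi, Finsupp.single_eq_of_ne (by simpa using hi)]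
      rfl
  rw [h2]
  congr 1
  ring

lemma coeff_zero_of_zero (A : Matrix κ κ ℂ) (k : κ → ℕ) (j : κ) (hk : k j = 0)
    (h : MvPolynomial κ ℂ) : coeff (ex k) (X j ^ 2 * h * Lp A k) = 0 := by
  have h1 : (X j ^ 2 : MvPolynomial κ ℂ) = monomial (Finsupp.single j 2) 1 := by
    rw [X_pow_eq_monomial]
  rw [h1, mul_assoc, coeff_monomial_mul', if_neg]
  rw [Finsupp.single_le_iff, ex_apply, hk]
  omega

lemma lam_shift (A : Matrix κ κ ℂ) {D : ℕ} (j : κ) (h : MvPolynomial κ ℂ)
    (hD : h.totalDegree + 2 ≤ D) : lam A D (X j ^ 2 * h) = lam A D (lin A j * h) := by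
  unfold lam
  have hcard : 1 ≤ Fintype.card κ := Fintype.card_pos_iff.2 ⟨j⟩
  have e1 : ∑ k ∈ box κ D, coeff (ex k) (X j ^ 2 * h * Lp A k) =
      ∑ k ∈ (box κ D).filter (fun k => 1 ≤ k j), coeff (ex k) (X j ^ 2 * h * Lp A k) := by
    symm
    refine Finset.sum_subset (Finset.filter_subset _ _) fun k hk hk' => ?_
    refine coeff_zero_of_zero A k j ?_ h
    rw [Finset.mem_filter] at hk'
    by_contra hcon
    exact hk' ⟨hk, by omega⟩
  have e2 : ∑ k ∈ box κ D, coeff (ex k) (lin A j * h * Lp A k) =
      ∑ k ∈ (box κ D).filter (fun k => k j < D), coeff (ex k) (lin A j * h * Lp A k) := by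
    symm
    refine Finset.sum_subset (Finset.filter_subset _ _) fun k hk hk' => ?_
    refine coeff_small A k _ ?_
    have hkj : D ≤ k j := by
      rw [Finset.mem_filter] at hk'
      by_contra hcon
      exact hk' ⟨hk, by omega⟩
    have h1 := totalDegree_mul (lin A j) h
    have h2 := lin_deg A j
    have h3 : k j ≤ ∑ i, k i := Finset.single_le_sum (fun _ _ => Nat.zero_le _) (Finset.mem_univ j)
    omega
  rw [e1, e2]
  refine Finset.sum_nbij' (fun k => Function.update k j (k j - 1))
    (fun k => Function.update k j (k j + 1)) ?_ ?_ ?_ ?_ ?_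
  · intro k hk
    simp only [box, Finset.mem_filter, Fintype.mem_piFinset, Finset.mem_range] at hk ⊢
    refine ⟨fun i => ?_, ?_⟩
    · by_cases hi : i = j
      · subst hi
        rw [Function.update_self]
        have := hk.1 i
        omega
      · rw [Function.update_of_ne hi]
        exact hk.1 i
    · rw [Function.update_self]
      have := hk.1 j
      omega
  · intro k hk
    simp only [box, Finset.mem_filter, Fintype.mem_piFinset, Finset.mem_range] at hk ⊢
    refine ⟨fun i => ?_, ?_⟩
    · by_cases hi : i = j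
      · subst hi
        rw [Function.update_self]
        have := hk.2
        omega
      · rw [Function.update_of_ne hi]
        exact hk.1 i
    · rw [Function.update_self]
      omega
  · intro k hk
    rw [Finset.mem_filter] at hk
    have : k j - 1 + 1 = k j := by omega
    simp [this]
  · intro k hk
    simp
  · intro k hk
    rw [Finset.mem_filter] at hk
    have h1 : k j - 1 + 1 = k j := by omega
    have h2 := coeff_shift A (Function.update k j (k j - 1)) j h
    rw [Function.update_self, h1, Function.update_idem, Function.update_eq_self] at h2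
    exact h2

lemma lam_add (A : Matrix κ κ ℂ) (D : ℕ) (g h : MvPolynomial κ ℂ) :
    lam A D (g + h) = lam A D g + lam A D h := by
  unfold lam
  rw [← Finset.sum_add_distrib]
  refine Finset.sum_congr rfl fun k _ => ?_
  rw [add_mul, coeff_add]

lemma lam_zero (A : Matrix κ κ ℂ) (D : ℕ) : lam A D 0 = 0 := by
  unfold lam
  simp

lemma lam_sum {ι : Type*} (A : Matrix κ κ ℂ) (D : ℕ) (s : Finset ι) (g : ι → MvPolynomial κ ℂ) :
    lam A D (∑ i ∈ s, g i) = ∑ i ∈ s, lam A D (g i) := by
  classical
  induction s using Finset.induction_on with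
  | empty => simp [lam_zero]
  | insert a s ha ih => rw [Finset.sum_insert ha, Finset.sum_insert ha, lam_add, ih]

lemma lam_eqn (A : Matrix κ κ ℂ) {D : ℕ} (j : κ) (h : MvPolynomial κ ℂ)
    (hD : h.totalDegree + 2 ≤ D) : lam A D (h * eqn A j) = 0 := by
  have h1 : X j ^ 2 * h = h * eqn A j + lin A j * h := by
    unfold eqn
    ring
  have h2 := lam_shift A j h hD
  rw [h1, lam_add] at h2
  linear_combination h2

lemma lam_prod (A : Matrix κ κ ℂ) (D : ℕ) : lam A D (∏ i, X i) = 1 := by
  unfold lam
  have hdeg : (∏ i, X i : MvPolynomial κ ℂ).totalDegree ≤ Fintype.card κ := by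
    refine (totalDegree_finset_prod _ _).trans ?_
    simp
  rw [Finset.sum_eq_single (0 : κ → ℕ)]
  · have h1 : Lp A (0 : κ → ℕ) = 1 := by
      unfold Lp
      simp
    rw [h1, mul_one]
    have h2 : (∏ i, X i : MvPolynomial κ ℂ) = monomial (ex (0 : κ → ℕ)) 1 := by
      rw [monomial_eq, C_1, one_mul, Finsupp.prod_fintype _ _ (fun i => pow_zero _)]
      refine Finset.prod_congr rfl fun i _ => ?_
      rw [ex_apply]
      simp
    rw [h2, coeff_monomial, if_pos rfl]
  · intro k _ hk
    refine coeff_small A k _ ?_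
    have : 0 < ∑ i, k i := by
      by_contra hcon
      have h0 : ∑ i, k i = 0 := by omega
      rw [Finset.sum_eq_zero_iff] at h0
      exact hk (funext fun i => h0 i (Finset.mem_univ i))
    omega
  · intro h
    exact absurd (by simp [box]) h

/-- the product of the unknowns is not in the ideal of the equations -/
theorem prod_not_mem (A : Matrix κ κ ℂ) :
    (∏ i, X i : MvPolynomial κ ℂ) ∉ Ideal.span (Set.range (eqn A)) := by
  intro hmem
  obtain ⟨c, hc⟩ := (Ideal.mem_span_range_iff_exists_fun).1 hmem
  set D : ℕ := (∑ i, (c i).totalDegree) + 2 with hD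
  have h1 := lam_prod A D
  rw [← hc, lam_sum] at h1
  have h2 : ∑ i, lam A D (c i * eqn A i) = 0 := by
    refine Finset.sum_eq_zero fun i _ => lam_eqn A i (c i) ?_
    have : (c i).totalDegree ≤ ∑ i, (c i).totalDegree :=
      Finset.single_le_sum (f := fun i => (c i).totalDegree) (fun _ _ => Nat.zero_le _)
        (Finset.mem_univ i)
    omega
  rw [h2] at h1
  exact zero_ne_one h1

/-- the ideal of a point -/
noncomputable def pt (p : κ → ℂ) : Ideal (MvPolynomial κ ℂ) :=
  Ideal.span (Set.range fun i => (X i - C (p i) : MvPolynomial κ ℂ))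

lemma mem_pt (p : κ → ℂ) (i : κ) : (X i - C (p i) : MvPolynomial κ ℂ) ∈ pt p :=
  Ideal.subset_span ⟨i, rfl⟩

lemma pt_le (p : κ → ℂ) : pt p ≤ vanishingIdeal ℂ {p} := by
  unfold pt
  rw [Ideal.span_le]
  rintro _ ⟨i, rfl⟩
  show _ ∈ vanishingIdeal ℂ {p}
  rw [mem_vanishingIdeal_singleton_iff]
  simp

/-- at a solution with at most one nonzero coordinate the ideal is idempotent modulo the
equations -/
lemma local_idem (A : Matrix κ κ ℂ) (hA : IsUnit A.det) (p : κ → ℂ)
    (hp : ∀ i, p i ^ 2 = ∑ j, A i j * p j) (h1 : ∀ i j, i ≠ j → p i ≠ 0 → p j = 0) :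
    Submodule.map (Submodule.mkQ (Ideal.span (Set.range (eqn A)))) (pt p) ≤
      (pt p) • Submodule.map (Submodule.mkQ (Ideal.span (Set.range (eqn A)))) (pt p) := by
  set I := Ideal.span (Set.range (eqn A)) with hI
  set M : Matrix κ κ ℂ := A * Matrix.diagonal (fun j => if p j ≠ 0 then (1 : ℂ) else -1) with hM
  have hMdet : IsUnit M.det := by
    rw [hM, Matrix.det_mul, Matrix.det_diagonal]
    refine hA.mul ?_
    rw [isUnit_iff_ne_zero, Finset.prod_ne_zero_iff]
    intro i _
    split_ifs <;> norm_num
  have hMapp : ∀ i j, M i j = (if i = j then 2 * p i else 0) - A i j := by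
    intro i j
    rw [hM, Matrix.mul_diagonal]
    by_cases hj : p j = 0
    · have hij : (if i = j then 2 * p i else 0) = 0 := by
        split_ifs with h
        · rw [h, hj, mul_zero]
        · rfl
      rw [hij]
      simp [hj]
    · have hsum : ∀ l, p l ^ 2 = A l j * p j := by
        intro l
        rw [hp l]
        refine Finset.sum_eq_single j (fun k _ hk => ?_) (fun h => absurd (Finset.mem_univ j) h)
        rw [h1 j k (Ne.symm hk) hj, mul_zero]
      rw [if_pos hj, mul_one]
      by_cases hij : i = j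
      · subst hij
        have h2 := hsum i
        have h3 : p i = A i i := by
          rw [sq] at h2
          exact mul_right_cancel₀ hj h2
        rw [if_pos rfl, ← h3]
        ring
      · have h2 := hsum i
        have h4 : p i = 0 := h1 j i (Ne.symm hij) hj
        rw [h4] at h2
        have h3 : A i j = 0 := by
          have : A i j * p j = 0 := by rw [← h2]; ring
          exact (mul_eq_zero.1 this).resolve_right hj
        rw [if_neg hij, h3]
        ring
  have hinv : M⁻¹ * M = 1 := Matrix.nonsing_inv_mul M hMdet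
  -- the linear relations
  have hrel : ∀ i, ∑ j, C (M i j) * (X j - C (p j)) = eqn A i - (X i - C (p i)) ^ 2 := by
    intro i
    have e1 : ∑ j, C (M i j) * (X j - C (p j)) =
        C (2 * p i) * (X i - C (p i)) - (lin A i - C (p i ^ 2)) := by
      have : ∀ j, C (M i j) * (X j - C (p j)) = (if i = j then C (2 * p i) * (X j - C (p j)) else 0)
          - (C (A i j) * X j - C (A i j * p j)) := by
        intro j
        rw [hMapp]
        split_ifs
        · rw [C_sub, C_mul]
          simp only [C_mul]
          ring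
        · rw [C_sub, C_mul, C_0]
          ring
      rw [Finset.sum_congr rfl fun j _ => this j, Finset.sum_sub_distrib, Finset.sum_sub_distrib,
        Finset.sum_ite_eq, if_pos (Finset.mem_univ i), ← map_sum, ← hp i]
      rfl
    rw [e1]
    unfold eqn
    simp only [C_mul, C_pow, map_ofNat]
    ring
  have hy : ∀ j, (X j - C (p j) : MvPolynomial κ ℂ) =
      ∑ i, C (M⁻¹ j i) * (eqn A i - (X i - C (p i)) ^ 2) := by
    intro j
    have e1 : ∑ i, C (M⁻¹ j i) * (eqn A i - (X i - C (p i)) ^ 2) =
        ∑ l, C ((M⁻¹ * M) j l) * (X l - C (p l)) := by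
      simp only [← hrel, Matrix.mul_apply, map_sum, Finset.mul_sum, Finset.sum_mul, C_mul]
      rw [Finset.sum_comm]
      refine Finset.sum_congr rfl fun l _ => Finset.sum_congr rfl fun i _ => ?_
      ring
    rw [e1, hinv]
    rw [Finset.sum_eq_single j]
    · simp
    · intro l _ hl
      rw [Matrix.one_apply_ne (Ne.symm hl)]
      simp
    · intro h
      exact absurd (Finset.mem_univ j) h
  have hmem : ∀ i, (X i - C (p i) : MvPolynomial κ ℂ) ∈ pt p := fun i =>
    Ideal.subset_span ⟨i, rfl⟩
  rw [Submodule.map_le_iff_le_comap]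
  unfold pt
  rw [Ideal.span_le]
  rintro _ ⟨j, rfl⟩
  show Submodule.mkQ I (X j - C (p j)) ∈ pt p • Submodule.map (Submodule.mkQ I) (pt p)
  have h2 : Submodule.mkQ I (X j - C (p j)) =
      ∑ i, (-C (M⁻¹ j i) : MvPolynomial κ ℂ) • (((X i - C (p i) : MvPolynomial κ ℂ)) •
        Submodule.mkQ I (X i - C (p i))) := by
    conv_lhs => rw [hy j]
    rw [map_sum]
    refine Finset.sum_congr rfl fun i _ => ?_
    have h3 : C (M⁻¹ j i) * (eqn A i - (X i - C (p i)) ^ 2) =
        (C (M⁻¹ j i) : MvPolynomial κ ℂ) • eqn A i + (-C (M⁻¹ j i) : MvPolynomial κ ℂ) •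
          ((X i - C (p i) : MvPolynomial κ ℂ) • (X i - C (p i) : MvPolynomial κ ℂ)) := by
      simp only [smul_eq_mul]
      ring
    rw [h3, map_add, map_smul, map_smul, map_smul]
    have h4 : Submodule.mkQ I (eqn A i) = 0 := by
      rw [Submodule.mkQ_apply, Submodule.Quotient.mk_eq_zero]
      exact Ideal.subset_span ⟨i, rfl⟩
    rw [h4, smul_zero, zero_add]
  rw [h2]
  refine Submodule.sum_mem _ fun i _ => Submodule.smul_mem _ _ ?_
  exact Submodule.smul_mem_smul (hmem i) (Submodule.mem_map_of_mem (hmem i))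

/-- **Key lemma.** -/
theorem two_nonzero (A : Matrix κ κ ℂ) (hA : IsUnit A.det) {a b : κ} (hab : a ≠ b) :
    ∃ x : κ → ℂ, (∀ i, x i ^ 2 = ∑ j, A i j * x j) ∧ ∃ i j, i ≠ j ∧ x i ≠ 0 ∧ x j ≠ 0 := by
  by_contra hcon
  push Not at hcon
  set I := Ideal.span (Set.range (eqn A)) with hI
  have hmain : (X a * X b : MvPolynomial κ ℂ) ∈ I := by
    by_contra hnot
    let J : Ideal (MvPolynomial κ ℂ) :=
      { carrier := {r | r * (X a * X b) ∈ I}
        add_mem' := fun {r s} hr hs => by
          show (r + s) * (X a * X b) ∈ I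
          rw [add_mul]
          exact I.add_mem hr hs
        zero_mem' := by
          show (0 : MvPolynomial κ ℂ) * _ ∈ I
          rw [zero_mul]
          exact I.zero_mem
        smul_mem' := fun c r hr => by
          show (c * r) * (X a * X b) ∈ I
          rw [mul_assoc]
          exact I.mul_mem_left _ hr }
    have hJ : J ≠ ⊤ := by
      rw [Ideal.ne_top_iff_one]
      intro h
      apply hnot
      have : (1 : MvPolynomial κ ℂ) * (X a * X b) ∈ I := h
      rwa [one_mul] at this
    obtain ⟨M, hM, hJM⟩ := Ideal.exists_le_maximal J hJ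
    obtain ⟨p, hp⟩ := (isMaximal_iff_eq_vanishingIdeal_singleton (K := ℂ)).1 hM
    have hIM : I ≤ M := le_trans (fun r hr => I.mul_mem_right _ hr) hJM
    have hsol : ∀ i, p i ^ 2 = ∑ j, A i j * p j := by
      intro i
      have h1 : eqn A i ∈ M := hIM (Ideal.subset_span ⟨i, rfl⟩)
      rw [hp, mem_vanishingIdeal_singleton_iff] at h1
      unfold eqn lin at h1
      simp only [map_sub, map_pow, aeval_X, map_sum, map_mul, aeval_C] at h1
      exact sub_eq_zero.1 h1
    have hone : ∀ i j, i ≠ j → p i ≠ 0 → p j = 0 := fun i j hij hi => hcon p hsol i j hij hi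
    have hfg : (Submodule.map (Submodule.mkQ I) (pt p)).FG :=
      Submodule.FG.map _ (IsNoetherian.noetherian (pt p))
    obtain ⟨r, hr1, hr2⟩ := Submodule.exists_sub_one_mem_and_smul_eq_zero_of_fg_of_le_smul
      (pt p) _ hfg (local_idem A hA p hsol hone)
    have hx : (X a * X b : MvPolynomial κ ℂ) ∈ pt p := by
      by_cases ha : p a = 0
      · have : (X a : MvPolynomial κ ℂ) ∈ pt p := by
          have := mem_pt p a
          rw [ha, C_0, sub_zero] at this
          exact this
        exact (pt p).mul_mem_right _ this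
      · have hb : p b = 0 := hone a b hab ha
        have : (X b : MvPolynomial κ ℂ) ∈ pt p := by
          have := mem_pt p b
          rw [hb, C_0, sub_zero] at this
          exact this
        exact (pt p).mul_mem_left _ this
    have hrJ : r ∈ J := by
      have h1 := hr2 _ (Submodule.mem_map_of_mem hx)
      rw [← map_smul, Submodule.mkQ_apply, Submodule.Quotient.mk_eq_zero, smul_eq_mul] at h1
      exact h1
    have h2 : r ∈ M := hJM hrJ
    have h3 : r - 1 ∈ M := by
      rw [hp]
      exact pt_le p hr1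
    have h4 : (1 : MvPolynomial κ ℂ) ∈ M := by
      have := M.sub_mem h2 h3
      simpa using this
    exact hM.ne_top ((Ideal.eq_top_iff_one M).2 h4)
  apply prod_not_mem A
  rw [← Finset.mul_prod_erase _ _ (Finset.mem_univ a),
    ← Finset.mul_prod_erase _ _ (Finset.mem_erase.2 ⟨Ne.symm hab, Finset.mem_univ b⟩), ← mul_assoc]
  exact I.mul_mem_right _ hmain

end Pool.Agent.Q230.Evo
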