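import Mathlib

/-!
# Evolution algebras: definitions

A complex algebra is a type `E` with the structures `NonUnitalNonAssocRing E`, `Module ℂ E` and the
compatibilities `IsScalarTower ℂ E E`, `SMulCommClass ℂ E E` (the product is bilinear).
-/

set_option autoImplicit false

namespace Pool.Agent.Q230.Evo

/-- A natural basis: the products of distinct basis vectors are zero. -/
def IsNatural {E ι : Type*} [NonUnitalNonAssocRing E] [Module ℂ E] (b : Module.Basis ι ℂ E) : Prop :=
  ∀ i j, i ≠ j → b i * b j = 0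

/-- `E` is an `n`-dimensional evolution algebra. -/
def IsEvolution (E : Type*) [NonUnitalNonAssocRing E] [Module ℂ E] (n : ℕ) : Prop :=
  ∃ b : Module.Basis (Fin n) ℂ E, IsNatural b

/-- Condition `P` for an `n`-dimensional algebra: every subalgebra has a natural basis which extends
to a natural basis of `E`. -/
def CondP (E : Type*) [NonUnitalNonAssocRing E] [Module ℂ E] (n : ℕ) : Prop :=
  ∀ B : Submodule ℂ E, (∀ x ∈ B, ∀ y ∈ B, x * y ∈ B) →
    ∃ b : Module.Basis (Fin n) ℂ E, IsNatural b ∧ ∃ I : Set (Fin n), B = Submodule.span ℂ (b '' I)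

/-- The powers `E^k`: `E^1 = E` and `E^k` is the sum of the `E^i E^(k-i)` with `1 ≤ i ≤ k - 1`
(the value at `0` is a convention). -/
def pw (E : Type*) [NonUnitalNonAssocRing E] [Module ℂ E] : ℕ → Submodule ℂ E
  | 0 => ⊤
  | 1 => ⊤
  | k + 2 => ⨆ i : Fin (k + 1),
      Submodule.span ℂ {z | ∃ x ∈ pw E (i.1 + 1), ∃ y ∈ pw E (k + 1 - i.1), z = x * y}

/-- `E` is nilpotent. -/
def Nilp (E : Type*) [NonUnitalNonAssocRing E] [Module ℂ E] : Prop := ∃ m, 1 ≤ m ∧ pw E m = ⊥

/-- The index of nilpotency: the least `m ≥ 1` with `E^m = 0`. -/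
noncomputable def index (E : Type*) [NonUnitalNonAssocRing E] [Module ℂ E] : ℕ :=
  sInf {m | 1 ≤ m ∧ pw E m = ⊥}

/-- The evolution algebra with the natural basis `e_1, ..., e_n` and `e_i e_i = ∑ k, A i k e_k`. -/
def Ev {n : ℕ} (_ : Matrix (Fin n) (Fin n) ℂ) : Type := Fin n → ℂ

instance {n : ℕ} (A : Matrix (Fin n) (Fin n) ℂ) : AddCommGroup (Ev A) :=
  inferInstanceAs (AddCommGroup (Fin n → ℂ))

instance {n : ℕ} (A : Matrix (Fin n) (Fin n) ℂ) : Module ℂ (Ev A) :=
  inferInstanceAs (Module ℂ (Fin n → ℂ))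

instance {n : ℕ} (A : Matrix (Fin n) (Fin n) ℂ) : NonUnitalNonAssocRing (Ev A) where
  mul x y := fun k => ∑ i, x i * y i * A i k
  left_distrib x y z := by
    funext k
    show ∑ i, x i * (y i + z i) * A i k = ∑ i, x i * y i * A i k + ∑ i, x i * z i * A i k
    rw [← Finset.sum_add_distrib]
    exact Finset.sum_congr rfl fun i _ => by ring
  right_distrib x y z := by
    funext k
    show ∑ i, (x i + y i) * z i * A i k = ∑ i, x i * z i * A i k + ∑ i, y i * z i * A i k
    rw [← Finset.sum_add_distrib]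
    exact Finset.sum_congr rfl fun i _ => by ring
  zero_mul x := by
    funext k
    show ∑ i, (0 : ℂ) * x i * A i k = 0
    simp
  mul_zero x := by
    funext k
    show ∑ i, x i * (0 : ℂ) * A i k = 0
    simp

instance {n : ℕ} (A : Matrix (Fin n) (Fin n) ℂ) : IsScalarTower ℂ (Ev A) (Ev A) where
  smul_assoc c x y := by
    funext k
    show ∑ i, c * x i * y i * A i k = c * ∑ i, x i * y i * A i k
    rw [Finset.mul_sum]
    exact Finset.sum_congr rfl fun i _ => by ring

instance {n : ℕ} (A : Matrix (Fin n) (Fin n) ℂ) : SMulCommClass ℂ (Ev A) (Ev A) where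
  smul_comm c x y := by
    funext k
    show c * ∑ i, x i * y i * A i k = ∑ i, x i * (c * y i) * A i k
    rw [Finset.mul_sum]
    exact Finset.sum_congr rfl fun i _ => by ring

/-- The `m`-dimensional algebra with zero product. -/
abbrev ZeroAlg (m : ℕ) : Type := Ev (0 : Matrix (Fin m) (Fin m) ℂ)

/-- The class `ZN^s`: the `s`-dimensional nilpotent evolution algebras whose index of nilpotency is
the largest possible among the `s`-dimensional nilpotent evolution algebras. -/
def ZN (s : ℕ) (F : Type*) [NonUnitalNonAssocRing F] [Module ℂ F] : Prop :=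
  IsEvolution F s ∧ Nilp F ∧
    ∀ A : Matrix (Fin s) (Fin s) ℂ, Nilp (Ev A) → index (Ev A) ≤ index F

/-- Isomorphism of complex algebras. -/
def Iso (E F : Type*) [NonUnitalNonAssocRing E] [Module ℂ E] [NonUnitalNonAssocRing F] [Module ℂ F] :
    Prop :=
  ∃ f : E ≃ₗ[ℂ] F, ∀ x y, f (x * y) = f x * f y

end Pool.Agent.Q230.Evo
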