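import Mathlib
import Pool.Agent.Q230.Evo1
import Pool.Agent.Q230.EvoDefs

/-!
# Condition `P`: coordinate subspaces and chains
-/

set_option autoImplicit false

namespace Pool.Agent.Q230.Evo

variable {E : Type*} [NonUnitalNonAssocRing E] [Module ℂ E] [IsScalarTower ℂ E E]
  [SMulCommClass ℂ E E] {n : ℕ} {b : Module.Basis (Fin n) ℂ E}

lemma mul_eq (hb : IsNatural b) (x y : E) :
    x * y = ∑ i, (b.repr x i * b.repr y i) • (b i * b i) := by
  conv_lhs => rw [← b.sum_repr x, ← b.sum_repr y]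
  rw [Finset.sum_mul]
  refine Finset.sum_congr rfl fun i _ => ?_
  rw [Finset.mul_sum, Finset.sum_eq_single i]
  · rw [smul_mul_smul_comm]
  · intro j _ hj
    rw [smul_mul_smul_comm, hb i j (Ne.symm hj), smul_zero]
  · intro h
    exact absurd (Finset.mem_univ i) h

lemma mul_repr (hb : IsNatural b) (x y : E) (k : Fin n) :
    b.repr (x * y) k = ∑ i, b.repr x i * b.repr y i * b.repr (b i * b i) k := by
  rw [mul_eq hb, map_sum, Finsupp.finset_sum_apply]
  refine Finset.sum_congr rfl fun i _ => ?_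
  rw [map_smul, Finsupp.smul_apply, smul_eq_mul]

lemma comm (hb : IsNatural b) (x y : E) : x * y = y * x := by
  rw [mul_eq hb, mul_eq hb]
  exact Finset.sum_congr rfl fun i _ => by rw [mul_comm (b.repr x i)]

lemma exists_sqrt (d : Fin n → ℂ) : ∃ r : Fin n → ℂ, ∀ i, r i * r i = d i := by
  choose r hr using fun i => IsAlgClosed.exists_pow_nat_eq (d i) (n := 2) (by norm_num)
  exact ⟨r, fun i => by rw [← sq, hr]⟩

lemma equivFun_repr (r : Fin n → ℂ) (i : Fin n) : b.repr (b.equivFun.symm r) i = r i := by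
  rw [← Module.Basis.equivFun_apply, LinearEquiv.apply_symm_apply]

lemma mul_basis (hb : IsNatural b) (x : E) (i : Fin n) :
    x * b i = b.repr x i • (b i * b i) := by
  rw [mul_eq hb, Finset.sum_eq_single i]
  · simp
  · intro j _ hj
    rw [b.repr_self, Finsupp.single_eq_of_ne hj, mul_zero, zero_smul]
  · intro h
    exact absurd (Finset.mem_univ i) h

/-- independence of the squares -/
lemma si (hP : CondP E n) (hb : IsNatural b) (d : Fin n → ℂ)
    (h : ∑ i, d i • (b i * b i) = 0) (i : Fin n) (hi : d i ≠ 0) : b i * b i = 0 := by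
  obtain ⟨r, hr⟩ := exists_sqrt d
  set x : E := b.equivFun.symm r with hx
  have hxx : x * x = 0 := by
    rw [mul_eq hb, ← h]
    refine Finset.sum_congr rfl fun j _ => ?_
    rw [hx, equivFun_repr, hr]
  have hri : r i ≠ 0 := by
    intro h0
    apply hi
    rw [← hr, h0, zero_mul]
  have hx0 : x ≠ 0 := by
    intro h0
    apply hri
    rw [← equivFun_repr (b := b) r i, ← hx, h0]
    simp
  obtain ⟨b', hb', I, hI⟩ := hP (Submodule.span ℂ {x}) (by
    intro y hy z hz
    obtain ⟨s, rfl⟩ := Submodule.mem_span_singleton.1 hy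
    obtain ⟨t, rfl⟩ := Submodule.mem_span_singleton.1 hz
    rw [smul_mul_smul_comm, hxx, smul_zero]
    exact Submodule.zero_mem _)
  have hIne : I.Nonempty := by
    by_contra hcon
    rw [Set.not_nonempty_iff_eq_empty] at hcon
    rw [hcon, Set.image_empty, Submodule.span_empty] at hI
    exact hx0 (Submodule.span_singleton_eq_bot.1 hI)
  obtain ⟨k, hk⟩ := hIne
  have hbk : b' k ∈ Submodule.span ℂ {x} := by
    rw [hI]
    exact Submodule.subset_span ⟨k, hk, rfl⟩
  obtain ⟨t, ht⟩ := Submodule.mem_span_singleton.1 hbk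
  have ht0 : t ≠ 0 := by
    intro h0
    rw [h0, zero_smul] at ht
    exact b'.ne_zero k ht.symm
  have hann : ∀ y, b' k * y = 0 := by
    intro y
    rw [comm hb, mul_basis hb' y k, ← ht, smul_mul_smul_comm, hxx, smul_zero, smul_zero]
  have h2 := hann (b i)
  rw [← ht, smul_mul_assoc, smul_eq_zero] at h2
  have h3 := h2.resolve_left ht0
  rw [mul_basis hb, smul_eq_zero] at h3
  refine h3.resolve_left ?_
  rw [hx, equivFun_repr]
  exact hri

/-- subalgebras containing the annihilator are coordinate subspaces -/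
lemma cs (hP : CondP E n) (hb : IsNatural b) (B : Submodule ℂ E)
    (hB : ∀ x ∈ B, ∀ y ∈ B, x * y ∈ B) (hann : ∀ i, b i * b i = 0 → b i ∈ B) {x : E} (hx : x ∈ B)
    {i : Fin n} (hi : b.repr x i ≠ 0) : b i ∈ B := by
  by_cases hsq : b i * b i = 0
  · exact hann i hsq
  obtain ⟨b', hb', I, hI⟩ := hP B hB
  have hk : ∃ k ∈ I, b.repr (b' k) i ≠ 0 := by
    by_contra hcon
    push Not at hcon
    apply hi
    have h1 : B ≤ LinearMap.ker (b.coord i) := by
      rw [hI, Submodule.span_le]
      rintro _ ⟨k, hk, rfl⟩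
      exact hcon k hk
    exact h1 hx
  obtain ⟨k, hkI, hk⟩ := hk
  have hl : ∀ l, l ≠ k → b i * b' l = 0 := by
    intro l hlk
    have h1 := hb' k l (Ne.symm hlk)
    rw [mul_eq hb] at h1
    have h2 : b.repr (b' k) i * b.repr (b' l) i = 0 := by
      by_contra hne
      exact hsq (si hP hb _ h1 i hne)
    have h3 : b.repr (b' l) i = 0 := (mul_eq_zero.1 h2).resolve_left hk
    rw [comm hb, mul_basis hb, h3, zero_smul]
  have hmem : ∀ l, b'.repr (b i) l • b' l ∈ B := by
    intro l
    by_cases hlk : l = k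
    · subst hlk
      refine B.smul_mem _ ?_
      rw [hI]
      exact Submodule.subset_span ⟨l, hkI, rfl⟩
    · have h1 := hl l hlk
      rw [mul_basis hb', smul_eq_zero] at h1
      rcases h1 with h1 | h1
      · rw [h1, zero_smul]
        exact B.zero_mem
      · refine B.smul_mem _ ?_
        have h2 : ∀ i', b.repr (b' l) i' • (b i' * b i') = 0 := by
          intro i'
          rw [← mul_basis hb, comm hb, mul_basis hb', h1, smul_zero]
        rw [← b.sum_repr (b' l)]
        refine B.sum_mem fun i' _ => ?_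
        rcases smul_eq_zero.1 (h2 i') with h3 | h3
        · rw [h3, zero_smul]
          exact B.zero_mem
        · exact B.smul_mem _ (hann i' h3)
  rw [← b'.sum_repr (b i)]
  exact B.sum_mem fun l _ => hmem l

/-- the key property -/
lemma key (hP : CondP E n) (hb : IsNatural b) (Z : Set (Fin n))
    (hZ : ∀ i ∈ Z, ∀ j, j ∉ Z → b.repr (b i * b i) j = 0) (hZ1 : ∀ i, b i * b i = 0 → i ∈ Z)
    (x : E) (t : ℂ) (hx : ∀ j, j ∉ Z → b.repr (x * x) j = t * b.repr x j) {i j : Fin n}
    (hi : i ∉ Z) (hj : j ∉ Z) (hij : i ≠ j) (hxi : b.repr x i ≠ 0) : b.repr x j = 0 := by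
  let B : Submodule ℂ E :=
    { carrier := {y | ∃ s : ℂ, ∀ j, j ∉ Z → b.repr y j = s * b.repr x j}
      add_mem' := by
        rintro y z ⟨s, hs⟩ ⟨r, hr⟩
        refine ⟨s + r, fun j hj => ?_⟩
        rw [map_add, Finsupp.add_apply, hs j hj, hr j hj]
        ring
      zero_mem' := ⟨0, fun j _ => by simp⟩
      smul_mem' := by
        rintro c y ⟨s, hs⟩
        refine ⟨c * s, fun j hj => ?_⟩
        rw [map_smul, Finsupp.smul_apply, hs j hj, smul_eq_mul]
        ring }
  have hmul : ∀ y ∈ B, ∀ z ∈ B, y * z ∈ B := by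
    rintro y ⟨s, hs⟩ z ⟨r, hr⟩
    refine ⟨s * r * t, fun j hj => ?_⟩
    have h1 : b.repr (y * z) j = s * r * b.repr (x * x) j := by
      rw [mul_repr hb, mul_repr hb, Finset.mul_sum]
      refine Finset.sum_congr rfl fun l _ => ?_
      by_cases hl : l ∈ Z
      · rw [hZ l hl j hj]
        ring
      · rw [hs l hl, hr l hl]
        ring
    rw [h1, hx j hj]
    ring
  have hann : ∀ l, b l * b l = 0 → b l ∈ B := by
    intro l hl
    refine ⟨0, fun j hj => ?_⟩
    rw [b.repr_self, Finsupp.single_eq_of_ne (fun h : j = l => hj (by rw [h]; exact hZ1 l hl)), zero_mul]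
  have hxB : x ∈ B := ⟨1, fun j _ => by ring⟩
  obtain ⟨s, hs⟩ := cs hP hb B hmul hann hxB hxi
  have h1 := hs i hi
  have h2 := hs j hj
  rw [b.repr_self, Finsupp.single_eq_same] at h1
  rw [b.repr_self, Finsupp.single_eq_of_ne (Ne.symm hij)] at h2
  have hs0 : s ≠ 0 := by
    intro h0
    rw [h0, zero_mul] at h1
    exact one_ne_zero h1
  exact (mul_eq_zero.1 h2.symm).resolve_left hs0

/-! ### chains -/

/-- the sets of the chain -/
def ZS (b : Module.Basis (Fin n) ℂ E) (j : ℕ → Fin n) (s : ℕ) : Set (Fin n) :=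
  {i | b i * b i = 0 ∨ ∃ s' < s, j s' = i}

/-- chains -/
def IsChain (b : Module.Basis (Fin n) ℂ E) (t : ℕ) (j : ℕ → Fin n) : Prop :=
  ∀ s < t, j s ∉ ZS b j s ∧ ∀ l, l ∉ ZS b j s → b.repr (b (j s) * b (j s)) l = 0

lemma ZS_mono {j : ℕ → Fin n} {s s' : ℕ} (h : s ≤ s') : ZS b j s ⊆ ZS b j s' := by
  rintro i (hi | ⟨r, hr, rfl⟩)
  · exact Or.inl hi
  · exact Or.inr ⟨r, by omega, rfl⟩

lemma mem_ZS_succ {j : ℕ → Fin n} {s : ℕ} {i : Fin n} :
    i ∈ ZS b j (s + 1) ↔ i ∈ ZS b j s ∨ i = j s := by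
  constructor
  · rintro (hi | ⟨r, hr, rfl⟩)
    · exact Or.inl (Or.inl hi)
    · rcases Nat.lt_or_ge r s with h | h
      · exact Or.inl (Or.inr ⟨r, h, rfl⟩)
      · have : r = s := by omega
        exact Or.inr (by rw [this])
  · rintro (hi | rfl)
    · exact ZS_mono (Nat.le_succ s) hi
    · exact Or.inr ⟨s, Nat.lt_succ_self s, rfl⟩

lemma IsChain.inj {t : ℕ} {j : ℕ → Fin n} (h : IsChain b t j) {s s' : ℕ} (hs : s < s')
    (hs' : s' < t) : j s ≠ j s' := by
  intro heq
  exact (h s' hs').1 (Or.inr ⟨s, hs, heq⟩)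

lemma IsChain.le {t : ℕ} {j : ℕ → Fin n} (h : IsChain b t j) : t ≤ n := by
  have hinj : Function.Injective (fun s : Fin t => j s.1) := by
    intro s s' heq
    rcases lt_trichotomy s.1 s'.1 with h1 | h1 | h1
    · exact absurd heq (h.inj h1 s'.2)
    · exact Fin.ext h1
    · exact absurd heq.symm (h.inj h1 s.2)
  simpa using Fintype.card_le_of_injective _ hinj

lemma IsChain.closed {t : ℕ} {j : ℕ → Fin n} (h : IsChain b t j) {s : ℕ} (hs : s ≤ t) :
    ∀ i ∈ ZS b j s, ∀ l, l ∉ ZS b j s → b.repr (b i * b i) l = 0 := by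
  rintro i (hi | ⟨r, hr, rfl⟩) l hl
  · rw [hi]
    simp
  · exact (h r (by omega)).2 l (fun h' => hl (ZS_mono hr.le h'))

lemma exists_maxChain (hn : 0 < n) (b : Module.Basis (Fin n) ℂ E) :
    ∃ (t : ℕ) (j : ℕ → Fin n), IsChain b t j ∧
      ∀ i, i ∉ ZS b j t → ∃ l, l ∉ ZS b j t ∧ b.repr (b i * b i) l ≠ 0 := by
  classical
  by_contra hcon
  push Not at hcon
  have : ∀ t, ∃ j, IsChain b t j := by
    intro t
    induction t with
    | zero => exact ⟨fun _ => ⟨0, hn⟩, fun s hs => absurd hs (Nat.not_lt_zero s)⟩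
    | succ t ih =>
      obtain ⟨j, hj⟩ := ih
      obtain ⟨i, hi, hi2⟩ := hcon t j hj
      have hZ : ∀ s ≤ t, ZS b (Function.update j t i) s = ZS b j s := by
        intro s hs
        ext l
        constructor
        · rintro (h | ⟨r, hr, hrl⟩)
          · exact Or.inl h
          · rw [Function.update_of_ne (by omega)] at hrl
            exact Or.inr ⟨r, hr, hrl⟩
        · rintro (h | ⟨r, hr, hrl⟩)
          · exact Or.inl h
          · exact Or.inr ⟨r, hr, by rw [Function.update_of_ne (by omega)]; exact hrl⟩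
      refine ⟨Function.update j t i, fun s hs => ?_⟩
      rcases Nat.lt_or_ge s t with h | h
      · rw [hZ s h.le, Function.update_of_ne (by omega)]
        exact hj s h
      · have hst : s = t := by omega
        subst hst
        rw [hZ s le_rfl, Function.update_self]
        exact ⟨hi, hi2⟩
  obtain ⟨j, hj⟩ := this (n + 1)
  have := hj.le
  omega

end Pool.Agent.Q230.Evo
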