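import Mathlib
import Pool.Agent.Q230.EvoDefs

/-!
# Nilpotent evolution algebras of the largest index
-/

set_option autoImplicit false

namespace Pool.Agent.Q230.Evo

section General

variable {E : Type*} [NonUnitalNonAssocRing E] [Module ℂ E]

lemma pw_one : pw E 1 = ⊤ := by rw [pw]

lemma pw_succ (k : ℕ) : pw E (k + 2) = ⨆ i : Fin (k + 1),
      Submodule.span ℂ {z | ∃ x ∈ pw E (i.1 + 1), ∃ y ∈ pw E (k + 1 - i.1), z = x * y} := by
  rw [pw]

lemma mul_mem_pw {a b : ℕ} (ha : 1 ≤ a) (hb : 1 ≤ b) {x y : E} (hx : x ∈ pw E a) (hy : y ∈ pw E b) :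
    x * y ∈ pw E (a + b) := by
  obtain ⟨a, rfl⟩ := Nat.exists_eq_add_of_le' ha
  obtain ⟨b, rfl⟩ := Nat.exists_eq_add_of_le' hb
  have h1 : a + 1 + (b + 1) = (a + b) + 2 := by ring
  rw [h1, pw_succ]
  refine Submodule.mem_iSup_of_mem ⟨a, by omega⟩ (Submodule.subset_span ⟨x, hx, y, ?_, rfl⟩)
  have h2 : a + b + 1 - a = b + 1 := by omega
  show y ∈ pw E (a + b + 1 - a)
  rw [h2]
  exact hy

lemma pw_le {k : ℕ} {N : Submodule ℂ E} (h : ∀ a b, 1 ≤ a → 1 ≤ b → a + b = k + 2 →
    ∀ x ∈ pw E a, ∀ y ∈ pw E b, x * y ∈ N) : pw E (k + 2) ≤ N := by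
  rw [pw_succ]
  refine iSup_le fun i => Submodule.span_le.2 ?_
  rintro _ ⟨x, hx, y, hy, rfl⟩
  exact h (i.1 + 1) (k + 1 - i.1) (by omega) (by omega) (by omega) x hx y hy

lemma pw_anti (k : ℕ) : pw E (k + 2) ≤ pw E (k + 1) := by
  induction k using Nat.strong_induction_on with
  | _ k ih =>
    rcases k with _ | k
    · rw [show 0 + 1 = 1 from rfl, pw_one]
      exact le_top
    · refine pw_le fun a b ha hb hab x hx y hy => ?_
      rcases Nat.lt_or_ge 1 a with h | h
      · obtain ⟨c, rfl⟩ := Nat.exists_eq_add_of_le' (show 2 ≤ a by omega)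
        have := mul_mem_pw (by omega) hb (ih c (by omega) hx) hy
        have e : c + 1 + b = k + 1 + 1 := by omega
        rwa [e] at this
      · obtain ⟨c, rfl⟩ := Nat.exists_eq_add_of_le' (show 2 ≤ b by omega)
        have := mul_mem_pw ha (by omega) hx (ih c (by omega) hy)
        have e : a + (c + 1) = k + 1 + 1 := by omega
        rwa [e] at this

lemma pw_anti' {a b : ℕ} (ha : 1 ≤ a) (hab : a ≤ b) : pw E b ≤ pw E a := by
  induction b, hab using Nat.le_induction with
  | base => exact le_rfl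
  | succ b hab ih =>
    refine le_trans ?_ ih
    obtain ⟨c, rfl⟩ := Nat.exists_eq_add_of_le' (show 1 ≤ b by omega)
    exact pw_anti c

/-- doubling -/
lemma pw_chain (W : ℕ → Submodule ℂ E) (h0 : W 0 = ⊤)
    (hW : ∀ k, ∀ x ∈ W k, ∀ y, x * y ∈ W (k + 1) ∧ y * x ∈ W (k + 1)) (k : ℕ) :
    ∀ i, 2 ^ k + 1 ≤ i → pw E i ≤ W (k + 1) := by
  induction k with
  | zero =>
    intro i hi
    obtain ⟨j, rfl⟩ := Nat.exists_eq_add_of_le' (show 2 ≤ i by simpa using hi)
    refine pw_le fun a b ha hb hab x hx y hy => ?_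
    exact (hW 0 x (by rw [h0]; trivial) y).1
  | succ k ih =>
    intro i hi
    have h2 : 2 ^ (k + 1) = 2 * 2 ^ k := by ring
    have h3 : 1 ≤ 2 ^ k := Nat.one_le_two_pow
    obtain ⟨j, rfl⟩ := Nat.exists_eq_add_of_le' (show 2 ≤ i by omega)
    refine pw_le fun a b ha hb hab x hx y hy => ?_
    rcases Nat.lt_or_ge a (2 ^ k + 1) with h | h
    · exact (hW (k + 1) y (ih b (by omega) hy) x).2
    · exact (hW (k + 1) x (ih a h hx) y).1

lemma index_le {m : ℕ} (hm : 1 ≤ m) (h : pw E m = ⊥) : index E ≤ m :=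
  Nat.sInf_le (⟨hm, h⟩ : m ∈ {m | 1 ≤ m ∧ pw E m = ⊥})

lemma index_spec (h : Nilp E) : 1 ≤ index E ∧ pw E (index E) = ⊥ := Nat.sInf_mem h

lemma le_index {m : ℕ} (h : Nilp E) (hm : 1 ≤ m) (hne : pw E m ≠ ⊥) : m + 1 ≤ index E := by
  by_contra hcon
  have h1 := index_spec h
  apply hne
  rw [eq_bot_iff, ← h1.2]
  exact pw_anti' h1.1 (by omega)

variable [IsScalarTower ℂ E E] [SMulCommClass ℂ E E]

/-- the upper annihilating series -/
def an (E : Type*) [NonUnitalNonAssocRing E] [Module ℂ E] [IsScalarTower ℂ E E]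
    [SMulCommClass ℂ E E] : ℕ → Submodule ℂ E
  | 0 => ⊥
  | k + 1 =>
    { carrier := {x | ∀ y, x * y ∈ an E k ∧ y * x ∈ an E k}
      add_mem' := fun {x z} hx hz y => by
        rw [add_mul, mul_add]
        exact ⟨(an E k).add_mem (hx y).1 (hz y).1, (an E k).add_mem (hx y).2 (hz y).2⟩
      zero_mem' := fun y => by
        rw [zero_mul, mul_zero]
        exact ⟨(an E k).zero_mem, (an E k).zero_mem⟩
      smul_mem' := fun c x hx y => by
        rw [smul_mul_assoc, mul_smul_comm]
        exact ⟨(an E k).smul_mem c (hx y).1, (an E k).smul_mem c (hx y).2⟩ }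

lemma an_zero : an E 0 = ⊥ := by rw [an]

lemma mem_an_succ {k : ℕ} {x : E} :
    x ∈ an E (k + 1) ↔ ∀ y, x * y ∈ an E k ∧ y * x ∈ an E k := by
  rw [an]
  rfl

lemma an_mono (k : ℕ) : an E k ≤ an E (k + 1) := by
  induction k with
  | zero => rw [an_zero]; exact bot_le
  | succ k ih =>
    intro x hx
    rw [mem_an_succ] at hx ⊢
    exact fun y => ⟨ih (hx y).1, ih (hx y).2⟩

lemma an_stable {k : ℕ} (h : an E (k + 1) = an E k) : ∀ j, k ≤ j → an E j = an E k := by
  intro j hj
  induction j, hj using Nat.le_induction with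
  | base => rfl
  | succ j hj ih =>
    rw [← h]
    ext x
    rw [mem_an_succ, mem_an_succ, ih]

lemma an_top (h : Nilp E) : ∃ m, an E m = ⊤ := by
  obtain ⟨m, hm, hm0⟩ := h
  have key : ∀ k, k + 1 ≤ m → pw E (m - k) ≤ an E k := by
    intro k
    induction k with
    | zero =>
      intro _
      rw [Nat.sub_zero, hm0]
      exact bot_le
    | succ k ih =>
      intro hk x hx
      rw [mem_an_succ]
      intro y
      have hy : y ∈ pw E 1 := by rw [pw_one]; trivial
      have h1 := mul_mem_pw (by omega) le_rfl hx hy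
      have h2 := mul_mem_pw le_rfl (by omega) hy hx
      have e1 : m - (k + 1) + 1 = m - k := by omega
      have e2 : 1 + (m - (k + 1)) = m - k := by omega
      rw [e1] at h1
      rw [e2] at h2
      exact ⟨ih (by omega) h1, ih (by omega) h2⟩
  refine ⟨m - 1, ?_⟩
  have := key (m - 1) (by omega)
  have e : m - (m - 1) = 1 := by omega
  rw [e, pw_one] at this
  exact top_le_iff.1 this

variable [FiniteDimensional ℂ E]

lemma an_growth (h : Nilp E) (k₀ c : ℕ) (h0 : an E k₀ = ⊤ ∨ k₀ + c ≤ Module.finrank ℂ (an E k₀)) :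
    ∀ k, k₀ ≤ k → an E k = ⊤ ∨ k + c ≤ Module.finrank ℂ (an E k) := by
  intro k hk
  induction k, hk using Nat.le_induction with
  | base => exact h0
  | succ k hk ih =>
    by_cases htop : an E k = ⊤
    · left
      exact top_le_iff.1 (htop ▸ an_mono k)
    · have h1 := ih.resolve_left htop
      right
      have hlt : an E k < an E (k + 1) := by
        refine lt_of_le_of_ne (an_mono k) fun heq => ?_
        obtain ⟨m, hm⟩ := an_top h
        rcases le_total k m with hkm | hkm
        · rw [an_stable heq.symm m hkm] at hm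
          exact htop hm
        · have : ∀ j, m ≤ j → an E j = ⊤ := by
            intro j hj
            induction j, hj using Nat.le_induction with
            | base => exact hm
            | succ j _ ihj => exact top_le_iff.1 (ihj ▸ an_mono j)
          exact htop (this k hkm)
      have := Submodule.finrank_lt_finrank_of_lt hlt
      omega

lemma an_finrank (h : Nilp E) : an E (Module.finrank ℂ E) = ⊤ := by
  rcases an_growth h 0 0 (Or.inr (by simp)) (Module.finrank ℂ E) (Nat.zero_le _) with h1 | h1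
  · exact h1
  · exact Submodule.eq_top_of_finrank_eq (le_antisymm (Submodule.finrank_le _) (by simpa using h1))

lemma pw_an (k m : ℕ) (hm : an E m = ⊤) (hk : k + 1 ≤ m) : pw E (2 ^ k + 1) ≤ an E (m - (k + 1)) := by
  refine pw_chain (fun k => an E (m - k)) (by simpa using hm) ?_ k _ le_rfl
  intro j x hx y
  by_cases hj : j + 1 ≤ m
  · have e : m - j = (m - (j + 1)) + 1 := by omega
    rw [e, mem_an_succ] at hx
    exact hx y
  · have e1 : m - j = 0 := by omega
    have e2 : m - (j + 1) = 0 := by omega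
    rw [e1, an_zero, Submodule.mem_bot] at hx
    rw [e2, hx, zero_mul, mul_zero]
    exact ⟨Submodule.zero_mem _, Submodule.zero_mem _⟩

/-- the bound for the index -/
lemma index_bound (h : Nilp E) (hs : 1 ≤ Module.finrank ℂ E) :
    index E ≤ 2 ^ (Module.finrank ℂ E - 1) + 1 := by
  refine index_le (Nat.le_add_left 1 _) ?_
  have := pw_an (Module.finrank ℂ E - 1) _ (an_finrank h) (by omega)
  have e : Module.finrank ℂ E - (Module.finrank ℂ E - 1 + 1) = 0 := by omega
  rw [e, an_zero] at this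
  exact le_bot_iff.1 this

/-- an algebra of the largest index has a one-dimensional annihilator, contained in the square -/
lemma ann_le_sq (h : Nilp E) (hs : 2 ≤ Module.finrank ℂ E)
    (hidx : 2 ^ (Module.finrank ℂ E - 1) + 1 ≤ index E) : an E 1 ≤ pw E 2 := by
  set s := Module.finrank ℂ E with hsdef
  have hdim : Module.finrank ℂ (an E 1) ≤ 1 := by
    by_contra hcon
    push Not at hcon
    have h1 := an_growth h 1 1 (Or.inr (by omega)) (s - 1) (by omega)
    have htop : an E (s - 1) = ⊤ := by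
      rcases h1 with h1 | h1
      · exact h1
      · exact Submodule.eq_top_of_finrank_eq (le_antisymm (Submodule.finrank_le _) (by omega))
    have h2 := pw_an (s - 2) _ htop (by omega)
    have e : s - 1 - (s - 2 + 1) = 0 := by omega
    rw [e, an_zero, le_bot_iff] at h2
    have h3 := index_le (E := E) (Nat.le_add_left 1 _) h2
    have h4 : 2 ^ (s - 1) = 2 * 2 ^ (s - 2) := by
      rw [← pow_succ']
      congr 1
      omega
    have h5 : 1 ≤ 2 ^ (s - 2) := Nat.one_le_two_pow
    omega
  have h1 := index_spec h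
  have h2pow : 2 ≤ 2 ^ (s - 1) := by
    calc 2 = 2 ^ 1 := by norm_num
      _ ≤ 2 ^ (s - 1) := Nat.pow_le_pow_right (by norm_num) (by omega)
  have hne : pw E (index E - 1) ≠ ⊥ := by
    intro h0
    have := index_le (E := E) (m := index E - 1) (by omega) h0
    omega
  have hle : pw E (index E - 1) ≤ an E 1 := by
    intro x hx
    rw [mem_an_succ, an_zero]
    intro y
    have hy : y ∈ pw E 1 := by rw [pw_one]; trivial
    have h3 := mul_mem_pw (by omega) le_rfl hx hy
    have h4 := mul_mem_pw le_rfl (by omega) hy hx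
    have e1 : index E - 1 + 1 = index E := by omega
    have e2 : 1 + (index E - 1) = index E := by omega
    rw [e1, h1.2] at h3
    rw [e2, h1.2] at h4
    exact ⟨h3, h4⟩
  have heq : pw E (index E - 1) = an E 1 := by
    refine Submodule.eq_of_le_of_finrank_le hle (hdim.trans ?_)
    rw [Nat.one_le_iff_ne_zero]
    intro h0
    exact hne (Submodule.finrank_eq_zero.1 h0)
  rw [← heq]
  exact pw_anti' (by norm_num) (by omega)

end General

/-! ### the chain algebras -/

section Chain

variable {s : ℕ}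

lemma ev_mul (A : Matrix (Fin s) (Fin s) ℂ) (x y : Ev A) (k : Fin s) :
    (x * y) k = ∑ i, x i * y i * A i k := rfl

instance (A : Matrix (Fin s) (Fin s) ℂ) : FiniteDimensional ℂ (Ev A) :=
  inferInstanceAs (FiniteDimensional ℂ (Fin s → ℂ))

lemma ev_finrank (A : Matrix (Fin s) (Fin s) ℂ) : Module.finrank ℂ (Ev A) = s := by
  have : Module.finrank ℂ (Fin s → ℂ) = s := by simp
  exact this

/-- the standard basis -/
noncomputable def evBasis (A : Matrix (Fin s) (Fin s) ℂ) : Module.Basis (Fin s) ℂ (Ev A) :=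
  (Pi.basisFun ℂ (Fin s) : Module.Basis (Fin s) ℂ (Fin s → ℂ))

lemma evBasis_natural (A : Matrix (Fin s) (Fin s) ℂ) : IsNatural (evBasis A) := by
  intro i j hij
  funext k
  rw [ev_mul]
  refine Finset.sum_eq_zero fun l _ => ?_
  have h1 : (evBasis A i : Fin s → ℂ) = Pi.single i 1 := Pi.basisFun_apply ℂ (Fin s) i
  have h2 : (evBasis A j : Fin s → ℂ) = Pi.single j 1 := Pi.basisFun_apply ℂ (Fin s) j
  show (evBasis A i : Fin s → ℂ) l * (evBasis A j : Fin s → ℂ) l * A l k = 0
  rw [h1, h2]
  by_cases h : l = i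
  · subst h
    rw [Pi.single_eq_of_ne hij]
    simp
  · rw [Pi.single_eq_of_ne h]
    simp

/-- the flag of the chain algebras -/
def fl (A : Matrix (Fin s) (Fin s) ℂ) (k : ℕ) : Submodule ℂ (Ev A) where
  carrier := {x | ∀ i : Fin s, s ≤ i.1 + k → x i = 0}
  add_mem' := fun {x y} hx hy i hi => by
    show x i + y i = 0
    rw [hx i hi, hy i hi, add_zero]
  zero_mem' := fun i _ => rfl
  smul_mem' := fun c x hx i hi => by
    show c * x i = 0
    rw [hx i hi, mul_zero]

lemma chain_nilp (A : Matrix (Fin s) (Fin s) ℂ) (hA : ∀ i j : Fin s, i ≤ j → A i j = 0)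
    : Nilp (Ev A) := by
  refine ⟨2 ^ s + 1, Nat.le_add_left 1 _, ?_⟩
  have h := pw_chain (fl A) ?_ ?_ s _ le_rfl
  · rw [eq_bot_iff]
    intro x hx
    have h1 := h hx
    rw [Submodule.mem_bot]
    funext i
    exact h1 i (by omega)
  · rw [eq_top_iff]
    intro x _ i hi
    omega
  · intro k x hx y
    have hcomm : y * x = x * y := by
      funext j
      rw [ev_mul, ev_mul]
      exact Finset.sum_congr rfl fun i _ => by ring
    rw [hcomm, and_self_iff]
    intro j hj
    rw [ev_mul]
    refine Finset.sum_eq_zero fun i _ => ?_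
    by_cases hij : i ≤ j
    · rw [hA i j hij, mul_zero]
    · have : s ≤ i.1 + k := by
        have : j.1 < i.1 := by
          rw [not_le] at hij
          exact hij
        omega
      rw [hx i this, zero_mul, zero_mul]

lemma chain_pow (A : Matrix (Fin s) (Fin s) ℂ) (hA : ∀ i j : Fin s, i ≤ j → A i j = 0)
    (hA' : ∀ i j : Fin s, i.1 = j.1 + 1 → A i j ≠ 0) (k : ℕ) (hk : k < s) :
    ∃ v ∈ pw (Ev A) (2 ^ k), (∀ i : Fin s, s ≤ i.1 + k → v i = 0) ∧
      v ⟨s - 1 - k, by omega⟩ ≠ 0 := by
  induction k with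
  | zero =>
    refine ⟨(Pi.single ⟨s - 1, by omega⟩ 1 : Fin s → ℂ), ?_, ?_, ?_⟩
    · rw [pow_zero, pw_one]
      trivial
    · intro i hi
      omega
    · show (Pi.single (⟨s - 1, by omega⟩ : Fin s) 1 : Fin s → ℂ) ⟨s - 1 - 0, by omega⟩ ≠ 0
      have : (⟨s - 1 - 0, by omega⟩ : Fin s) = ⟨s - 1, by omega⟩ := by simp
      rw [this, Pi.single_eq_same]
      exact one_ne_zero
  | succ k ih =>
    obtain ⟨v, hv, hv0, hv1⟩ := ih (by omega)
    refine ⟨v * v, ?_, ?_, ?_⟩
    · have := mul_mem_pw Nat.one_le_two_pow Nat.one_le_two_pow hv hv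
      rw [pow_succ, mul_two]
      exact this
    · intro j hj
      rw [ev_mul]
      refine Finset.sum_eq_zero fun i _ => ?_
      by_cases hij : i ≤ j
      · rw [hA i j hij, mul_zero]
      · have : s ≤ i.1 + k := by
          have : j.1 < i.1 := by
            rw [not_le] at hij
            exact hij
          omega
        rw [hv0 i this, zero_mul, zero_mul]
    · rw [ev_mul, Finset.sum_eq_single (⟨s - 1 - k, by omega⟩ : Fin s)]
      · refine mul_ne_zero (mul_ne_zero hv1 hv1) (hA' _ _ ?_)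
        show s - 1 - k = s - 1 - (k + 1) + 1
        omega
      · intro i _ hi
        by_cases hij : i.1 ≤ s - 1 - (k + 1)
        · rw [hA i _ hij, mul_zero]
        · have : s ≤ i.1 + k := by
            have : i.1 ≠ s - 1 - k := fun h => hi (Fin.ext h)
            omega
          rw [hv0 i this, zero_mul, zero_mul]
      · intro h
        exact absurd (Finset.mem_univ _) h

lemma chain_index (A : Matrix (Fin s) (Fin s) ℂ) (hs : 1 ≤ s)
    (hA : ∀ i j : Fin s, i ≤ j → A i j = 0)
    (hA' : ∀ i j : Fin s, i.1 = j.1 + 1 → A i j ≠ 0) : 2 ^ (s - 1) + 1 ≤ index (Ev A) := by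
  refine le_index (chain_nilp A hA) Nat.one_le_two_pow ?_
  obtain ⟨v, hv, -, hv1⟩ := chain_pow A hA hA' (s - 1) (by omega)
  intro h0
  rw [h0, Submodule.mem_bot] at hv
  rw [hv] at hv1
  exact hv1 rfl

/-- the chain algebras are in `ZN s` -/
theorem chain_ZN (A : Matrix (Fin s) (Fin s) ℂ) (hs : 1 ≤ s)
    (hA : ∀ i j : Fin s, i ≤ j → A i j = 0)
    (hA' : ∀ i j : Fin s, i.1 = j.1 + 1 → A i j ≠ 0) : ZN s (Ev A) := by
  refine ⟨⟨evBasis A, evBasis_natural A⟩, chain_nilp A hA, fun A' hN => ?_⟩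
  have h1 := index_bound hN (by rw [ev_finrank]; exact hs)
  rw [ev_finrank] at h1
  exact h1.trans (chain_index A hs hA hA')

/-- the annihilator of an algebra in `ZN s` is contained in its square -/
theorem ZN_ann {F : Type*} [NonUnitalNonAssocRing F] [Module ℂ F] [IsScalarTower ℂ F F]
    [SMulCommClass ℂ F F] (hs : 2 ≤ s) (hF : ZN s F) : an F 1 ≤ pw F 2 := by
  obtain ⟨⟨b, hb⟩, hN, hmax⟩ := hF
  have : FiniteDimensional ℂ F := Module.Finite.of_basis b
  have hfr : Module.finrank ℂ F = s := by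
    rw [Module.finrank_eq_card_basis b, Fintype.card_fin]
  have hA : ∀ i j : Fin s, i ≤ j →
      (Matrix.of fun i j : Fin s => if i.1 = j.1 + 1 then (1 : ℂ) else 0) i j = 0 := by
    intro i j hij
    rw [Matrix.of_apply, if_neg]
    have : i.1 ≤ j.1 := hij
    omega
  have hA' : ∀ i j : Fin s, i.1 = j.1 + 1 →
      (Matrix.of fun i j : Fin s => if i.1 = j.1 + 1 then (1 : ℂ) else 0) i j ≠ 0 := by
    intro i j hij
    rw [Matrix.of_apply, if_pos hij]
    exact one_ne_zero
  have h1 := hmax _ (chain_nilp _ hA)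
  have h2 := chain_index _ (by omega) hA hA'
  exact ann_le_sq hN (by omega) (by rw [hfr]; omega)

end Chain

end Pool.Agent.Q230.Evo
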