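import Mathlib
import Pool.Agent.Q230.EvoC
import Pool.Agent.Q230.EvoN

/-!
# Condition `P`: the end of the chain
-/

set_option autoImplicit false

namespace Pool.Agent.Q230.Evo

variable {E : Type*} [NonUnitalNonAssocRing E] [Module ℂ E] [IsScalarTower ℂ E E]
  [SMulCommClass ℂ E E] {n : ℕ} {b : Module.Basis (Fin n) ℂ E}

/-- vectors supported outside a set -/
lemma sup_repr (hb : IsNatural b) (Z : Set (Fin n)) [DecidablePred (· ∈ Z)]
    (y : {l // l ∉ Z} → ℂ) :
    ∃ x : E, (∀ l : {l // l ∉ Z}, b.repr x l = y l) ∧ ∀ k, b.repr (x * x) k =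
      ∑ l : {l // l ∉ Z}, y l ^ 2 * b.repr (b l * b l) k := by
  classical
  set r : Fin n → ℂ := fun i => if h : i ∉ Z then y ⟨i, h⟩ else 0 with hr
  refine ⟨b.equivFun.symm r, fun l => ?_, fun k => ?_⟩
  · rw [equivFun_repr, hr]
    simp only
    rw [dif_pos l.2]
  · rw [mul_repr hb]
    have h1 : ∀ i, b.repr (b.equivFun.symm r) i * b.repr (b.equivFun.symm r) i *
        b.repr (b i * b i) k = r i ^ 2 * b.repr (b i * b i) k := by
      intro i
      rw [equivFun_repr]
      ring
    rw [Finset.sum_congr rfl fun i _ => h1 i]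
    have h2 : ∑ i, r i ^ 2 * b.repr (b i * b i) k =
        ∑ i ∈ Finset.univ.filter (fun i => i ∉ Z), r i ^ 2 * b.repr (b i * b i) k := by
      symm
      refine Finset.sum_subset (Finset.filter_subset _ _) fun i _ hi => ?_
      have : ¬ (i ∉ Z) := fun h => hi (Finset.mem_filter.2 ⟨Finset.mem_univ i, h⟩)
      rw [hr]
      simp only
      rw [dif_neg this]
      ring
    rw [h2, Finset.sum_subtype (Finset.univ.filter (fun i => i ∉ Z)) (p := fun i => i ∉ Z)
      (fun x => by simp)]
    refine Finset.sum_congr rfl fun l _ => ?_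
    have : r l = y l := by
      rw [hr]
      simp only
      rw [dif_pos l.2]
    rw [this]

/-- outside a maximal chain there is at most one index -/
lemma compl_le_one (hP : CondP E n) (hb : IsNatural b) (Z : Set (Fin n))
    (hZ : ∀ i ∈ Z, ∀ j, j ∉ Z → b.repr (b i * b i) j = 0) (hZ1 : ∀ i, b i * b i = 0 → i ∈ Z)
    (hmax : ∀ i, i ∉ Z → ∃ l, l ∉ Z ∧ b.repr (b i * b i) l ≠ 0) (i i' : Fin n) (hi : i ∉ Z)
    (hi' : i' ∉ Z) : i = i' := by
  classical
  by_contra hne
  set A : Matrix {l // l ∉ Z} {l // l ∉ Z} ℂ := Matrix.of fun l k => b.repr (b l * b l) k with hA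
  have hdet : A.det ≠ 0 := by
    intro h0
    obtain ⟨v, hv0, hv⟩ := Matrix.exists_vecMul_eq_zero_iff.2 h0
    choose r hr using fun l => IsAlgClosed.exists_pow_nat_eq (v l) (n := 2) (by norm_num)
    obtain ⟨x, hx1, hx2⟩ := sup_repr hb Z r
    have hx3 : ∀ j, j ∉ Z → b.repr (x * x) j = 0 * b.repr x j := by
      intro j hj
      rw [hx2, zero_mul]
      have this : ∑ l, v l * A l ⟨j, hj⟩ = 0 := congrFun hv ⟨j, hj⟩
      rw [← this]
      refine Finset.sum_congr rfl fun l _ => ?_
      rw [hr]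
      rfl
    obtain ⟨l, hl⟩ := Function.ne_iff.1 hv0
    have hrl : r l ≠ 0 := by
      intro h1
      apply hl
      rw [← hr, h1]
      norm_num
    have hz : ∀ k, k ≠ l → v k = 0 := by
      intro k hk
      have h1 := key hP hb Z hZ hZ1 x 0 hx3 l.2 k.2 (fun h => hk (Subtype.ext h.symm))
        (by rw [hx1]; exact hrl)
      rw [hx1] at h1
      rw [← hr, h1]
      norm_num
    obtain ⟨k, hk, hk2⟩ := hmax l l.2
    have h2 : ∑ l, v l * A l ⟨k, hk⟩ = 0 := congrFun hv ⟨k, hk⟩
    rw [Finset.sum_eq_single l (fun m _ hm => by rw [hz m hm, zero_mul])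
      (fun h => absurd (Finset.mem_univ l) h)] at h2
    exact (mul_ne_zero hl hk2) h2
  have hAt : IsUnit A.transpose.det := by
    rw [Matrix.det_transpose]
    exact isUnit_iff_ne_zero.2 hdet
  have hC : IsUnit (A.transpose)⁻¹.det := by
    rw [Matrix.det_nonsing_inv]
    exact hAt.ringInverse
  obtain ⟨y, hy, l, k, hlk, hl, hk⟩ := two_nonzero (A.transpose)⁻¹ hC
    (a := (⟨i, hi⟩ : {l // l ∉ Z})) (b := ⟨i', hi'⟩) (fun h => hne (congrArg Subtype.val h))
  have hy2 : A.transpose.mulVec (fun l => y l ^ 2) = y := by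
    have : (fun l => y l ^ 2) = (A.transpose)⁻¹.mulVec y := by
      funext l
      rw [hy]
      rfl
    rw [this, Matrix.mulVec_mulVec, Matrix.mul_nonsing_inv _ hAt, Matrix.one_mulVec]
  obtain ⟨x, hx1, hx2⟩ := sup_repr hb Z y
  have hx3 : ∀ j, j ∉ Z → b.repr (x * x) j = 1 * b.repr x j := by
    intro j hj
    rw [hx2, one_mul]
    have h1 := congrFun hy2 ⟨j, hj⟩
    have h2 : b.repr x j = y ⟨j, hj⟩ := hx1 ⟨j, hj⟩
    rw [h2, ← h1]
    simp only [Matrix.mulVec, dotProduct]
    refine Finset.sum_congr rfl fun l _ => ?_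
    rw [mul_comm]
    rfl
  have h3 := key hP hb Z hZ hZ1 x 1 hx3 l.2 k.2 (fun h => hlk (Subtype.ext h))
    (by rw [hx1]; exact hl)
  rw [hx1] at h3
  exact hk h3

/-- coordinate subspaces -/
def VZ (b : Module.Basis (Fin n) ℂ E) (Z : Set (Fin n)) : Submodule ℂ E where
  carrier := {x | ∀ i, i ∉ Z → b.repr x i = 0}
  add_mem' := fun {x y} hx hy i hi => by
    rw [map_add, Finsupp.add_apply, hx i hi, hy i hi, add_zero]
  zero_mem' := fun i _ => by simp
  smul_mem' := fun c x hx i hi => by
    rw [map_smul, Finsupp.smul_apply, hx i hi, smul_zero]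

/-- the annihilator -/
lemma VZ0_mul (hb : IsNatural b) (j : ℕ → Fin n) {x : E} (hx : x ∈ VZ b (ZS b j 0)) (y : E) :
    x * y = 0 := by
  rw [mul_eq hb]
  refine Finset.sum_eq_zero fun i _ => ?_
  by_cases hi : i ∈ ZS b j 0
  · rcases hi with hi | ⟨r, hr, _⟩
    · rw [hi, smul_zero]
    · exact absurd hr (Nat.not_lt_zero r)
  · rw [hx i hi, zero_mul, zero_smul]

/-- if the chain exhausts the basis the algebra is nilpotent -/
lemma nilp_of_full (hb : IsNatural b) {t : ℕ} {j : ℕ → Fin n} (h : IsChain b t j)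
    (hfull : ∀ i, i ∈ ZS b j t) : Nilp E := by
  refine ⟨2 ^ t + 1, Nat.le_add_left 1 _, ?_⟩
  have h1 := pw_chain (E := E) (fun k => if k ≤ t then VZ b (ZS b j (t - k)) else ⊥) ?_ ?_ t _ le_rfl
  · simpa using h1
  · simp only [Nat.zero_le, if_true, Nat.sub_zero]
    rw [eq_top_iff]
    intro x _ i hi
    exact absurd (hfull i) hi
  · intro k x hx y
    rw [comm hb y x, and_self_iff]
    rcases Nat.lt_or_ge k t with hk | hk
    · have hx' : x ∈ VZ b (ZS b j (t - k)) := by
        simpa [hk.le] using hx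
      show x * y ∈ if k + 1 ≤ t then VZ b (ZS b j (t - (k + 1))) else ⊥
      rw [if_pos (by omega)]
      intro l hl
      rw [mul_repr hb]
      refine Finset.sum_eq_zero fun i _ => ?_
      by_cases hi : i ∈ ZS b j (t - k)
      · have e : t - k = (t - (k + 1)) + 1 := by omega
        rw [e, mem_ZS_succ] at hi
        rcases hi with hi | hi
        · rw [h.closed (by omega) i hi l hl, mul_zero]
        · rw [hi, (h (t - (k + 1)) (by omega)).2 l hl, mul_zero]
      · rw [hx' i hi, zero_mul, zero_mul]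
    · have hx' : x * y = 0 := by
        rcases Nat.lt_or_ge t k with hk' | hk'
        · have : x ∈ (⊥ : Submodule ℂ E) := by
            simpa [not_le.2 hk'] using hx
          rw [Submodule.mem_bot] at this
          rw [this, zero_mul]
        · have e : k = t := by omega
          subst e
          have : x ∈ VZ b (ZS b j 0) := by simpa using hx
          exact VZ0_mul hb j this y
      rw [hx']
      exact Submodule.zero_mem _

/-- idempotents modulo the annihilator -/
lemma idem_lift (hb : IsNatural b) {t : ℕ} {j : ℕ → Fin n} (h : IsChain b t j) {p : Fin n}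
    (hp : p ∉ ZS b j t) (hall : ∀ i, i ∉ ZS b j t → i = p)
    (hl : b.repr (b p * b p) p ≠ 0) (k : ℕ) (hk : k ≤ t) :
    ∃ x : E, b.repr x p = (b.repr (b p * b p) p)⁻¹ ∧
      ∀ i, i ∉ ZS b j (t - k) → b.repr (x * x) i = b.repr x i := by
  induction k with
  | zero =>
    refine ⟨(b.repr (b p * b p) p)⁻¹ • b p, by simp, fun i hi => ?_⟩
    rw [Nat.sub_zero] at hi
    rw [hall i hi, smul_mul_smul_comm, map_smul, Finsupp.smul_apply, map_smul, Finsupp.smul_apply,
      b.repr_self, Finsupp.single_eq_same, smul_eq_mul, smul_eq_mul, mul_one]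
    field_simp
  | succ k ih =>
    obtain ⟨x, hxp, hx⟩ := ih (by omega)
    set s := t - (k + 1) with hs
    have e : t - k = s + 1 := by omega
    rw [e] at hx
    have hjs := h s (by omega)
    have hne : p ≠ j s := by
      intro h0
      exact hp (Or.inr ⟨s, by omega, h0.symm⟩)
    set δ : ℂ := b.repr (x * x) (j s) - b.repr x (j s) with hδ
    refine ⟨x + δ • b (j s), ?_, fun i hi => ?_⟩
    · rw [map_add, Finsupp.add_apply, hxp, map_smul, Finsupp.smul_apply, b.repr_self,
        Finsupp.single_eq_of_ne hne, smul_zero, add_zero]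
    · have h1 : b.repr ((x + δ • b (j s)) * (x + δ • b (j s))) i = b.repr (x * x) i := by
        rw [mul_repr hb, mul_repr hb]
        refine Finset.sum_congr rfl fun l _ => ?_
        by_cases hl : l = j s
        · rw [hl, hjs.2 i hi]
          ring
        · have : b.repr (x + δ • b (j s)) l = b.repr x l := by
            rw [map_add, Finsupp.add_apply, map_smul, Finsupp.smul_apply, b.repr_self,
              Finsupp.single_eq_of_ne hl, smul_zero, add_zero]
          rw [this]
      rw [h1, map_add, Finsupp.add_apply, map_smul, Finsupp.smul_apply, b.repr_self]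
      by_cases hij : i = j s
      · rw [hij, Finsupp.single_eq_same, smul_eq_mul, mul_one, hδ]
        ring
      · rw [Finsupp.single_eq_of_ne hij, smul_zero, add_zero]
        refine hx i fun h0 => ?_
        rcases mem_ZS_succ.1 h0 with h0 | h0
        · exact hi h0
        · exact hij h0

/-- the square of the last basis vector -/
lemma last_sq (hP : CondP E n) (hb : IsNatural b) {t : ℕ} {j : ℕ → Fin n} (h : IsChain b t j)
    {p : Fin n} (hp : p ∉ ZS b j t) (hall : ∀ i, i ∉ ZS b j t → i = p)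
    (hl : b.repr (b p * b p) p ≠ 0) (i : Fin n) (hi : i ∉ ZS b j 0) (hip : i ≠ p) :
    b.repr (b p * b p) i = 0 := by
  obtain ⟨x, hxp, hx⟩ := idem_lift hb h hp hall hl t le_rfl
  rw [Nat.sub_self] at hx
  have hp0 : p ∉ ZS b j 0 := fun h0 => hp (ZS_mono (Nat.zero_le t) h0)
  have hclosed := h.closed (Nat.zero_le t)
  have hZ1 : ∀ i, b i * b i = 0 → i ∈ ZS b j 0 := fun i hi => Or.inl hi
  have hx0 : ∀ k, k ∉ ZS b j 0 → k ≠ p → b.repr x k = 0 := by
    intro k hk hkp
    refine key hP hb (ZS b j 0) hclosed hZ1 x 1 (fun l hl => by rw [hx l hl, one_mul]) hp0 hk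
      (Ne.symm hkp) ?_
    rw [hxp]
    exact inv_ne_zero hl
  have h1 := hx i hi
  rw [hx0 i hi hip, mul_repr hb, Finset.sum_eq_single p] at h1
  · rw [hxp] at h1
    exact (mul_eq_zero.1 h1).resolve_left (mul_ne_zero (inv_ne_zero hl) (inv_ne_zero hl))
  · intro k _ hkp
    by_cases hk : k ∈ ZS b j 0
    · rw [hclosed k hk i hi, mul_zero]
    · rw [hx0 k hk hkp, zero_mul, zero_mul]
  · intro h0
    exact absurd (Finset.mem_univ p) h0

/-- the subdiagonal entries of the chain -/
lemma subdiag (hP : CondP E n) (hb : IsNatural b) {t : ℕ} {j : ℕ → Fin n} (h : IsChain b t j)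
    {s : ℕ} (hs : s + 1 < t) : b.repr (b (j (s + 1)) * b (j (s + 1))) (j s) ≠ 0 := by
  intro h0
  have hne : j s ≠ j (s + 1) := h.inj (Nat.lt_succ_self s) hs
  have h1 : ∀ l, l ∉ ZS b j s → b.repr (b (j (s + 1)) * b (j (s + 1))) l = 0 := by
    intro l hl
    by_cases hlj : l = j s
    · rw [hlj, h0]
    · refine (h (s + 1) hs).2 l fun h2 => ?_
      rcases mem_ZS_succ.1 h2 with h2 | h2
      · exact hl h2
      · exact hlj h2
  have h2 := (h s (by omega)).2
  have h3 : j (s + 1) ∉ ZS b j s := fun h4 => (h (s + 1) hs).1 (ZS_mono (Nat.le_succ s) h4)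
  have h5 := key hP hb (ZS b j s) (h.closed (by omega)) (fun i hi => Or.inl hi)
    (b (j s) + b (j (s + 1))) 0 (fun l hl => by
      have : (b (j s) + b (j (s + 1))) * (b (j s) + b (j (s + 1))) =
          b (j s) * b (j s) + b (j (s + 1)) * b (j (s + 1)) := by
        rw [add_mul, mul_add, mul_add, hb _ _ hne, hb _ _ (Ne.symm hne)]
        abel
      rw [this, map_add, Finsupp.add_apply, h2 l hl, h1 l hl]
      ring) (h s (by omega)).1 h3 hne (by
        rw [map_add, Finsupp.add_apply, b.repr_self, b.repr_self, Finsupp.single_eq_same,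
          Finsupp.single_eq_of_ne hne, add_zero]
        exact one_ne_zero)
  rw [map_add, Finsupp.add_apply, b.repr_self, b.repr_self, Finsupp.single_eq_same,
    Finsupp.single_eq_of_ne (Ne.symm hne), zero_add] at h5
  exact one_ne_zero h5

end Pool.Agent.Q230.Evo
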