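import Mathlib
import Pool.Agent.Q230.EvoN

/-!
# The algebras of the list are pairwise non-isomorphic
-/

set_option autoImplicit false

namespace Pool.Agent.Q230.Evo

/-- no nonzero idempotents -/
def NoIdem (G : Type*) [NonUnitalNonAssocRing G] : Prop := ∀ x : G, x * x = x → x = 0

lemma Nilp.noIdem {F : Type*} [NonUnitalNonAssocRing F] [Module ℂ F] (h : Nilp F) : NoIdem F := by
  intro x hx
  obtain ⟨m, hm, h0⟩ := h
  have key : ∀ k, x ∈ pw F (2 ^ k) := by
    intro k
    induction k with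
    | zero => rw [pow_zero, pw_one]; trivial
    | succ k ih =>
      have := mul_mem_pw Nat.one_le_two_pow Nat.one_le_two_pow ih ih
      rw [hx, ← mul_two, ← pow_succ] at this
      exact this
  have h1 := pw_anti' hm (Nat.lt_two_pow_self (n := m)).le (key m)
  rw [h0, Submodule.mem_bot] at h1
  exact h1

lemma zero_mul_zero {m : ℕ} (a b : ZeroAlg m) : a * b = 0 := by
  funext k
  rw [ev_mul]
  refine Finset.sum_eq_zero fun i _ => ?_
  rw [Matrix.zero_apply, mul_zero]

lemma zero_noIdem (m : ℕ) : NoIdem (ZeroAlg m) := fun x hx => by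
  rw [← hx]
  exact zero_mul_zero x x

lemma prod_noIdem {F : Type*} [NonUnitalNonAssocRing F] (h : NoIdem F) (m : ℕ) :
    NoIdem (F × ZeroAlg m) := by
  rintro ⟨a, z⟩ hx
  have h1 : a * a = a := congrArg Prod.fst hx
  have h2 : z * z = z := congrArg Prod.snd hx
  rw [zero_mul_zero] at h2
  rw [h a h1, ← h2]
  rfl

lemma Iso.symm {E F : Type*} [NonUnitalNonAssocRing E] [Module ℂ E] [NonUnitalNonAssocRing F]
    [Module ℂ F] (h : Iso E F) : Iso F E := by
  obtain ⟨f, hf⟩ := h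
  refine ⟨f.symm, fun x y => ?_⟩
  apply f.injective
  rw [hf, f.apply_symm_apply, f.apply_symm_apply, f.apply_symm_apply]

lemma strip_fst {G G' : Type*} [NonUnitalNonAssocRing G] [Module ℂ G]
    [NonUnitalNonAssocRing G'] [Module ℂ G'] (hG' : NoIdem G')
    (f : (ℂ × G) ≃ₗ[ℂ] (ℂ × G')) (hf : ∀ x y, f (x * y) = f x * f y) (x : G) :
    (f (0, x)).1 = 0 := by
  have h1 : f (1, 0) * f (1, 0) = f (1, 0) := by
    rw [← hf]
    simp
  have h2 : (f (1, 0)).2 = 0 := hG' _ (congrArg Prod.snd h1)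
  have h3 : (f (1, 0)).1 * (f (1, 0)).1 = (f (1, 0)).1 := congrArg Prod.fst h1
  have h4 : (f (1, 0)).1 ≠ 0 := by
    intro h0
    have : f (1, 0) = 0 := Prod.ext h0 h2
    have h5 := f.map_eq_zero_iff.1 this
    have h6 : (1 : ℂ) = 0 := congrArg Prod.fst h5
    exact one_ne_zero h6
  have h5 : f (1, 0) * f (0, x) = 0 := by
    rw [← hf]
    have : ((1, 0) : ℂ × G) * (0, x) = 0 := by simp
    rw [this, map_zero]
  have h6 : (f (1, 0)).1 * (f (0, x)).1 = 0 := congrArg Prod.fst h5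
  exact (mul_eq_zero.1 h6).resolve_left h4

lemma strip {G G' : Type*} [NonUnitalNonAssocRing G] [Module ℂ G]
    [NonUnitalNonAssocRing G'] [Module ℂ G'] (hG : NoIdem G) (hG' : NoIdem G')
    (h : Iso (ℂ × G) (ℂ × G')) : Iso G G' := by
  obtain ⟨f, hf⟩ := h
  have hf' : ∀ x y, f.symm (x * y) = f.symm x * f.symm y := by
    intro x y
    apply f.injective
    rw [hf, f.apply_symm_apply, f.apply_symm_apply, f.apply_symm_apply]
  have h1 := strip_fst hG' f hf
  have h2 := strip_fst hG f.symm hf'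
  let g : G →ₗ[ℂ] G' := (LinearMap.snd ℂ ℂ G') ∘ₗ f.toLinearMap ∘ₗ (LinearMap.inr ℂ ℂ G)
  have hg : ∀ x, f (0, x) = (0, g x) := fun x => Prod.ext (h1 x) rfl
  have hinj : Function.Injective g := by
    rw [← LinearMap.ker_eq_bot, LinearMap.ker_eq_bot']
    intro x hx
    have h3 : f (0, x) = 0 := by rw [hg, hx]; rfl
    have h4 := f.map_eq_zero_iff.1 h3
    exact congrArg Prod.snd h4
  have hsurj : Function.Surjective g := by
    intro y
    refine ⟨(f.symm (0, y)).2, ?_⟩
    have h3 : f.symm (0, y) = (0, (f.symm (0, y)).2) := Prod.ext (h2 y) rfl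
    have h4 := hg (f.symm (0, y)).2
    rw [← h3, f.apply_symm_apply] at h4
    exact (congrArg Prod.snd h4).symm
  refine ⟨LinearEquiv.ofBijective g ⟨hinj, hsurj⟩, fun x y => ?_⟩
  show g (x * y) = g x * g y
  have h3 : f (0, x * y) = f (0, x) * f (0, y) := by
    rw [← hf]
    congr 1
    refine Prod.ext ?_ rfl
    simp
  rw [hg, hg, hg] at h3
  exact congrArg Prod.snd h3

/-- the component of an isomorphism -/
lemma comp_inj {F F' : Type*} [NonUnitalNonAssocRing F] [Module ℂ F] [IsScalarTower ℂ F F]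
    [SMulCommClass ℂ F F] [NonUnitalNonAssocRing F'] [Module ℂ F'] {m m' : ℕ}
    (hF : an F 1 ≤ pw F 2) (h : Iso (F × ZeroAlg m) (F' × ZeroAlg m')) :
    ∃ g : F →ₗ[ℂ] F', Function.Injective g ∧ ∀ x y, g (x * y) = g x * g y := by
  obtain ⟨f, hf⟩ := h
  have hmul : ∀ x y : F, f (x * y, 0) = f (x, 0) * f (y, 0) := by
    intro x y
    rw [← hf]
    congr 1
    refine Prod.ext rfl ?_
    exact (zero_mul_zero _ _).symm
  let g : F →ₗ[ℂ] F' := (LinearMap.fst ℂ F' (ZeroAlg m')) ∘ₗ f.toLinearMap ∘ₗ (LinearMap.inl ℂ F (ZeroAlg m))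
  let q : F →ₗ[ℂ] ZeroAlg m' := (LinearMap.snd ℂ F' (ZeroAlg m')) ∘ₗ f.toLinearMap ∘ₗ
    (LinearMap.inl ℂ F (ZeroAlg m))
  have hgq : ∀ x, f (x, 0) = (g x, q x) := fun x => rfl
  have hq : pw F 2 ≤ LinearMap.ker q := by
    refine pw_le (k := 0) fun a b _ _ _ x _ y _ => ?_
    rw [LinearMap.mem_ker]
    have := hmul x y
    rw [hgq, hgq x, hgq y] at this
    have h2 : q (x * y) = q x * q y := congrArg Prod.snd this
    rw [h2, zero_mul_zero]
  refine ⟨g, ?_, fun x y => ?_⟩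
  · rw [← LinearMap.ker_eq_bot, LinearMap.ker_eq_bot']
    intro x hx
    have hann : x ∈ an F 1 := by
      rw [mem_an_succ, an_zero]
      intro y
      have h1 : f (x * y, 0) = 0 := by
        rw [hmul, hgq x, hgq y, hx]
        refine Prod.ext ?_ ?_
        · show (0 : F') * g y = 0
          rw [zero_mul]
        · exact zero_mul_zero _ _
      have h2 : f (y * x, 0) = 0 := by
        rw [hmul, hgq x, hgq y, hx]
        refine Prod.ext ?_ ?_
        · show g y * (0 : F') = 0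
          rw [mul_zero]
        · exact zero_mul_zero _ _
      exact ⟨congrArg Prod.fst (f.map_eq_zero_iff.1 h1), congrArg Prod.fst (f.map_eq_zero_iff.1 h2)⟩
    have h3 : q x = 0 := hq (hF hann)
    have h4 : f (x, 0) = 0 := by
      rw [hgq, hx, h3]
      rfl
    exact congrArg Prod.fst (f.map_eq_zero_iff.1 h4)
  · have := hmul x y
    rw [hgq, hgq x, hgq y] at this
    exact congrArg Prod.fst this

theorem uniq {F F' : Type*} [NonUnitalNonAssocRing F] [Module ℂ F] [IsScalarTower ℂ F F]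
    [SMulCommClass ℂ F F] [NonUnitalNonAssocRing F'] [Module ℂ F'] [IsScalarTower ℂ F' F']
    [SMulCommClass ℂ F' F'] {s s' m m' : ℕ} (hs : 2 ≤ s) (hs' : 2 ≤ s') (hF : ZN s F)
    (hF' : ZN s' F') (h : Iso (ℂ × F × ZeroAlg m) (ℂ × F' × ZeroAlg m')) : s = s' ∧ Iso F F' := by
  have h1 := strip (prod_noIdem hF.2.1.noIdem m) (prod_noIdem hF'.2.1.noIdem m') h
  obtain ⟨g, hg, hgm⟩ := comp_inj (ZN_ann hs hF) h1
  obtain ⟨g', hg', -⟩ := comp_inj (ZN_ann hs' hF') h1.symm
  obtain ⟨b, -⟩ := hF.1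
  obtain ⟨b', -⟩ := hF'.1
  have : FiniteDimensional ℂ F := Module.Finite.of_basis b
  have : FiniteDimensional ℂ F' := Module.Finite.of_basis b'
  have hfr : Module.finrank ℂ F = s := by
    rw [Module.finrank_eq_card_basis b, Fintype.card_fin]
  have hfr' : Module.finrank ℂ F' = s' := by
    rw [Module.finrank_eq_card_basis b', Fintype.card_fin]
  have h2 := LinearMap.finrank_le_finrank_of_injective hg
  have h3 := LinearMap.finrank_le_finrank_of_injective hg'
  have h4 : Module.finrank ℂ F = Module.finrank ℂ F' := le_antisymm h2 h3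
  refine ⟨by omega, ?_⟩
  refine ⟨LinearEquiv.ofBijective g ⟨hg, (LinearMap.injective_iff_surjective_of_finrank_eq_finrank h4).1 hg⟩,
    fun x y => hgm x y⟩

theorem not_iso {F : Type*} [NonUnitalNonAssocRing F] [Module ℂ F] [IsScalarTower ℂ F F]
    [SMulCommClass ℂ F F] {s k m : ℕ} (hs : 2 ≤ s) (hF : ZN s F) :
    ¬ Iso (ℂ × ZeroAlg k) (ℂ × F × ZeroAlg m) := by
  intro h
  obtain ⟨f, hf⟩ := strip (zero_noIdem k) (prod_noIdem hF.2.1.noIdem m) h
  have h1 : ∀ x y : F × ZeroAlg m, x * y = 0 := by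
    intro x y
    obtain ⟨a, rfl⟩ := f.surjective x
    obtain ⟨b, rfl⟩ := f.surjective y
    rw [← hf, zero_mul_zero, map_zero]
  have h2 : ∀ x y : F, x * y = 0 := fun x y => congrArg Prod.fst (h1 (x, 0) (y, 0))
  have h3 : pw F 2 ≤ ⊥ := by
    refine pw_le (k := 0) fun a b _ _ _ x _ y _ => ?_
    rw [h2]
    exact Submodule.zero_mem _
  have h4 : ∀ x : F, x = 0 := by
    intro x
    have : x ∈ an F 1 := by
      rw [mem_an_succ, an_zero]
      intro y
      rw [h2, h2]
      exact ⟨Submodule.zero_mem _, Submodule.zero_mem _⟩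
    exact h3 (ZN_ann hs hF this)
  obtain ⟨b, -⟩ := hF.1
  exact b.ne_zero ⟨0, by omega⟩ (h4 _)

end Pool.Agent.Q230.Evo
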