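import Mathlib
import Pool.Agent.Q230.EvoP
import Pool.Agent.Q230.EvoU

/-!
# The classification
-/

set_option autoImplicit false

namespace Pool.Agent.Q230.Evo

variable {E : Type*} [NonUnitalNonAssocRing E] [Module ℂ E] [IsScalarTower ℂ E E]
  [SMulCommClass ℂ E E]

/-- assembling an isomorphism -/
lemma assemble {F : Type*} [NonUnitalNonAssocRing F] [Module ℂ F] {m : ℕ} (e : E)
    (g : F →ₗ[ℂ] E) (h : ZeroAlg m →ₗ[ℂ] E) (hee : e * e = e) (heg : ∀ x, e * g x = 0)
    (hge : ∀ x, g x * e = 0) (hh : ∀ y z, h y * z = 0) (hh' : ∀ y z, z * h y = 0)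
    (hgg : ∀ x x', g x * g x' = g (x * x'))
    (hinj : ∀ (c : ℂ) x y, c • e + (g x + h y) = 0 → c = 0 ∧ x = 0 ∧ y = 0)
    (hsurj : ∀ z : E, ∃ (c : ℂ) (x : F) (y : ZeroAlg m), c • e + (g x + h y) = z) :
    Iso E (ℂ × F × ZeroAlg m) := by
  let f : (ℂ × F × ZeroAlg m) →ₗ[ℂ] E := (LinearMap.toSpanSingleton ℂ E e).coprod (g.coprod h)
  have hf : ∀ z : ℂ × F × ZeroAlg m, f z = z.1 • e + (g z.2.1 + h z.2.2) := fun z => rfl
  have hfi : Function.Injective f := by
    rw [← LinearMap.ker_eq_bot, LinearMap.ker_eq_bot']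
    rintro ⟨c, x, y⟩ h0
    rw [hf] at h0
    obtain ⟨h1, h2, h3⟩ := hinj c x y h0
    rw [h1, h2, h3]
    rfl
  have hfs : Function.Surjective f := by
    intro z
    obtain ⟨c, x, y, h0⟩ := hsurj z
    exact ⟨(c, x, y), h0⟩
  have hmul : ∀ z w, f (z * w) = f z * f w := by
    rintro ⟨c, x, y⟩ ⟨c', x', y'⟩
    rw [hf, hf, hf]
    show (c * c') • e + (g (x * x') + h (y * y')) =
      (c • e + (g x + h y)) * (c' • e + (g x' + h y'))
    rw [zero_mul_zero, map_zero, add_zero, ← hgg]
    simp only [add_mul, mul_add, smul_mul_assoc, mul_smul_comm, hee, heg, hge, hh, hh', smul_zero,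
      add_zero, zero_add, smul_smul]
    rw [mul_comm c c']
  refine Iso.symm ⟨LinearEquiv.ofBijective f ⟨hfi, hfs⟩, hmul⟩

lemma assemble0 {m : ℕ} (e : E) (h : ZeroAlg m →ₗ[ℂ] E) (hee : e * e = e)
    (hh : ∀ y z, h y * z = 0) (hh' : ∀ y z, z * h y = 0)
    (hinj : ∀ (c : ℂ) y, c • e + h y = 0 → c = 0 ∧ y = 0)
    (hsurj : ∀ z : E, ∃ (c : ℂ) (y : ZeroAlg m), c • e + h y = z) :
    Iso E (ℂ × ZeroAlg m) := by
  let f : (ℂ × ZeroAlg m) →ₗ[ℂ] E := (LinearMap.toSpanSingleton ℂ E e).coprod h
  have hf : ∀ z : ℂ × ZeroAlg m, f z = z.1 • e + h z.2 := fun z => rfl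
  have hfi : Function.Injective f := by
    rw [← LinearMap.ker_eq_bot, LinearMap.ker_eq_bot']
    rintro ⟨c, y⟩ h0
    rw [hf] at h0
    obtain ⟨h1, h3⟩ := hinj c y h0
    rw [h1, h3]
    rfl
  have hfs : Function.Surjective f := by
    intro z
    obtain ⟨c, y, h0⟩ := hsurj z
    exact ⟨(c, y), h0⟩
  have hmul : ∀ z w, f (z * w) = f z * f w := by
    rintro ⟨c, y⟩ ⟨c', y'⟩
    rw [hf, hf, hf]
    show (c * c') • e + h (y * y') = (c • e + h y) * (c' • e + h y')
    rw [zero_mul_zero, map_zero, add_zero]
    simp only [add_mul, mul_add, smul_mul_assoc, mul_smul_comm, hee, hh, hh', smul_zero,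
      add_zero, zero_add, smul_smul]
    rw [mul_comm c c']
  refine Iso.symm ⟨LinearEquiv.ofBijective f ⟨hfi, hfs⟩, hmul⟩

/-- a linear parametrisation of a subspace -/
lemma param [FiniteDimensional ℂ E] (U : Submodule ℂ E) :
    ∃ (m : ℕ) (h : ZeroAlg m →ₗ[ℂ] E), Function.Injective h ∧ (∀ y, h y ∈ U) ∧
      ∀ z ∈ U, ∃ y, h y = z := by
  let φ : (Fin (Module.finrank ℂ U) → ℂ) ≃ₗ[ℂ] U := (Module.finBasis ℂ U).equivFun.symm
  let h : ZeroAlg (Module.finrank ℂ U) →ₗ[ℂ] E := U.subtype ∘ₗ φ.toLinearMap
  refine ⟨Module.finrank ℂ U, h, ?_, ?_, ?_⟩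
  · exact U.injective_subtype.comp φ.injective
  · intro y
    exact (φ y).2
  · intro z hz
    obtain ⟨y, hy⟩ := φ.surjective ⟨z, hz⟩
    exact ⟨y, congrArg Subtype.val hy⟩

/-- a linear parametrisation of a complement of a line in a subspace -/
lemma param' [FiniteDimensional ℂ E] (U : Submodule ℂ E) {v : E} (hv : v ∈ U) (hv0 : v ≠ 0) :
    ∃ (m : ℕ) (h : ZeroAlg m →ₗ[ℂ] E), (∀ y, h y ∈ U) ∧
      (∀ (c : ℂ) y, c • v + h y = 0 → c = 0 ∧ y = 0) ∧
      ∀ z ∈ U, ∃ (c : ℂ) (y : ZeroAlg m), c • v + h y = z := by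
  obtain ⟨W, hW⟩ := Submodule.exists_isCompl (Submodule.span ℂ {(⟨v, hv⟩ : U)})
  obtain ⟨m, h, hinj, hmem, hsur⟩ := param (W.map U.subtype)
  refine ⟨m, h, ?_, ?_, ?_⟩
  · intro y
    obtain ⟨w, -, hw⟩ := Submodule.mem_map.1 (hmem y)
    rw [← hw]
    exact w.2
  · intro c y h0
    obtain ⟨w, hwW, hw⟩ := Submodule.mem_map.1 (hmem y)
    have h1 : c • (⟨v, hv⟩ : U) + w = 0 := by
      apply Subtype.ext
      show c • v + (w : E) = 0
      rw [← h0, ← hw]
      rfl
    have h2 : w ∈ Submodule.span ℂ {(⟨v, hv⟩ : U)} := by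
      have : w = (-c) • (⟨v, hv⟩ : U) := by
        rw [neg_smul]
        exact eq_neg_of_add_eq_zero_right h1
      rw [this]
      exact Submodule.smul_mem _ _ (Submodule.mem_span_singleton_self _)
    have h3 : w = 0 := by
      have := hW.disjoint.le_bot ⟨h2, hwW⟩
      simpa using this
    rw [h3, add_zero, smul_eq_zero] at h1
    have h4 : c = 0 := by
      refine h1.resolve_right fun h5 => hv0 ?_
      exact congrArg Subtype.val h5
    refine ⟨h4, ?_⟩
    have h5 : h y = 0 := by
      rw [← hw, h3]
      rfl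
    exact hinj (by rw [h5, map_zero])
  · intro z hz
    have h1 : (⟨z, hz⟩ : U) ∈ Submodule.span ℂ {(⟨v, hv⟩ : U)} ⊔ W := by
      rw [hW.sup_eq_top]
      trivial
    obtain ⟨a, ha, w, hw, haw⟩ := Submodule.mem_sup.1 h1
    obtain ⟨c, rfl⟩ := Submodule.mem_span_singleton.1 ha
    obtain ⟨y, hy⟩ := hsur (w : E) (Submodule.mem_map_of_mem (f := U.subtype) hw)
    refine ⟨c, y, ?_⟩
    rw [hy]
    exact congrArg Subtype.val haw

/-- triangular systems -/
noncomputable def wrec (a : ℕ → ℕ → ℂ) (u : ℕ → E) (s : ℕ) : E :=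
  (a s s)⁻¹ • (u s - ∑ s' : Fin s, a s s'.1 • wrec a u s'.1)
termination_by s
decreasing_by exact s'.2

lemma wrec_spec (a : ℕ → ℕ → ℂ) (u : ℕ → E) (s : ℕ) (hs : a s s ≠ 0) :
    ∑ s' : Fin (s + 1), a s s'.1 • wrec a u s'.1 = u s := by
  rw [Fin.sum_univ_castSucc]
  show ∑ s' : Fin s, a s s'.1 • wrec a u s'.1 + a s s • wrec a u s = u s
  conv_lhs =>
    rw [wrec.eq_1 a u s]
  rw [smul_smul, mul_inv_cancel₀ hs, one_smul]
  abel

lemma wrec_mem (a : ℕ → ℕ → ℂ) (u : ℕ → E) (U : Submodule ℂ E) (hu : ∀ s, u s ∈ U) (s : ℕ) :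
    wrec a u s ∈ U := by
  induction s using Nat.strong_induction_on with
  | _ s ih =>
    rw [wrec.eq_1]
    exact U.smul_mem _ (U.sub_mem (hu s) (U.sum_mem fun s' _ => U.smul_mem _ (ih s'.1 s'.2)))

lemma Iso.finrank {F G : Type*} [NonUnitalNonAssocRing F] [Module ℂ F] [NonUnitalNonAssocRing G]
    [Module ℂ G] (h : Iso F G) : Module.finrank ℂ F = Module.finrank ℂ G := by
  obtain ⟨f, -⟩ := h
  exact f.finrank_eq

section Classify

variable {n : ℕ} {b : Module.Basis (Fin n) ℂ E}

lemma mul_zero_of (hb : IsNatural b) (j : ℕ → Fin n) {x y : E}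
    (h : ∀ i, i ∉ ZS b j 0 → b.repr x i * b.repr y i = 0) : x * y = 0 := by
  rw [mul_eq hb]
  refine Finset.sum_eq_zero fun i _ => ?_
  by_cases hi : i ∈ ZS b j 0
  · rcases hi with hi | ⟨r, hr, _⟩
    · rw [hi, smul_zero]
    · exact absurd hr (Nat.not_lt_zero r)
  · rw [h i hi, zero_smul]

lemma repr_basis_ne {i k : Fin n} (h : i ≠ k) : b.repr (b k) i = 0 := by
  rw [b.repr_self, Finsupp.single_eq_of_ne h]

lemma repr_basis_self (i : Fin n) : b.repr (b i) i = 1 := by
  rw [b.repr_self, Finsupp.single_eq_same]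

/-- **The classification.** -/
theorem classify (hb : IsNatural b) (hP : CondP E n) (hN : ¬ Nilp E) :
    Iso E (ℂ × ZeroAlg (n - 1)) ∨ ∃ s, 2 ≤ s ∧ s ≤ n - 1 ∧ ∃ A : Matrix (Fin s) (Fin s) ℂ,
      ZN s (Ev A) ∧ Iso E (ℂ × Ev A × ZeroAlg (n - s - 1)) := by
  classical
  have hfd : FiniteDimensional ℂ E := Module.Finite.of_basis b
  have hfr : Module.finrank ℂ E = n := by
    rw [Module.finrank_eq_card_basis b, Fintype.card_fin]
  have hn : 0 < n := by
    rcases Nat.eq_zero_or_pos n with h0 | h0
    · exfalso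
      apply hN
      refine ⟨1, le_rfl, ?_⟩
      rw [pw_one]
      have : Subsingleton E := by
        subst h0
        exact b.repr.toEquiv.injective.subsingleton
      exact Subsingleton.elim _ _
    · exact h0
  obtain ⟨t, j, hj, hmax⟩ := exists_maxChain hn b
  have hle1 := compl_le_one hP hb (ZS b j t) (hj.closed le_rfl) (fun i hi => Or.inl hi) hmax
  obtain ⟨p, hp⟩ : ∃ p, p ∉ ZS b j t := by
    by_contra hcon
    push Not at hcon
    exact hN (nilp_of_full hb hj hcon)
  have hall : ∀ i, i ∉ ZS b j t → i = p := fun i hi => hle1 i p hi hp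
  have hlam : b.repr (b p * b p) p ≠ 0 := by
    obtain ⟨l, hl, hl2⟩ := hmax p hp
    rw [hall l hl] at hl2
    exact hl2
  have hlast := last_sq hP hb hj hp hall hlam
  have hp0 : p ∉ ZS b j 0 := fun h0 => hp (ZS_mono (Nat.zero_le t) h0)
  set lam : ℂ := b.repr (b p * b p) p with hlamdef
  set e : E := (lam⁻¹ * lam⁻¹) • (b p * b p) with he
  have hep : b.repr e p = lam⁻¹ := by
    rw [he, map_smul, Finsupp.smul_apply, ← hlamdef, smul_eq_mul]
    field_simp
  have hei : ∀ i, i ∉ ZS b j 0 → i ≠ p → b.repr e i = 0 := by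
    intro i hi hip
    rw [he, map_smul, Finsupp.smul_apply, hlast i hi hip, smul_zero]
  have hee : e * e = e := by
    rw [mul_eq hb, Finset.sum_eq_single p]
    · rw [hep]
    · intro i _ hip
      by_cases hi : i ∈ ZS b j 0
      · rcases hi with hi | ⟨r, hr, _⟩
        · rw [hi, smul_zero]
        · exact absurd hr (Nat.not_lt_zero r)
      · rw [hei i hi hip, zero_mul, zero_smul]
    · intro h0
      exact absurd (Finset.mem_univ p) h0
  clear_value e
  set U : Submodule ℂ E := VZ b (ZS b j 0) with hU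
  have hUmul : ∀ x ∈ U, ∀ y, x * y = 0 := fun x hx y => VZ0_mul hb j hx y
  have hUmul' : ∀ x ∈ U, ∀ y, y * x = 0 := fun x hx y => by rw [comm hb]; exact hUmul x hx y
  rcases Nat.eq_zero_or_pos t with ht | ht
  · -- the empty chain
    left
    subst ht
    obtain ⟨m, h, hinj, hmem, hsur⟩ := param U
    have hiso : Iso E (ℂ × ZeroAlg m) := by
      refine assemble0 e h hee (fun y z => hUmul _ (hmem y) z) (fun y z => hUmul' _ (hmem y) z) ?_ ?_
      · intro c y h0
        have h1 : b.repr (c • e + h y) p = 0 := by rw [h0]; simp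
        rw [map_add, Finsupp.add_apply, map_smul, Finsupp.smul_apply, hep, hmem y p hp0, add_zero,
          smul_eq_mul] at h1
        have hc : c = 0 := (mul_eq_zero.1 h1).resolve_right (inv_ne_zero hlam)
        refine ⟨hc, hinj ?_⟩
        rw [hc, zero_smul, zero_add] at h0
        rw [h0, map_zero]
      · intro z
        have hzU : z - (b.repr z p * lam) • e ∈ U := by
          intro i hi
          rw [hall i hi, map_sub, Finsupp.sub_apply, map_smul, Finsupp.smul_apply, hep, smul_eq_mul,
            mul_assoc, mul_inv_cancel₀ hlam, mul_one, sub_self]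
        obtain ⟨y, hy⟩ := hsur _ hzU
        exact ⟨_, y, by rw [hy]; abel⟩
    have hm : m = n - 1 := by
      have := hiso.finrank
      rw [hfr, Module.finrank_prod, Module.finrank_self, ev_finrank] at this
      omega
    rw [← hm]
    exact hiso
  · -- a nonempty chain
    right
    have hj0 : ∀ s < t, j s ∉ ZS b j 0 := fun s hs h0 => (hj s hs).1 (ZS_mono (Nat.zero_le s) h0)
    have hjp : ∀ s < t, p ≠ j s := fun s hs h0 => hp (Or.inr ⟨s, hs, h0.symm⟩)
    have hjinj : ∀ s < t, ∀ s' < t, s ≠ s' → j s ≠ j s' := by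
      intro s hs s' hs' hne
      rcases Nat.lt_or_gt_of_ne hne with h | h
      · exact hj.inj h hs'
      · exact (hj.inj h hs).symm
    have hcases : ∀ i, i ∉ ZS b j 0 → i = p ∨ ∃ s < t, i = j s := by
      intro i hi
      by_cases h : i ∈ ZS b j t
      · rcases h with h | ⟨s, hs, h⟩
        · exact absurd (Or.inl h) hi
        · exact Or.inr ⟨s, hs, h.symm⟩
      · exact Or.inl (hall i h)
    set v : E := b (j 0) * b (j 0) with hv
    have hvU : v ∈ U := fun i hi => (hj 0 ht).2 i hi
    have hv0 : v ≠ 0 := fun h0 => (hj 0 ht).1 (Or.inl h0)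
    clear_value v
    set a : ℕ → ℕ → ℂ := fun s s' => if s + 1 < t then b.repr (b (j (s + 1)) * b (j (s + 1))) (j s')
      else 0 with ha
    set u : ℕ → E := fun s => if s + 1 < t then b (j (s + 1)) * b (j (s + 1)) -
      ∑ s' : Fin (s + 1), a s s'.1 • b (j s'.1) else 0 with hu
    have huU : ∀ s, u s ∈ U := by
      intro s
      by_cases hs : s + 1 < t
      · have hus : u s = b (j (s + 1)) * b (j (s + 1)) - ∑ s' : Fin (s + 1), a s s'.1 • b (j s'.1) := by
          rw [hu]
          simp only
          rw [if_pos hs]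
        rw [hus]
        intro i hi
        rw [map_sub, Finsupp.sub_apply, map_sum, Finsupp.finset_sum_apply]
        by_cases hiz : i ∈ ZS b j (s + 1)
        · obtain ⟨r, hr, hri⟩ : ∃ r < s + 1, j r = i := by
            rcases hiz with h | h
            · exact absurd (Or.inl h) hi
            · exact h
          rw [Finset.sum_eq_single (⟨r, hr⟩ : Fin (s + 1))]
          · rw [map_smul, Finsupp.smul_apply, ← hri, repr_basis_self, smul_eq_mul, mul_one, ha]
            simp only
            rw [if_pos hs, sub_self]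
          · intro s' _ hs'
            rw [map_smul, Finsupp.smul_apply, ← hri, repr_basis_ne, smul_zero]
            refine hjinj r (by omega) s'.1 (by have := s'.2; omega) fun h => hs' (Fin.ext h.symm)
          · intro h
            exact absurd (Finset.mem_univ _) h
        · rw [(hj (s + 1) hs).2 i hiz, Finset.sum_eq_zero, sub_self]
          intro s' _
          rw [map_smul, Finsupp.smul_apply, repr_basis_ne, smul_zero]
          intro h
          exact hiz (Or.inr ⟨s'.1, s'.2, h.symm⟩)
      · have hus : u s = 0 := by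
          rw [hu]
          simp only
          rw [if_neg hs]
        rw [hus]
        exact U.zero_mem
    set w : ℕ → E := wrec a u with hw
    have hwU : ∀ s, w s ∈ U := wrec_mem a u U huU
    set f : ℕ → E := fun s => b (j s) + w s with hf
    have hfrepr : ∀ s, ∀ i, i ∉ ZS b j 0 → b.repr (f s) i = b.repr (b (j s)) i := by
      intro s i hi
      rw [hf]
      simp only
      rw [map_add, Finsupp.add_apply, hwU s i hi, add_zero]
    have hff : ∀ s, f s * f s = b (j s) * b (j s) := by
      intro s
      rw [hf]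
      simp only
      rw [add_mul, mul_add, hUmul _ (hwU s), hUmul' _ (hwU s), add_zero, add_zero]
    have hff' : ∀ s < t, ∀ s' < t, s ≠ s' → f s * f s' = 0 := by
      intro s hs s' hs' hne
      rw [hf]
      simp only
      rw [add_mul, mul_add, hUmul _ (hwU s), hUmul' _ (hwU s'), add_zero, add_zero]
      exact hb _ _ (hjinj s hs s' hs' hne)
    have hsq : ∀ s, s + 1 < t → b (j (s + 1)) * b (j (s + 1)) = ∑ s' : Fin (s + 1), a s s'.1 • f s'.1 := by
      intro s hs
      have hass : a s s ≠ 0 := by
        rw [ha]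
        simp only
        rw [if_pos hs]
        exact subdiag hP hb hj hs
      have h1 := wrec_spec a u s hass
      have h2 : u s = b (j (s + 1)) * b (j (s + 1)) - ∑ s' : Fin (s + 1), a s s'.1 • b (j s'.1) := by
        rw [hu]
        simp only
        rw [if_pos hs]
      rw [h2] at h1
      have h3 : ∑ s' : Fin (s + 1), a s s'.1 • f s'.1 =
          ∑ s' : Fin (s + 1), a s s'.1 • b (j s'.1) + ∑ s' : Fin (s + 1), a s s'.1 • wrec a u s'.1 := by
        rw [← Finset.sum_add_distrib]
        exact Finset.sum_congr rfl fun s' _ => smul_add _ _ _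
      rw [h3, h1]
      abel
    -- the matrix
    set A : Matrix (Fin (t + 1)) (Fin (t + 1)) ℂ := Matrix.of fun k l =>
      if k.1 = 0 then 0 else if k.1 = 1 then (if l.1 = 0 then 1 else 0)
      else (if l.1 = 0 then 0 else if l.1 ≤ k.1 - 1 then a (k.1 - 2) (l.1 - 1) else 0) with hA
    have hA1 : ∀ k l : Fin (t + 1), k ≤ l → A k l = 0 := by
      intro k l hkl
      have hkl' : k.1 ≤ l.1 := hkl
      rw [hA, Matrix.of_apply]
      split_ifs <;> first | rfl | omega
    have hA2 : ∀ k l : Fin (t + 1), k.1 = l.1 + 1 → A k l ≠ 0 := by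
      intro k l hkl
      have hk := k.2
      rw [hA, Matrix.of_apply, if_neg (by omega)]
      by_cases hk1 : k.1 = 1
      · rw [if_pos hk1, if_pos (by omega)]
        exact one_ne_zero
      · rw [if_neg hk1, if_neg (by omega), if_pos (by omega)]
        have e1 : k.1 - 2 = l.1 - 1 := by omega
        have hs : l.1 - 1 + 1 < t := by omega
        rw [e1, ha]
        simp only
        rw [if_pos hs]
        exact subdiag hP hb hj hs
    set G : Fin (t + 1) → E := Fin.cons v (fun s : Fin t => f s.1) with hG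
    have hG0 : G 0 = v := rfl
    have hGs : ∀ s : Fin t, G s.succ = f s.1 := fun s => rfl
    have hGG' : ∀ k l, k ≠ l → G k * G l = 0 := by
      intro k l hkl
      rcases Fin.eq_zero_or_eq_succ k with rfl | ⟨k', rfl⟩
      · rw [hG0]
        exact hUmul _ hvU _
      · rcases Fin.eq_zero_or_eq_succ l with rfl | ⟨l', rfl⟩
        · rw [hG0]
          exact hUmul' _ hvU _
        · rw [hGs, hGs]
          exact hff' k'.1 k'.2 l'.1 l'.2 fun h => hkl (by rw [Fin.ext h])
    have hGG : ∀ k, G k * G k = ∑ l, A k l • G l := by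
      intro k
      rcases Fin.eq_zero_or_eq_succ k with rfl | ⟨k', rfl⟩
      · rw [hG0, hUmul _ hvU]
        symm
        refine Finset.sum_eq_zero fun l _ => ?_
        rw [hA1 0 l (Fin.zero_le l), zero_smul]
      · rw [hGs, hff, Fin.sum_univ_succ]
        rcases Nat.eq_zero_or_pos k'.1 with hk' | hk'
        · have e1 : A k'.succ 0 = 1 := by
            rw [hA, Matrix.of_apply, if_neg (by simp), if_pos (by rw [Fin.val_succ, hk'])]
            simp
          rw [e1, one_smul, hG0, hk', ← hv, Finset.sum_eq_zero, add_zero]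
          intro l _
          rw [hA1 _ _ (by rw [Fin.succ_le_succ_iff, Fin.le_def, hk']; exact Nat.zero_le _), zero_smul]
        · have e1 : A k'.succ 0 = 0 := by
            rw [hA, Matrix.of_apply, if_neg (by simp), if_neg (by rw [Fin.val_succ]; omega)]
            simp
          rw [e1, zero_smul, zero_add]
          obtain ⟨s, hs⟩ := Nat.exists_eq_add_of_le' hk'
          have hst : s + 1 < t := by have := k'.2; omega
          rw [hs, hsq s hst]
          have e2 : ∀ l : Fin t, A k'.succ l.succ • G l.succ =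
              if l.1 < s + 1 then a s l.1 • f l.1 else 0 := by
            intro l
            rw [hA, Matrix.of_apply, if_neg (by simp), if_neg (by rw [Fin.val_succ]; omega),
              if_neg (by simp), hGs, Fin.val_succ, Fin.val_succ]
            have e3 : k'.1 + 1 - 1 = s + 1 := by omega
            have e4 : k'.1 + 1 - 2 = s := by omega
            have e5 : l.1 + 1 - 1 = l.1 := by omega
            rw [e3, e4, e5]
            by_cases hl : l.1 < s + 1
            · rw [if_pos (by omega), if_pos hl]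
            · rw [if_neg (by omega), if_neg hl, zero_smul]
          rw [Finset.sum_congr rfl fun l _ => e2 l]
          rw [Fin.sum_univ_eq_sum_range (fun l => if l < s + 1 then a s l • f l else 0) t,
            Fin.sum_univ_eq_sum_range (fun l => a s l • f l) (s + 1), Finset.sum_ite, Finset.sum_const_zero,
            add_zero]
          refine Finset.sum_congr ?_ fun _ _ => rfl
          ext l
          simp only [Finset.mem_range, Finset.mem_filter]
          omega
    let g : Ev A →ₗ[ℂ] E := (Fintype.linearCombination ℂ G : (Fin (t + 1) → ℂ) →ₗ[ℂ] E)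
    have hg : ∀ x : Ev A, g x = ∑ k, x k • G k := fun x => rfl
    have hGe : ∀ k, e * G k = 0 := by
      intro k
      rcases Fin.eq_zero_or_eq_succ k with rfl | ⟨k', rfl⟩
      · exact hUmul' _ hvU _
      · rw [hGs]
        refine mul_zero_of hb j fun i hi => ?_
        rw [hfrepr _ i hi]
        by_cases hip : i = p
        · rw [hip, repr_basis_ne (hjp k'.1 k'.2), mul_zero]
        · rw [hei i hi hip, zero_mul]
    have hge : ∀ x : Ev A, e * g x = 0 := by
      intro x
      rw [hg, Finset.mul_sum]
      refine Finset.sum_eq_zero fun k _ => ?_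
      rw [mul_smul_comm, hGe, smul_zero]
    obtain ⟨m, h, hmem, hinj, hsur⟩ := param' U hvU hv0
    have hiso : Iso E (ℂ × Ev A × ZeroAlg m) := by
      refine assemble e g h hee hge (fun x => by rw [comm hb]; exact hge x)
        (fun y z => hUmul _ (hmem y) z) (fun y z => hUmul' _ (hmem y) z) ?_ ?_ ?_
      · intro x x'
        have h1 : g x * g x' = ∑ k, (x k * x' k) • (G k * G k) := by
          rw [hg, hg, Finset.sum_mul]
          refine Finset.sum_congr rfl fun k _ => ?_
          rw [Finset.mul_sum, Finset.sum_eq_single k]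
          · rw [smul_mul_smul_comm]
          · intro l _ hl
            rw [smul_mul_smul_comm, hGG' k l (Ne.symm hl), smul_zero]
          · intro h0
            exact absurd (Finset.mem_univ k) h0
        rw [h1, hg]
        have h2 : ∀ k, (x k * x' k) • (G k * G k) = ∑ l, (x k * x' k * A k l) • G l := by
          intro k
          rw [hGG, Finset.smul_sum]
          exact Finset.sum_congr rfl fun l _ => by rw [smul_smul]
        rw [Finset.sum_congr rfl fun k _ => h2 k, Finset.sum_comm]
        refine Finset.sum_congr rfl fun l _ => ?_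
        rw [← Finset.sum_smul]
        rfl
      · intro c x y h0
        have hgx : g x = x 0 • v + ∑ s : Fin t, x s.succ • f s.1 := by
          rw [hg, Fin.sum_univ_succ]
          rfl
        have hcoord : ∀ i, i ∉ ZS b j 0 → c * b.repr e i +
            ∑ s : Fin t, x s.succ * b.repr (b (j s.1)) i = 0 := by
          intro i hi
          have h1 : b.repr (c • e + (g x + h y)) i = 0 := by rw [h0]; simp
          rw [hgx] at h1
          simp only [map_add, map_smul, map_sum, Finsupp.add_apply, Finsupp.smul_apply,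
            Finsupp.finset_sum_apply, smul_eq_mul] at h1
          rw [hmem y i hi, add_zero, hvU i hi, mul_zero, zero_add] at h1
          rw [← h1]
          congr 1
          refine Finset.sum_congr rfl fun s _ => ?_
          rw [hfrepr _ i hi]
        have hc : c = 0 := by
          have h1 := hcoord p hp0
          rw [hep, Finset.sum_eq_zero (fun s _ => by rw [repr_basis_ne (hjp s.1 s.2), mul_zero]),
            add_zero] at h1
          exact (mul_eq_zero.1 h1).resolve_right (inv_ne_zero hlam)
        have hxs : ∀ s : Fin t, x s.succ = 0 := by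
          intro s
          have h1 := hcoord (j s.1) (hj0 s.1 s.2)
          rw [hc, zero_mul, zero_add, Finset.sum_eq_single s] at h1
          · rwa [repr_basis_self, mul_one] at h1
          · intro s' _ hs'
            rw [repr_basis_ne, mul_zero]
            exact hjinj s.1 s.2 s'.1 s'.2 fun h' => hs' (Fin.ext h'.symm)
          · intro h'
            exact absurd (Finset.mem_univ s) h'
        rw [hgx, hc, zero_smul, zero_add, Finset.sum_eq_zero (fun s _ => by rw [hxs s, zero_smul]),
          add_zero] at h0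
        obtain ⟨hx0, hy⟩ := hinj _ _ h0
        refine ⟨hc, ?_, hy⟩
        funext k
        rcases Fin.eq_zero_or_eq_succ k with rfl | ⟨k', rfl⟩
        · exact hx0
        · exact hxs k'
      · intro z
        have hzU : z - (b.repr z p * lam) • e - ∑ s : Fin t, b.repr z (j s.1) • f s.1 ∈ U := by
          intro i hi
          rw [map_sub, map_sub, Finsupp.sub_apply, Finsupp.sub_apply, map_smul, Finsupp.smul_apply,
            map_sum, Finsupp.finset_sum_apply, smul_eq_mul]
          have h1 : ∀ s : Fin t, b.repr (b.repr z (j s.1) • f s.1) i =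
              b.repr z (j s.1) * b.repr (b (j s.1)) i := by
            intro s
            rw [map_smul, Finsupp.smul_apply, hfrepr _ i hi, smul_eq_mul]
          rw [Finset.sum_congr rfl fun s _ => h1 s]
          rcases hcases i hi with rfl | ⟨s, hs, rfl⟩
          · rw [hep, mul_assoc, mul_inv_cancel₀ hlam, mul_one, sub_self, zero_sub, neg_eq_zero]
            refine Finset.sum_eq_zero fun s _ => ?_
            rw [repr_basis_ne (hjp s.1 s.2), mul_zero]
          · rw [hei _ hi (Ne.symm (hjp s hs)), mul_zero, sub_zero,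
              Finset.sum_eq_single (⟨s, hs⟩ : Fin t)]
            · rw [repr_basis_self, mul_one, sub_self]
            · intro s' _ hs'
              rw [repr_basis_ne, mul_zero]
              exact hjinj s hs s'.1 s'.2 fun h' => hs' (Fin.ext h'.symm)
            · intro h'
              exact absurd (Finset.mem_univ _) h'
        obtain ⟨c', y, hy⟩ := hsur _ hzU
        let X : Ev A := (Fin.cons c' (fun s : Fin t => b.repr z (j s.1)) : Fin (t + 1) → ℂ)
        have hgx : g X = c' • v + ∑ s : Fin t, b.repr z (j s.1) • f s.1 := by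
          rw [hg X, Fin.sum_univ_succ]
          rfl
        refine ⟨b.repr z p * lam, X, y, ?_⟩
        rw [hgx]
        have h5 : c' • v + h y + ∑ s : Fin t, b.repr z (j s.1) • f s.1 + (b.repr z p * lam) • e = z := by
          rw [hy]
          abel
        refine Eq.trans ?_ h5
        abel
    have hdim := hiso.finrank
    rw [hfr, Module.finrank_prod, Module.finrank_self, Module.finrank_prod, ev_finrank,
      ev_finrank] at hdim
    have hm : m = n - (t + 1) - 1 := by omega
    refine ⟨t + 1, by omega, by omega, A, chain_ZN A (by omega) hA1 hA2, ?_⟩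
    rw [← hm]
    exact hiso

end Classify

end Pool.Agent.Q230.Evo
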