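import Mathlib
import Pool.Agent.Helper27.Har.P_global_ode

/-!
# The equation `y'''' + e^{iκx} y = λ y`
Existence, uniqueness, Floquet solutions.
-/

set_option autoImplicit false

open Set Filter Topology MeasureTheory
open scoped ContDiff

namespace Pool.Agent.Q230.Gas

/-- the potential -/
noncomputable def q (κ : ℝ) (x : ℝ) : ℂ := Complex.exp (Complex.I * κ * x)

lemma q_norm (κ x : ℝ) : ‖q κ x‖ = 1 := by
  unfold q
  rw [Complex.norm_exp]
  simp

lemma q_cont (κ : ℝ) : Continuous (q κ) := by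
  unfold q
  fun_prop

lemma q_smooth (κ : ℝ) : ContDiff ℝ ∞ (q κ) := by
  unfold q
  have h : ContDiff ℝ ∞ (fun x : ℝ => Complex.I * κ * (x : ℂ)) :=
    contDiff_const.mul Complex.ofRealCLM.contDiff
  exact h.cexp

/-- the vector field -/
noncomputable def F (κ : ℝ) (lam : ℂ) (t : ℝ) (Y : Fin 4 → ℂ) : Fin 4 → ℂ :=
  ![Y 1, Y 2, Y 3, (lam - q κ t) * Y 0]

lemma F_lip (κ : ℝ) (lam : ℂ) (t : ℝ) : LipschitzWith (‖lam‖₊ + 1) (F κ lam t) := by
  refine LipschitzWith.of_dist_le_mul fun Y Z => ?_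
  rw [dist_eq_norm, dist_eq_norm]
  have hC : (0 : ℝ) ≤ ((‖lam‖₊ + 1 : NNReal) : ℝ) := NNReal.coe_nonneg _
  have h1 : (1 : ℝ) ≤ ((‖lam‖₊ + 1 : NNReal) : ℝ) := by
    push_cast
    linarith [norm_nonneg lam]
  have hi : ∀ i, ‖(Y - Z) i‖ ≤ ‖Y - Z‖ := fun i => norm_le_pi_norm _ i
  have hb : ∀ i, ‖(Y - Z) i‖ ≤ ((‖lam‖₊ + 1 : NNReal) : ℝ) * ‖Y - Z‖ := fun i =>
    (hi i).trans (le_mul_of_one_le_left (norm_nonneg _) h1)
  rw [pi_norm_le_iff_of_nonneg (mul_nonneg hC (norm_nonneg _))]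
  intro i
  fin_cases i
  · exact hb 1
  · exact hb 2
  · exact hb 3
  · show ‖(lam - q κ t) * Y 0 - (lam - q κ t) * Z 0‖ ≤ _
    rw [← mul_sub, norm_mul]
    refine mul_le_mul ?_ (hi 0) (norm_nonneg _) hC
    refine (norm_sub_le _ _).trans ?_
    rw [q_norm]
    push_cast
    rfl

lemma F_cont (κ : ℝ) (lam : ℂ) : Continuous (Function.uncurry (F κ lam)) := by
  have hq := q_cont κ
  refine continuous_pi fun i => ?_
  fin_cases i
  · show Continuous fun p : ℝ × (Fin 4 → ℂ) => p.2 1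
    fun_prop
  · show Continuous fun p : ℝ × (Fin 4 → ℂ) => p.2 2
    fun_prop
  · show Continuous fun p : ℝ × (Fin 4 → ℂ) => p.2 3
    fun_prop
  · show Continuous fun p : ℝ × (Fin 4 → ℂ) => (lam - q κ p.1) * p.2 0
    fun_prop

/-- solutions -/
def Sol (κ : ℝ) (lam : ℂ) (y : ℝ → ℂ) : Prop :=
  ContDiff ℝ 4 y ∧ ∀ x, iteratedDeriv 4 y x + q κ x * y x = lam * y x

/-- the vector of the derivatives -/
noncomputable def jet (y : ℝ → ℂ) (x : ℝ) : Fin 4 → ℂ := fun k => iteratedDeriv k y x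

lemma Sol.ode {κ : ℝ} {lam : ℂ} {y : ℝ → ℂ} (h : Sol κ lam y) (x : ℝ) :
    HasDerivAt (jet y) (F κ lam x (jet y x)) x := by
  rw [hasDerivAt_pi]
  have hd : ∀ k : ℕ, k < 4 → HasDerivAt (iteratedDeriv k y) (iteratedDeriv (k + 1) y x) x := by
    intro k hk
    rw [iteratedDeriv_succ]
    exact (h.1.differentiable_iteratedDeriv k (by exact_mod_cast hk) x).hasDerivAt
  intro i
  fin_cases i
  · exact hd 0 (by norm_num)
  · exact hd 1 (by norm_num)
  · exact hd 2 (by norm_num)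
  · have h3 := hd 3 (by norm_num)
    have e : iteratedDeriv (3 + 1) y x = (lam - q κ x) * y x := by
      have := h.2 x
      show iteratedDeriv 4 y x = _
      linear_combination this
    rw [e] at h3
    simpa [F, jet] using h3

lemma Sol.ext {κ : ℝ} {lam : ℂ} {y z : ℝ → ℂ} (hy : Sol κ lam y) (hz : Sol κ lam z) {x₀ : ℝ}
    (h : jet y x₀ = jet z x₀) : y = z := by
  have h1 := ODE_solution_unique_univ (v := F κ lam) (s := fun _ => univ) (K := ‖lam‖₊ + 1)
    (fun t => (F_lip κ lam t).lipschitzOnWith) (fun t => ⟨hy.ode t, mem_univ _⟩)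
    (fun t => ⟨hz.ode t, mem_univ _⟩) h
  funext x
  have := congrFun (congrFun h1 x) 0
  simpa [jet] using this

lemma exists_sol (κ : ℝ) (lam : ℂ) (v : Fin 4 → ℂ) : ∃ y, Sol κ lam y ∧ jet y 0 = v := by
  obtain ⟨Y, h0, hY⟩ := Haraux.global_ode (F κ lam) (‖lam‖₊ + 1) (F_lip κ lam) (F_cont κ lam) v
  have hc : ∀ t i, HasDerivAt (fun s => Y s i) (F κ lam t (Y t) i) t := fun t i =>
    (hasDerivAt_pi.1 (hY t)) i
  have d0 : ∀ t, HasDerivAt (fun s => Y s 0) (Y t 1) t := fun t => hc t 0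
  have d1 : ∀ t, HasDerivAt (fun s => Y s 1) (Y t 2) t := fun t => hc t 1
  have d2 : ∀ t, HasDerivAt (fun s => Y s 2) (Y t 3) t := fun t => hc t 2
  have d3 : ∀ t, HasDerivAt (fun s => Y s 3) ((lam - q κ t) * Y t 0) t := fun t => hc t 3
  have e0 : deriv (fun s => Y s 0) = fun s => Y s 1 := funext fun t => (d0 t).deriv
  have e1 : deriv (fun s => Y s 1) = fun s => Y s 2 := funext fun t => (d1 t).deriv
  have e2 : deriv (fun s => Y s 2) = fun s => Y s 3 := funext fun t => (d2 t).deriv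
  have e3 : deriv (fun s => Y s 3) = fun s => (lam - q κ s) * Y s 0 :=
    funext fun t => (d3 t).deriv
  have c0 : Continuous (fun s => Y s 0) := continuous_iff_continuousAt.2 fun t => (d0 t).continuousAt
  have hq := q_cont κ
  have s3 : ContDiff ℝ 1 (fun s => Y s 3) := by
    rw [contDiff_one_iff_deriv]
    refine ⟨fun t => (d3 t).differentiableAt, ?_⟩
    rw [e3]
    fun_prop
  have s2 : ContDiff ℝ 2 (fun s => Y s 2) := by
    have : (2 : WithTop ℕ∞) = 1 + 1 := by norm_num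
    rw [this, contDiff_succ_iff_deriv]
    refine ⟨fun t => (d2 t).differentiableAt, by simp, ?_⟩
    rw [e2]
    exact s3
  have s1 : ContDiff ℝ 3 (fun s => Y s 1) := by
    have : (3 : WithTop ℕ∞) = 2 + 1 := by norm_num
    rw [this, contDiff_succ_iff_deriv]
    refine ⟨fun t => (d1 t).differentiableAt, by simp, ?_⟩
    rw [e1]
    exact s2
  have s0 : ContDiff ℝ 4 (fun s => Y s 0) := by
    have : (4 : WithTop ℕ∞) = 3 + 1 := by norm_num
    rw [this, contDiff_succ_iff_deriv]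
    refine ⟨fun t => (d0 t).differentiableAt, by simp, ?_⟩
    rw [e0]
    exact s1
  have i1 : iteratedDeriv 1 (fun s => Y s 0) = fun s => Y s 1 := by
    rw [iteratedDeriv_one, e0]
  have i2 : iteratedDeriv 2 (fun s => Y s 0) = fun s => Y s 2 := by
    rw [iteratedDeriv_succ, i1, e1]
  have i3 : iteratedDeriv 3 (fun s => Y s 0) = fun s => Y s 3 := by
    rw [iteratedDeriv_succ, i2, e2]
  have i4 : iteratedDeriv 4 (fun s => Y s 0) = fun s => (lam - q κ s) * Y s 0 := by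
    rw [iteratedDeriv_succ, i3, e3]
  refine ⟨fun s => Y s 0, ⟨s0, fun x => ?_⟩, ?_⟩
  · rw [i4]
    ring
  · funext k
    fin_cases k
    · simp [jet, h0]
    · show iteratedDeriv 1 (fun s => Y s 0) 0 = v 1
      rw [i1]
      exact congrFun h0 1
    · show iteratedDeriv 2 (fun s => Y s 0) 0 = v 2
      rw [i2]
      exact congrFun h0 2
    · show iteratedDeriv 3 (fun s => Y s 0) 0 = v 3
      rw [i3]
      exact congrFun h0 3

lemma Sol.smul {κ : ℝ} {lam : ℂ} {y : ℝ → ℂ} (hy : Sol κ lam y) (c : ℂ) :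
    Sol κ lam (fun x => c * y x) := by
  refine ⟨contDiff_const.mul hy.1, fun x => ?_⟩
  rw [iteratedDeriv_const_mul_field]
  linear_combination c * hy.2 x

lemma jet_smul (y : ℝ → ℂ) (c : ℂ) (x : ℝ) :
    jet (fun x => c * y x) x = c • jet y x := by
  funext k
  show iteratedDeriv k (fun x => c * y x) x = c * iteratedDeriv k y x
  rw [iteratedDeriv_const_mul_field]

lemma Sol.shift {κ b : ℝ} (hκ : ∀ x, q κ (x + b) = q κ x) {lam : ℂ} {y : ℝ → ℂ}
    (hy : Sol κ lam y) : Sol κ lam (fun x => y (x + b)) := by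
  refine ⟨hy.1.comp (contDiff_id.add contDiff_const), fun x => ?_⟩
  rw [iteratedDeriv_comp_add_const]
  have := hy.2 (x + b)
  rw [hκ] at this
  exact this

lemma jet_shift (y : ℝ → ℂ) (b x : ℝ) : jet (fun x => y (x + b)) x = jet y (x + b) := by
  funext k
  show iteratedDeriv k (fun x => y (x + b)) x = iteratedDeriv k y (x + b)
  rw [iteratedDeriv_comp_add_const]

lemma Sol.sum {κ : ℝ} {lam : ℂ} {ι : Type} (s : Finset ι) {y : ι → ℝ → ℂ}
    (hy : ∀ i ∈ s, Sol κ lam (y i)) : Sol κ lam (fun x => ∑ i ∈ s, y i x) := by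
  refine ⟨ContDiff.sum fun i hi => (hy i hi).1, fun x => ?_⟩
  have : iteratedDeriv 4 (fun x => ∑ i ∈ s, y i x) x = ∑ i ∈ s, iteratedDeriv 4 (y i) x :=
    iteratedDeriv_fun_sum fun i hi => (hy i hi).1.contDiffAt
  rw [this, Finset.mul_sum, Finset.mul_sum, ← Finset.sum_add_distrib]
  exact Finset.sum_congr rfl fun i hi => (hy i hi).2 x

lemma jet_sum {ι : Type} (s : Finset ι) {y : ι → ℝ → ℂ} (hy : ∀ i ∈ s, ContDiff ℝ 4 (y i))
    (x : ℝ) : jet (fun x => ∑ i ∈ s, y i x) x = ∑ i ∈ s, jet (y i) x := by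
  funext k
  rw [Finset.sum_apply]
  show iteratedDeriv k (fun x => ∑ i ∈ s, y i x) x = ∑ i ∈ s, iteratedDeriv k (y i) x
  refine iteratedDeriv_fun_sum fun i hi => ((hy i hi).of_le ?_).contDiffAt
  have := k.2
  exact_mod_cast this.le

/-- fundamental systems -/
def Fund (κ : ℝ) (lam : ℂ) (u : Fin 4 → ℝ → ℂ) : Prop :=
  ∀ j, Sol κ lam (u j) ∧ jet (u j) 0 = Pi.single j 1

lemma exists_fund (κ : ℝ) (lam : ℂ) : ∃ u, Fund κ lam u := by
  choose u hu using fun j : Fin 4 => exists_sol κ lam (Pi.single j 1)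
  exact ⟨u, hu⟩

lemma Fund.unique {κ : ℝ} {lam : ℂ} {u u' : Fin 4 → ℝ → ℂ} (h : Fund κ lam u)
    (h' : Fund κ lam u') : u = u' :=
  funext fun j => (h j).1.ext (h' j).1 ((h j).2.trans (h' j).2.symm)

/-- the Floquet matrix -/
noncomputable def T (b : ℝ) (u : Fin 4 → ℝ → ℂ) : Matrix (Fin 4) (Fin 4) ℂ :=
  Matrix.of fun k j => iteratedDeriv k (u j) b

lemma Fund.comb {κ : ℝ} {lam : ℂ} {u : Fin 4 → ℝ → ℂ} (h : Fund κ lam u) (v : Fin 4 → ℂ) :
    Sol κ lam (fun x => ∑ j, v j * u j x) ∧ jet (fun x => ∑ j, v j * u j x) 0 = v ∧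
      ∀ b, jet (fun x => ∑ j, v j * u j x) b = (T b u).mulVec v := by
  have hs : ∀ j ∈ (Finset.univ : Finset (Fin 4)), Sol κ lam (fun x => v j * u j x) :=
    fun j _ => (h j).1.smul (v j)
  refine ⟨Sol.sum _ hs, ?_, ?_⟩
  · rw [jet_sum _ fun j hj => (hs j hj).1]
    simp only [jet_smul]
    funext k
    simp only [(h _).2, Finset.sum_apply, Pi.smul_apply, smul_eq_mul, Pi.single_apply]
    simp
  · intro b
    rw [jet_sum _ fun j hj => (hs j hj).1]
    simp only [jet_smul]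
    funext k
    simp only [Finset.sum_apply, Pi.smul_apply, smul_eq_mul, Matrix.mulVec, dotProduct, T,
      Matrix.of_apply, jet]
    exact Finset.sum_congr rfl fun j _ => mul_comm _ _

/-- multipliers are given by quasi-periodic solutions -/
theorem floquet {κ b : ℝ} (hκ : ∀ x, q κ (x + b) = q κ x) {lam : ℂ} {u : Fin 4 → ℝ → ℂ}
    (h : Fund κ lam u) (r : ℂ) :
    (Matrix.scalar (Fin 4) r - T b u).det = 0 ↔
      ∃ y, Sol κ lam y ∧ y ≠ 0 ∧ ∀ x, y (x + b) = r * y x := by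
  rw [← Matrix.exists_mulVec_eq_zero_iff]
  constructor
  · rintro ⟨v, hv, hT⟩
    obtain ⟨h1, h2, h3⟩ := h.comb v
    obtain ⟨y, hy⟩ : ∃ y : ℝ → ℂ, y = fun x => ∑ j, v j * u j x := ⟨_, rfl⟩
    rw [← hy] at h1 h2
    simp only [← hy] at h3
    refine ⟨y, h1, ?_, ?_⟩
    · intro h0
      apply hv
      rw [← h2, h0]
      funext k
      show iteratedDeriv k (fun _ => (0 : ℂ)) 0 = 0
      simp
    · have h4 := (h1.shift hκ).ext (h1.smul r) (x₀ := 0) (by
        rw [jet_shift, jet_smul, zero_add, h2, h3]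
        rw [Matrix.sub_mulVec, sub_eq_zero] at hT
        rw [← hT]
        funext k
        simp [Matrix.scalar_apply, Matrix.mulVec_diagonal])
      exact fun x => congrFun h4 x
  · rintro ⟨y, hy, hy0, hyb⟩
    set v := jet y 0 with hv
    obtain ⟨h1, h2, h3⟩ := h.comb v
    have h4 := h1.ext hy (x₀ := 0) h2
    refine ⟨v, ?_, ?_⟩
    · intro h0
      apply hy0
      rw [← h4, h0]
      funext x
      simp
    · have h5 := h3 b
      rw [h4] at h5
      have h6 : jet y b = r • v := by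
        have : jet (fun x => y (x + b)) 0 = jet (fun x => r * y x) 0 := by
          congr 1
          exact funext hyb
        rw [jet_shift, jet_smul, zero_add] at this
        exact this
      rw [Matrix.sub_mulVec, ← h5, h6, sub_eq_zero]
      funext k
      simp [Matrix.scalar_apply, Matrix.mulVec_diagonal]

/-! ### Floquet solutions -/

/-- the exponents -/
noncomputable def ex (κ : ℝ) (β : ℂ) (n : ℕ) : ℂ := β + Complex.I * κ * n

/-- the denominators -/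
noncomputable def w (κ : ℝ) (lam β : ℂ) (n : ℕ) : ℂ := (ex κ β n) ^ 4 - lam

/-- the coefficients -/
noncomputable def c (κ : ℝ) (lam β : ℂ) : ℕ → ℂ
  | 0 => 1
  | n + 1 => -c κ lam β n / w κ lam β (n + 1)

lemma ex_norm_le (κ : ℝ) (hκ : 0 < κ) (β : ℂ) (n : ℕ) :
    ‖ex κ β n‖ ≤ (1 + ‖β‖ + κ) * (n + 1) := by
  unfold ex
  refine (norm_add_le _ _).trans ?_
  rw [norm_mul, norm_mul, Complex.norm_I, one_mul, Complex.norm_real, Real.norm_of_nonneg hκ.le,
    Complex.norm_natCast]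
  have h1 : 0 ≤ ‖β‖ := norm_nonneg _
  have h2 : (0 : ℝ) ≤ n := Nat.cast_nonneg _
  nlinarith [mul_nonneg h1 h2]

lemma w_tendsto {κ : ℝ} (hκ : 0 < κ) (lam β : ℂ) :
    Tendsto (fun n => ‖w κ lam β n‖) atTop atTop := by
  have h1 : Tendsto (fun n : ℕ => κ * (n : ℝ) - ‖β‖) atTop atTop :=
    tendsto_atTop_add_const_right _ _ (tendsto_natCast_atTop_atTop.const_mul_atTop hκ)
  have h2 : Tendsto (fun n : ℕ => (κ * (n : ℝ) - ‖β‖) ^ 4 - ‖lam‖) atTop atTop :=
    tendsto_atTop_add_const_right _ _ ((tendsto_pow_atTop (by norm_num)).comp h1)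
  refine tendsto_atTop_mono' _ ?_ h2
  filter_upwards [h1.eventually_ge_atTop 0] with n hn
  have h3 : κ * (n : ℝ) - ‖β‖ ≤ ‖ex κ β n‖ := by
    unfold ex
    have h4 := norm_sub_le (β + Complex.I * κ * n) β
    rw [add_sub_cancel_left, norm_mul, norm_mul, Complex.norm_I, one_mul, Complex.norm_real,
      Real.norm_of_nonneg hκ.le, Complex.norm_natCast] at h4
    linarith
  have h5 : (κ * (n : ℝ) - ‖β‖) ^ 4 ≤ ‖ex κ β n‖ ^ 4 := pow_le_pow_left₀ hn h3 4
  have h6 := norm_sub_norm_le ((ex κ β n) ^ 4) lam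
  rw [norm_pow] at h6
  unfold w
  linarith

lemma c_summable {κ : ℝ} (hκ : 0 < κ) (lam β : ℂ) :
    Summable fun n => ‖c κ lam β n‖ * 2 ^ n * ((n : ℝ) + 1) ^ 5 := by
  refine summable_of_ratio_norm_eventually_le (r := 1 / 2) (by norm_num) ?_
  filter_upwards [(tendsto_add_atTop_nat 1).eventually ((w_tendsto hκ lam β).eventually_ge_atTop 128)]
    with n hn
  have hn : (128 : ℝ) ≤ ‖w κ lam β (n + 1)‖ := hn
  have hc : ‖c κ lam β (n + 1)‖ ≤ ‖c κ lam β n‖ / 128 := by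
    rw [c, norm_div, norm_neg]
    exact div_le_div_of_nonneg_left (norm_nonneg _) (by norm_num) hn
  have hp : ((n : ℝ) + 1 + 1) ^ 5 ≤ 32 * ((n : ℝ) + 1) ^ 5 := by
    have h2 : (0 : ℝ) ≤ n := Nat.cast_nonneg _
    calc ((n : ℝ) + 1 + 1) ^ 5 ≤ (2 * ((n : ℝ) + 1)) ^ 5 :=
          pow_le_pow_left₀ (by positivity) (by linarith) 5
      _ = 32 * ((n : ℝ) + 1) ^ 5 := by ring
  rw [Real.norm_of_nonneg (by positivity), Real.norm_of_nonneg (by positivity)]
  push_cast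
  calc ‖c κ lam β (n + 1)‖ * 2 ^ (n + 1) * ((n : ℝ) + 1 + 1) ^ 5
      ≤ (‖c κ lam β n‖ / 128) * 2 ^ (n + 1) * (32 * ((n : ℝ) + 1) ^ 5) := by gcongr
    _ = 1 / 2 * (‖c κ lam β n‖ * 2 ^ n * ((n : ℝ) + 1) ^ 5) := by ring

/-- the derivatives of the solution -/
noncomputable def f (κ : ℝ) (lam β : ℂ) (k : ℕ) (x : ℝ) : ℂ :=
  ∑' n, c κ lam β n * ex κ β n ^ k * Complex.exp (ex κ β n * x)

lemma exp_norm (κ : ℝ) (β : ℂ) (n : ℕ) (x : ℝ) :
    ‖Complex.exp (ex κ β n * x)‖ = Real.exp (β.re * x) := by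
  rw [Complex.norm_exp]
  congr 1
  unfold ex
  simp

lemma term_le {κ : ℝ} (hκ : 0 < κ) (lam β : ℂ) {k : ℕ} (hk : k ≤ 5) (n : ℕ) (x : ℝ) :
    ‖c κ lam β n * ex κ β n ^ k * Complex.exp (ex κ β n * x)‖ ≤
      ((1 + ‖β‖ + κ) ^ 5 * Real.exp (‖β‖ * |x|)) *
        (‖c κ lam β n‖ * 2 ^ n * ((n : ℝ) + 1) ^ 5) := by
  rw [norm_mul, norm_mul, norm_pow, exp_norm]
  have h0 : (0 : ℝ) ≤ n := Nat.cast_nonneg _
  have h1 : ‖ex κ β n‖ ^ k ≤ (1 + ‖β‖ + κ) ^ 5 * ((n : ℝ) + 1) ^ 5 := by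
    have h2 := ex_norm_le κ hκ β n
    have h3 : 1 ≤ (1 + ‖β‖ + κ) * ((n : ℝ) + 1) := by
      nlinarith [norm_nonneg β, mul_nonneg (norm_nonneg β) h0, mul_nonneg hκ.le h0]
    calc ‖ex κ β n‖ ^ k ≤ ((1 + ‖β‖ + κ) * ((n : ℝ) + 1)) ^ k :=
          pow_le_pow_left₀ (norm_nonneg _) h2 k
      _ ≤ ((1 + ‖β‖ + κ) * ((n : ℝ) + 1)) ^ 5 := pow_le_pow_right₀ h3 hk
      _ = _ := mul_pow _ _ _
  have h4 : Real.exp (β.re * x) ≤ Real.exp (‖β‖ * |x|) := by
    apply Real.exp_le_exp.2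
    calc β.re * x ≤ |β.re * x| := le_abs_self _
      _ = |β.re| * |x| := abs_mul _ _
      _ ≤ ‖β‖ * |x| := by gcongr; exact Complex.abs_re_le_norm β
  have h5 : (1 : ℝ) ≤ 2 ^ n := one_le_pow₀ (by norm_num)
  calc ‖c κ lam β n‖ * ‖ex κ β n‖ ^ k * Real.exp (β.re * x)
      ≤ ‖c κ lam β n‖ * ((1 + ‖β‖ + κ) ^ 5 * ((n : ℝ) + 1) ^ 5) * Real.exp (‖β‖ * |x|) := by
        gcongr
    _ = ((1 + ‖β‖ + κ) ^ 5 * Real.exp (‖β‖ * |x|)) *
        (‖c κ lam β n‖ * 1 * ((n : ℝ) + 1) ^ 5) := by ring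
    _ ≤ _ := by gcongr

lemma term_summable {κ : ℝ} (hκ : 0 < κ) (lam β : ℂ) {k : ℕ} (hk : k ≤ 5) (x : ℝ) :
    Summable fun n => c κ lam β n * ex κ β n ^ k * Complex.exp (ex κ β n * x) :=
  Summable.of_norm_bounded ((c_summable hκ lam β).mul_left _) fun n => term_le hκ lam β hk n x

lemma term_deriv (κ : ℝ) (lam β : ℂ) (k n : ℕ) (y : ℝ) :
    HasDerivAt (fun y : ℝ => c κ lam β n * ex κ β n ^ k * Complex.exp (ex κ β n * y))
      (c κ lam β n * ex κ β n ^ (k + 1) * Complex.exp (ex κ β n * y)) y := by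
  have h1 : HasDerivAt (fun y : ℝ => ex κ β n * (y : ℂ)) (ex κ β n * 1) y :=
    (Complex.ofRealCLM.hasDerivAt (x := y)).const_mul _
  have h2 := (h1.cexp).const_mul (c κ lam β n * ex κ β n ^ k)
  refine h2.congr_deriv ?_
  ring

lemma f_deriv {κ : ℝ} (hκ : 0 < κ) (lam β : ℂ) {k : ℕ} (hk : k ≤ 4) (x : ℝ) :
    HasDerivAt (f κ lam β k) (f κ lam β (k + 1) x) x := by
  have hx : x ∈ Ioo (-(|x| + 1)) (|x| + 1) := abs_lt.1 (lt_add_one |x|)
  have hu : Summable fun n : ℕ => ((1 + ‖β‖ + κ) ^ 5 * Real.exp (‖β‖ * (|x| + 1))) *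
        (‖c κ lam β n‖ * 2 ^ n * ((n : ℝ) + 1) ^ 5) := (c_summable hκ lam β).mul_left _
  have h1 : ∀ n : ℕ, ∀ y ∈ Ioo (-(|x| + 1)) (|x| + 1),
      ‖c κ lam β n * ex κ β n ^ (k + 1) * Complex.exp (ex κ β n * y)‖ ≤
        ((1 + ‖β‖ + κ) ^ 5 * Real.exp (‖β‖ * (|x| + 1))) *
        (‖c κ lam β n‖ * 2 ^ n * ((n : ℝ) + 1) ^ 5) := by
    intro n y hy
    refine (term_le hκ lam β (by omega) n y).trans ?_
    have hy' : |y| ≤ |x| + 1 := (abs_lt.2 hy).le
    gcongr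
  exact hasDerivAt_tsum_of_isPreconnected hu isOpen_Ioo isPreconnected_Ioo
    (fun n y _ => term_deriv κ lam β k n y) h1 hx (term_summable hκ lam β (by omega) x) hx

lemma f_cont {κ : ℝ} (hκ : 0 < κ) (lam β : ℂ) {k : ℕ} (hk : k ≤ 4) :
    Continuous (f κ lam β k) :=
  continuous_iff_continuousAt.2 fun x => (f_deriv hκ lam β hk x).continuousAt

lemma f_contDiff {κ : ℝ} (hκ : 0 < κ) (lam β : ℂ) : ∀ m k : ℕ, k + m ≤ 4 →
    ContDiff ℝ m (f κ lam β k)
  | 0, k, h => contDiff_zero.2 (f_cont hκ lam β (by omega))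
  | m + 1, k, h => by
    rw [Nat.cast_add, Nat.cast_one, contDiff_succ_iff_deriv]
    refine ⟨fun x => (f_deriv hκ lam β (by omega) x).differentiableAt, by simp, ?_⟩
    have : deriv (f κ lam β k) = f κ lam β (k + 1) :=
      funext fun x => (f_deriv hκ lam β (by omega) x).deriv
    rw [this]
    exact f_contDiff hκ lam β m (k + 1) (by omega)

lemma f_iter {κ : ℝ} (hκ : 0 < κ) (lam β : ℂ) : ∀ k : ℕ, k ≤ 4 →
    iteratedDeriv k (f κ lam β 0) = f κ lam β k
  | 0, _ => iteratedDeriv_zero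
  | k + 1, h => by
    rw [iteratedDeriv_succ, f_iter hκ lam β k (by omega)]
    exact funext fun x => (f_deriv hκ lam β (by omega) x).deriv

lemma c_succ {κ : ℝ} {lam β : ℂ} (hw : ∀ n : ℕ, w κ lam β (n + 1) ≠ 0) (n : ℕ) :
    c κ lam β (n + 1) * w κ lam β (n + 1) = -c κ lam β n := by
  rw [c]
  exact div_mul_cancel₀ _ (hw n)

lemma f_sol {κ : ℝ} (hκ : 0 < κ) {lam β : ℂ} (hβ : β ^ 4 = lam)
    (hw : ∀ n : ℕ, w κ lam β (n + 1) ≠ 0) : Sol κ lam (f κ lam β 0) := by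
  refine ⟨f_contDiff hκ lam β 4 0 (by norm_num), fun x => ?_⟩
  rw [f_iter hκ lam β 4 le_rfl]
  have h4 := term_summable hκ lam β (k := 4) (by norm_num) x
  have h0 := term_summable hκ lam β (k := 0) (by norm_num) x
  have e1 : f κ lam β 4 x - lam * f κ lam β 0 x =
      ∑' n, c κ lam β n * w κ lam β n * Complex.exp (ex κ β n * x) := by
    unfold f
    rw [← tsum_mul_left, ← h4.tsum_sub (h0.mul_left lam)]
    refine tsum_congr fun n => ?_
    unfold w
    ring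
  have hs : Summable fun n => c κ lam β n * w κ lam β n * Complex.exp (ex κ β n * x) := by
    refine (h4.sub (h0.mul_left lam)).congr fun n => ?_
    unfold w
    ring
  have e2 : ∑' n, c κ lam β n * w κ lam β n * Complex.exp (ex κ β n * x) =
      -(q κ x * f κ lam β 0 x) := by
    rw [hs.tsum_eq_zero_add]
    have hz : w κ lam β 0 = 0 := by
      unfold w ex
      simp [hβ]
    rw [hz, mul_zero, zero_mul, zero_add]
    unfold f
    rw [← tsum_mul_left, ← tsum_neg]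
    refine tsum_congr fun n => ?_
    rw [c_succ hw]
    have : Complex.exp (ex κ β (n + 1) * x) = q κ x * Complex.exp (ex κ β n * x) := by
      unfold q ex
      rw [← Complex.exp_add]
      congr 1
      push_cast
      ring
    rw [this]
    ring
  linear_combination e1 + e2

lemma f_quasi {κ b : ℝ} (hb : κ * b = 2 * Real.pi) (lam β : ℂ) (x : ℝ) :
    f κ lam β 0 (x + b) = Complex.exp (β * b) * f κ lam β 0 x := by
  unfold f
  rw [← tsum_mul_left]
  refine tsum_congr fun n => ?_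
  have : Complex.exp (ex κ β n * ((x + b : ℝ) : ℂ)) =
      Complex.exp (β * b) * Complex.exp (ex κ β n * x) := by
    have h1 : ex κ β n * ((x + b : ℝ) : ℂ) = β * b + ex κ β n * x +
        (n : ℕ) * (2 * Real.pi * Complex.I) := by
      have h2 : (κ : ℂ) * b = 2 * Real.pi := by exact_mod_cast congrArg (fun t : ℝ => (t : ℂ)) hb
      unfold ex
      push_cast
      linear_combination Complex.I * n * h2
    rw [h1, Complex.exp_add, Complex.exp_nat_mul_two_pi_mul_I, mul_one, Complex.exp_add]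
  rw [this]
  ring

end Pool.Agent.Q230.Gas
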