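import Pool.Agent.Q230.Gas

/-!
# The multipliers of `y'''' + e^{iκx} y = λ y`
-/

set_option autoImplicit false

open Set Filter Topology MeasureTheory
open scoped ContDiff

namespace Pool.Agent.Q230.Gas

lemma f_ne {κ : ℝ} (hκ : 0 < κ) (lam β : ℂ) : f κ lam β 0 ≠ 0 := by
  intro h0
  let G : ℂ → ℂ := fun z => ∑' n, c κ lam β n * z ^ n
  have hu : Summable fun n => ‖c κ lam β n‖ * 2 ^ n := by
    refine Summable.of_nonneg_of_le (fun n => by positivity) (fun n => ?_) (c_summable hκ lam β)
    refine le_mul_of_one_le_right (by positivity) ?_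
    exact one_le_pow₀ (by linarith [Nat.cast_nonneg (α := ℝ) n])
  have hG : DifferentiableOn ℂ G (Metric.ball 0 2) := by
    refine Complex.differentiableOn_tsum_of_summable_norm hu
      (fun n => ((differentiable_id.pow n).const_mul _).differentiableOn) Metric.isOpen_ball ?_
    intro n z hz
    rw [norm_mul, norm_pow]
    have : ‖z‖ ≤ 2 := by
      have := mem_ball_zero_iff.1 hz
      exact this.le
    gcongr
  have hcl : closure (Metric.ball (0 : ℂ) 1) ⊆ Metric.ball 0 2 := by
    rw [closure_ball _ one_ne_zero]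
    exact Metric.closedBall_subset_ball (by norm_num)
  have hd : DiffContOnCl ℂ G (Metric.ball 0 1) := (hG.mono hcl).diffContOnCl
  have hfr : EqOn G 0 (frontier (Metric.ball (0 : ℂ) 1)) := by
    intro z hz
    rw [frontier_ball _ one_ne_zero, mem_sphere_zero_iff_norm] at hz
    show ∑' n, c κ lam β n * z ^ n = 0
    set x : ℝ := Complex.arg z / κ with hx
    have hzx : z = Complex.exp (Complex.I * κ * x) := by
      have h1 := Complex.norm_mul_exp_arg_mul_I z
      rw [hz, Complex.ofReal_one, one_mul] at h1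
      rw [← h1]
      congr 1
      rw [hx]
      have : (κ : ℂ) ≠ 0 := by exact_mod_cast hκ.ne'
      push_cast
      field_simp
    have h2 := congrFun h0 x
    have h3 : f κ lam β 0 x = Complex.exp (β * x) * ∑' n, c κ lam β n * z ^ n := by
      unfold f
      rw [← tsum_mul_left]
      refine tsum_congr fun n => ?_
      have : Complex.exp (ex κ β n * x) = Complex.exp (β * x) * z ^ n := by
        rw [hzx, ← Complex.exp_nat_mul, ← Complex.exp_add]
        congr 1
        unfold ex
        ring
      rw [this]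
      ring
    rw [h3] at h2
    exact (mul_eq_zero.1 h2).resolve_left (Complex.exp_ne_zero _)
  have h1 := Complex.eqOn_closure_of_eqOn_frontier Metric.isBounded_ball hd
    (diffContOnCl_const (c := (0 : ℂ))) hfr (subset_closure (Metric.mem_ball_self one_pos))
  have h2 : G 0 = 1 := by
    show ∑' n, c κ lam β n * 0 ^ n = 1
    rw [tsum_eq_single 0]
    · simp [c]
    · intro n hn
      simp [hn]
  rw [h2] at h1
  exact one_ne_zero h1

lemma exp_per {κ b : ℝ} (hb : κ * b = 2 * Real.pi) (n : ℤ) :
    Complex.exp (Complex.I * κ * n * b) = 1 := by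
  have h2 : (κ : ℂ) * b = 2 * Real.pi := by exact_mod_cast congrArg (fun t : ℝ => (t : ℂ)) hb
  have : Complex.I * κ * n * b = n * (2 * Real.pi * Complex.I) := by
    linear_combination Complex.I * n * h2
  rw [this]
  exact Complex.exp_int_mul_two_pi_mul_I n

lemma ibp {b : ℝ} {r γ : ℂ} (hE : Complex.exp (-γ * b) * r = 1) {h h' : ℝ → ℂ}
    (hh : ∀ x, HasDerivAt h (h' x) x) (hc : Continuous h') (hq : h b = r * h 0) :
    ∫ x in (0 : ℝ)..b, h' x * Complex.exp (-γ * x) =
      γ * ∫ x in (0 : ℝ)..b, h x * Complex.exp (-γ * x) := by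
  have hcont : Continuous h := continuous_iff_continuousAt.2 fun x => (hh x).continuousAt
  have hEd : ∀ x : ℝ, HasDerivAt (fun x : ℝ => Complex.exp (-γ * x))
      (-γ * Complex.exp (-γ * x)) x := by
    intro x
    have h1 : HasDerivAt (fun y : ℝ => -γ * (y : ℂ)) (-γ * 1) x :=
      (Complex.ofRealCLM.hasDerivAt (x := x)).const_mul _
    refine h1.cexp.congr_deriv ?_
    ring
  have h1 := intervalIntegral.integral_deriv_mul_eq_sub (a := 0) (b := b)
    (fun x _ => hh x) (fun x _ => hEd x) (hc.intervalIntegrable _ _)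
    ((by fun_prop : Continuous fun x : ℝ => -γ * Complex.exp (-γ * x)).intervalIntegrable _ _)
  rw [intervalIntegral.integral_add
    ((by fun_prop : Continuous fun x : ℝ => h' x * Complex.exp (-γ * x)).intervalIntegrable _ _)
    ((by fun_prop : Continuous fun x : ℝ => h x * (-γ * Complex.exp (-γ * x))).intervalIntegrable
      _ _)] at h1
  have h2 : ∫ x in (0 : ℝ)..b, h x * (-γ * Complex.exp (-γ * x)) =
      -γ * ∫ x in (0 : ℝ)..b, h x * Complex.exp (-γ * x) := by
    rw [← intervalIntegral.integral_const_mul]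
    congr 1
    funext x
    ring
  rw [h2, hq] at h1
  have h3 : r * h 0 * Complex.exp (-γ * b) - h 0 * Complex.exp (-γ * ((0 : ℝ) : ℂ)) = 0 := by
    rw [Complex.ofReal_zero, mul_zero, Complex.exp_zero]
    linear_combination h 0 * hE
  rw [h3] at h1
  linear_combination h1

/-- no other multipliers -/
lemma no_sol {κ b : ℝ} (hκ : 0 < κ) (hb0 : 0 < b) (hb : κ * b = 2 * Real.pi) {lam α : ℂ}
    (hα : ∀ n : ℤ, (α + Complex.I * κ * n) ^ 4 ≠ lam) {y : ℝ → ℂ} (hy : Sol κ lam y)
    (hq : ∀ x, y (x + b) = Complex.exp (α * b) * y x) : y = 0 := by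
  set r : ℂ := Complex.exp (α * b) with hr
  let γ : ℤ → ℂ := fun n => α + Complex.I * κ * n
  let g : ℤ → ℂ := fun n => ∫ x in (0 : ℝ)..b, y x * Complex.exp (-γ n * x)
  have hE : ∀ n, Complex.exp (-γ n * b) * r = 1 := by
    intro n
    rw [hr, ← Complex.exp_add]
    have : -γ n * b + α * b = Complex.I * κ * ((-n : ℤ) : ℂ) * b := by
      simp only [γ]
      push_cast
      ring
    rw [this]
    exact exp_per hb (-n)
  have hjet : jet y b = r • jet y 0 := by
    have : jet (fun x => y (x + b)) 0 = jet (fun x => r * y x) 0 := by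
      congr 1
      exact funext hq
    rw [jet_shift, jet_smul, zero_add] at this
    exact this
  have hjk : ∀ k : ℕ, k < 4 → iteratedDeriv k y b = r * iteratedDeriv k y 0 := fun k hk =>
    congrFun hjet (⟨k, hk⟩ : Fin 4)
  have hd : ∀ k : ℕ, k < 4 → ∀ x, HasDerivAt (iteratedDeriv k y) (iteratedDeriv (k + 1) y x) x := by
    intro k hk x
    rw [iteratedDeriv_succ]
    exact (hy.1.differentiable_iteratedDeriv k (by exact_mod_cast hk) x).hasDerivAt
  have hcd : ∀ k : ℕ, k ≤ 4 → Continuous (iteratedDeriv k y) := fun k hk =>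
    hy.1.continuous_iteratedDeriv k (by exact_mod_cast hk)
  have hyc : Continuous y := hy.1.continuous
  have hstep : ∀ k : ℕ, k < 4 → ∀ n, ∫ x in (0 : ℝ)..b, iteratedDeriv (k + 1) y x *
      Complex.exp (-γ n * x) = γ n * ∫ x in (0 : ℝ)..b, iteratedDeriv k y x *
        Complex.exp (-γ n * x) := fun k hk n =>
    ibp (hE n) (hd k hk) (hcd (k + 1) hk) (hjk k hk)
  have h4 : ∀ n, ∫ x in (0 : ℝ)..b, iteratedDeriv 4 y x * Complex.exp (-γ n * x) =
      γ n ^ 4 * g n := by
    intro n
    rw [hstep 3 (by norm_num), hstep 2 (by norm_num), hstep 1 (by norm_num),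
      hstep 0 (by norm_num)]
    simp only [iteratedDeriv_zero, g]
    ring
  have hrec : ∀ n, g (n - 1) = (lam - γ n ^ 4) * g n := by
    intro n
    have h5 : ∫ x in (0 : ℝ)..b, iteratedDeriv 4 y x * Complex.exp (-γ n * x) =
        lam * g n - g (n - 1) := by
      simp only [g]
      rw [← intervalIntegral.integral_const_mul, ← intervalIntegral.integral_sub
        ((by fun_prop : Continuous fun x : ℝ => lam * (y x * Complex.exp (-γ n * x))
          ).intervalIntegrable _ _)
        ((by fun_prop : Continuous fun x : ℝ => y x * Complex.exp (-γ (n - 1) * x)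
          ).intervalIntegrable _ _)]
      congr 1
      funext x
      have h6 := hy.2 x
      have h7 : Complex.exp (-γ (n - 1) * x) = q κ x * Complex.exp (-γ n * x) := by
        unfold q
        rw [← Complex.exp_add]
        congr 1
        simp only [γ]
        push_cast
        ring
      rw [h7]
      linear_combination Complex.exp (-γ n * x) * h6
    rw [h4] at h5
    linear_combination h5
  -- the bound
  obtain ⟨B, hB⟩ : ∃ B : ℝ, ∀ n, ‖g n‖ ≤ B := by
    refine ⟨∫ x in (0 : ℝ)..b, ‖y x‖ * Real.exp (-α.re * x), fun n => ?_⟩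
    refine (intervalIntegral.norm_integral_le_integral_norm hb0.le).trans (le_of_eq ?_)
    congr 1
    funext x
    rw [norm_mul, Complex.norm_exp]
    congr 2
    simp only [γ]
    simp
  have hne : ∀ n : ℤ, lam - γ n ^ 4 ≠ 0 := fun n h => hα n (sub_eq_zero.1 h).symm
  have hg : ∀ n, g n = 0 := by
    by_contra hcon
    push Not at hcon
    obtain ⟨n₀, hn₀⟩ := hcon
    have hdown : ∀ k : ℕ, g (n₀ - k) ≠ 0 := by
      intro k
      induction k with
      | zero => simpa using hn₀
      | succ k ih =>
        have : n₀ - ((k + 1 : ℕ) : ℤ) = n₀ - k - 1 := by push_cast; ring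
        rw [this, hrec]
        exact mul_ne_zero (hne _) ih
    obtain ⟨N, hN⟩ := eventually_atTop.1 ((w_tendsto hκ lam (-α)).eventually_ge_atTop 2)
    have hbig : ∀ m : ℕ, N ≤ m → 2 * ‖g (-(m : ℤ))‖ ≤ ‖g (-(m : ℤ) - 1)‖ := by
      intro m hm
      rw [hrec, norm_mul]
      refine mul_le_mul_of_nonneg_right ?_ (norm_nonneg _)
      refine (hN m hm).trans (le_of_eq ?_)
      rw [← norm_neg (lam - _)]
      congr 1
      unfold w ex
      simp only [γ]
      push_cast
      ring
    set m₀ : ℕ := max N n₀.natAbs with hm₀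
    have hstart : g (-(m₀ : ℤ)) ≠ 0 := by
      have h1 : -(m₀ : ℤ) ≤ n₀ := by
        have : n₀.natAbs ≤ m₀ := le_max_right _ _
        omega
      obtain ⟨k, hk⟩ := Int.eq_ofNat_of_zero_le (sub_nonneg.2 h1)
      have : -(m₀ : ℤ) = n₀ - k := by omega
      rw [this]
      exact hdown k
    have hgrow : ∀ k : ℕ, 2 ^ k * ‖g (-(m₀ : ℤ))‖ ≤ ‖g (-(m₀ : ℤ) - k)‖ := by
      intro k
      induction k with
      | zero => simp
      | succ k ih =>
        have h1 := hbig (m₀ + k) ((le_max_left _ _).trans (Nat.le_add_right _ _))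
        have e1 : -((m₀ + k : ℕ) : ℤ) = -(m₀ : ℤ) - k := by push_cast; ring
        have e2 : -(m₀ : ℤ) - ((k + 1 : ℕ) : ℤ) = -(m₀ : ℤ) - k - 1 := by push_cast; ring
        rw [e1] at h1
        rw [e2, pow_succ]
        linarith
    have hpos : 0 < ‖g (-(m₀ : ℤ))‖ := norm_pos_iff.2 hstart
    obtain ⟨k, hk⟩ := pow_unbounded_of_one_lt (B / ‖g (-(m₀ : ℤ))‖) (one_lt_two (α := ℝ))
    rw [div_lt_iff₀ hpos] at hk
    linarith [hgrow k, hB (-(m₀ : ℤ) - k)]
  -- completeness of the exponentials
  have : Fact (0 < b) := ⟨hb0⟩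
  let h : ℝ → ℂ := fun x => y x * Complex.exp (-α * x)
  have hper : Function.Periodic h b := by
    intro x
    show y (x + b) * Complex.exp (-α * ((x + b : ℝ) : ℂ)) = y x * Complex.exp (-α * x)
    have : Complex.exp (-α * ((x + b : ℝ) : ℂ)) = Complex.exp (-α * x) * Complex.exp (-(α * b)) := by
      rw [← Complex.exp_add]
      congr 1
      push_cast
      ring
    rw [hq, this, hr, Complex.exp_neg (α * b)]
    field_simp
  have hhc : Continuous h := by
    show Continuous fun x : ℝ => y x * Complex.exp (-α * x)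
    fun_prop
  let H : C(AddCircle b, ℂ) := ⟨hper.lift, by
    refine (QuotientAddGroup.isQuotientMap_mk (N := AddSubgroup.zmultiples b)).continuous_iff.2 ?_
    exact hhc⟩
  have hcoef : fourierCoeff (⇑H) = fun _ => 0 := by
    funext n
    rw [fourierCoeff_eq_intervalIntegral _ n 0, zero_add]
    have : ∫ x in (0 : ℝ)..b, (fourier (-n)) (x : AddCircle b) • H (x : AddCircle b) = g n := by
      simp only [g]
      congr 1
      funext x
      rw [fourier_coe_apply]
      show _ • (y x * Complex.exp (-α * x)) = _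
      rw [smul_eq_mul]
      have h2 : (κ : ℂ) * b = 2 * Real.pi := by exact_mod_cast congrArg (fun t : ℝ => (t : ℂ)) hb
      have hb' : (b : ℂ) ≠ 0 := by exact_mod_cast hb0.ne'
      have h3 : Complex.exp (2 * Real.pi * Complex.I * ((-n : ℤ) : ℂ) * x / b) =
          Complex.exp (-(Complex.I * κ * n) * x) := by
        congr 1
        rw [← h2]
        push_cast
        field_simp
      have h4 : Complex.exp (-γ n * x) = Complex.exp (-α * x) *
          Complex.exp (-(Complex.I * κ * n) * x) := by
        rw [← Complex.exp_add]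
        congr 1
        simp only [γ]
        ring
      rw [h3, h4]
      ring
    rw [this, hg, smul_zero]
  have hsum : Summable (fourierCoeff (⇑H)) := by
    rw [hcoef]
    exact summable_zero
  funext x
  have h1 := has_pointwise_sum_fourier_series_of_summable hsum (x : AddCircle b)
  rw [hcoef] at h1
  simp only [zero_smul] at h1
  have h2 : H (x : AddCircle b) = 0 := h1.unique hasSum_zero
  have h3 : y x * Complex.exp (-α * x) = 0 := h2
  exact (mul_eq_zero.1 h3).resolve_right (Complex.exp_ne_zero _)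

/-- the multipliers -/
theorem multipliers {κ b : ℝ} (hκ : 0 < κ) (hb0 : 0 < b) (hb : κ * b = 2 * Real.pi) {lam : ℂ}
    {u : Fin 4 → ℝ → ℂ} (h : Fund κ lam u) {r : ℂ} (hr : r ≠ 0) :
    (Matrix.scalar (Fin 4) r - T b u).det = 0 ↔
      ∃ β : ℂ, β ^ 4 = lam ∧ Complex.exp (β * b) = r := by
  have hqp : ∀ x, q κ (x + b) = q κ x := by
    intro x
    unfold q
    have : Complex.I * κ * ((x + b : ℝ) : ℂ) = Complex.I * κ * x +
        Complex.I * κ * ((1 : ℤ) : ℂ) * b := by
      push_cast
      ring
    rw [this, Complex.exp_add, exp_per hb 1, mul_one]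
  rw [floquet hqp h]
  have hb' : (b : ℂ) ≠ 0 := by exact_mod_cast hb0.ne'
  constructor
  · rintro ⟨y, hy, hy0, hyb⟩
    set α : ℂ := Complex.log r / b with hα
    have hαr : Complex.exp (α * b) = r := by
      rw [hα, div_mul_cancel₀ _ hb', Complex.exp_log hr]
    by_contra hcon
    apply hy0
    refine no_sol hκ hb0 hb (α := α) (fun n hn => hcon ⟨_, hn, ?_⟩) hy (fun x => by
      rw [hyb, hαr])
    rw [add_mul, Complex.exp_add, hαr, exp_per hb n, mul_one]
  · rintro ⟨β, hβ, hβr⟩
    have hfin : {m : ℕ | (ex κ β m) ^ 4 = lam}.Finite := by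
      obtain ⟨N, hN⟩ := eventually_atTop.1 ((w_tendsto hκ lam β).eventually_ge_atTop 1)
      refine (Set.finite_lt_nat N).subset fun m hm => ?_
      by_contra hmN
      have h1 := hN m (not_lt.1 hmN)
      have h2 : w κ lam β m = 0 := sub_eq_zero.2 hm
      rw [h2, norm_zero] at h1
      linarith
    have hne : {m : ℕ | (ex κ β m) ^ 4 = lam}.Nonempty := ⟨0, by simp [ex, hβ]⟩
    obtain ⟨m, hm, hmax⟩ := hfin.exists_maximalFor id _ hne
    have hexa : ∀ n : ℕ, ex κ (ex κ β m) n = ex κ β (m + n) := by
      intro n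
      unfold ex
      push_cast
      ring
    refine ⟨f κ lam (ex κ β m) 0, f_sol hκ hm (fun n hn => ?_), f_ne hκ _ _, fun x => ?_⟩
    · have h1 : (ex κ β (m + (n + 1))) ^ 4 = lam := by
        rw [← hexa]
        exact sub_eq_zero.1 hn
      have h2 := hmax (j := m + (n + 1)) h1 (by simp only [id]; omega)
      simp only [id] at h2
      omega
    · rw [f_quasi hb]
      congr 1
      have : ex κ β m * b = β * b + Complex.I * κ * ((m : ℤ) : ℂ) * b := by
        unfold ex
        push_cast
        ring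
      rw [this, Complex.exp_add, exp_per hb, mul_one, hβr]

end Pool.Agent.Q230.Gas
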