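import Mathlib

/-! Mirrored pairs of optimal entanglement witnesses. -/

namespace Pool.Agent.Q230.MirrorEW

open Matrix Finset
open scoped ComplexOrder

/-- operators on `ℂ^(d 0) ⊗ ... ⊗ ℂ^(d (n-1))`, written in the product basis -/
abbrev Op {n : ℕ} (d : Fin n → ℕ) := Matrix (∀ i, Fin (d i)) (∀ i, Fin (d i)) ℂ

variable {n : ℕ} {d : Fin n → ℕ}

/-- the tensor product of local operators -/
def tens (A : ∀ i, Matrix (Fin (d i)) (Fin (d i)) ℂ) : Op d :=
  Matrix.of fun x y => ∏ i, A i (x i) (y i)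

/-- density matrices -/
def IsState {ι : Type} [Fintype ι] (ρ : Matrix ι ι ℂ) : Prop := ρ.PosSemidef ∧ ρ.trace = 1

/-- the separable states: the convex hull of the product states -/
def sep (d : Fin n → ℕ) : Set (Op d) :=
  convexHull ℝ {σ | ∃ ρ : ∀ i, Matrix (Fin (d i)) (Fin (d i)) ℂ, (∀ i, IsState (ρ i)) ∧ σ = tens ρ}

/-- entanglement witnesses -/
def IsEW (W : Op d) : Prop :=
  W.IsHermitian ∧ (∀ σ ∈ sep d, 0 ≤ (W * σ).trace.re) ∧ ∃ ρ : Op d, IsState ρ ∧ (W * ρ).trace.re < 0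

/-- optimal entanglement witnesses: no nonzero positive semidefinite operator can be subtracted -/
def IsOptimalEW (W : Op d) : Prop :=
  IsEW W ∧ ∀ (ε : ℝ) (P : Op d), 0 < ε → P.PosSemidef → P ≠ 0 → ¬ IsEW (W - (ε : ℂ) • P)

/-- mirrored pairs -/
def Mirrored (W M : Op d) : Prop := ∃ u : ℝ, W + M = (u : ℂ) • (1 : Op d)

/-- equivalence under local unitaries -/
def LocallyUnitary (W M : Op d) : Prop :=
  ∃ U : ∀ i, Matrix (Fin (d i)) (Fin (d i)) ℂ, (∀ i, U i ∈ Matrix.unitaryGroup (Fin (d i)) ℂ) ∧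
    M = tens U * W * (tens U)ᴴ

/-! ## tensor products -/

lemma tens_mul (A B : ∀ i, Matrix (Fin (d i)) (Fin (d i)) ℂ) :
    tens A * tens B = tens fun i => A i * B i := by
  ext x y
  simp only [tens, Matrix.mul_apply, Matrix.of_apply]
  rw [Finset.prod_univ_sum, Fintype.piFinset_univ]
  exact Finset.sum_congr rfl fun z _ => Finset.prod_mul_distrib.symm

lemma trace_tens (A : ∀ i, Matrix (Fin (d i)) (Fin (d i)) ℂ) :
    (tens A).trace = ∏ i, (A i).trace := by
  simp only [Matrix.trace, Matrix.diag, tens, Matrix.of_apply]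
  rw [Finset.prod_univ_sum, Fintype.piFinset_univ]

lemma tens_conjTranspose (A : ∀ i, Matrix (Fin (d i)) (Fin (d i)) ℂ) :
    (tens A)ᴴ = tens fun i => (A i)ᴴ := by
  ext x y
  simp [tens, Matrix.conjTranspose_apply]

lemma tens_one : tens (fun i => (1 : Matrix (Fin (d i)) (Fin (d i)) ℂ)) = 1 := by
  ext x y
  simp only [tens, Matrix.of_apply, Matrix.one_apply]
  by_cases h : x = y
  · subst h; simp
  · rw [if_neg h]
    obtain ⟨i, hi⟩ := Function.ne_iff.mp h
    exact Finset.prod_eq_zero (Finset.mem_univ i) (by simp [hi])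

lemma tens_unitary {U : ∀ i, Matrix (Fin (d i)) (Fin (d i)) ℂ}
    (hU : ∀ i, U i ∈ Matrix.unitaryGroup (Fin (d i)) ℂ) : (tens U)ᴴ * tens U = 1 := by
  rw [tens_conjTranspose, tens_mul, ← tens_one]
  congr 1
  funext i
  exact Matrix.mem_unitaryGroup_iff'.mp (hU i)

/-! ## three qubits -/

/-- three qubits -/
abbrev q : Fin 3 → ℕ := fun _ => 2

/-- 2 by 2 matrices -/
abbrev M2 := Matrix (Fin 2) (Fin 2) ℂ

/-- the tensor product of three matrices -/
def t3 (A B C : M2) : Op q := tens (d := q) ![A, B, C]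

lemma t3_apply (A B C : M2) (x y : ∀ i : Fin 3, Fin (q i)) :
    t3 A B C x y = A (x 0) (y 0) * B (x 1) (y 1) * C (x 2) (y 2) := by
  unfold t3 tens
  rw [Matrix.of_apply, Fin.prod_univ_three]
  rfl

lemma t3_mul (A B C A' B' C' : M2) : t3 A B C * t3 A' B' C' = t3 (A * A') (B * B') (C * C') := by
  unfold t3
  rw [tens_mul]
  congr 1
  funext i
  fin_cases i <;> rfl

lemma t3_mul_tens (A B C : M2) (ρ : ∀ i : Fin 3, Matrix (Fin (q i)) (Fin (q i)) ℂ) :
    (t3 A B C * tens ρ).trace = (A * ρ 0).trace * (B * ρ 1).trace * (C * ρ 2).trace := by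
  unfold t3
  rw [tens_mul, trace_tens, Fin.prod_univ_three]
  rfl

lemma trace_t3 (A B C : M2) : (t3 A B C).trace = A.trace * B.trace * C.trace := by
  unfold t3
  rw [trace_tens, Fin.prod_univ_three]
  rfl

lemma t3_one : t3 1 1 1 = 1 := by
  unfold t3
  rw [← tens_one]
  congr 1
  funext i
  fin_cases i <;> rfl

lemma t3_conj (A B C : M2) : (t3 A B C)ᴴ = t3 Aᴴ Bᴴ Cᴴ := by
  unfold t3
  rw [tens_conjTranspose]
  congr 1
  funext i
  fin_cases i <;> rfl

/-- the Pauli matrices -/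
def sx : M2 := !![0, 1; 1, 0]
/-- the Pauli matrices -/
def sy : M2 := !![0, -Complex.I; Complex.I, 0]
/-- the Pauli matrices -/
def sz : M2 := !![1, 0; 0, -1]

lemma sxx : sx * sx = 1 := by
  ext i j; fin_cases i <;> fin_cases j <;> simp [sx, Matrix.mul_apply, Fin.sum_univ_two]
lemma syy : sy * sy = 1 := by
  ext i j; fin_cases i <;> fin_cases j <;> simp [sy, Matrix.mul_apply, Fin.sum_univ_two]
lemma szz : sz * sz = 1 := by
  ext i j; fin_cases i <;> fin_cases j <;> simp [sz, Matrix.mul_apply, Fin.sum_univ_two]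
lemma szx : sz * sx = -(sx * sz) := by
  ext i j; fin_cases i <;> fin_cases j <;> simp [sz, sx, Matrix.mul_apply, Fin.sum_univ_two]
lemma sxy : sx * sy = -(sy * sx) := by
  ext i j; fin_cases i <;> fin_cases j <;> simp [sy, sx, Matrix.mul_apply, Fin.sum_univ_two]
lemma szy : sz * sy = -(sy * sz) := by
  ext i j; fin_cases i <;> fin_cases j <;> simp [sz, sy, Matrix.mul_apply, Fin.sum_univ_two]
lemma trx : sx.trace = 0 := by simp [sx, Matrix.trace, Fin.sum_univ_two]
lemma try' : sy.trace = 0 := by simp [sy, Matrix.trace, Fin.sum_univ_two]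
lemma trz : sz.trace = 0 := by simp [sz, Matrix.trace, Fin.sum_univ_two]
lemma trxy : (sx * sy).trace = 0 := by
  simp [sx, sy, Matrix.trace, Fin.sum_univ_two, Matrix.mul_apply]
lemma trzy : (sz * sy).trace = 0 := by
  simp [sz, sy, Matrix.trace, Fin.sum_univ_two, Matrix.mul_apply]
lemma trxz : (sx * sz).trace = 0 := by
  simp [sz, sx, Matrix.trace, Fin.sum_univ_two, Matrix.mul_apply]
lemma trzx : (sz * sx).trace = 0 := by
  simp [sz, sx, Matrix.trace, Fin.sum_univ_two, Matrix.mul_apply]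
lemma tryx : (sy * sx).trace = 0 := by
  simp [sx, sy, Matrix.trace, Fin.sum_univ_two, Matrix.mul_apply]
lemma tryz : (sy * sz).trace = 0 := by
  simp [sz, sy, Matrix.trace, Fin.sum_univ_two, Matrix.mul_apply]
lemma hx : sxᴴ = sx := by
  ext i j; fin_cases i <;> fin_cases j <;> simp [sx, Matrix.conjTranspose_apply]
lemma hy : syᴴ = sy := by
  ext i j; fin_cases i <;> fin_cases j <;> simp [sy, Matrix.conjTranspose_apply]
lemma hz : szᴴ = sz := by
  ext i j; fin_cases i <;> fin_cases j <;> simp [sz, Matrix.conjTranspose_apply]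

/-- `X ⊗ X ⊗ X` -/
def A : Op q := t3 sx sx sx
/-- `Z ⊗ Z ⊗ Z` -/
def B : Op q := t3 sz sz sz
/-- `Y ⊗ Y ⊗ 1 + Y ⊗ 1 ⊗ Y + 1 ⊗ Y ⊗ Y` -/
def C : Op q := t3 sy sy 1 + t3 sy 1 sy + t3 1 sy sy

/-- the operator `X ⊗ X ⊗ X + Z ⊗ Z ⊗ Z + (Y ⊗ Y ⊗ 1 + Y ⊗ 1 ⊗ Y + 1 ⊗ Y ⊗ Y) / 3` -/
noncomputable def H : Op q := A + B + (1 / 3 : ℂ) • C

lemma t3_neg (P Q R : M2) : t3 (-P) (-Q) (-R) = - t3 P Q R := by
  ext x y
  simp only [t3_apply, Matrix.neg_apply]
  ring

lemma t3_neg2a (P Q R : M2) : t3 (-P) (-Q) R = t3 P Q R := by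
  ext x y
  simp only [t3_apply, Matrix.neg_apply]
  ring

lemma t3_neg2b (P Q R : M2) : t3 (-P) Q (-R) = t3 P Q R := by
  ext x y
  simp only [t3_apply, Matrix.neg_apply]
  ring

lemma t3_neg2c (P Q R : M2) : t3 P (-Q) (-R) = t3 P Q R := by
  ext x y
  simp only [t3_apply, Matrix.neg_apply]
  ring

lemma AA : A * A = 1 := by unfold A; rw [t3_mul, sxx, t3_one]
lemma BB : B * B = 1 := by unfold B; rw [t3_mul, szz, t3_one]
lemma BA : B * A = -(A * B) := by
  unfold A B; rw [t3_mul, t3_mul, szx, t3_neg]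
lemma CC : C * C = (2 : ℂ) • C + (3 : ℂ) • (1 : Op q) := by
  have h : C * C = (t3 1 1 1 + t3 1 1 1 + t3 1 1 1) + (2 : ℂ) • (t3 sy sy 1 + t3 sy 1 sy + t3 1 sy sy) := by
    unfold C
    simp only [add_mul, mul_add, t3_mul, syy, mul_one, one_mul, two_smul]
    abel
  rw [h, t3_one]
  unfold C
  ext x y
  simp only [Matrix.add_apply, Matrix.smul_apply, smul_eq_mul]
  ring
lemma AC : A * C = C * A := by
  unfold A C
  simp only [add_mul, mul_add, t3_mul, mul_one, one_mul, sxy, t3_neg2a, t3_neg2b, t3_neg2c]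
lemma BC : B * C = C * B := by
  unfold B C
  simp only [add_mul, mul_add, t3_mul, mul_one, one_mul, szy, t3_neg2a, t3_neg2b, t3_neg2c]
lemma trA : A.trace = 0 := by unfold A; rw [trace_t3, trx]; ring
lemma trB : B.trace = 0 := by unfold B; rw [trace_t3, trz]; ring
lemma trC : C.trace = 0 := by
  unfold C; rw [Matrix.trace_add, Matrix.trace_add, trace_t3, trace_t3, trace_t3, try']; ring
lemma trAC : (A * C).trace = 0 := by
  unfold A C
  simp only [mul_add, t3_mul, Matrix.trace_add, trace_t3, trxy]; ring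
lemma trBC : (B * C).trace = 0 := by
  unfold B C
  simp only [mul_add, t3_mul, Matrix.trace_add, trace_t3, trzy]; ring
lemma trOne : (1 : Op q).trace = 8 := by
  rw [Matrix.trace_one]; simp

lemma A_herm : Aᴴ = A := by unfold A; rw [t3_conj, hx]
lemma B_herm : Bᴴ = B := by unfold B; rw [t3_conj, hz]
lemma C_herm : Cᴴ = C := by
  unfold C; simp only [Matrix.conjTranspose_add, t3_conj, hy, Matrix.conjTranspose_one]
lemma H_herm : Hᴴ = H := by
  unfold H
  rw [Matrix.conjTranspose_add, Matrix.conjTranspose_add, Matrix.conjTranspose_smul, A_herm, B_herm,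
    C_herm]
  simp

/-! ## Bloch vectors -/

lemma tr2 (P Q : M2) : (P * Q).trace = P 0 0 * Q 0 0 + P 0 1 * Q 1 0 + (P 1 0 * Q 0 1 + P 1 1 * Q 1 1) := by
  simp only [Matrix.trace, Matrix.diag, Matrix.mul_apply, Fin.sum_univ_two]

lemma bloch {ρ : M2} (h : IsState ρ) : ∃ x y z : ℝ, x ^ 2 + y ^ 2 + z ^ 2 ≤ 1 ∧
    (sx * ρ).trace = x ∧ (sy * ρ).trace = y ∧ (sz * ρ).trace = z := by
  obtain ⟨hp, ht⟩ := h
  have hH := hp.isHermitian
  have h00 : (ρ 0 0).im = 0 := by
    have := congrArg Complex.im (hH.apply 0 0)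
    simp at this; linarith
  have h11 : (ρ 1 1).im = 0 := by
    have := congrArg Complex.im (hH.apply 1 1)
    simp at this; linarith
  have h10 : ρ 1 0 = star (ρ 0 1) := (hH.apply 1 0).symm
  have hdet := hp.det_nonneg
  rw [Matrix.det_fin_two, h10] at hdet
  have hd : 0 ≤ (ρ 0 0).re * (ρ 1 1).re - ((ρ 0 1).re ^ 2 + (ρ 0 1).im ^ 2) := by
    have := (Complex.le_def.mp hdet).1
    simp [h00, h11] at this
    nlinarith
  have htr : (ρ 0 0).re + (ρ 1 1).re = 1 := by
    have := congrArg Complex.re ht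
    simpa [Matrix.trace, Fin.sum_univ_two] using this
  refine ⟨2 * (ρ 0 1).re, -(2 * (ρ 0 1).im), (ρ 0 0).re - (ρ 1 1).re, ?_, ?_, ?_, ?_⟩
  · nlinarith
  · rw [tr2, h10]
    apply Complex.ext <;> simp [sx]
    ring
  · rw [tr2, h10]
    apply Complex.ext <;> simp [sy]
    ring
  · rw [tr2]
    apply Complex.ext <;> simp [sz, h00, h11]
    ring

lemma key1 {x₁ x₂ x₃ y₁ y₂ y₃ z₁ z₂ z₃ : ℝ} (h1 : x₁ ^ 2 + y₁ ^ 2 + z₁ ^ 2 ≤ 1)
    (h2 : x₂ ^ 2 + y₂ ^ 2 + z₂ ^ 2 ≤ 1) (h3 : x₃ ^ 2 + y₃ ^ 2 + z₃ ^ 2 ≤ 1) :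
    |x₁ * x₂ * x₃ + z₁ * z₂ * z₃ + y₁ * y₂| ≤ 1 := by
  have hx3 : 0 ≤ 1 - x₃ ^ 2 := by nlinarith [sq_nonneg y₃, sq_nonneg z₃]
  have hz3 : 0 ≤ 1 - z₃ ^ 2 := by nlinarith [sq_nonneg y₃, sq_nonneg x₃]
  have e1 := mul_nonneg (sq_nonneg x₂) hx3
  have e2 := mul_nonneg (sq_nonneg z₂) hz3
  rw [abs_le]
  constructor
  · nlinarith [sq_nonneg (x₁ + x₂ * x₃), sq_nonneg (z₁ + z₂ * z₃), sq_nonneg (y₁ + y₂)]
  · nlinarith [sq_nonneg (x₁ - x₂ * x₃), sq_nonneg (z₁ - z₂ * z₃), sq_nonneg (y₁ - y₂)]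

/-- The inequality for product states. -/
lemma key {x₁ x₂ x₃ y₁ y₂ y₃ z₁ z₂ z₃ : ℝ} (h1 : x₁ ^ 2 + y₁ ^ 2 + z₁ ^ 2 ≤ 1)
    (h2 : x₂ ^ 2 + y₂ ^ 2 + z₂ ^ 2 ≤ 1) (h3 : x₃ ^ 2 + y₃ ^ 2 + z₃ ^ 2 ≤ 1) :
    |x₁ * x₂ * x₃ + z₁ * z₂ * z₃ + 1 / 3 * (y₁ * y₂ + y₁ * y₃ + y₂ * y₃)| ≤ 1 := by
  have a1 := key1 h1 h2 h3
  have a2 := key1 h1 h3 h2
  have a3 := key1 h2 h3 h1
  rw [abs_le] at *
  constructor <;> nlinarith

lemma trace_H_tens (ρ : ∀ i : Fin 3, Matrix (Fin (q i)) (Fin (q i)) ℂ) (h : ∀ i, IsState (ρ i)) :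
    ∃ t : ℝ, |t| ≤ 1 ∧ (H * tens ρ).trace = t := by
  obtain ⟨x₁, y₁, z₁, h1, a1, b1, c1⟩ := bloch (h 0)
  obtain ⟨x₂, y₂, z₂, h2, a2, b2, c2⟩ := bloch (h 1)
  obtain ⟨x₃, y₃, z₃, h3, a3, b3, c3⟩ := bloch (h 2)
  refine ⟨_, key h1 h2 h3, ?_⟩
  have t1 : ∀ i : Fin 3, ((1 : M2) * ρ i).trace = 1 := fun i => by rw [one_mul]; exact (h i).2
  unfold H A B C
  simp only [add_mul, smul_mul_assoc, Matrix.trace_add, Matrix.trace_smul, t3_mul_tens, smul_eq_mul]
  rw [a1, a2, a3, b1, b2, b3, c1, c2, c3, t1 0, t1 1, t1 2]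
  push_cast
  ring

lemma trace_tens_state (ρ : ∀ i : Fin 3, Matrix (Fin (q i)) (Fin (q i)) ℂ)
    (h : ∀ i, IsState (ρ i)) : (tens ρ).trace = 1 := by
  rw [trace_tens]
  exact Finset.prod_eq_one fun i _ => (h i).2

/-- the witness `1 + η H` -/
noncomputable def W (η : ℂ) : Op q := 1 + η • H

lemma W_herm {η : ℂ} (hη : η = 1 ∨ η = -1) : (W η).IsHermitian := by
  have : star η = η := by rcases hη with h | h <;> simp [h]
  unfold W
  rw [Matrix.IsHermitian, Matrix.conjTranspose_add, Matrix.conjTranspose_smul, H_herm, this,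
    Matrix.conjTranspose_one]

lemma W_pos {η : ℂ} (hη : η = 1 ∨ η = -1) {σ : Op q} (hσ : σ ∈ sep q) :
    0 ≤ (W η * σ).trace.re := by
  have hsub : sep q ⊆ {σ | 0 ≤ (W η * σ).trace.re} := by
    refine convexHull_min ?_ ?_
    · rintro σ ⟨ρ, hρ, rfl⟩
      obtain ⟨t, ht, e⟩ := trace_H_tens ρ hρ
      rw [abs_le] at ht
      simp only [Set.mem_setOf_eq]
      unfold W
      rw [add_mul, one_mul, Matrix.trace_add, smul_mul_assoc, Matrix.trace_smul, e,
        trace_tens_state ρ hρ]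
      rcases hη with h | h <;> simp [h] <;> linarith [ht.1, ht.2]
    · intro x hx y hy a b ha hb hab
      simp only [Set.mem_setOf_eq] at *
      have : (W η * (a • x + b • y)).trace.re = a * (W η * x).trace.re + b * (W η * y).trace.re := by
        rw [mul_add, Matrix.trace_add, Matrix.mul_smul, Matrix.mul_smul, Matrix.trace_smul,
          Matrix.trace_smul]
        simp
      rw [this]
      positivity
  exact hsub hσ

lemma AplusB_sq : (A + B) * (A + B) = (2 : ℂ) • (1 : Op q) := by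
  rw [add_mul, mul_add, mul_add, AA, BB, BA, two_smul]
  abel

/-- a state with negative expectation -/
lemma W_neg {η : ℂ} (hη : η = 1 ∨ η = -1) :
    ∃ ρ : Op q, IsState ρ ∧ (W η * ρ).trace.re < 0 := by
  have hηη : η * η = 1 := by rcases hη with h | h <;> simp [h]
  have hst : star η = η := by rcases hη with h | h <;> simp [h]
  set R : Op q := 1 - (η / 2) • (A + B) with hR
  have hRH : Rᴴ = R := by
    rw [hR, Matrix.conjTranspose_sub, Matrix.conjTranspose_smul, Matrix.conjTranspose_add, A_herm,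
      B_herm, Matrix.conjTranspose_one]
    congr 2
    rw [star_div₀, hst]; simp
  have hRR : R * R = (3 / 2 : ℂ) • (1 : Op q) - η • (A + B) := by
    have : R * R = 1 - (2 * (η / 2)) • (A + B) + (η / 2 * (η / 2)) • ((A + B) * (A + B)) := by
      rw [hR, sub_mul, mul_sub, mul_sub, one_mul, mul_one, one_mul, smul_mul_smul_comm, two_mul,
        add_smul]
      abel
    rw [this, AplusB_sq, smul_smul]
    have e1 : 2 * (η / 2) = η := by ring
    have e2 : η / 2 * (η / 2) * 2 = 1 / 2 := by linear_combination (1 / 2 : ℂ) * hηη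
    rw [e1, e2]
    have e3 : (3 / 2 : ℂ) • (1 : Op q) = 1 + (1 / 2 : ℂ) • (1 : Op q) := by
      rw [show (3 / 2 : ℂ) = 1 + 1 / 2 by norm_num, add_smul, one_smul]
    rw [e3]
    abel
  refine ⟨(1 / 12 : ℂ) • (R * R), ⟨?_, ?_⟩, ?_⟩
  · have h1 : (Rᴴ * R).PosSemidef := Matrix.posSemidef_conjTranspose_mul_self R
    rw [hRH] at h1
    refine h1.smul ?_
    rw [Complex.le_def]; norm_num
  · rw [Matrix.trace_smul, hRR, Matrix.trace_sub, Matrix.trace_smul, Matrix.trace_smul,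
      Matrix.trace_add, trA, trB, trOne]
    simp; norm_num
  · have hABtr : (A * B).trace = 0 := by
      unfold A B; rw [t3_mul, trace_t3, trxz]; ring
    have hBAtr : (B * A).trace = 0 := by rw [BA, Matrix.trace_neg, hABtr, neg_zero]
    have hCA : (C * A).trace = 0 := by rw [← AC]; exact trAC
    have hCB : (C * B).trace = 0 := by rw [← BC]; exact trBC
    have e : (W η * ((1 / 12 : ℂ) • (R * R))).trace = -(1 / 3) := by
      rw [mul_smul_comm, Matrix.trace_smul, hRR]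
      unfold W H
      simp only [add_mul, mul_add, mul_sub, one_mul, mul_one, smul_mul_assoc, mul_smul_comm,
        smul_smul, smul_add, AA, BB, Matrix.trace_add, Matrix.trace_sub, Matrix.trace_smul, trA,
        trB, trC, trOne, hABtr, hBAtr, hCA, hCB, smul_eq_mul]
      linear_combination (-(4 / 3) : ℂ) * hηη
    rw [e]
    norm_num

lemma W_EW {η : ℂ} (hη : η = 1 ∨ η = -1) : IsEW (W η) :=
  ⟨W_herm hη, fun _ hσ => W_pos hη hσ, W_neg hη⟩

/-! ## optimality -/

/-- the projection to the eigenvector of `s` (an involution) with eigenvalue `η` -/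
noncomputable def pr (s : M2) (η : ℂ) : M2 := (1 / 2 : ℂ) • (1 + η • s)

lemma pr_sq {s : M2} (hs : s * s = 1) {η : ℂ} (hη : η * η = 1) : pr s η * pr s η = pr s η := by
  unfold pr
  have : (1 + η • s) * (1 + η • s) = (2 : ℂ) • (1 + η • s) := by
    rw [add_mul, mul_add, mul_add, one_mul, mul_one, one_mul, smul_mul_smul_comm, hs, hη, one_smul,
      two_smul]
    abel
  rw [smul_mul_assoc, mul_smul_comm, this, smul_smul, smul_smul]
  congr 1
  norm_num

lemma pr_herm {s : M2} (hs : sᴴ = s) {η : ℂ} (hη : star η = η) : (pr s η)ᴴ = pr s η := by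
  unfold pr
  rw [Matrix.conjTranspose_smul, Matrix.conjTranspose_add, Matrix.conjTranspose_smul, hs, hη,
    Matrix.conjTranspose_one]
  simp

lemma pr_state {s : M2} (hs : s * s = 1) (hs' : sᴴ = s) (ht : s.trace = 0) {η : ℂ}
    (hη : η * η = 1) (hη' : star η = η) : IsState (pr s η) := by
  constructor
  · have := Matrix.posSemidef_conjTranspose_mul_self (pr s η)
    rwa [pr_herm hs' hη', pr_sq hs hη] at this
  · unfold pr
    rw [Matrix.trace_smul, Matrix.trace_add, Matrix.trace_smul, ht, Matrix.trace_one]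
    simp

lemma tr_same {s : M2} (hs : s * s = 1) (ht : s.trace = 0) (η : ℂ) : (s * pr s η).trace = η := by
  unfold pr
  rw [mul_smul_comm, mul_add, mul_one, mul_smul_comm, hs, Matrix.trace_smul, Matrix.trace_add,
    Matrix.trace_smul, ht, Matrix.trace_one]
  simp
  ring

lemma tr_other {s r : M2} (ht : r.trace = 0) (hrs : (r * s).trace = 0) (η : ℂ) :
    (r * pr s η).trace = 0 := by
  unfold pr
  rw [mul_smul_comm, mul_add, mul_one, mul_smul_comm, Matrix.trace_smul, Matrix.trace_add,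
    Matrix.trace_smul, ht, hrs]
  simp

open scoped MatrixOrder Matrix.Norms.L2Operator in
lemma psd_factor {P : Op q} (hP : P.PosSemidef) : ∃ D : Op q, P = Dᴴ * D := by
  obtain ⟨D, hD⟩ := CStarAlgebra.nonneg_iff_eq_star_mul_self.mp
    (Matrix.nonneg_iff_posSemidef.mpr hP)
  exact ⟨D, hD⟩

/-- Positive semidefinite operators without expectation on a projection. -/
lemma psd_zero {P p : Op q} (hP : P.PosSemidef) (hp : pᴴ = p) (hpp : p * p = p)
    (h : (P * p).trace.re ≤ 0) : P * p = 0 := by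
  obtain ⟨D, rfl⟩ := psd_factor hP
  have e : (Dᴴ * D * p).trace = ((D * p)ᴴ * (D * p)).trace := by
    rw [Matrix.conjTranspose_mul, hp]
    calc (Dᴴ * D * p).trace = (Dᴴ * D * (p * p)).trace := by rw [hpp]
      _ = ((Dᴴ * D * p) * p).trace := by simp only [Matrix.mul_assoc]
      _ = (p * (Dᴴ * D * p)).trace := Matrix.trace_mul_comm _ _
      _ = _ := by simp only [Matrix.mul_assoc]
  have h0 : 0 ≤ ((D * p)ᴴ * (D * p)).trace := (Matrix.posSemidef_conjTranspose_mul_self _).trace_nonneg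
  have h1 : ((D * p)ᴴ * (D * p)).trace = 0 := by
    rw [Complex.le_def] at h0
    rw [e] at h
    apply Complex.ext
    · simp only [Complex.zero_re] at h0 ⊢; linarith [h0.1]
    · exact h0.2.symm
  have h2 := Matrix.trace_conjTranspose_mul_self_eq_zero_iff.mp h1
  rw [Matrix.mul_assoc, h2, Matrix.mul_zero]

/-- the sum of the four projections with product of signs `-η` -/
lemma sum_pr (s : M2) {η : ℂ} (hη : η = 1 ∨ η = -1) :
    t3 (pr s (-η)) (pr s η) (pr s η) + t3 (pr s η) (pr s (-η)) (pr s η) +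
      t3 (pr s η) (pr s η) (pr s (-η)) + t3 (pr s (-η)) (pr s (-η)) (pr s (-η)) =
      (1 / 2 : ℂ) • (1 - η • t3 s s s) := by
  rw [← t3_one]
  ext x y
  simp only [pr, Matrix.add_apply, Matrix.sub_apply, Matrix.smul_apply, t3_apply, smul_eq_mul]
  rcases hη with h | h <;> rw [h] <;> ring

lemma mem_sep {ρ : ∀ i : Fin 3, Matrix (Fin (q i)) (Fin (q i)) ℂ} (h : ∀ i, IsState (ρ i)) :
    tens ρ ∈ sep q := subset_convexHull _ _ ⟨ρ, h, rfl⟩

/-- The subtracted operator vanishes on a zero of the witness. -/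
lemma kill {η : ℂ} {ε : ℝ} {P : Op q} (hε : 0 < ε) (hP : P.PosSemidef)
    (hW : IsEW (W η - (ε : ℂ) • P)) {p₁ p₂ p₃ : M2} (h1 : IsState p₁) (h2 : IsState p₂)
    (h3 : IsState p₃) (e1 : p₁ᴴ = p₁) (e2 : p₂ᴴ = p₂) (e3 : p₃ᴴ = p₃) (f1 : p₁ * p₁ = p₁)
    (f2 : p₂ * p₂ = p₂) (f3 : p₃ * p₃ = p₃) (h0 : (W η * t3 p₁ p₂ p₃).trace = 0) :
    P * t3 p₁ p₂ p₃ = 0 := by
  apply psd_zero hP
  · rw [t3_conj, e1, e2, e3]
  · rw [t3_mul, f1, f2, f3]
  · have hm : t3 p₁ p₂ p₃ ∈ sep q := by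
      unfold t3
      apply mem_sep
      intro i
      fin_cases i
      · exact h1
      · exact h2
      · exact h3
    have := hW.2.1 _ hm
    rw [sub_mul, Matrix.trace_sub, h0, smul_mul_assoc, Matrix.trace_smul] at this
    simp at this
    by_contra hc
    push Not at hc
    have := mul_pos hε hc
    linarith

lemma tr_W_zero {η s₁ s₂ s₃ : ℂ} {s : M2} (h : (s = sx) ∨ (s = sz)) (hs : s₁ * s₂ * s₃ = -η)
    (hη : η * η = 1) : (W η * t3 (pr s s₁) (pr s s₂) (pr s s₃)).trace = 0 := by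
  have h1 : ∀ t : ℂ, (pr s t).trace = 1 := by
    intro t
    unfold pr
    rcases h with h | h
    · rw [h, Matrix.trace_smul, Matrix.trace_add, Matrix.trace_smul, trx, Matrix.trace_one]; simp
    · rw [h, Matrix.trace_smul, Matrix.trace_add, Matrix.trace_smul, trz, Matrix.trace_one]; simp
  unfold W H A B C
  simp only [add_mul, one_mul, smul_mul_assoc, smul_add, Matrix.trace_add, Matrix.trace_smul,
    t3_mul, trace_t3, h1, smul_eq_mul]
  rcases h with h | h
  · subst h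
    simp only [tr_same sxx trx, tr_other trz trzx, tr_other try' tryx]
    linear_combination η * hs - hη
  · subst h
    simp only [tr_same szz trz, tr_other trx trxz, tr_other try' tryz]
    linear_combination η * hs - hη

lemma kill_sum {η : ℂ} (hη : η = 1 ∨ η = -1) {ε : ℝ} {P : Op q} (hε : 0 < ε) (hP : P.PosSemidef)
    (hW : IsEW (W η - (ε : ℂ) • P)) {s : M2} (h : (s = sx) ∨ (s = sz)) :
    P = η • (P * t3 s s s) := by
  have hηη : η * η = 1 := by rcases hη with h | h <;> simp [h]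
  have hst : star η = η := by rcases hη with h | h <;> simp [h]
  have hnn : (-η) * (-η) = 1 := by rw [neg_mul_neg]; exact hηη
  have hnst : star (-η) = -η := by rw [star_neg, hst]
  have hss : s * s = 1 := by rcases h with h | h <;> rw [h]; exacts [sxx, szz]
  have hsH : sᴴ = s := by rcases h with h | h <;> rw [h]; exacts [hx, hz]
  have hst0 : s.trace = 0 := by rcases h with h | h <;> rw [h]; exacts [trx, trz]
  have a1 := pr_state hss hsH hst0 hηη hst
  have a2 := pr_state hss hsH hst0 hnn hnst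
  have b1 := pr_herm hsH hst
  have b2 := pr_herm hsH hnst
  have c1 := pr_sq hss hηη
  have c2 := pr_sq hss hnn
  have z1 := kill hε hP hW a2 a1 a1 b2 b1 b1 c2 c1 c1
    (tr_W_zero h (by linear_combination (-η) * hηη) hηη)
  have z2 := kill hε hP hW a1 a2 a1 b1 b2 b1 c1 c2 c1
    (tr_W_zero h (by linear_combination (-η) * hηη) hηη)
  have z3 := kill hε hP hW a1 a1 a2 b1 b1 b2 c1 c1 c2
    (tr_W_zero h (by linear_combination (-η) * hηη) hηη)
  have z4 := kill hε hP hW a2 a2 a2 b2 b2 b2 c2 c2 c2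
    (tr_W_zero h (by linear_combination (-η) * hηη) hηη)
  have hsum := congrArg (fun Z => P * Z) (sum_pr s hη)
  simp only [mul_add, z1, z2, z3, z4, add_zero] at hsum
  rw [mul_smul_comm, mul_sub, mul_one, mul_smul_comm] at hsum
  have h2 : P - η • (P * t3 s s s) = 0 := by
    have := congrArg (fun Z => (2 : ℂ) • Z) hsum.symm
    simp only [smul_smul, smul_zero] at this
    norm_num at this
    exact this
  exact sub_eq_zero.mp h2

lemma W_optimal {η : ℂ} (hη : η = 1 ∨ η = -1) : IsOptimalEW (W η) := by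
  refine ⟨W_EW hη, fun ε P hε hP hP0 hW => hP0 ?_⟩
  have hηη : η * η = 1 := by rcases hη with h | h <;> simp [h]
  have ha : P = η • (P * A) := kill_sum hη hε hP hW (Or.inl rfl)
  have hb : P = η • (P * B) := kill_sum hη hε hP hW (Or.inr rfl)
  have h1 : P = P * B * A := by
    conv_lhs => rw [ha]
    conv_lhs => rw [hb]
    rw [smul_mul_assoc, smul_smul, hηη, one_smul]
  have h2 : P = P * A * B := by
    conv_lhs => rw [hb]
    conv_lhs => rw [ha]
    rw [smul_mul_assoc, smul_smul, hηη, one_smul]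
  have h3 : P = -P := by
    conv_lhs => rw [h1]
    rw [Matrix.mul_assoc, BA, mul_neg, ← Matrix.mul_assoc, ← h2]
  have h4 : (2 : ℂ) • P = 0 := by
    rw [two_smul]
    nth_rewrite 2 [h3]
    exact add_neg_cancel P
  exact (smul_eq_zero.mp h4).resolve_left two_ne_zero

/-! ## the witnesses are not unitarily equivalent -/

lemma trace_H_cube : (H * H * H).trace = 16 / 9 := by
  have hABtr : (A * B).trace = 0 := by
    unfold A B; rw [t3_mul, trace_t3, trxz]; ring
  set S : Op q := A + B with hS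
  have hSS : S * S = (2 : ℂ) • (1 : Op q) := AplusB_sq
  have hSC : S * C = C * S := by rw [hS, add_mul, mul_add, AC, BC]
  have trS : S.trace = 0 := by rw [hS, Matrix.trace_add, trA, trB, add_zero]
  have trSC : (S * C).trace = 0 := by rw [hS, add_mul, Matrix.trace_add, trAC, trBC, add_zero]
  have hH : H = S + (1 / 3 : ℂ) • C := rfl
  have h2 : H * H = (7 / 3 : ℂ) • (1 : Op q) + (2 / 3 : ℂ) • (S * C) + (2 / 9 : ℂ) • C := by
    rw [hH]
    simp only [add_mul, mul_add, smul_mul_assoc, mul_smul_comm, smul_smul, hSS, CC, ← hSC, smul_add]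
    ext x y
    simp only [Matrix.add_apply, Matrix.smul_apply, smul_eq_mul]
    ring
  have hSCS : S * C * S = (2 : ℂ) • C := by
    rw [Matrix.mul_assoc, ← hSC, ← Matrix.mul_assoc, hSS, smul_mul_assoc, one_mul]
  have hSCC : S * C * C = (2 : ℂ) • (S * C) + (3 : ℂ) • S := by
    rw [Matrix.mul_assoc, CC, mul_add, mul_smul_comm, mul_smul_comm, mul_one]
  rw [h2]
  conv_lhs => rw [hH]
  simp only [add_mul, mul_add, smul_mul_assoc, mul_smul_comm, smul_smul, one_mul, hSCS, hSCC, CC,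
    ← hSC, smul_add, Matrix.trace_add, Matrix.trace_smul, trS, trSC, trC, trOne, smul_eq_mul]
  norm_num

lemma not_unitary (U : Op q) (hU : Uᴴ * U = 1) : W (-1) ≠ U * W 1 * Uᴴ := by
  intro h
  have hU' : U * Uᴴ = 1 := mul_eq_one_comm.mp hU
  have h1 : -H = U * H * Uᴴ := by
    have e1 : W (-1) = 1 - H := by unfold W; rw [neg_smul, one_smul]; rfl
    have e2 : U * W 1 * Uᴴ = 1 + U * H * Uᴴ := by
      unfold W; rw [one_smul, mul_add, add_mul, mul_one, hU']
    rw [e1, e2] at h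
    have := congrArg (fun Z => Z - 1) h
    simpa using this
  have h3 : (-H) * (-H) * (-H) = U * (H * H * H) * Uᴴ := by
    rw [h1]
    calc U * H * Uᴴ * (U * H * Uᴴ) * (U * H * Uᴴ)
        = U * H * (Uᴴ * U) * H * (Uᴴ * U) * H * Uᴴ := by simp only [Matrix.mul_assoc]
      _ = U * (H * H * H) * Uᴴ := by rw [hU]; simp only [mul_one, Matrix.mul_assoc]
  have h4 : ((-H) * (-H) * (-H)).trace = (H * H * H).trace := by
    rw [h3, Matrix.trace_mul_comm, ← Matrix.mul_assoc, hU, one_mul]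
  rw [neg_mul_neg, mul_neg, Matrix.trace_neg, trace_H_cube] at h4
  norm_num at h4

lemma mirrored : Mirrored (W 1) (W (-1)) := by
  refine ⟨2, ?_⟩
  unfold W
  rw [one_smul, neg_smul, one_smul]
  push_cast
  rw [two_smul]
  abel

end Pool.Agent.Q230.MirrorEW
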