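import Mathlib

/-! Concatenation of infinitely many arcs into a properly embedded closed half-line. -/

namespace Q230.Spiral

open Set Filter Topology

/-- glue a sequence of paths -/
noncomputable def glue {X : Type*} (g : ℕ → ℝ → X) (t : NNReal) : X :=
  g ⌊t⌋₊ ((t : ℝ) - (⌊t⌋₊ : ℝ))

theorem floor_le' (u : NNReal) : ((⌊u⌋₊ : ℝ)) ≤ u := by
  have h1 : (⌊u⌋₊ : NNReal) ≤ u := Nat.floor_le bot_le
  exact_mod_cast h1

theorem lt_floor' (u : NNReal) : (u : ℝ) < (⌊u⌋₊ : ℝ) + 1 := by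
  have h2 : u < ⌊u⌋₊ + 1 := Nat.lt_floor_add_one u
  exact_mod_cast h2

theorem glue_cont {X : Type*} [TopologicalSpace X] (g : ℕ → ℝ → X)
    (hc : ∀ k, Continuous (g k)) (hj : ∀ k, g k 1 = g (k+1) 0) :
    Continuous (glue g) := by
  have hlf : LocallyFinite (fun k : ℕ => Icc (k : NNReal) (k+1)) := by
    intro t
    refine ⟨Iio (t+1), Iio_mem_nhds (by simp), ?_⟩
    refine (Set.finite_lt_nat (⌊t⌋₊ + 2)).subset ?_
    rintro k ⟨s, hs1, hs2⟩
    have h1 : (k : NNReal) < t + 1 := lt_of_le_of_lt hs1.1 hs2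
    have h2 : t < ⌊t⌋₊ + 1 := Nat.lt_floor_add_one t
    have h3 : (k : NNReal) < (⌊t⌋₊ + 2 : ℕ) := by
      push_cast
      calc (k : NNReal) < t + 1 := h1
        _ < (⌊t⌋₊ + 1) + 1 := by gcongr
        _ = ⌊t⌋₊ + 2 := by ring
    exact_mod_cast h3
  refine hlf.continuous ?_ (fun k => isClosed_Icc) ?_
  · refine eq_univ_of_forall fun t => mem_iUnion.2 ⟨⌊t⌋₊, ?_⟩
    exact ⟨Nat.floor_le bot_le, (Nat.lt_floor_add_one t).le⟩
  · intro k
    have hcont : ContinuousOn (fun t : NNReal => g k ((t:ℝ) - k)) (Icc (k : NNReal) (k+1)) := by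
      apply Continuous.continuousOn
      exact (hc k).comp (by fun_prop)
    refine hcont.congr ?_
    rintro t ⟨h1, h2⟩
    rcases h2.lt_or_eq with h | h
    · have : ⌊t⌋₊ = k := by
        rw [Nat.floor_eq_iff bot_le]
        exact ⟨h1, h⟩
      simp [glue, this]
    · have h3 : ⌊t⌋₊ = k + 1 := by
        rw [h]
        have : ((k : NNReal) + 1) = ((k+1 : ℕ) : NNReal) := by push_cast; rfl
        rw [this, Nat.floor_natCast]
      have h4 : (t : ℝ) = k + 1 := by rw [h]; push_cast; rfl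
      show g ⌊t⌋₊ ((t : ℝ) - (⌊t⌋₊ : ℝ)) = g k ((t:ℝ) - k)
      rw [h3, h4]
      push_cast
      rw [sub_self, add_sub_cancel_left, hj k]

theorem glue_inj {X : Type*} (g : ℕ → ℝ → X)
    (hinj : ∀ k l : ℕ, ∀ s ∈ Ico (0:ℝ) 1, ∀ t ∈ Ico (0:ℝ) 1, g k s = g l t → k = l ∧ s = t) :
    Function.Injective (glue g) := by
  intro s t h
  have hm : ∀ u : NNReal, ((u:ℝ) - (⌊u⌋₊ : ℝ)) ∈ Ico (0:ℝ) 1 := by
    intro u
    have h1' := floor_le' u
    have h2' := lt_floor' u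
    constructor <;> linarith
  obtain ⟨h1, h2⟩ := hinj _ _ _ (hm s) _ (hm t) h
  rw [h1] at h2
  have : (s : ℝ) = t := by linarith
  exact_mod_cast this

theorem glue_range {X : Type*} (g : ℕ → ℝ → X) :
    range (glue g) = ⋃ k, g k '' Ico (0:ℝ) 1 := by
  ext p
  simp only [mem_range, mem_iUnion, mem_image]
  constructor
  · rintro ⟨u, rfl⟩
    have h1' := floor_le' u
    have h2' := lt_floor' u
    exact ⟨⌊u⌋₊, _, ⟨by linarith, by linarith⟩, rfl⟩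
  · rintro ⟨k, s, ⟨hs0, hs1⟩, rfl⟩
    obtain ⟨u, hu⟩ : ∃ u : NNReal, (u : ℝ) = k + s := ⟨⟨k + s, by positivity⟩, rfl⟩
    refine ⟨u, ?_⟩
    have hfl : ⌊u⌋₊ = k := by
      rw [Nat.floor_eq_iff bot_le]
      constructor
      · rw [← NNReal.coe_le_coe, hu]; push_cast; linarith
      · rw [← NNReal.coe_lt_coe, hu]; push_cast; linarith
    show g ⌊u⌋₊ ((u : ℝ) - (⌊u⌋₊ : ℝ)) = g k s
    rw [hfl, hu]
    congr 1
    ring

theorem glue_closedEmbedding {E : Type*} [NormedAddCommGroup E] [ProperSpace E]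
    (g : ℕ → ℝ → E)
    (hc : ∀ k, Continuous (g k)) (hj : ∀ k, g k 1 = g (k+1) 0)
    (hinj : ∀ k l : ℕ, ∀ s ∈ Ico (0:ℝ) 1, ∀ t ∈ Ico (0:ℝ) 1, g k s = g l t → k = l ∧ s = t)
    (hprop : ∀ k : ℕ, ∀ s ∈ Ico (0:ℝ) 1, (((k - 1) / 4 : ℕ) : ℝ) ≤ ‖g k s‖) :
    IsClosedEmbedding (glue g) := by
  have hcont := glue_cont g hc hj
  have htend : Tendsto (glue g) (cocompact NNReal) (cocompact E) := by
    rw [cocompact_eq_atTop, ← Metric.cobounded_eq_cocompact, ← comap_norm_atTop, tendsto_comap_iff]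
    rw [tendsto_atTop]
    intro b
    filter_upwards [eventually_ge_atTop ((4 * ⌈b⌉₊ + 1 : ℕ) : NNReal)] with t ht
    have h1 : 4 * ⌈b⌉₊ + 1 ≤ ⌊t⌋₊ := Nat.le_floor ht
    have h1' := floor_le' t
    have h2' := lt_floor' t
    have h3 := hprop ⌊t⌋₊ ((t:ℝ) - ⌊t⌋₊) ⟨by linarith, by linarith⟩
    have h4 : ⌈b⌉₊ ≤ (⌊t⌋₊ - 1) / 4 := by omega
    calc b ≤ ⌈b⌉₊ := Nat.le_ceil b
      _ ≤ (((⌊t⌋₊ - 1) / 4 : ℕ) : ℝ) := by exact_mod_cast h4
      _ ≤ _ := h3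
  have hp : IsProperMap (glue g) := isProperMap_iff_tendsto_cocompact.2 ⟨hcont, htend⟩
  exact IsClosedEmbedding.of_continuous_injective_isClosedMap hcont (glue_inj g hinj) hp.isClosedMap

end Q230.Spiral
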