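import Mathlib
import Pool.Agent.Q230.SpiralGlue

/-! The arms of an `n`-armed square spiral. -/

namespace Q230.Spiral

open Set Filter Topology

/-- The Euclidean plane. -/
abbrev E2 := EuclideanSpace ℝ (Fin 2)

/-- The point `(x,y)`. -/
noncomputable def pt (x y : ℝ) : E2 := !₂[x, y]

@[simp] theorem pt_zero (x y : ℝ) : pt x y 0 = x := rfl
@[simp] theorem pt_one (x y : ℝ) : pt x y 1 = y := rfl

theorem ext2 {p q : E2} (h0 : p 0 = q 0) (h1 : p 1 = q 1) : p = q := by
  ext i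
  fin_cases i
  · exact h0
  · exact h1

theorem pt_inj {a b c d : ℝ} (h : pt a b = pt c d) : a = c ∧ b = d :=
  ⟨by simpa using congrArg (fun p : E2 => p 0) h, by simpa using congrArg (fun p : E2 => p 1) h⟩

theorem continuous_pt {X : Type*} [TopologicalSpace X] {f g : X → ℝ} (hf : Continuous f)
    (hg : Continuous g) : Continuous (fun x => pt (f x) (g x)) := by
  unfold pt
  refine (PiLp.continuous_toLp 2 _).comp ?_
  refine continuous_pi fun i => ?_
  fin_cases i
  · exact hf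
  · exact hg

/-- half-open sides of the arms -/
def HS (n : ℕ) : ℕ → ℕ → Set E2
  | 0, N => {p | p 0 = 2 + (N:ℝ) ∧ -(N:ℝ) ≤ p 1 ∧ p 1 < 1 + N}
  | 1, N => {p | p 1 = 1 + (N:ℝ) ∧ -(N:ℝ) < p 0 ∧ p 0 ≤ 2 + N}
  | 2, N => {p | p 0 = -(N:ℝ) ∧ -((N:ℝ)+n) < p 1 ∧ p 1 ≤ 1 + N}
  | 3, N => {p | p 1 = -((N:ℝ)+n) ∧ -(N:ℝ) ≤ p 0 ∧ p 0 < 2 + N + n}
  | _, N => {p | p 1 = -(N:ℝ) ∧ 1 ≤ p 0 ∧ p 0 < 2 + N}

/-- parametrised sides -/
noncomputable def P (n : ℕ) : ℕ → ℕ → ℝ → E2
  | 0, N, s => pt (2+N) (-N + s*(1+2*N))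
  | 1, N, s => pt (2+N - s*(2+2*N)) (1+N)
  | 2, N, s => pt (-N) (1+N - s*(1+2*N+n))
  | 3, N, s => pt (-N + s*(2+2*N+n)) (-(N+n))
  | _, N, s => pt (1 + s*(1+N)) (-N)

theorem P_cont (n t N : ℕ) : Continuous (P n t N) := by
  match t with
  | 0 => exact continuous_pt (by fun_prop) (by fun_prop)
  | 1 => exact continuous_pt (by fun_prop) (by fun_prop)
  | 2 => exact continuous_pt (by fun_prop) (by fun_prop)
  | 3 => exact continuous_pt (by fun_prop) (by fun_prop)
  | (k+4) => exact continuous_pt (by fun_prop) (by fun_prop)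

theorem P_image (n t N : ℕ) : P n t N '' Ico (0:ℝ) 1 = HS n t N := by
  have hN : (0:ℝ) ≤ N := Nat.cast_nonneg N
  have hn : (0:ℝ) ≤ n := Nat.cast_nonneg n
  apply Subset.antisymm
  · rintro _ ⟨s, ⟨h0, h1⟩, rfl⟩
    match t with
    | 0 =>
      refine ⟨by simp [P], ?_, ?_⟩ <;> simp only [P, pt_one] <;> nlinarith
    | 1 =>
      refine ⟨by simp [P], ?_, ?_⟩ <;> simp only [P, pt_zero] <;> nlinarith
    | 2 =>
      refine ⟨by simp [P], ?_, ?_⟩ <;> simp only [P, pt_one] <;> nlinarith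
    | 3 =>
      refine ⟨by simp [P], ?_, ?_⟩ <;> simp only [P, pt_zero] <;> nlinarith
    | (k+4) =>
      refine ⟨by simp [P], ?_, ?_⟩ <;> simp only [P, pt_zero] <;> nlinarith
  · intro p hp
    match t with
    | 0 =>
      obtain ⟨h1, h2, h3⟩ := hp
      have hD : (0:ℝ) < 1 + 2 * N := by positivity
      refine ⟨(p 1 + N) / (1+2*N), ⟨div_nonneg (by linarith) hD.le, ?_⟩, ?_⟩
      · rw [div_lt_one hD]; linarith
      · apply ext2
        · simp [P, h1]
        · simp only [P, pt_one]; field_simp; ring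
    | 1 =>
      obtain ⟨h1, h2, h3⟩ := hp
      have hD : (0:ℝ) < 2 + 2 * N := by positivity
      refine ⟨(2 + N - p 0) / (2+2*N), ⟨div_nonneg (by linarith) hD.le, ?_⟩, ?_⟩
      · rw [div_lt_one hD]; linarith
      · apply ext2
        · simp only [P, pt_zero]; field_simp; ring
        · simp [P, h1]
    | 2 =>
      obtain ⟨h1, h2, h3⟩ := hp
      have hD : (0:ℝ) < 1 + 2 * N + n := by positivity
      refine ⟨(1 + N - p 1) / (1+2*N+n), ⟨div_nonneg (by linarith) hD.le, ?_⟩, ?_⟩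
      · rw [div_lt_one hD]; linarith
      · apply ext2
        · simp [P, h1]
        · simp only [P, pt_one]; field_simp; ring
    | 3 =>
      obtain ⟨h1, h2, h3⟩ := hp
      have hD : (0:ℝ) < 2 + 2 * N + n := by positivity
      refine ⟨(p 0 + N) / (2+2*N+n), ⟨div_nonneg (by linarith) hD.le, ?_⟩, ?_⟩
      · rw [div_lt_one hD]; linarith
      · apply ext2
        · simp only [P, pt_zero]; field_simp; ring
        · simp [P, h1]
    | (k+4) =>
      obtain ⟨h1, h2, h3⟩ := hp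
      have hD : (0:ℝ) < 1 + N := by positivity
      refine ⟨(p 0 - 1) / (1+N), ⟨div_nonneg (by linarith) hD.le, ?_⟩, ?_⟩
      · rw [div_lt_one hD]; linarith
      · apply ext2
        · simp only [P, pt_zero]; field_simp; ring
        · simp [P, h1]

theorem P_inj (n t N : ℕ) {s s' : ℝ} (h : P n t N s = P n t N s') : s = s' := by
  have hN : (0:ℝ) ≤ N := Nat.cast_nonneg N
  have hn : (0:ℝ) ≤ n := Nat.cast_nonneg n
  match t with
  | 0 =>
    have h := (pt_inj h).2
    have hD : (1 + 2 * (N:ℝ)) ≠ 0 := by positivity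
    exact mul_right_cancel₀ hD (by linarith)
  | 1 =>
    have h := (pt_inj h).1
    have hD : (2 + 2 * (N:ℝ)) ≠ 0 := by positivity
    exact mul_right_cancel₀ hD (by linarith)
  | 2 =>
    have h := (pt_inj h).2
    have hD : (1 + 2 * (N:ℝ) + n) ≠ 0 := by positivity
    exact mul_right_cancel₀ hD (by linarith)
  | 3 =>
    have h := (pt_inj h).1
    have hD : (2 + 2 * (N:ℝ) + n) ≠ 0 := by positivity
    exact mul_right_cancel₀ hD (by linarith)
  | (k+4) =>
    have h := (pt_inj h).1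
    have hD : (1 + (N:ℝ)) ≠ 0 := by positivity
    exact mul_right_cancel₀ hD (by linarith)

theorem HS_disj {n t N t' N' : ℕ} (hn1 : 1 ≤ n) (ht : t ≤ 4) (ht' : t' ≤ 4)
    (h4 : t = 4 → N < n) (h4' : t' = 4 → N' < n) {p : E2} (hp : p ∈ HS n t N)
    (hp' : p ∈ HS n t' N') : t = t' ∧ N = N' := by
  have hN : (0:ℝ) ≤ N := Nat.cast_nonneg N
  have hN' : (0:ℝ) ≤ N' := Nat.cast_nonneg N'
  have hn : (1:ℝ) ≤ n := by exact_mod_cast hn1
  have key : N = N' ∨ (N:ℝ) + 1 ≤ N' ∨ (N':ℝ) + 1 ≤ N := by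
    rcases Nat.lt_trichotomy N N' with h | h | h
    · exact Or.inr (Or.inl (by exact_mod_cast h))
    · exact Or.inl h
    · exact Or.inr (Or.inr (by exact_mod_cast h))
  have k4 : t = 4 → (N:ℝ) + 1 ≤ n := fun h => by exact_mod_cast h4 h
  have k4' : t' = 4 → (N':ℝ) + 1 ≤ n := fun h => by exact_mod_cast h4' h
  clear h4 h4'
  interval_cases t <;> interval_cases t' <;> obtain ⟨h1, h2, h3⟩ := hp <;>
    obtain ⟨h1', h2', h3'⟩ := hp' <;> (try simp only [forall_const] at k4) <;> (try simp only [forall_const] at k4') <;>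
    rcases key with rfl | key | key <;>
    first
    | exact ⟨rfl, rfl⟩
    | (exfalso; linarith)

end Q230.Spiral
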