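import Mathlib
import Pool.Agent.Q230.SpiralSides

/-! The arms of an `n`-armed square spiral: each is a properly embedded closed half-line. -/

namespace Q230.Spiral

open Set Filter Topology

def typ : ℕ → ℕ
  | 0 => 4
  | k+1 => k % 4

def lev (n i : ℕ) : ℕ → ℕ
  | 0 => i
  | k+1 => i + n * (k / 4)

theorem typ_le (k : ℕ) : typ k ≤ 4 := by
  cases k with
  | zero => exact le_rfl
  | succ k => exact (Nat.mod_lt k (by norm_num)).le

theorem typ_eq4 {k : ℕ} (h : typ k = 4) : k = 0 := by
  cases k with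
  | zero => rfl
  | succ k => simp only [typ] at h; omega

noncomputable def g (n i k : ℕ) : ℝ → E2 := P n (typ k) (lev n i k)

theorem g_join (n i k : ℕ) : g n i k 1 = g n i (k+1) 0 := by
  cases k with
  | zero =>
    simp only [g, typ, lev, P]
    apply ext2 <;> simp <;> ring
  | succ k =>
    obtain ⟨j, r, hr, rfl⟩ : ∃ j r, r < 4 ∧ k = 4 * j + r :=
      ⟨k / 4, k % 4, Nat.mod_lt _ (by norm_num), by omega⟩
    interval_cases r
    · have e1 : (4 * j + 0) % 4 = 0 := by omega
      have e2 : (4 * j + 0) / 4 = j := by omega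
      have e3 : (4 * j + 0 + 1) % 4 = 1 := by omega
      have e4 : (4 * j + 0 + 1) / 4 = j := by omega
      simp only [g, typ, lev, e1, e2, e3, e4, P]
      apply ext2 <;> simp <;> ring
    · have e1 : (4 * j + 1) % 4 = 1 := by omega
      have e2 : (4 * j + 1) / 4 = j := by omega
      have e3 : (4 * j + 1 + 1) % 4 = 2 := by omega
      have e4 : (4 * j + 1 + 1) / 4 = j := by omega
      simp only [g, typ, lev, e1, e2, e3, e4, P]
      apply ext2 <;> simp <;> ring
    · have e1 : (4 * j + 2) % 4 = 2 := by omega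
      have e2 : (4 * j + 2) / 4 = j := by omega
      have e3 : (4 * j + 2 + 1) % 4 = 3 := by omega
      have e4 : (4 * j + 2 + 1) / 4 = j := by omega
      simp only [g, typ, lev, e1, e2, e3, e4, P]
      apply ext2 <;> simp <;> ring
    · have e1 : (4 * j + 3) % 4 = 3 := by omega
      have e2 : (4 * j + 3) / 4 = j := by omega
      have e3 : (4 * j + 3 + 1) % 4 = 0 := by omega
      have e4 : (4 * j + 3 + 1) / 4 = j + 1 := by omega
      simp only [g, typ, lev, e1, e2, e3, e4, P]
      apply ext2 <;> simp <;> ring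

theorem g_mem (n i k : ℕ) {s : ℝ} (hs : s ∈ Ico (0:ℝ) 1) : g n i k s ∈ HS n (typ k) (lev n i k) := by
  rw [← P_image]
  exact ⟨s, hs, rfl⟩

theorem key_inj {n i i' k l : ℕ} (hi : i < n) (hi' : i' < n) (ht : typ k = typ l)
    (hl : lev n i k = lev n i' l) : i = i' ∧ k = l := by
  cases k with
  | zero =>
    have hl0 : l = 0 := typ_eq4 ht.symm
    subst hl0
    exact ⟨hl, rfl⟩
  | succ k =>
    cases l with
    | zero => exact absurd (typ_eq4 ht) (by omega)
    | succ l =>
      simp only [typ] at ht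
      simp only [lev] at hl
      have h1 : i = i' := by
        have := congrArg (· % n) hl
        simpa [Nat.add_mul_mod_self_left, Nat.mod_eq_of_lt hi, Nat.mod_eq_of_lt hi'] using this
      subst h1
      have h2 : k / 4 = l / 4 := by
        have h3 : n * (k/4) = n * (l/4) := by omega
        exact Nat.eq_of_mul_eq_mul_left (by omega) h3
      exact ⟨rfl, by omega⟩

theorem g_inj {n i i' k l : ℕ} (hi : i < n) (hi' : i' < n) {s t : ℝ} (hs : s ∈ Ico (0:ℝ) 1)
    (ht : t ∈ Ico (0:ℝ) 1) (h : g n i k s = g n i' l t) : i = i' ∧ k = l ∧ s = t := by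
  have h1 := g_mem n i k hs
  have h2 := g_mem n i' l ht
  rw [h] at h1
  have h3 := HS_disj (by omega) (typ_le k) (typ_le l)
    (fun e => by rw [typ_eq4 e]; exact hi) (fun e => by rw [typ_eq4 e]; exact hi') h1 h2
  obtain ⟨h4, h5⟩ := key_inj hi hi' h3.1 h3.2
  subst h4; subst h5
  exact ⟨rfl, rfl, P_inj _ _ _ h⟩

theorem g_norm {n i k : ℕ} {s : ℝ} (hn : 1 ≤ n) (hs : s ∈ Ico (0:ℝ) 1) :
    (((k - 1) / 4 : ℕ) : ℝ) ≤ ‖g n i k s‖ := by
  cases k with
  | zero => simp
  | succ k =>
    have h1 := g_mem n i (k+1) hs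
    set p := g n i (k+1) s with hp
    have hq : ((k+1-1)/4) ≤ lev n i (k+1) := by
      simp only [lev, Nat.add_sub_cancel]
      have : k/4 ≤ n * (k/4) := Nat.le_mul_of_pos_left _ hn
      omega
    have hq' : (((k+1-1)/4 : ℕ) : ℝ) ≤ lev n i (k+1) := by exact_mod_cast hq
    refine hq'.trans ?_
    have h0 : |p 0| ≤ ‖p‖ := by simpa using PiLp.norm_apply_le p 0
    have h0' : |p 1| ≤ ‖p‖ := by simpa using PiLp.norm_apply_le p 1
    have hL : (0:ℝ) ≤ lev n i (k+1) := Nat.cast_nonneg _
    have hn0 : (0:ℝ) ≤ n := Nat.cast_nonneg _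
    have htp : typ (k+1) < 4 := Nat.mod_lt k (by norm_num)
    generalize lev n i (k+1) = L at h1 hL
    generalize typ (k+1) = t at h1 htp
    interval_cases t
    · have := h1.1
      have h2 := le_abs_self (p 0)
      linarith
    · have := h1.1
      have h2 := le_abs_self (p 1)
      linarith
    · have := h1.1
      have h2 := neg_abs_le (p 0)
      linarith
    · have := h1.1
      have h2 := neg_abs_le (p 1)
      linarith

/-- The `i`-th arm. -/
def arm (n i : ℕ) : Set E2 := range (glue (g n i))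

theorem arm_eq (n i : ℕ) : arm n i = ⋃ k, HS n (typ k) (lev n i k) := by
  rw [arm, glue_range]
  refine iUnion_congr fun k => ?_
  exact P_image _ _ _

theorem arm_embed {n i : ℕ} (hi : i < n) : IsClosedEmbedding (glue (g n i)) := by
  refine glue_closedEmbedding _ (fun k => P_cont _ _ _) (fun k => g_join n i k) ?_ ?_
  · intro k l s hs t ht h
    exact (g_inj hi hi hs ht h).2
  · intro k s hs
    exact g_norm (by omega) hs

theorem arm_disj {n i i' : ℕ} (hi : i < n) (hi' : i' < n) (hne : i ≠ i') :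
    Disjoint (arm n i) (arm n i') := by
  rw [Set.disjoint_left]
  intro p hp hp'
  rw [arm, glue_range] at hp hp'
  obtain ⟨k, s, hs, rfl⟩ := mem_iUnion.1 hp
  obtain ⟨l, t, ht, h⟩ := mem_iUnion.1 hp'
  exact hne (g_inj hi hi' hs ht h.symm).1

theorem arm_unbounded {n i : ℕ} (hi : i < n) : ¬ Bornology.IsBounded (arm n i) := by
  intro hb
  have hc : IsCompact (arm n i) :=
    Metric.isCompact_of_isClosed_isBounded (arm_embed hi).isClosed_range hb
  have h2 : IsCompact (univ : Set NNReal) := by
    rw [(arm_embed hi).toIsEmbedding.isCompact_iff, image_univ]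
    exact hc
  exact not_bddAbove_univ h2.bddAbove

/-- The whole spiral. -/
def W (n : ℕ) : Set E2 := {p | ∃ t N, t ≤ 4 ∧ (t = 4 → N < n) ∧ p ∈ HS n t N}

theorem arm_union {n : ℕ} (hn : 1 ≤ n) : W n = ⋃ i : Fin n, arm n i := by
  ext p
  simp only [mem_iUnion, arm_eq, W, mem_ofPred_eq]
  constructor
  · rintro ⟨t, N, ht, h4, hp⟩
    by_cases h : t = 4
    · subst h
      exact ⟨⟨N, h4 rfl⟩, 0, hp⟩
    · have ht' : t < 4 := by omega
      refine ⟨⟨N % n, Nat.mod_lt _ hn⟩, 4 * (N / n) + t + 1, ?_⟩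
      have e1 : typ (4 * (N / n) + t + 1) = t := by simp only [typ]; omega
      have e2 : lev n (N % n) (4 * (N / n) + t + 1) = N := by
        simp only [lev]
        have : (4 * (N/n) + t) / 4 = N / n := by omega
        rw [this]
        exact Nat.mod_add_div N n
      rw [e1, e2]
      exact hp
  · rintro ⟨i, k, hp⟩
    exact ⟨typ k, lev n i k, typ_le k, fun h => by rw [typ_eq4 h]; exact i.2, hp⟩

end Q230.Spiral
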