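import Mathlib

/-! Rigid facets of the Vietoris-Rips complexes of the hypercube. -/

namespace Pool.Agent.Q230.VRCube

open Finset

/-- the hypercube `Q_n` (with coordinates `true`, `false` instead of `1`, `-1`) -/
abbrev Cube (n : ℕ) := Fin n → Bool

/-- simplices of `VR(Q_n; r)` -/
def IsSimplex (n r : ℕ) (σ : Finset (Cube n)) : Prop :=
  σ.Nonempty ∧ ∀ x ∈ σ, ∀ y ∈ σ, hammingDist x y ≤ r

/-- facets: simplices that are maximal under inclusion -/
def IsFacet (n r : ℕ) (σ : Finset (Cube n)) : Prop :=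
  IsSimplex n r σ ∧ ∀ τ, IsSimplex n r τ → σ ⊆ τ → τ = σ

/-- rigid simplices: `max_{y ∈ σ} d(x, y) = r` for every `x ∈ σ` -/
def IsRigid (n r : ℕ) (σ : Finset (Cube n)) : Prop :=
  IsSimplex n r σ ∧ ∀ x ∈ σ, IsGreatest {d | ∃ y ∈ σ, d = hammingDist x y} r

/-- the set of the dimensions of the rigid facets -/
def dims (n r : ℕ) : Set ℕ := {k | ∃ σ : Finset (Cube n), IsFacet n r σ ∧ IsRigid n r σ ∧ k = σ.card - 1}

/-- `f(n; r)`: the number of the dimensions of the rigid facets -/
noncomputable def f (n r : ℕ) : ℕ := (dims n r).ncard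

/-! ## the gadget in `Q_6` -/

/-- the point of `Q_6` with binary code `k` -/
def pt (k : ℕ) : Cube 6 := fun i => k.testBit i

/-- the small rigid facet of `VR(Q_6; 4)` -/
def small : Finset (Cube 6) := ([0, 15, 22, 25, 37, 42, 51, 60].map pt).toFinset

/-- the large rigid facet of `VR(Q_6; 4)` -/
def large : Finset (Cube 6) :=
  ([0, 5, 10, 15, 17, 23, 24, 30, 34, 36, 43, 45, 51, 54, 57, 60].map pt).toFinset

set_option maxRecDepth 100000 in
lemma card_small : small.card = 8 := by decide +kernel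
set_option maxRecDepth 100000 in
lemma card_large : large.card = 16 := by decide +kernel

/-- the properties of a gadget set -/
def Good (T : Finset (Cube 6)) : Prop :=
  T.Nonempty ∧ (∀ x ∈ T, ∀ y ∈ T, hammingDist x y ≤ 4) ∧ (∀ x ∈ T, ∃ y ∈ T, hammingDist x y = 4) ∧
    ∀ z, z ∉ T → ∃ y ∈ T, 5 ≤ hammingDist z y

instance (T : Finset (Cube 6)) : Decidable (Good T) := by unfold Good; infer_instance

set_option maxRecDepth 100000 in
lemma good_small : Good small := by decide +kernel
set_option maxRecDepth 100000 in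
lemma good_large : Good large := by decide +kernel
set_option maxRecDepth 100000 in
lemma cross : ∀ x ∈ small, ∀ y ∈ large, hammingDist x y ≤ 5 := by decide +kernel

/-! ## Hamming distances of concatenations -/

variable {a e : ℕ}

/-- first part of a point of `Q_(a + 6 + e)` -/
def U (z : Cube (a + 6 + e)) : Cube a := fun i => z (Fin.castAdd e (Fin.castAdd 6 i))
/-- second part of a point of `Q_(a + 6 + e)` -/
def X (z : Cube (a + 6 + e)) : Cube 6 := fun i => z (Fin.castAdd e (Fin.natAdd a i))
/-- third part of a point of `Q_(a + 6 + e)` -/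
def V (z : Cube (a + 6 + e)) : Cube e := fun i => z (Fin.natAdd (a + 6) i)
/-- concatenation -/
def mk (u : Cube a) (x : Cube 6) (w : Cube e) : Cube (a + 6 + e) := Fin.append (Fin.append u x) w

@[simp] lemma U_mk (u : Cube a) (x : Cube 6) (w : Cube e) : U (mk u x w) = u := by
  funext i; simp [U, mk]
@[simp] lemma X_mk (u : Cube a) (x : Cube 6) (w : Cube e) : X (mk u x w) = x := by
  funext i; simp [X, mk]
@[simp] lemma V_mk (u : Cube a) (x : Cube 6) (w : Cube e) : V (mk u x w) = w := by
  funext i; simp [V, mk]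

lemma hd_sum {n : ℕ} (x y : Cube n) : hammingDist x y = ∑ i, if x i ≠ y i then 1 else 0 := by
  rw [hammingDist, Finset.card_filter]

lemma hd_split (z z' : Cube (a + 6 + e)) :
    hammingDist z z' = hammingDist (U z) (U z') + hammingDist (X z) (X z') +
      hammingDist (V z) (V z') := by
  rw [hd_sum z z', hd_sum (U z), hd_sum (X z), hd_sum (V z), Fin.sum_univ_add, Fin.sum_univ_add]
  rfl

lemma mk_parts (z : Cube (a + 6 + e)) : mk (U z) (X z) (V z) = z := by
  have : hammingDist (mk (U z) (X z) (V z)) z = 0 := by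
    rw [hd_split]; simp
  exact hammingDist_eq_zero.mp this

/-- the antipodal point -/
def bar {n : ℕ} (u : Cube n) : Cube n := fun i => !u i

lemma bar_bar {n : ℕ} (u : Cube n) : bar (bar u) = u := by funext i; simp [bar]

lemma hd_bar {n : ℕ} (u : Cube n) : hammingDist u (bar u) = n := by
  rw [hd_sum]; simp [bar]

lemma hd_le {n : ℕ} (u v : Cube n) : hammingDist u v ≤ n := by
  simpa using hammingDist_le_card_fintype (x := u) (y := v)

lemma eq_bar {n : ℕ} {u v : Cube n} (h : hammingDist u v = n) : v = bar u := by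
  have h1 : (Finset.univ.filter fun i => u i ≠ v i) = Finset.univ := by
    apply Finset.eq_univ_of_card
    rw [Fintype.card_fin]; exact h
  funext i
  have : i ∈ (Finset.univ.filter fun i => u i ≠ v i) := by rw [h1]; exact Finset.mem_univ i
  have h2 : u i ≠ v i := (Finset.mem_filter.mp this).2
  unfold bar
  cases hu : u i <;> cases hv : v i <;> simp_all

/-! ## the facets -/

/-- gadget chosen by a predicate -/
def Tof (P : Cube a → Prop) [DecidablePred P] (u : Cube a) : Finset (Cube 6) :=
  if P u then large else small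

/-- the simplex -/
def S (e : ℕ) (P : Cube a → Prop) [DecidablePred P] : Finset (Cube (a + 6 + e)) :=
  Finset.univ.filter fun z => V z = (fun _ => false) ∧ X z ∈ Tof P (U z)

variable {P : Cube a → Prop} [DecidablePred P]

lemma mem_S {z : Cube (a + 6 + e)} : z ∈ S e P ↔ V z = (fun _ => false) ∧ X z ∈ Tof P (U z) := by
  simp [S]

lemma good_T (u : Cube a) : Good (Tof P u) := by
  unfold Tof; split_ifs
  · exact good_large
  · exact good_small

lemma cross_T {u v : Cube a} {x y : Cube 6} (hx : x ∈ Tof P u) (hy : y ∈ Tof P v) :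
    hammingDist x y ≤ 5 := by
  unfold Tof at hx hy
  split_ifs at hx hy
  · exact (good_large.2.1 x hx y hy).trans (by norm_num)
  · rw [hammingDist_comm]; exact cross y hy x hx
  · exact cross x hx y hy
  · exact (good_small.2.1 x hx y hy).trans (by norm_num)

variable (hP : ∀ u, P (bar u) ↔ P u)
include hP

lemma T_bar (u : Cube a) : Tof P (bar u) = Tof P u := by
  unfold Tof
  by_cases h : P u
  · rw [if_pos h, if_pos ((hP u).mpr h)]
  · rw [if_neg h, if_neg (fun h' => h ((hP u).mp h'))]

lemma diam_S : ∀ z ∈ S e P, ∀ z' ∈ S e P, hammingDist z z' ≤ a + 4 := by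
  intro z hz z' hz'
  rw [mem_S] at hz hz'
  rw [hd_split, hz.1, hz'.1, hammingDist_self, add_zero]
  by_cases h : hammingDist (U z) (U z') = a
  · have hb := eq_bar h
    have h1 : X z' ∈ Tof P (U z) := by
      have := hz'.2
      rwa [hb, T_bar hP] at this
    have := (good_T (P := P) (U z)).2.1 _ hz.2 _ h1
    omega
  · have h1 := hd_le (U z) (U z')
    have h2 := cross_T hz.2 hz'.2
    omega

lemma S_nonempty : (S e P).Nonempty := by
  obtain ⟨x, hx⟩ := (good_T (P := P) (fun _ => false)).1
  exact ⟨mk (fun _ => false) x (fun _ => false), by rw [mem_S]; simpa using hx⟩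

lemma S_simplex : IsSimplex (a + 6 + e) (a + 4) (S e P) := ⟨S_nonempty hP, diam_S hP⟩

/-- for every point there is a point of `S` far away -/
lemma S_far {z : Cube (a + 6 + e)} (hz : z ∉ S e P) : ∃ z' ∈ S e P, a + 5 ≤ hammingDist z z' := by
  have hb : Tof P (bar (U z)) = Tof P (U z) := T_bar hP _
  by_cases hx : X z ∈ Tof P (U z)
  · have hV : V z ≠ fun _ => false := fun h => hz (mem_S.mpr ⟨h, hx⟩)
    obtain ⟨y, hy, hd⟩ := (good_T (P := P) (U z)).2.2.1 _ hx
    refine ⟨mk (bar (U z)) y (fun _ => false), by rw [mem_S]; simpa [hb] using hy, ?_⟩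
    rw [hd_split, U_mk, X_mk, V_mk, hd_bar, hd]
    have : 0 < hammingDist (V z) (fun _ => false) := hammingDist_pos.mpr hV
    omega
  · obtain ⟨y, hy, hd⟩ := (good_T (P := P) (U z)).2.2.2 _ hx
    refine ⟨mk (bar (U z)) y (fun _ => false), by rw [mem_S]; simpa [hb] using hy, ?_⟩
    rw [hd_split, U_mk, X_mk, V_mk, hd_bar]
    omega

lemma S_facet : IsFacet (a + 6 + e) (a + 4) (S e P) := by
  refine ⟨S_simplex hP, fun τ hτ hsub => ?_⟩
  apply Finset.Subset.antisymm _ hsub
  intro z hz
  by_contra hn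
  obtain ⟨z', hz', hd⟩ := S_far hP hn
  have := hτ.2 z hz z' (hsub hz')
  omega

lemma S_rigid : IsRigid (a + 6 + e) (a + 4) (S e P) := by
  refine ⟨S_simplex hP, fun z hz => ⟨?_, ?_⟩⟩
  · have hz' := mem_S.mp hz
    obtain ⟨y, hy, hd⟩ := (good_T (P := P) (U z)).2.2.1 _ hz'.2
    refine ⟨mk (bar (U z)) y (fun _ => false), ?_, ?_⟩
    · rw [mem_S]; simpa [T_bar hP] using hy
    · rw [hd_split, U_mk, X_mk, V_mk, hd_bar, hd, hz'.1, hammingDist_self]
  · rintro d ⟨y, hy, rfl⟩
    exact diam_S hP z hz y hy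

omit hP

lemma card_S : (S e P).card = 8 * 2 ^ a + 8 * (Finset.univ.filter P).card := by
  have h1 : S e P = (Finset.univ.sigma (Tof P)).image (fun p => mk p.1 p.2 (fun _ => false)) := by
    ext z
    rw [mem_S, Finset.mem_image]
    constructor
    · rintro ⟨hV, hX⟩
      refine ⟨⟨U z, X z⟩, by simpa using hX, ?_⟩
      rw [← hV]; exact mk_parts z
    · rintro ⟨⟨u, x⟩, hp, rfl⟩
      simpa using hp
  rw [h1, Finset.card_image_of_injective, Finset.card_sigma]
  · have : ∀ u, (Tof P u).card = 8 + if P u then 8 else 0 := by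
      intro u
      unfold Tof
      split_ifs
      · rw [card_large]
      · rw [card_small]
    simp only [this]
    rw [Finset.sum_add_distrib, ← Finset.sum_filter]
    simp
    ring
  · rintro ⟨u, x⟩ ⟨u', x'⟩ h
    have hU := congrArg U h
    have hX := congrArg X h
    simp at hU hX
    rw [hU, hX]

/-! ## many dimensions -/

/-- the class of a point modulo antipodality -/
def cl {b : ℕ} (u : Cube (b + 1)) : Cube b := fun i => xor (u 0) (u i.succ)

lemma cl_bar {b : ℕ} (u : Cube (b + 1)) : cl (bar u) = cl u := by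
  funext i
  unfold cl bar
  cases u 0 <;> cases u i.succ <;> rfl

lemma card_cl {b : ℕ} (W : Finset (Cube b)) :
    (Finset.univ.filter fun u : Cube (b + 1) => cl u ∈ W).card = 2 * W.card := by
  have h : (Finset.univ.filter fun u : Cube (b + 1) => cl u ∈ W) =
      ((Finset.univ : Finset Bool) ×ˢ W).image (fun p => (Fin.cons p.1 (fun i => xor p.1 (p.2 i)) :
        Cube (b + 1))) := by
    ext u
    simp only [Finset.mem_filter, Finset.mem_univ, true_and, Finset.mem_image, Finset.mem_product]
    constructor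
    · intro hu
      refine ⟨(u 0, cl u), hu, ?_⟩
      funext i
      refine Fin.cases ?_ (fun j => ?_) i
      · simp
      · simp only [Fin.cons_succ, cl]
        cases u 0 <;> cases u j.succ <;> rfl
    · rintro ⟨⟨t, w⟩, hw, rfl⟩
      have : cl (Fin.cons t (fun i => xor t (w i)) : Cube (b + 1)) = w := by
        funext i
        simp only [cl, Fin.cons_zero, Fin.cons_succ]
        cases t <;> cases w i <;> rfl
      rw [this]; exact hw
  rw [h, Finset.card_image_of_injective, Finset.card_product]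
  · simp
  · rintro ⟨t, w⟩ ⟨t', w'⟩ h
    have h0 : t = t' := by simpa using congrFun h 0
    subst h0
    have h1 : w = w' := by
      funext i
      have := congrFun h i.succ
      simp only [Fin.cons_succ] at this
      cases t <;> simpa using this
    rw [h1]

lemma mem_dims {b e i : ℕ} (hi : i ≤ 2 ^ b) :
    8 * 2 ^ (b + 1) + 16 * i - 1 ∈ dims (b + 1 + 6 + e) (b + 1 + 4) := by
  obtain ⟨W, -, hW⟩ := Finset.exists_subset_card_eq (s := (Finset.univ : Finset (Cube b)))
    (n := i) (by simpa using hi)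
  have hP : ∀ u : Cube (b + 1), cl (bar u) ∈ W ↔ cl u ∈ W := fun u => by rw [cl_bar]
  refine ⟨S e (fun u => cl u ∈ W), S_facet hP, S_rigid hP, ?_⟩
  rw [card_S, card_cl, hW]
  ring_nf

lemma dims_finite (n r : ℕ) : (dims n r).Finite := by
  refine (Set.finite_Iic (2 ^ n)).subset ?_
  rintro k ⟨σ, -, -, rfl⟩
  have : σ.card ≤ 2 ^ n := by
    have := Finset.card_le_univ σ
    simpa using this
  simp only [Set.mem_Iic]
  omega

theorem f_ge (b e : ℕ) : 2 ^ b + 1 ≤ f (b + 1 + 6 + e) (b + 1 + 4) := by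
  have hinj : Function.Injective (fun i : ℕ => 8 * 2 ^ (b + 1) + 16 * i - 1) := by
    intro i j h
    have : 0 < 2 ^ (b + 1) := by positivity
    simp only at h
    omega
  have h1 : ((fun i : ℕ => 8 * 2 ^ (b + 1) + 16 * i - 1) '' (Set.Iic (2 ^ b))) ⊆
      dims (b + 1 + 6 + e) (b + 1 + 4) := by
    rintro _ ⟨i, hi, rfl⟩
    exact mem_dims hi
  have h2 := Set.ncard_le_ncard h1 (dims_finite _ _)
  rw [Set.ncard_image_of_injective _ hinj] at h2
  have h3 : (Set.Iic (2 ^ b)).ncard = 2 ^ b + 1 := by
    rw [Set.ncard_eq_toFinset_card', Set.toFinset_Iic, Nat.card_Iic]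
  rw [h3] at h2
  exact h2

theorem main {r n : ℕ} (hr : 5 ≤ r) (hn : r + 2 ≤ n) : 2 ^ (r - 5) + 1 ≤ f n r := by
  obtain ⟨b, rfl⟩ := Nat.exists_eq_add_of_le hr
  obtain ⟨e, rfl⟩ := Nat.exists_eq_add_of_le hn
  have h := f_ge b e
  have e1 : b + 1 + 6 + e = 5 + b + 2 + e := by ring
  have e2 : b + 1 + 4 = 5 + b := by ring
  have e3 : 5 + b - 5 = b := by omega
  rw [e1, e2] at h
  rw [e3]
  exact h

end Pool.Agent.Q230.VRCube
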